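import Pool.Agent.helper90.LS.Basic

/-!
# Project LUS, Artin-Schreier part: definitions
-/

open MvPolynomial

namespace LS

open LU

universe u

section

variable (k : Type u) {F : Type u} [Field k] [Field F] [Algebra k F]

/-- Artin-Schreier normal form of `g`, all elements of `H` being monomial: up to `A ^ p - A`, the
element `g` is regular at the center of the chart or a monomial times a unit, with an exponent
prime to `p` and a pole. -/
def HasAS (p n : ℕ) (O : ValuationSubring F) (g : F) (H : Finset F) : Prop :=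
  ∃ (u : Fin n → F) (w : Fin 2 → F) (Φ : Fin 2 → MvPolynomial (Fin n ⊕ Fin 2) k),
    Chart k O u w Φ ∧
    (∀ h ∈ H, h ≠ 0 → ∃ (e : Fin n → ℤ) (ρ : F), h = mon u e * ρ ∧
      ULoc k O (Sum.elim u w) ρ) ∧
    ∃ A B : F, g = A ^ p - A + B ∧
      (LLoc k O (Sum.elim u w) B ∨ (NForm k O u w B ∧ 1 < O.valuation B))

end

section

variable {k : Type u} [Field k]

/-- no `p`-th power monomials with a pole (relative to the denominator `X 0 ^ (p * M)`) -/
def Red (p M : ℕ) (G : MvPolynomial (Fin 2) k) : Prop :=
  ∀ m ∈ G.support, p ∣ m 0 → p ∣ m 1 → p * M ≤ m 0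

end

variable {k : Type u} {F : Type u} [Field k] [Field F] [Algebra k F]

lemma HasAS.add {p n : ℕ} [Fact p.Prime] [CharP k p] {O : ValuationSubring F} {g g' A : F}
    {H : Finset F} (h : HasAS k p n O g' H) (hg : g = A ^ p - A + g') : HasAS k p n O g H := by
  obtain ⟨u, w, Φ, hc, hH, A', B, hA, hB⟩ := h
  have hF : CharP F p := charP_of_injective_algebraMap (algebraMap k F).injective p
  have hE : ExpChar F p := ExpChar.prime (Fact.out : p.Prime)
  refine ⟨u, w, Φ, hc, hH, A + A', B, ?_, hB⟩
  rw [hg, hA, add_pow_expChar]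
  ring

end LS
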