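import Pool.Agent.helper90.LS.NFK
import Pool.Agent.helper90.LS.ADefs

/-! # Project LUS: the normal form of a block, inside `K`, both types -/

open MvPolynomial

namespace LS

open LU LT

universe u

variable {k K : Type u} [Field k] [Field K] [Algebra k K]

/-- a chart of a block, inside `K` -/
structure CK (V : ValuationSubring K) (n : ℕ) (F : IntermediateField k K)
    (u : Fin n → K) (w : Fin 2 → K) (Φ : Fin 2 → MvPolynomial (Fin n ⊕ Fin 2) k)
    (G : Fin 2 → Fin 2 → K) : Prop where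
  uF : ∀ i, u i ∈ F
  wF : ∀ l, w l ∈ F
  gen : F ≤ IntermediateField.adjoin k (Set.range u ∪ Set.range w)
  u0 : ∀ i, u i ≠ 0
  uV : ∀ i, u i ∈ V
  wV : ∀ l, w l ∈ V
  rel : ∀ l, aeval (Sum.elim u w) (Φ l) = 0
  GV : ∀ l l', G l l' ∈ V
  G1 : ∀ l l', ∑ m, aeval (Sum.elim u w) (pderiv (Sum.inr m) (Φ l)) * G m l' =
    if l = l' then 1 else 0

lemma chart_toK {V : ValuationSubring K} (hV : ∀ c : k, algebraMap k K c ∈ V) {n : ℕ}
    {F : IntermediateField k K} {u : Fin n → F} {w : Fin 2 → F}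
    {Φ : Fin 2 → MvPolynomial (Fin n ⊕ Fin 2) k} (hc : Chart k (trc V F) u w Φ) :
    ∃ G, CK V n F (fun i => (u i : K)) (fun l => (w l : K)) Φ G := by
  have hO : ∀ c : k, algebraMap k F c ∈ trc V F := fun c => hV c
  have hev : ∀ f : MvPolynomial (Fin n ⊕ Fin 2) k, aeval (Sum.elim u w) f ∈ trc V F := by
    intro f
    apply aeval_mem hO
    rintro (i | l)
    · exact hc.uO i
    · exact hc.wO l
  let J : Matrix (Fin 2) (Fin 2) F :=
    Matrix.of fun l l' => aeval (Sum.elim u w) (pderiv (Sum.inr l') (Φ l))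
  obtain ⟨hG, hG1⟩ := inv_jac (O := trc V F) J (fun l l' => hev _) hc.jac
  let G : Fin 2 → Fin 2 → K := fun l l' => ((J⁻¹ l l' : F) : K)
  refine ⟨G, fun i => (u i).2, fun l => (w l).2, ?_, fun i h0 => hc.u0 i (Subtype.ext h0), hc.uO,
      hc.wO, ?_, hG, ?_⟩
  · have e1 : (IntermediateField.adjoin k (Set.range u ∪ Set.range w)).map F.val =
        IntermediateField.adjoin k (F.val '' (Set.range u ∪ Set.range w)) :=
      IntermediateField.adjoin_map _ _ _
    rw [hc.gen] at e1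
    have e2 : F.val '' (Set.range u ∪ Set.range w) =
        Set.range (fun i => (u i : K)) ∪ Set.range (fun l => (w l : K)) := by
      rw [Set.image_union, ← Set.range_comp, ← Set.range_comp]
      rfl
    rw [e2] at e1
    rw [← e1]
    intro x hx
    exact ⟨⟨x, hx⟩, trivial, rfl⟩
  · intro l
    rw [← coe_elim, hc.rel]
    rfl
  · intro l l'
    have h8 := congrArg (fun x : F => (x : K)) (hG1 l l')
    have h9 : ((∑ m, J l m * J⁻¹ m l' : F) : K) =
        ∑ m, aeval (Sum.elim (fun i => (u i : K)) (fun l => (w l : K)))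
          (pderiv (Sum.inr m) (Φ l)) * G m l' := by
      rw [IntermediateField.coe_sum]
      refine Finset.sum_congr rfl fun m _ => ?_
      rw [← coe_elim]
      rfl
    rw [← h9]
    refine h8.trans ?_
    split_ifs <;> rfl

lemma CK.ev {V : ValuationSubring K} (hV : ∀ c : k, algebraMap k K c ∈ V) {n : ℕ}
    {F : IntermediateField k K} {u : Fin n → K} {w : Fin 2 → K}
    {Φ : Fin 2 → MvPolynomial (Fin n ⊕ Fin 2) k} {G : Fin 2 → Fin 2 → K}
    (h : CK V n F u w Φ G) (f : MvPolynomial (Fin n ⊕ Fin 2) k) :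
    aeval (Sum.elim u w) f ∈ V := by
  apply aeval_mem hV
  rintro (i | l)
  · exact h.uV i
  · exact h.wV l

lemma CK.dir {V : ValuationSubring K} (hV : ∀ c : k, algebraMap k K c ∈ V) {n : ℕ}
    {F : IntermediateField k K} {u : Fin n → K} {w : Fin 2 → K}
    {Φ : Fin 2 → MvPolynomial (Fin n ⊕ Fin 2) k} {G : Fin 2 → Fin 2 → K}
    (h : CK V n F u w Φ G) (pv : Fin n) {N D : MvPolynomial (Fin n ⊕ Fin 2) k}
    (hpv : (u pv)⁻¹ ∉ V ∨ (N = 1 ∧ D = 1)) :
    V.valuation (ddw u w pv (dl u w Φ G pv) N * aeval (Sum.elim u w) D -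
      aeval (Sum.elim u w) N * ddw u w pv (dl u w Φ G pv) D) < 1 := by
  rcases hpv with h8 | ⟨rfl, rfl⟩
  · obtain ⟨x, hx, hx'⟩ := ddw_eq hV h.uV h.wV Φ h.GV pv N
    obtain ⟨y, hy, hy'⟩ := ddw_eq hV h.uV h.wV Φ h.GV pv D
    have h9 : V.valuation (u pv) < 1 := by
      by_contra hlt
      apply h8
      have h10 : V.valuation (u pv)⁻¹ ≤ 1 := by
        rw [map_inv₀]
        exact inv_le_one_of_one_le₀ (not_lt.1 hlt)
      exact (V.valuation_le_one_iff _).1 h10
    have h11 : ddw u w pv (dl u w Φ G pv) N * aeval (Sum.elim u w) D -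
        aeval (Sum.elim u w) N * ddw u w pv (dl u w Φ G pv) D =
        u pv * (x * aeval (Sum.elim u w) D - aeval (Sum.elim u w) N * y) := by
      rw [hx', hy']
      ring
    rw [h11, map_mul]
    refine mul_lt_one_of_lt_of_le h9 ((V.valuation_le_one_iff _).2 ?_)
    exact sub_mem (mul_mem hx (h.ev hV D)) (mul_mem (h.ev hV N) hy)
  · rw [ddw_one, zero_mul, mul_zero, sub_zero, map_zero]
    exact zero_lt_one

/-- normal form of an element `g` of a block `F` of `K`, of `p`-th root type (`P`) or of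
Artin-Schreier type (`¬ P`) -/
structure BK (P : Prop) (V : ValuationSubring K) (p n : ℕ) (F : IntermediateField k K) (g : F)
    (u : Fin n → K) (w : Fin 2 → K) (Φ : Fin 2 → MvPolynomial (Fin n ⊕ Fin 2) k)
    (G : Fin 2 → Fin 2 → K) (A B : F) (e : Fin n → ℤ) (N D : MvPolynomial (Fin n ⊕ Fin 2) k)
    (ε : k) (pv : Fin n) : Prop where
  ck : CK V n F u w Φ G
  hg1 : P → g = A ^ p + algebraMap k F ε * B
  hg2 : ¬ P → g = A ^ p - A + B
  hB : (B : K) = mon u e * (aeval (Sum.elim u w) N / aeval (Sum.elim u w) D)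
  hN0 : ε ≠ 0 → aeval (Sum.elim u w) N ≠ 0
  hNV : ε ≠ 0 → (aeval (Sum.elim u w) N)⁻¹ ∈ V
  hD0 : aeval (Sum.elim u w) D ≠ 0
  hDV : (aeval (Sum.elim u w) D)⁻¹ ∈ V
  he : ε = 0 → e = 0
  piv : ε ≠ 0 → (e pv : k) ≠ 0
  tr : P → ε ≠ 0 → Transcendental k B
  big : ¬ P → ε ≠ 0 → 1 < V.valuation (B : K)
  dir : ε ≠ 0 → V.valuation (ddw u w pv (dl u w Φ G pv) N * aeval (Sum.elim u w) D -
    aeval (Sum.elim u w) N * ddw u w pv (dl u w Φ G pv) D) < 1

lemma mon_of_chart {V : ValuationSubring K} {n : ℕ} {F : IntermediateField k K} {H : Finset F}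
    {u : Fin n → F} {w : Fin 2 → F}
    (hH : ∀ h ∈ H, h ≠ 0 → ∃ (e : Fin n → ℤ) (ρ : F), h = mon u e * ρ ∧
      ULoc k (trc V F) (Sum.elim u w) ρ) :
    ∀ x ∈ H, x ≠ 0 → ∃ (E : Fin n → ℤ) (N' D' : MvPolynomial (Fin n ⊕ Fin 2) k),
        MonK V (fun i => (u i : K)) (fun l => (w l : K)) (x : K) E N' D' := by
  intro x hx hx0
  obtain ⟨e, ρ, h1, N, D, h2, h3, rfl⟩ := hH x hx hx0
  exact ⟨e, N, D, monK_of h2 h3 h1⟩

theorem bk_root (p : ℕ) [Fact p.Prime] [CharP k p] [IsAlgClosed k] {V : ValuationSubring K}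
    (hV : ∀ c : k, algebraMap k K c ∈ V) {n : ℕ} (hn : 0 < n) (F : IntermediateField k K) (g : F)
    (H : Finset F) (h : HasNF k p n (trc V F) g H) {P : Prop} (hP : P) :
    ∃ (u : Fin n → K) (w : Fin 2 → K) (Φ : Fin 2 → MvPolynomial (Fin n ⊕ Fin 2) k)
      (G : Fin 2 → Fin 2 → K) (A B : F) (e : Fin n → ℤ) (N D : MvPolynomial (Fin n ⊕ Fin 2) k)
      (ε : k) (pv : Fin n), BK P V p n F g u w Φ G A B e N D ε pv ∧
      ∀ x ∈ H, x ≠ 0 → ∃ (E : Fin n → ℤ) (N' D' : MvPolynomial (Fin n ⊕ Fin 2) k),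
        MonK V u w (x : K) E N' D' := by
  obtain ⟨u, w, Φ, hc, hH, A, B, hg, hB⟩ := h
  have hp : p.Prime := Fact.out
  obtain ⟨G, hCK⟩ := chart_toK hV hc
  have hMon := mon_of_chart (V := V) hH
  have hzero : ∀ A' : F, g = A' ^ p →
      BK P V p n F g (fun i => (u i : K)) (fun l => (w l : K)) Φ G A' 1 0 1 1 0 ⟨0, hn⟩ := by
    intro A' hA
    refine ⟨hCK, fun _ => ?_, fun h => absurd hP h, ?_, fun h => absurd rfl h,
      fun h => absurd rfl h, by simp, by simp, fun _ => rfl, fun h => absurd rfl h,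
      fun _ h => absurd rfl h, fun _ h => absurd rfl h, fun h => absurd rfl h⟩
    · rw [hA, map_zero, zero_mul, add_zero]
    · rw [map_one, div_one, mul_one]
      simp [mon]
  rcases hB with rfl | ⟨e, ρ, hBe, ⟨N, D, hN, hD, hρ⟩, i, hi, hdir⟩
  · exact ⟨_, _, Φ, G, A, 1, 0, 1, 1, 0, ⟨0, hn⟩, hzero A (by rw [hg, add_zero]), hMon⟩
  · by_cases hBt : Transcendental k B
    · rcases hdir with hdir | hdir
      · have hm := monK_of hN hD (by rw [hBe, hρ] : B = _)
        refine ⟨_, _, Φ, G, A, B, e, N, D, 1, i, ⟨hCK, fun _ => ?_, fun h => absurd hP h, hm.1,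
          fun _ => hm.2.1, fun _ => hm.2.2.1, hm.2.2.2.1, hm.2.2.2.2, fun h => absurd h one_ne_zero,
          fun _ => hi, fun _ _ => hBt, fun h => absurd hP h,
          fun _ => hCK.dir hV i (Or.inl hdir)⟩, hMon⟩
        rw [map_one, one_mul, hg]
      · have hm := monK_of (V := V) (F := F) (u := u) (w := w) (e := e)
          (N := 1) (D := 1) (by simp) (by simp)
          (by rw [hBe, hdir, map_one, div_one] : B = _)
        refine ⟨_, _, Φ, G, A, B, e, 1, 1, 1, i, ⟨hCK, fun _ => ?_, fun h => absurd hP h, hm.1,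
          fun _ => hm.2.1, fun _ => hm.2.2.1, hm.2.2.2.1, hm.2.2.2.2, fun h => absurd h one_ne_zero,
          fun _ => hi, fun _ _ => hBt, fun h => absurd hP h,
          fun _ => hCK.dir hV i (Or.inr ⟨rfl, rfl⟩)⟩, hMon⟩
        rw [map_one, one_mul, hg]
    · have halg : IsAlgebraic k B := by
        by_contra hne
        exact hBt hne
      have hmem : B ∈ (algebraMap k F).range :=
        minpoly.mem_range_of_degree_eq_one k B
          (IsAlgClosed.degree_eq_one_of_irreducible k (minpoly.irreducible halg.isIntegral))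
      obtain ⟨c, hcB⟩ := hmem
      obtain ⟨c', hc'⟩ := IsAlgClosed.exists_pow_nat_eq c hp.pos
      have : CharP F p := charP_of_injective_algebraMap (algebraMap k F).injective p
      refine ⟨_, _, Φ, G, A + algebraMap k F c', 1, 0, 1, 1, 0, ⟨0, hn⟩, hzero _ ?_, hMon⟩
      rw [add_pow_char, ← map_pow, hc', hcB, hg]

theorem bk_as (p : ℕ) {V : ValuationSubring K}
    (hV : ∀ c : k, algebraMap k K c ∈ V) {n : ℕ} (hn : 0 < n) (F : IntermediateField k K) (g : F)
    (H : Finset F) (h : HasAS k p n (trc V F) g H) {P : Prop} (hP : ¬ P) :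
    ∃ (u : Fin n → K) (w : Fin 2 → K) (Φ : Fin 2 → MvPolynomial (Fin n ⊕ Fin 2) k)
      (G : Fin 2 → Fin 2 → K) (A B : F) (e : Fin n → ℤ) (N D : MvPolynomial (Fin n ⊕ Fin 2) k)
      (ε : k) (pv : Fin n), BK P V p n F g u w Φ G A B e N D ε pv ∧
      ∀ x ∈ H, x ≠ 0 → ∃ (E : Fin n → ℤ) (N' D' : MvPolynomial (Fin n ⊕ Fin 2) k),
        MonK V u w (x : K) E N' D' := by
  obtain ⟨u, w, Φ, hc, hH, A, B, hg, hB⟩ := h
  obtain ⟨G, hCK⟩ := chart_toK hV hc
  have hMon := mon_of_chart (V := V) hH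
  rcases hB with ⟨N, D, hD, hBN⟩ | ⟨⟨e, ρ, hBe, ⟨N, D, hN, hD, hρ⟩, i, hi, hdir⟩, hbig⟩
  · obtain ⟨h3, h4⟩ := inv_mem_of_val hD
    rw [coe_elim] at h3 h4
    refine ⟨_, _, Φ, G, A, B, 0, N, D, 0, ⟨0, hn⟩, ⟨hCK, fun h => absurd h hP, fun _ => hg, ?_,
      fun h => absurd rfl h, fun h => absurd rfl h, h3, h4, fun _ => rfl, fun h => absurd rfl h,
      fun _ h => absurd rfl h, fun _ h => absurd rfl h, fun h => absurd rfl h⟩, hMon⟩
    rw [← coe_elim, ← coe_elim, hBN]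
    simp [mon]
  · have hbig' : 1 < V.valuation (B : K) := by
      by_contra hle
      have h1 : (B : K) ∈ V := (V.valuation_le_one_iff _).1 (not_lt.1 hle)
      have h2 : (trc V F).valuation B ≤ 1 := ((trc V F).valuation_le_one_iff _).2 h1
      exact absurd hbig (not_lt.2 h2)
    rcases hdir with hdir | hdir
    · have hm := monK_of hN hD (by rw [hBe, hρ] : B = _)
      exact ⟨_, _, Φ, G, A, B, e, N, D, 1, i, ⟨hCK, fun h => absurd h hP, fun _ => hg, hm.1,
        fun _ => hm.2.1, fun _ => hm.2.2.1, hm.2.2.2.1, hm.2.2.2.2, fun h => absurd h one_ne_zero,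
        fun _ => hi, fun h => absurd h hP, fun _ _ => hbig',
        fun _ => hCK.dir hV i (Or.inl hdir)⟩, hMon⟩
    · have hm := monK_of (V := V) (F := F) (u := u) (w := w) (e := e)
        (N := 1) (D := 1) (by simp) (by simp)
        (by rw [hBe, hdir, map_one, div_one] : B = _)
      exact ⟨_, _, Φ, G, A, B, e, 1, 1, 1, i, ⟨hCK, fun h => absurd h hP, fun _ => hg, hm.1,
        fun _ => hm.2.1, fun _ => hm.2.2.1, hm.2.2.2.1, hm.2.2.2.2, fun h => absurd h one_ne_zero,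
        fun _ => hi, fun h => absurd h hP, fun _ _ => hbig',
        fun _ => hCK.dir hV i (Or.inr ⟨rfl, rfl⟩)⟩, hMon⟩

end LS
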