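import Pool.Agent.helper90.LS.HDat

/-!
# Project LUS: glueing charts of blocks
-/

open MvPolynomial

namespace LS

open LU

universe u

section

variable {k K : Type u} [Field k] [Field K] [Algebra k K] {r : ℕ} {n : Fin r → ℕ}

/-- inclusion of the variables of a block -/
def emb (n : Fin r → ℕ) (b : Fin r) :
    Fin (n b) ⊕ Fin 2 → (Σ b, Fin (n b)) ⊕ (Fin r × Fin 2) :=
  Sum.map (fun i => ⟨b, i⟩) (fun l => (b, l))

lemma emb_inj (b : Fin r) : Function.Injective (emb n b) := by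
  unfold emb
  apply Sum.map_injective.2
  refine ⟨?_, ?_⟩
  · intro i j h
    simpa using h
  · intro i j h
    simpa using h

variable (u : ∀ b, Fin (n b) → K) (w : Fin r → Fin 2 → K)
  (Φ : ∀ b, Fin 2 → MvPolynomial (Fin (n b) ⊕ Fin 2) k) (G : Fin r → Fin 2 → Fin 2 → K)

/-- parameters of all blocks -/
def gu : (Σ b, Fin (n b)) → K := fun x => u x.1 x.2

/-- coordinates of all blocks -/
def gw : Fin r × Fin 2 → K := fun x => w x.1 x.2

noncomputable def gΦ : Fin r × Fin 2 → MvPolynomial ((Σ b, Fin (n b)) ⊕ (Fin r × Fin 2)) k :=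
  fun x => rename (emb n x.1) (Φ x.1 x.2)

def gG : Fin r × Fin 2 → Fin r × Fin 2 → K := fun x y => if x.1 = y.1 then G x.1 x.2 y.2 else 0

lemma aeval_emb (b : Fin r) (q : MvPolynomial (Fin (n b) ⊕ Fin 2) k) :
    aeval (Sum.elim (gu u) (gw w)) (rename (emb n b) q) = aeval (Sum.elim (u b) (w b)) q := by
  rw [aeval_rename]
  congr 1
  congr 1
  funext x
  rcases x with i | l <;> rfl

lemma pd_same (b : Fin r) (y : Fin (n b) ⊕ Fin 2) (q : MvPolynomial (Fin (n b) ⊕ Fin 2) k) :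
    pderiv (emb n b y) (rename (emb n b) q) = rename (emb n b) (pderiv y q) := by
  rw [pderiv_rename (emb_inj b)]

lemma pd_ne {σ τ : Type*} (f : σ → τ) (y : τ) (hy : ∀ x, f x ≠ y) (q : MvPolynomial σ k) :
    pderiv y (rename f q) = 0 := by
  classical
  induction q using MvPolynomial.induction_on with
  | C c => simp
  | add p q hp hq => rw [map_add, map_add, hp, hq, add_zero]
  | mul_X p i hp =>
    rw [map_mul, rename_X, Derivation.leibniz, hp, pderiv_X_of_ne (hy i)]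
    simp

lemma pd_inl_ne {b b' : Fin r} (h : b' ≠ b) (i : Fin (n b)) (q : MvPolynomial (Fin (n b') ⊕ Fin 2) k) :
    pderiv (Sum.inl ⟨b, i⟩) (rename (emb n b') q) = 0 := by
  refine pd_ne _ _ ?_ q
  rintro (i' | l) h'
  · simp only [emb, Sum.map_inl, Sum.inl.injEq, Sigma.mk.injEq] at h'
    exact h h'.1
  · simp [emb] at h'

lemma pd_inr_ne {b b' : Fin r} (h : b' ≠ b) (l : Fin 2) (q : MvPolynomial (Fin (n b') ⊕ Fin 2) k) :
    pderiv (Sum.inr (b, l)) (rename (emb n b') q) = 0 := by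
  refine pd_ne _ _ ?_ q
  rintro (i' | l') h'
  · simp [emb] at h'
  · simp only [emb, Sum.map_inr, Sum.inr.injEq, Prod.mk.injEq] at h'
    exact h h'.1

lemma rel_glue (h : ∀ b l, aeval (Sum.elim (u b) (w b)) (Φ b l) = 0) (x : Fin r × Fin 2) :
    aeval (Sum.elim (gu u) (gw w)) (gΦ Φ x) = 0 := by
  rw [gΦ, aeval_emb]
  exact h _ _

lemma G1_glue (h : ∀ b l l', ∑ m, aeval (Sum.elim (u b) (w b)) (pderiv (Sum.inr m) (Φ b l)) *
    G b m l' = if l = l' then 1 else 0) (x y : Fin r × Fin 2) :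
    ∑ m, aeval (Sum.elim (gu u) (gw w)) (pderiv (Sum.inr m) (gΦ Φ x)) * gG G m y =
      if x = y then 1 else 0 := by
  obtain ⟨b, l⟩ := x
  obtain ⟨b', l'⟩ := y
  rw [Fintype.sum_prod_type, Finset.sum_eq_single b]
  · have h1 : ∀ m, aeval (Sum.elim (gu u) (gw w)) (pderiv (Sum.inr (b, m)) (gΦ Φ (b, l))) =
        aeval (Sum.elim (u b) (w b)) (pderiv (Sum.inr m) (Φ b l)) := by
      intro m
      have h2 := pd_same (n := n) b (Sum.inr m) (Φ b l)
      change pderiv (Sum.inr (b, m)) (rename (emb n b) (Φ b l)) = _ at h2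
      rw [gΦ, h2, aeval_emb]
    simp only [h1]
    by_cases hb : b = b'
    · subst hb
      simp only [gG, if_true]
      rw [h b l l']
      simp
    · simp only [gG, if_neg hb, mul_zero, Finset.sum_const_zero]
      rw [if_neg (by simp [hb])]
  · intro c _ hc
    refine Finset.sum_eq_zero fun m _ => ?_
    rw [gΦ, pd_inr_ne hc.symm, map_zero, zero_mul]
  · simp

lemma dl_glue (b : Fin r) (i : Fin (n b)) (x : Fin r × Fin 2) :
    dl (gu u) (gw w) (gΦ Φ) (gG G) ⟨b, i⟩ x =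
      if x.1 = b then dl (u b) (w b) (Φ b) (G b) i x.2 else 0 := by
  obtain ⟨c, m⟩ := x
  unfold dl
  have h1 : ∑ y : Fin r × Fin 2, gG G (c, m) y * aeval (Sum.elim (gu u) (gw w))
      (pderiv (Sum.inl ⟨b, i⟩) (gΦ Φ y)) =
      if c = b then ∑ l, G b m l * aeval (Sum.elim (u b) (w b)) (pderiv (Sum.inl i) (Φ b l))
        else 0 := by
    rw [Fintype.sum_prod_type, Finset.sum_eq_single b]
    · by_cases hc : c = b
      · subst hc
        rw [if_pos rfl]
        refine Finset.sum_congr rfl fun l _ => ?_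
        have h2 := pd_same (n := n) c (Sum.inl i) (Φ c l)
        change pderiv (Sum.inl ⟨c, i⟩) (rename (emb n c) (Φ c l)) = _ at h2
        rw [gΦ, h2, aeval_emb]
        simp [gG]
      · rw [if_neg hc]
        refine Finset.sum_eq_zero fun l _ => ?_
        simp [gG, hc]
    · intro c' _ hc'
      refine Finset.sum_eq_zero fun l _ => ?_
      rw [gΦ, pd_inl_ne hc', map_zero, mul_zero]
    · simp
  rw [h1]
  by_cases hc : c = b
  · subst hc
    simp [gu]
  · simp [hc]

lemma ddw_same (b : Fin r) (i : Fin (n b)) (q : MvPolynomial (Fin (n b) ⊕ Fin 2) k) :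
    ddw (gu u) (gw w) ⟨b, i⟩ (dl (gu u) (gw w) (gΦ Φ) (gG G) ⟨b, i⟩) (rename (emb n b) q) =
      ddw (u b) (w b) i (dl (u b) (w b) (Φ b) (G b) i) q := by
  unfold ddw
  have h2 := pd_same (n := n) b (Sum.inl i) q
  change pderiv (Sum.inl ⟨b, i⟩) (rename (emb n b) q) = _ at h2
  rw [h2, aeval_emb, Fintype.sum_prod_type, Finset.sum_eq_single b]
  · congr 1
    refine Finset.sum_congr rfl fun m _ => ?_
    have h3 := pd_same (n := n) b (Sum.inr m) q
    change pderiv (Sum.inr (b, m)) (rename (emb n b) q) = _ at h3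
    rw [h3, aeval_emb, dl_glue, if_pos rfl]
  · intro c _ hc
    refine Finset.sum_eq_zero fun m _ => ?_
    rw [pd_inr_ne hc.symm, map_zero, mul_zero]
  · simp

lemma ddw_ne {b b' : Fin r} (h : b' ≠ b) (i : Fin (n b)) (q : MvPolynomial (Fin (n b') ⊕ Fin 2) k) :
    ddw (gu u) (gw w) ⟨b, i⟩ (dl (gu u) (gw w) (gΦ Φ) (gG G) ⟨b, i⟩) (rename (emb n b') q) = 0 := by
  unfold ddw
  rw [pd_inl_ne h, map_zero, mul_zero, zero_add, Fintype.sum_prod_type]
  refine Finset.sum_eq_zero fun c _ => Finset.sum_eq_zero fun m _ => ?_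
  rw [dl_glue]
  by_cases hc : c = b
  · subst hc
    rw [pd_inr_ne h, map_zero, mul_zero]
  · rw [if_neg hc, zero_mul]

/-- a monomial in the parameters of one block -/
def ge (b : Fin r) (e : Fin (n b) → ℤ) : (Σ b, Fin (n b)) → ℤ := fun x =>
  if h : b = x.1 then e (h ▸ x.2) else 0

lemma ge_same (b : Fin r) (e : Fin (n b) → ℤ) (i : Fin (n b)) : ge b e ⟨b, i⟩ = e i := by
  simp [ge]

lemma ge_ne {b b' : Fin r} (h : b ≠ b') (e : Fin (n b) → ℤ) (i : Fin (n b')) :
    ge b e ⟨b', i⟩ = 0 := by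
  simp [ge, h]

lemma mon_ge (b : Fin r) (e : Fin (n b) → ℤ) : mon (gu u) (ge b e) = mon (u b) e := by
  unfold mon
  rw [Fintype.prod_sigma, Finset.prod_eq_single b]
  · refine Finset.prod_congr rfl fun i _ => ?_
    rw [ge_same]
    rfl
  · intro c _ hc
    refine Finset.prod_eq_one fun i _ => ?_
    rw [ge_ne hc.symm, zpow_zero]
  · simp

lemma mon_all (e : ∀ b, Fin (n b) → ℤ) : mon (gu u) (fun x => e x.1 x.2) = ∏ b, mon (u b) (e b) := by
  unfold mon
  rw [Fintype.prod_sigma]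
  rfl

end

end LS
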