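import Pool.Agent.helper90.LS.ADat
import Pool.Agent.helper90.LS.Glue
import Pool.Agent.helper90.LS.AFK
import Pool.Agent.helper90.LS.ABlockInd
import Pool.Agent.helper90.LU.Ech

/-!
# Project LUS: local uniformization over independent blocks with normal forms of both types
-/

open Matrix

namespace LS

open LU LT LG LP

universe u

section coef

variable {k K : Type u} [Field k] [Field K] [Algebra k K] {r : ℕ}

lemma coef_span (g : Fin r → K) (I : Fin r → Prop) {x : K}
    (hx : x ∈ Submodule.span k (insert 1 (g '' {i | I i}))) :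
    ∃ (c : k) (a : Fin r → k), (∀ i, ¬ I i → a i = 0) ∧
      x = algebraMap k K c + ∑ i, algebraMap k K (a i) * g i := by
  classical
  induction hx using Submodule.span_induction with
  | mem x h =>
    rcases h with rfl | ⟨i, hi, rfl⟩
    · exact ⟨1, 0, fun _ _ => rfl, by simp⟩
    · refine ⟨0, Pi.single i 1, ?_, ?_⟩
      · intro j hj
        rw [Pi.single_eq_of_ne]
        rintro rfl
        exact hj hi
      · rw [Finset.sum_eq_single i]
        · simp
        · intro b _ hb
          rw [Pi.single_eq_of_ne hb, map_zero, zero_mul]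
        · simp
  | zero => exact ⟨0, 0, fun _ _ => rfl, by simp⟩
  | add x y _ _ hx hy =>
    obtain ⟨c, a, h1, h2⟩ := hx
    obtain ⟨c', a', h1', h2'⟩ := hy
    refine ⟨c + c', a + a', fun i hi => by rw [Pi.add_apply, h1 i hi, h1' i hi, add_zero], ?_⟩
    rw [h2, h2', map_add]
    simp only [Pi.add_apply, map_add, add_mul, Finset.sum_add_distrib]
    ring
  | smul s x _ hx =>
    obtain ⟨c, a, h1, h2⟩ := hx
    refine ⟨s * c, fun i => s * a i, fun i hi => by simp only [h1 i hi, mul_zero], ?_⟩
    rw [h2, Algebra.smul_def, mul_add, Finset.mul_sum, map_mul]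
    congr 1
    refine Finset.sum_congr rfl fun i _ => ?_
    rw [map_mul, mul_assoc]

lemma coef_closure (p : ℕ) [Fact p.Prime] [CharP K p] (g : Fin r → K) (I : Fin r → Prop) {x : K}
    (hx : x ∈ AddSubgroup.closure (Set.range (algebraMap k K) ∪ g '' {i | ¬ I i})) :
    ∃ (c : k) (a : Fin r → ZMod p), (∀ i, I i → a i = 0) ∧
      x = algebraMap k K c + ∑ i, zK p (a i) * g i := by
  classical
  induction hx using AddSubgroup.closure_induction with
  | mem x h =>
    rcases h with ⟨c, rfl⟩ | ⟨i, hi, rfl⟩
    · exact ⟨c, 0, fun _ _ => rfl, by simp⟩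
    · refine ⟨0, Pi.single i 1, ?_, ?_⟩
      · intro j hj
        rw [Pi.single_eq_of_ne]
        rintro rfl
        exact hi hj
      · rw [Finset.sum_eq_single i]
        · simp
        · intro b _ hb
          rw [Pi.single_eq_of_ne hb, map_zero, zero_mul]
        · simp
  | zero => exact ⟨0, 0, fun _ _ => rfl, by simp⟩
  | add x y _ _ hx hy =>
    obtain ⟨c, a, h1, h2⟩ := hx
    obtain ⟨c', a', h1', h2'⟩ := hy
    refine ⟨c + c', a + a', fun i hi => by rw [Pi.add_apply, h1 i hi, h1' i hi, add_zero], ?_⟩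
    rw [h2, h2', map_add]
    simp only [Pi.add_apply, map_add, add_mul, Finset.sum_add_distrib]
    ring
  | neg x _ hx =>
    obtain ⟨c, a, h1, h2⟩ := hx
    refine ⟨-c, fun i => -a i, fun i hi => by simp only [h1 i hi, neg_zero], ?_⟩
    rw [h2, map_neg]
    simp only [map_neg, neg_mul, Finset.sum_neg_distrib]
    ring

lemma as_root [IsAlgClosed k] {p : ℕ} (hp : 2 ≤ p) (c : k) : ∃ d : k, d ^ p - d = c := by
  have hdeg : (Polynomial.X ^ p - (Polynomial.X + Polynomial.C c) : Polynomial k).degree ≠ 0 := by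
    have h1 : (Polynomial.X ^ p - (Polynomial.X + Polynomial.C c) : Polynomial k).degree = p := by
      rw [Polynomial.degree_sub_eq_left_of_degree_lt, Polynomial.degree_X_pow]
      rw [Polynomial.degree_X_pow, Polynomial.degree_X_add_C]
      exact_mod_cast (by omega : 1 < p)
    rw [h1]
    exact_mod_cast (by omega : p ≠ 0)
  obtain ⟨d, hd⟩ := IsAlgClosed.exists_root _ hdeg
  refine ⟨d, ?_⟩
  simp only [Polynomial.IsRoot, Polynomial.eval_sub, Polynomial.eval_pow, Polynomial.eval_X,
    Polynomial.eval_add, Polynomial.eval_C] at hd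
  linear_combination hd

end coef

theorem mix_blocks {k K : Type u} [Field k] [IsAlgClosed k] [Field K] [Algebra k K] (p : ℕ)
    [hp : Fact p.Prime] [CharP k p] {r S T L : ℕ} (F : Fin r → IntermediateField k K)
    (nb : Fin r → ℕ) (hnb : ∀ b, 0 < nb b)
    (htr : ∀ b, Algebra.trdeg k (F b) = (nb b : Cardinal.{u})) (I : Fin r → Prop)
    (hNF : ∀ b (V : ValuationSubring K), I b → (∀ c : k, algebraMap k K c ∈ V) →
      ∀ (g : F b) (H : Finset (F b)), HasNF k p (nb b) (trc V (F b)) g H)
    (hAS : ∀ b (V : ValuationSubring K), ¬ I b → (∀ c : k, algebraMap k K c ∈ V) →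
      ∀ (g : F b) (H : Finset (F b)), HasAS k p (nb b) (trc V (F b)) g H)
    (g : ∀ b, F b) (y : Fin S → K)
    (hy : ∀ s, y s ^ p ∈ Submodule.span k (insert 1 ((fun i => (g i : K)) '' {i | I i})))
    (t : Fin T → K)
    (ht : ∀ s, t s ^ p - t s ∈ AddSubgroup.closure
      (Set.range (algebraMap k K) ∪ (fun i => (g i : K)) '' {i | ¬ I i}))
    (ζ : Fin L → K) (mζ : Fin L → ℕ) (hζ : ∀ l, ζ l ≠ 0) (hmζ : ∀ l, (mζ l : k) ≠ 0)
    (hk : ∀ l, ∃ h : ∀ i, F i, ζ l ^ mζ l = ∏ i, (h i : K))
    (hgen : (⨆ i, F i) ⊔ IntermediateField.adjoin k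
      (Set.range y ∪ Set.range t ∪ Set.range ζ) = ⊤)
    (hn : Algebra.trdeg k K = ((∑ b, nb b : ℕ) : Cardinal.{u})) (V : ValuationSubring K)
    (hV : ∀ c : k, algebraMap k K c ∈ V) : Uniformizable k V := by
  classical
  have hp0 : p ≠ 0 := hp.out.ne_zero
  have hp2 : 2 ≤ p := hp.out.two_le
  have hCK : CharP K p := charP_of_injective_algebraMap (algebraMap k K).injective p
  have hEK : ExpChar K p := ExpChar.prime hp.out
  have hroot : ∀ c : k, ∃ d, d ^ p = c := root_of_perfect (k := k) p
  choose rt hrt using hroot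
  choose ar har using fun c : k => as_root (k := k) hp2 c
  choose h hh using hk
  -- the charts
  have hdat : ∀ b, ∃ (u : Fin (nb b) → K) (w : Fin 2 → K)
      (Φ : Fin 2 → MvPolynomial (Fin (nb b) ⊕ Fin 2) k)
      (G : Fin 2 → Fin 2 → K) (A B : F b) (e : Fin (nb b) → ℤ)
      (N D : MvPolynomial (Fin (nb b) ⊕ Fin 2) k)
      (ε : k) (pv : Fin (nb b)), BK (I b) V p (nb b) (F b) (g b) u w Φ G A B e N D ε pv ∧
      ∀ x ∈ Finset.univ.image (fun l => h l b), x ≠ 0 → ∃ (E : Fin (nb b) → ℤ)
        (N' D' : MvPolynomial (Fin (nb b) ⊕ Fin 2) k), MonK V u w (x : K) E N' D' := by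
    intro b
    by_cases hI : I b
    · exact bk_root p hV (hnb b) (F b) (g b) _ (hNF b V hI hV (g b) _) hI
    · exact bk_as p hV (hnb b) (F b) (g b) _ (hAS b V hI hV (g b) _) hI
  choose u w Φ G A B e N' D ε pv hT hmon using hdat
  have hhne : ∀ l b, h l b ≠ 0 := by
    intro l b h0
    have h1 : ∏ i, (h l i : K) ≠ 0 := by
      rw [← hh l]
      exact pow_ne_zero _ (hζ l)
    rw [Finset.prod_ne_zero_iff] at h1
    apply h1 b (Finset.mem_univ _)
    rw [h0]
    rfl
  choose E N2 D2 hE using fun l b => hmon b (h l b)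
    (Finset.mem_image.2 ⟨l, Finset.mem_univ _, rfl⟩) (hhne l b)
  -- coefficients
  let κ := algebraMap k K
  let zk : ZMod p →+* k := zK p
  have hzk : ∀ c, algebraMap k K (zk c) = zK p c := by
    intro c
    have : (algebraMap k K).comp (zK p : ZMod p →+* k) = zK p := Subsingleton.elim _ _
    exact congrArg (fun f => f c) this
  choose c a ha0 hca using fun s => coef_span (fun i => (g i : K)) I (hy s)
  choose d b hb0 hdb using fun s => coef_closure (k := k) p (fun i => (g i : K)) I (ht s)
  -- independence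
  have hF : ∀ i, F i ≤ ⨆ i, F i := le_iSup F
  have hgF : ∀ i, (g i : K) ∈ ⨆ i, F i := fun i => hF i (g i).2
  have hzF : ∀ c : ZMod p, (zK p c : K) ∈ ⨆ i, F i := fun c => by
    rw [← hzk]
    exact (⨆ i, F i).algebraMap_mem _
  have hZ : ∀ x ∈ Set.range y ∪ Set.range t ∪ Set.range ζ, ∃ f : Polynomial k,
      f.natDegree ≠ 0 ∧ Polynomial.aeval x f ∈ ⨆ i, F i := by
    rintro _ ((⟨s, rfl⟩ | ⟨s, rfl⟩) | ⟨l, rfl⟩)
    · refine ⟨Polynomial.X ^ p, by rw [Polynomial.natDegree_X_pow]; exact hp0, ?_⟩
      rw [map_pow, Polynomial.aeval_X, hca]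
      exact add_mem ((⨆ i, F i).algebraMap_mem _) (sum_mem fun i _ =>
        mul_mem ((⨆ i, F i).algebraMap_mem _) (hgF i))
    · refine ⟨Polynomial.X ^ p - Polynomial.X, ?_, ?_⟩
      · rw [Polynomial.natDegree_sub_eq_left_of_natDegree_lt]
        · rw [Polynomial.natDegree_X_pow]; exact hp0
        · rw [Polynomial.natDegree_X_pow, Polynomial.natDegree_X]; omega
      · rw [map_sub, map_pow, Polynomial.aeval_X, hdb]
        exact add_mem ((⨆ i, F i).algebraMap_mem _) (sum_mem fun i _ =>
          mul_mem (hzF _) (hgF i))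
    · refine ⟨Polynomial.X ^ mζ l, ?_, ?_⟩
      · rw [Polynomial.natDegree_X_pow]
        intro h0
        exact hmζ l (by rw [h0]; simp)
      · rw [map_pow, Polynomial.aeval_X, hh]
        exact prod_mem fun i _ => hF i (h l i).2
  have hindB := indep_blocks' F nb htr hZ hgen hn B
    (Finset.univ.filter fun b => I b ∧ ε b ≠ 0)
    (fun b hb => (hT b).tr (Finset.mem_filter.1 hb).2.1 (Finset.mem_filter.1 hb).2.2)
  -- normalized p-th roots
  let y' : Fin S → K := fun s => y s - κ (rt (c s)) - ∑ i, κ (rt (a s i)) * (A i : K)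
  let α : Matrix (Fin S) (Fin r) k := fun s i => a s i * ε i
  have hgK : ∀ i, I i → (g i : K) = (A i : K) ^ p + κ (ε i) * (B i : K) := by
    intro i hi
    have := congrArg (Subtype.val : F i → K) ((hT i).hg1 hi)
    exact this
  have hgA : ∀ i, ¬ I i → (g i : K) = (A i : K) ^ p - (A i : K) + (B i : K) := by
    intro i hi
    have := congrArg (Subtype.val : F i → K) ((hT i).hg2 hi)
    exact this
  have hy' : ∀ s, y' s ^ p = ∑ i, κ (α s i) * (B i : K) := by
    intro s
    simp only [y']
    rw [sub_pow_expChar, sub_pow_expChar, ← map_pow, hrt, sum_pow_char, hca]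
    have h2 : ∀ i, κ (α s i) * (B i : K) = κ (a s i) * (g i : K) - κ (a s i) * (A i : K) ^ p := by
      intro i
      simp only [α]
      by_cases hi : I i
      · rw [hgK i hi, map_mul]
        ring
      · rw [ha0 s i hi, zero_mul, map_zero]
        ring
    simp only [h2, Finset.sum_sub_distrib]
    have h3 : ∀ i, (κ (rt (a s i)) * (A i : K)) ^ p = κ (a s i) * (A i : K) ^ p := fun i => by
      rw [mul_pow, ← map_pow, hrt]
    simp only [h3]
    ring
  have hyy : ∀ s, y s = y' s + κ (rt (c s)) + ∑ i, κ (rt (a s i)) * (A i : K) := by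
    intro s
    simp only [y']
    ring
  have hα0 : ∀ s i, (¬ I i ∨ ε i = 0) → α s i = 0 := by
    rintro s i (hi | hi)
    · simp only [α, ha0 s i hi, zero_mul]
    · simp only [α, hi, mul_zero]
  clear_value α y'
  -- normalized Artin-Schreier elements
  let t' : Fin T → K := fun s => t s - κ (ar (d s)) - ∑ i, zK p (b s i) * (A i : K)
  have ht' : ∀ s, t' s ^ p - t' s = ∑ i, zK p (b s i) * (B i : K) := by
    intro s
    simp only [t']
    rw [sub_pow_expChar, sub_pow_expChar, ← map_pow, sum_pow_char]
    have h1 := hdb s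
    have h2 : κ (ar (d s) ^ p) - κ (ar (d s)) = κ (d s) := by rw [← map_sub, har]
    have h3 : ∀ i, (zK p (b s i) * (A i : K)) ^ p = zK p (b s i) * (A i : K) ^ p := fun i => by
      rw [mul_pow, zK_pow]
    have h4 : ∀ i, zK p (b s i) * (B i : K) = zK p (b s i) * (g i : K) -
        zK p (b s i) * (A i : K) ^ p + zK p (b s i) * (A i : K) := by
      intro i
      by_cases hi : I i
      · rw [hb0 s i hi, map_zero]
        ring
      · rw [hgA i hi]
        ring
    simp only [h3, h4, Finset.sum_sub_distrib, Finset.sum_add_distrib]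
    linear_combination h1 - h2
  have htt : ∀ s, t s = t' s + κ (ar (d s)) + ∑ i, zK p (b s i) * (A i : K) := by
    intro s
    simp only [t']
    ring
  clear_value t'
  -- echelon forms
  have hmax : ∀ T : Finset (Fin r), T.Nonempty → ∃ i ∈ T, ∀ i' ∈ T,
      V.valuation (mon (u i') (e i')) ≤ V.valuation (mon (u i) (e i)) := by
    intro T hT
    obtain ⟨i, hi, him⟩ := Finset.exists_max_image T (fun i => V.valuation (mon (u i) (e i))) hT
    exact ⟨i, hi, fun i' hi' => him i' hi'⟩
  obtain ⟨P, Q, W, π, hQP, hπ, hW⟩ := ech_gen α (fun i i' =>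
    V.valuation (mon (u i) (e i)) ≤ V.valuation (mon (u i') (e i'))) hmax
  let β : Matrix (Fin T) (Fin r) (ZMod p) := fun s i => if ε i = 0 then 0 else b s i
  obtain ⟨P2, Q2, W2, π2, hQP2, hπ2, hW2⟩ := ech_gen β (fun i i' =>
    V.valuation (mon (u i) (e i)) ≤ V.valuation (mon (u i') (e i'))) hmax
  have hPα : ∀ l i, (¬ I i ∨ ε i = 0) → (P * α) l i = 0 := by
    intro l i hi
    rw [Matrix.mul_apply]
    exact Finset.sum_eq_zero fun s _ => by rw [hα0 s i hi, mul_zero]
  have hβ0 : ∀ s i, (I i ∨ ε i = 0) → β s i = 0 := by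
    rintro s i (hi | hi)
    · simp only [β, hb0 s i hi, ite_self]
    · simp only [β, if_pos hi]
  have hPβ : ∀ l i, (I i ∨ ε i = 0) → (P2 * β) l i = 0 := by
    intro l i hi
    rw [Matrix.mul_apply]
    exact Finset.sum_eq_zero fun s _ => by rw [hβ0 s i hi, mul_zero]
  have hIπ : ∀ j, I (π j) ∧ ε (π j) ≠ 0 := by
    intro j
    by_contra hcon
    rw [not_and_or, not_not] at hcon
    exact (hπ j).1 (hPα _ _ hcon)
  have hIπ2 : ∀ j, ¬ I (π2 j) ∧ ε (π2 j) ≠ 0 := by
    intro j
    by_contra hcon
    rw [not_and_or, not_not, not_not] at hcon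
    exact (hπ2 j).1 (hPβ _ _ hcon)
  let η : Fin S → K := fun l => ∑ s, κ (rt (P l s)) * y' s
  have hη : ∀ l, η l ^ p = ∑ i, κ ((P * α) l i) * (B i : K) := by
    intro l
    simp only [η]
    rw [sum_pow_char]
    simp only [mul_pow, hy', Finset.mul_sum]
    rw [Finset.sum_comm]
    refine Finset.sum_congr rfl fun i _ => ?_
    rw [Matrix.mul_apply, map_sum, Finset.sum_mul]
    refine Finset.sum_congr rfl fun s _ => ?_
    rw [← map_pow, hrt, map_mul, mul_assoc]
  have hηW : ∀ l ∉ W, η l = 0 := by
    intro l hl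
    have h1 := hη l
    simp only [hW l hl, map_zero, zero_mul, Finset.sum_const_zero] at h1
    exact pow_eq_zero_iff hp0 |>.1 h1
  have hηne : ∀ l : {l // l ∈ W}, η l ≠ 0 := by
    intro l h0
    have h1 := hη l
    rw [h0, zero_pow hp0] at h1
    have h2 := hindB.linearIndependent
    rw [Fintype.linearIndependent_iff] at h2
    have h3 := h2 (fun i => (P * α) l i) (by
      rw [h1, ← Finset.sum_filter_add_sum_filter_not Finset.univ (fun b => I b ∧ ε b ≠ 0)]
      have h4 : ∑ i ∈ Finset.univ.filter (fun b => ¬ (I b ∧ ε b ≠ 0)),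
          κ ((P * α) l i) * (B i : K) = 0 := by
        refine Finset.sum_eq_zero fun i hi => ?_
        have h5 := (Finset.mem_filter.1 hi).2
        rw [not_and_or, not_not] at h5
        rw [hPα _ _ h5, map_zero, zero_mul]
      rw [h4, add_zero, ← Finset.sum_coe_sort (Finset.univ.filter fun b => I b ∧ ε b ≠ 0)]
      refine Finset.sum_congr rfl fun i _ => ?_
      rw [Algebra.smul_def])
    exact (hπ l).1 (h3 ⟨π l, Finset.mem_filter.2 ⟨Finset.mem_univ _, hIπ l⟩⟩)
  have hback : ∀ s, y' s = ∑ l, κ (rt (Q s l)) * η l := by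
    intro s
    have h1 : y' s ^ p = (∑ l, κ (rt (Q s l)) * η l) ^ p := by
      rw [sum_pow_char]
      simp only [mul_pow, hη, hy']
      have : ∀ l, κ (rt (Q s l)) ^ p = κ (Q s l) := fun l => by rw [← map_pow, hrt]
      simp only [this, Finset.mul_sum]
      rw [Finset.sum_comm]
      refine Finset.sum_congr rfl fun i _ => ?_
      have h2 : α s i = ∑ l, Q s l * (P * α) l i := by
        have h3 : (Q * (P * α)) s i = α s i := by rw [← Matrix.mul_assoc, hQP, Matrix.one_mul]
        rw [← h3, Matrix.mul_apply]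
      rw [h2, map_sum, Finset.sum_mul]
      refine Finset.sum_congr rfl fun l _ => ?_
      rw [map_mul, mul_assoc]
    exact frobenius_inj K p h1
  clear_value η
  let τ : Fin T → K := fun l => ∑ s, zK p (P2 l s) * t' s
  let δ : Fin T → Fin r → ZMod p := fun l i =>
    if ε i = 0 then ∑ s, P2 l s * b s i else 0
  have hτ : ∀ l, τ l ^ p - τ l = ∑ i, zK p ((P2 * β) l i) * (B i : K) +
      ∑ i, zK p (δ l i) * (B i : K) := by
    intro l
    simp only [τ]
    rw [sum_pow_char, ← Finset.sum_sub_distrib, ← Finset.sum_add_distrib]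
    have h1 : ∀ s, (zK p (P2 l s) * t' s) ^ p - zK p (P2 l s) * t' s =
        ∑ i, zK p (P2 l s * b s i) * (B i : K) := by
      intro s
      rw [mul_pow, zK_pow, ← mul_sub, ht', Finset.mul_sum]
      refine Finset.sum_congr rfl fun i _ => ?_
      rw [map_mul, mul_assoc]
    rw [Finset.sum_congr rfl fun s _ => h1 s, Finset.sum_comm]
    refine Finset.sum_congr rfl fun i _ => ?_
    rw [← Finset.sum_mul, ← map_sum, ← add_mul, ← map_add]
    congr 2
    rw [Matrix.mul_apply]
    simp only [δ, β]
    by_cases hi : ε i = 0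
    · simp only [if_pos hi, mul_zero, Finset.sum_const_zero, zero_add]
    · simp only [if_neg hi, add_zero]
  have hback2 : ∀ s, t' s = ∑ l, zK p (Q2 s l) * τ l := by
    intro s
    simp only [τ, Finset.mul_sum]
    rw [Finset.sum_comm]
    have h1 : ∀ s', ∑ l, zK p (Q2 s l) * (zK p (P2 l s') * t' s') =
        zK p ((Q2 * P2) s s') * t' s' := by
      intro s'
      rw [Matrix.mul_apply, map_sum, Finset.sum_mul]
      refine Finset.sum_congr rfl fun l _ => ?_
      rw [map_mul, mul_assoc]
    rw [Finset.sum_congr rfl fun s' _ => h1 s', hQP2, Finset.sum_eq_single s]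
    · rw [Matrix.one_apply_eq, map_one, one_mul]
    · intro s' _ hs'
      rw [Matrix.one_apply_ne (Ne.symm hs'), map_zero, zero_mul]
    · simp
  have hδI : ∀ l i, δ l i ≠ 0 → ε i = 0 := by
    intro l i hne
    by_contra hε
    apply hne
    simp only [δ, if_neg hε]
  clear_value τ
  -- values of the blocks
  have hmo : ∀ b, (B b : K) = mon (gu u) (ge b (e b)) *
      (MvPolynomial.aeval (Sum.elim (gu u) (gw w)) (MvPolynomial.rename (emb nb b) (N' b)) /
      MvPolynomial.aeval (Sum.elim (gu u) (gw w)) (MvPolynomial.rename (emb nb b) (D b))) := by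
    intro b
    rw [mon_ge, aeval_emb, aeval_emb]
    exact (hT b).hB
  have hreg : ∀ b, ε b = 0 → (B b : K) =
      MvPolynomial.aeval (Sum.elim (gu u) (gw w)) (MvPolynomial.rename (emb nb b) (N' b)) /
      MvPolynomial.aeval (Sum.elim (gu u) (gw w)) (MvPolynomial.rename (emb nb b) (D b)) := by
    intro b hb
    have h1 := hmo b
    rw [mon_ge, (hT b).he hb] at h1
    rwa [mon_zero', one_mul] at h1
  have hregV : ∀ b, ε b = 0 → (B b : K) ∈ V := by
    intro b hb
    rw [hreg b hb, aeval_emb, aeval_emb, div_eq_mul_inv]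
    exact mul_mem ((hT b).ck.ev hV _) (hT b).hDV
  have hbig : ∀ b, ¬ I b → ε b ≠ 0 → 1 ≤ V.valuation (mon (u b) (e b)) := by
    intro b hb hε
    have h1 := ((hT b).big hb hε).le
    have h2 : V.valuation (MvPolynomial.aeval (Sum.elim (u b) (w b)) (N' b) /
        MvPolynomial.aeval (Sum.elim (u b) (w b)) (D b)) ≤ 1 := by
      rw [V.valuation_le_one_iff, div_eq_mul_inv]
      exact mul_mem ((hT b).ck.ev hV _) (hT b).hDV
    rw [(hT b).hB, map_mul] at h1
    calc (1 : V.ValueGroup) ≤ _ := h1
      _ ≤ V.valuation (mon (u b) (e b)) * 1 := by gcongr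
      _ = _ := mul_one _
  -- shifts
  have hτV : ∀ l ∉ W2, τ l ∈ V := by
    intro l hl
    have h1 := hτ l
    simp only [hW2 l hl, map_zero, zero_mul, Finset.sum_const_zero, zero_add] at h1
    have h2 : τ l ^ p - τ l ∈ V := by
      rw [h1]
      refine sum_mem fun i _ => ?_
      by_cases hi : ε i = 0
      · refine mul_mem ?_ (hregV i hi)
        rw [← hzk]
        exact hV _
      · simp only [δ, if_neg hi, map_zero, zero_mul]
        exact zero_mem V
    by_contra hn
    have h3 : 1 < V.valuation (τ l) := by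
      by_contra hle
      exact hn ((V.valuation_le_one_iff _).1 (not_lt.1 hle))
    have h4 : V.valuation (τ l) < V.valuation (τ l ^ p) := by
      rw [map_pow]
      calc V.valuation (τ l) = V.valuation (τ l) ^ 1 := (pow_one _).symm
        _ < _ := pow_lt_pow_right₀ h3 (by omega)
    have h5 := (V.valuation_le_one_iff _).2 h2
    rw [V.valuation.map_sub_eq_of_lt_left h4, map_pow] at h5
    exact absurd (one_lt_pow₀ h3 hp0) (not_lt.2 h5)
  have hshift : ∀ l, ∃ n : ZMod p, (l ∈ W2 → τ l - zK p n ≠ 0) ∧
      (l ∉ W2 → V.valuation (τ l - zK p n) = 1) := by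
    intro l
    by_cases hl : l ∈ W2
    · by_cases h0 : τ l = 0
      · refine ⟨1, fun _ => ?_, fun h => absurd hl h⟩
        rw [h0, map_one, zero_sub]
        exact neg_ne_zero.2 one_ne_zero
      · exact ⟨0, fun _ => by rwa [map_zero, sub_zero], fun h => absurd hl h⟩
    · have h1 := (V.valuation_le_one_iff _).2 (hτV l hl)
      rcases lt_or_eq_of_le h1 with h2 | h2
      · refine ⟨1, fun h => absurd h hl, fun _ => ?_⟩
        rw [map_one, V.valuation.map_sub_eq_of_lt_right (by rw [map_one]; exact h2), map_one]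
      · exact ⟨0, fun h => absurd h hl, fun _ => by rw [map_zero, sub_zero, h2]⟩
  choose sh hsh1 hsh2 using hshift
  let σ : Fin T → K := fun l => τ l - zK p (sh l)
  have hσ : ∀ l, σ l ^ p - σ l = ∑ i, zK p ((P2 * β) l i) * (B i : K) +
      ∑ i, zK p (δ l i) * (B i : K) := by
    intro l
    rw [← hτ l]
    simp only [σ]
    rw [sub_pow_expChar, zK_pow]
    ring
  have hτσ : ∀ l, τ l = σ l + zK p (sh l) := by
    intro l
    simp only [σ]
    ring
  have hσ1 : ∀ l ∈ W2, σ l ≠ 0 := hsh1
  have hσ2 : ∀ l, l ∉ W2 → V.valuation (σ l) = 1 := hsh2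
  clear_value σ
  have hσ20 : ∀ l, l ∉ W2 → σ l ≠ 0 := by
    intro l hl h0
    have := hσ2 l hl
    rw [h0, map_zero] at this
    exact zero_ne_one this
  have hinj : Function.Injective zk := zk.injective
  let s : ADat (k := k) V p (Σ b, Fin (nb b)) (Fin r × Fin 2) (Fin r)
      ({l // l ∈ W} ⊕ {l // l ∈ W2}) {l // l ∉ W2} (Fin L) :=
    { u := gu u
      w := gw w
      Φ := gΦ Φ
      G := gG G
      e := fun b => ge b (e b)
      N := fun b => if ε b = 0 then 1 else MvPolynomial.rename (emb nb b) (N' b)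
      D := fun b => MvPolynomial.rename (emb nb b) (D b)
      NR := fun b => MvPolynomial.rename (emb nb b) (N' b)
      DR := fun b => MvPolynomial.rename (emb nb b) (D b)
      η := Sum.elim (fun l => η l) (fun l => σ l)
      γ := Sum.elim (fun _ => 0) (fun _ => 1)
      a := Sum.elim (fun l b => (P * α) l b) (fun l b => zk ((P2 * β) l b))
      c := Sum.elim (fun _ _ => 0) (fun l b => zk (δ l b))
      π := Sum.elim π π2
      pv := fun j => ⟨Sum.elim π π2 j, pv (Sum.elim π π2 j)⟩
      θ := fun l => σ l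
      cc := fun l b => zk (δ l b)
      ζ := ζ
      m := mζ
      E := fun l x => E l x.1 x.2
      N2 := fun l => ∏ b, MvPolynomial.rename (emb nb b) (N2 l b)
      D2 := fun l => ∏ b, MvPolynomial.rename (emb nb b) (D2 l b)
      hu0 := fun x => (hT x.1).ck.u0 x.2
      huV := fun x => (hT x.1).ck.uV x.2
      hwV := fun x => (hT x.1).ck.wV x.2
      hΦ := rel_glue u w Φ fun b => (hT b).ck.rel
      hGV := by
        rintro ⟨b, l⟩ ⟨b', l'⟩
        unfold gG
        split_ifs
        · exact (hT b).ck.GV _ _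
        · exact zero_mem _
      hG1 := G1_glue u w Φ G fun b => (hT b).ck.G1
      hη := by
        rintro (l | l)
        · exact hηne l
        · exact hσ1 l l.2
      hθ0 := fun l => hσ20 l l.2
      hθV := fun l => by
        rw [← V.valuation_le_one_iff, hσ2 l l.2]
      hθI := fun l => by
        rw [← V.valuation_le_one_iff, map_inv₀, hσ2 l l.2, inv_one]
      hζ := hζ
      hm := hmζ
      hN0 := fun b => by
        by_cases hb : ε b = 0
        · rw [if_pos hb, map_one]
          exact one_ne_zero
        · rw [if_neg hb, aeval_emb]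
          exact (hT b).hN0 hb
      hNV := fun b => by
        by_cases hb : ε b = 0
        · rw [if_pos hb, map_one, inv_one]
          exact one_mem V
        · rw [if_neg hb, aeval_emb]
          exact (hT b).hNV hb
      hD0 := fun b => by rw [aeval_emb]; exact (hT b).hD0
      hDV := fun b => by rw [aeval_emb]; exact (hT b).hDV
      hDR0 := fun b => by rw [aeval_emb]; exact (hT b).hD0
      hDRV := fun b => by rw [aeval_emb]; exact (hT b).hDV
      hN20 := fun l => by
        rw [map_prod, Finset.prod_ne_zero_iff]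
        intro b _
        rw [aeval_emb]
        exact (hE l b).2.1
      hN2V := fun l => by
        rw [map_prod, ← Finset.prod_inv_distrib]
        refine prod_mem fun b _ => ?_
        rw [aeval_emb]
        exact (hE l b).2.2.1
      hD20 := fun l => by
        rw [map_prod, Finset.prod_ne_zero_iff]
        intro b _
        rw [aeval_emb]
        exact (hE l b).2.2.2.1
      hD2V := fun l => by
        rw [map_prod, ← Finset.prod_inv_distrib]
        refine prod_mem fun b _ => ?_
        rw [aeval_emb]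
        exact (hE l b).2.2.2.2
      relA := by
        rintro (l | l)
        · simp only [Sum.elim_inl, map_zero, zero_mul, sub_zero, Finset.sum_const_zero, add_zero]
          rw [hη l]
          refine Finset.sum_congr rfl fun i _ => ?_
          by_cases hi : ε i = 0
          · rw [hPα _ _ (Or.inr hi), map_zero, zero_mul, zero_mul]
          · rw [if_neg hi, ← hmo i]
        · simp only [Sum.elim_inr, map_one, one_mul, hzk]
          rw [hσ l]
          congr 1
          · refine Finset.sum_congr rfl fun i _ => ?_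
            by_cases hi : ε i = 0
            · rw [hPβ _ _ (Or.inr hi), map_zero, zero_mul, zero_mul]
            · rw [if_neg hi, ← hmo i]
          · refine Finset.sum_congr rfl fun i _ => ?_
            by_cases hi : ε i = 0
            · rw [← hreg i hi]
            · simp only [δ, if_neg hi, map_zero, zero_mul]
      relC := by
        intro l
        have h1 := hσ l
        simp only [hW2 l l.2, map_zero, zero_mul, Finset.sum_const_zero, zero_add] at h1
        simp only [hzk]
        rw [h1]
        refine Finset.sum_congr rfl fun i _ => ?_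
        by_cases hi : ε i = 0
        · rw [← hreg i hi]
        · simp only [δ, if_neg hi, map_zero, zero_mul]
      relB := by
        intro l
        rw [hh l, mon_all u (E l), map_prod, map_prod, ← Finset.prod_div_distrib,
          ← Finset.prod_mul_distrib]
        refine Finset.prod_congr rfl fun b _ => ?_
        rw [aeval_emb, aeval_emb]
        exact (hE l b).1
      ha1 := by
        rintro (l | l)
        · exact (hπ l).1
        · change zk ((P2 * β) l (π2 l)) ≠ 0
          rw [Ne, map_eq_zero]
          exact (hπ2 l).1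
      ha2 := by
        rintro (l | l) (l' | l') hne
        · exact (hπ l).2.1 l' (fun h' => hne (by rw [Subtype.ext h']))
        · change zk ((P2 * β) l' (π l)) = 0
          rw [hPβ _ _ (Or.inl (hIπ l).1), map_zero]
        · exact hPα _ _ (Or.inl (hIπ2 l).1)
        · change zk ((P2 * β) l' (π2 l)) = 0
          rw [(hπ2 l).2.1 l' (fun h' => hne (by rw [Subtype.ext h'])), map_zero]
      ha3 := by
        rintro (l | l) i h
        · rw [mon_ge, mon_ge]
          exact (hπ l).2.2 i h
        · rw [mon_ge, mon_ge]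
          refine (hπ2 l).2.2 i ?_
          intro h0
          apply h
          change zk ((P2 * β) l i) = 0
          rw [h0, map_zero]
      hc1 := by
        rintro (l | l) h
        · exact absurd rfl h
        · rw [mon_ge]
          exact hbig _ (hIπ2 l).1 (hIπ2 l).2
      hc2 := by
        rintro (l | l) i h
        · exact absurd rfl h
        · rw [mon_ge]
          exact hbig _ (hIπ2 l).1 (hIπ2 l).2
      he1 := by
        rintro (l | l)
        · rw [ge_same]
          exact (hT (π l)).piv (hIπ l).2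
        · rw [ge_same]
          exact (hT (π2 l)).piv (hIπ2 l).2
      he2 := fun l b hb => ge_ne hb _ _
      hdir := by
        intro l b
        have hε : ε (Sum.elim π π2 l) ≠ 0 := by
          rcases l with l | l
          · exact (hIπ l).2
          · exact (hIπ2 l).2
        by_cases hb : b = Sum.elim π π2 l
        · subst hb
          rw [if_neg hε, ddw_same, ddw_same, aeval_emb, aeval_emb]
          exact (hT _).dir hε
        · have h0 : ddw (gu u) (gw w) ⟨Sum.elim π π2 l, pv (Sum.elim π π2 l)⟩
              (dl (gu u) (gw w) (gΦ Φ) (gG G) ⟨Sum.elim π π2 l, pv (Sum.elim π π2 l)⟩)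
              (if ε b = 0 then 1 else MvPolynomial.rename (emb nb b) (N' b)) = 0 := by
            split_ifs
            · exact SDat.ddw_one _ _ _ _
            · exact ddw_ne u w Φ G hb _ _
          rw [h0, ddw_ne u w Φ G hb, zero_mul, mul_zero, sub_zero, map_zero]
          exact zero_lt_one
      hdirR := by
        intro l l' b hc
        have hε : ε (Sum.elim π π2 l) ≠ 0 := by
          rcases l with l | l
          · exact (hIπ l).2
          · exact (hIπ2 l).2
        have hεb : ε b = 0 := by
          rcases l' with l' | l'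
          · exact absurd rfl hc
          · refine hδI l' b ?_
            intro h0
            apply hc
            change zk (δ l' b) = 0
            rw [h0, map_zero]
        have hb : b ≠ Sum.elim π π2 l := by
          rintro rfl
          exact hε hεb
        rw [ddw_ne u w Φ G hb, ddw_ne u w Φ G hb, zero_mul, mul_zero, sub_zero, map_zero]
        exact zero_lt_one }
  refine s.uniformizable hV hp2 ?_ ?_
  · rw [hn]
    congr 1
    rw [Fintype.card_sigma]
    simp
  · set M := IntermediateField.adjoin k (Set.range s.u ∪ Set.range s.w ∪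
      (Set.range s.η ∪ Set.range s.θ ∪ Set.range s.ζ)) with hM
    have hu : ∀ b i, u b i ∈ M := fun b i =>
      IntermediateField.subset_adjoin _ _ (Or.inl (Or.inl ⟨⟨b, i⟩, rfl⟩))
    have hw : ∀ b i, w b i ∈ M := fun b i =>
      IntermediateField.subset_adjoin _ _ (Or.inl (Or.inr ⟨(b, i), rfl⟩))
    have hxx : ∀ l, s.η l ∈ M := fun l =>
      IntermediateField.subset_adjoin _ _ (Or.inr (Or.inl (Or.inl ⟨l, rfl⟩)))
    have hθM : ∀ l, s.θ l ∈ M := fun l =>
      IntermediateField.subset_adjoin _ _ (Or.inr (Or.inl (Or.inr ⟨l, rfl⟩)))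
    have hζM : ∀ l, ζ l ∈ M := fun l =>
      IntermediateField.subset_adjoin _ _ (Or.inr (Or.inr ⟨l, rfl⟩))
    have hzM : ∀ c : ZMod p, (zK p c : K) ∈ M := fun c => by
      rw [← hzk]
      exact M.algebraMap_mem _
    have hFM : ∀ b, F b ≤ M := by
      intro b
      refine (hT b).ck.gen.trans ?_
      rw [IntermediateField.adjoin_le_iff]
      rintro _ (⟨i, rfl⟩ | ⟨i, rfl⟩)
      · exact hu b i
      · exact hw b i
    have hηM : ∀ l, η l ∈ M := by
      intro l
      by_cases hl : l ∈ W
      · exact hxx (Sum.inl ⟨l, hl⟩)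
      · rw [hηW l hl]
        exact zero_mem M
    have hτM : ∀ l, τ l ∈ M := by
      intro l
      rw [hτσ]
      refine add_mem ?_ (hzM _)
      by_cases hl : l ∈ W2
      · exact hxx (Sum.inr ⟨l, hl⟩)
      · exact hθM ⟨l, hl⟩
    rw [eq_top_iff, ← hgen]
    refine sup_le (iSup_le hFM) ?_
    rw [IntermediateField.adjoin_le_iff]
    rintro _ ((⟨s, rfl⟩ | ⟨s, rfl⟩) | ⟨l, rfl⟩)
    · rw [hyy s]
      refine add_mem (add_mem ?_ (M.algebraMap_mem _)) ?_
      · rw [hback s]
        exact sum_mem fun l _ => mul_mem (M.algebraMap_mem _) (hηM l)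
      · exact sum_mem fun i _ => mul_mem (M.algebraMap_mem _) (hFM i (A i).2)
    · rw [htt s]
      refine add_mem (add_mem ?_ (M.algebraMap_mem _)) ?_
      · rw [hback2 s]
        exact sum_mem fun l _ => mul_mem (hzM _) (hτM l)
      · exact sum_mem fun i _ => mul_mem (hzM _) (hFM i (A i).2)
    · exact hζM l

end LS
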