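import Pool.Agent.helper90.LS.ADefs

/-! # LUS-ACaseA: the trivial valuation, Artin-Schreier version -/

open MvPolynomial

namespace LS

open LU

universe u

variable {k : Type u} {F : Type u} [Field k] [IsAlgClosed k] [Field F] [Algebra k F]

omit [IsAlgClosed k] in
theorem ACaseA_nf {O : ValuationSubring F}
    {x y : F} (hgen : IntermediateField.adjoin k {x, y} = ⊤)
    (hc : ∀ h : MvPolynomial (Fin 2) k, h ≠ 0 → O.valuation (aeval ![x, y] h) = 1)
    (H : Finset F) (u : Fin 2 → F) :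
    ∀ h ∈ H, h ≠ 0 → ∃ (e : Fin 2 → ℤ) (ρ : F), h = mon u e * ρ ∧
      ULoc k O (Sum.elim u ![x, y]) ρ := by
  intro h _ h0
  refine ⟨0, h, by simp [mon], ?_⟩
  refine ULoc.comp (z' := ![x, y]) Sum.inr (fun t => rfl) ?_
  obtain ⟨N, D, hD, rfl⟩ := exists_frac hgen h
  have hD0 : D ≠ 0 := by rintro rfl; exact hD (map_zero _)
  have hN0 : N ≠ 0 := by rintro rfl; exact h0 (by simp)
  exact ⟨N, D, hc N hN0, hc D hD0, rfl⟩

theorem as_case_a (p : ℕ) [Fact p.Prime] [CharP k p] {O : ValuationSubring F}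
    (hO : ∀ c : k, algebraMap k F c ∈ O) (htr : Algebra.trdeg k F = 2) {x y : F}
    (hgen : IntermediateField.adjoin k {x, y} = ⊤)
    (hc : ∀ h : MvPolynomial (Fin 2) k, h ≠ 0 → O.valuation (aeval ![x, y] h) = 1)
    (g : F) (H : Finset F) : HasAS k p 2 O g H := by
  classical
  have hprime : p.Prime := Fact.out
  have hw : ∀ i : Fin 2, O.valuation ((![x, y] : Fin 2 → F) i) = 1 := fun i => by
    have := hc (X i) (X_ne_zero i)
    rwa [aeval_X] at this
  have hwO : ∀ i : Fin 2, (![x, y] : Fin 2 → F) i ∈ O := fun i =>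
    (O.valuation_le_one_iff _).1 (hw i).le
  have hw0 : ∀ i : Fin 2, (![x, y] : Fin 2 → F) i ≠ 0 := fun i => ne_zero_of_val_one (hw i)
  have hgen' : IntermediateField.adjoin k (Set.range ![x, y] ∪ Set.range ![x, y]) = ⊤ := by
    rw [eq_top_iff, ← hgen]
    refine IntermediateField.adjoin.mono k _ _ ?_
    rw [← range_pair]
    exact Set.subset_union_right
  obtain ⟨N, D, hD, hg⟩ := exists_frac hgen g
  have hD0 : D ≠ 0 := by rintro rfl; exact hD (map_zero _)
  have hren : ∀ Q : MvPolynomial (Fin 2) k,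
      aeval (Sum.elim ![x, y] ![x, y]) (rename Sum.inr Q : MvPolynomial (Fin 2 ⊕ Fin 2) k) =
        aeval ![x, y] Q := by
    intro Q
    rw [aeval_rename, Sum.elim_comp_inr]
  refine ⟨![x, y], ![x, y], fun l => X (Sum.inr l) - X (Sum.inl l),
    ⟨hw0, hwO, hwO, ?_, ?_, hgen'⟩, ACaseA_nf hgen hc H _, 0, g, ?_, Or.inl ?_⟩
  · intro l
    simp
  · have : (Matrix.of fun l l' : Fin 2 => aeval (Sum.elim ![x, y] ![x, y])
        (pderiv (Sum.inr l') (X (Sum.inr l) - X (Sum.inl l) : MvPolynomial (Fin 2 ⊕ Fin 2) k)))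
        = (1 : Matrix (Fin 2) (Fin 2) F) := by
      ext l l'
      rw [Matrix.of_apply, map_sub, pderiv_X, pderiv_X, Matrix.one_apply]
      by_cases hl : l = l'
      · subst hl; simp
      · simp [hl]
    rw [this, Matrix.det_one, map_one]
  · rw [zero_pow hprime.ne_zero, sub_zero, zero_add]
  · refine ⟨rename Sum.inr N, rename Sum.inr D, ?_, ?_⟩
    · rw [hren]
      exact hc D hD0
    · rw [hren, hren]
      exact hg

end LS
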