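import Pool.Agent.helper90.LS.Basic

/-! # LUS-CaseB: the center is (the generic point of) a plane curve -/

open MvPolynomial

namespace LS

open LU

universe u

section CBpoly

variable {k : Type u} [Field k]

/-- degrees drop -/
lemma CB_td_pderiv {h : MvPolynomial (Fin 2) k} {i : Fin 2} (h0 : pderiv i h ≠ 0) :
    (pderiv i h).totalDegree < h.totalDegree := by
  obtain ⟨m, hm, hmd⟩ : ∃ m ∈ (pderiv i h).support,
      (pderiv i h).totalDegree = m.sum fun _ e => e := by
    have := Finset.exists_mem_eq_sup (pderiv i h).support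
      (by rwa [Finset.nonempty_iff_ne_empty, Ne, MvPolynomial.support_eq_empty])
      (fun m => m.sum fun _ e => e)
    simpa [MvPolynomial.totalDegree] using this
  rw [MvPolynomial.mem_support_iff, coeff_pderiv] at hm
  have h1 : m + Finsupp.single i 1 ∈ h.support := by
    rw [MvPolynomial.mem_support_iff]
    intro h2
    rw [h2, zero_mul] at hm
    exact hm rfl
  have h2 := MvPolynomial.le_totalDegree h1
  rw [Finsupp.sum_add_index' (by simp) (by simp)] at h2
  rw [Finsupp.sum_single_index rfl] at h2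
  omega

lemma CB_dvd_pderiv {f : MvPolynomial (Fin 2) k} {i : Fin 2} (h : f ∣ pderiv i f) :
    pderiv i f = 0 := by
  by_contra h0
  have h1 := CB_td_pderiv h0
  obtain ⟨c, hc⟩ := h
  have hf : f ≠ 0 := by
    rintro rfl
    simp at h0
  have hc0 : c ≠ 0 := by
    rintro rfl
    rw [mul_zero] at hc
    exact h0 hc
  have h2 : (pderiv i f).totalDegree = f.totalDegree + c.totalDegree := by
    conv_lhs => rw [hc]
    exact totalDegree_mul_of_isDomain hf hc0
  omega

/-- a polynomial with zero derivatives is a `p`-th power -/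
lemma CB_pow_of_pderiv [IsAlgClosed k] (p : ℕ) [hp : Fact p.Prime] [CharP k p]
    {h : MvPolynomial (Fin 2) k}
    (h0 : pderiv 0 h = 0) (h1 : pderiv 1 h = 0) : ∃ q, h = q ^ p := by
  have key : ∀ m ∈ h.support, ∀ i, p ∣ m i := by
    intro m hm i
    have hi : pderiv i h = 0 := by fin_cases i <;> assumption
    by_contra hd
    have hmi : m i ≠ 0 := by
      intro h2
      exact hd (h2 ▸ dvd_zero p)
    have e : m - Finsupp.single i 1 + Finsupp.single i 1 = m := by
      apply Finsupp.ext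
      intro j
      by_cases hj : j = i
      · subst hj
        simp
        omega
      · simp [Finsupp.single_eq_of_ne hj]
    have h3 := coeff_pderiv (i := i) h (m - Finsupp.single i 1)
    rw [hi, e, coeff_zero] at h3
    rcases mul_eq_zero.mp h3.symm with h4 | h4
    · exact (MvPolynomial.mem_support_iff.mp hm) h4
    · apply hd
      rw [← CharP.cast_eq_zero_iff k p]
      have h5 : (m - Finsupp.single i 1 : Fin 2 →₀ ℕ) i + 1 = m i := by
        simp
        omega
      rw [← h5]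
      push_cast
      exact h4
  have hrt : ∀ m : Fin 2 →₀ ℕ, ∃ c : k, c ^ p = coeff m h := fun m =>
    IsAlgClosed.exists_pow_nat_eq _ hp.out.pos
  choose c hc using hrt
  refine ⟨∑ m ∈ h.support, monomial (Finsupp.mapRange (fun a => a / p) (by simp) m) (c m), ?_⟩
  rw [sum_pow_char]
  conv_lhs => rw [h.as_sum]
  apply Finset.sum_congr rfl
  intro m hm
  rw [monomial_pow, hc]
  congr 2
  apply Finsupp.ext
  intro i
  simp
  exact (Nat.mul_div_cancel' (key m hm i)).symm

lemma CB_some_deriv [IsAlgClosed k] (p : ℕ) [hp : Fact p.Prime] [CharP k p]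
    {f : MvPolynomial (Fin 2) k} (hf : Irreducible f) :
    ¬ f ∣ pderiv 0 f ∨ ¬ f ∣ pderiv 1 f := by
  by_contra hcon
  push Not at hcon
  obtain ⟨q, hq⟩ := CB_pow_of_pderiv p (CB_dvd_pderiv hcon.1) (CB_dvd_pderiv hcon.2)
  exact (Irreducible.not_isUnit hf) (by
    rw [hq] at hf
    exact absurd hf (not_irreducible_pow hp.out.ne_one))

variable (f : MvPolynomial (Fin 2) k)

/-- the derivation killing `f` -/
noncomputable def CBD (h : MvPolynomial (Fin 2) k) : MvPolynomial (Fin 2) k :=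
  pderiv 1 f * pderiv 0 h - pderiv 0 f * pderiv 1 h

lemma CBD_add (a b : MvPolynomial (Fin 2) k) : CBD f (a + b) = CBD f a + CBD f b := by
  simp only [CBD, map_add]
  ring

lemma CBD_sub (a b : MvPolynomial (Fin 2) k) : CBD f (a - b) = CBD f a - CBD f b := by
  simp only [CBD, map_sub]
  ring

lemma CBD_mul (a b : MvPolynomial (Fin 2) k) : CBD f (a * b) = CBD f a * b + a * CBD f b := by
  simp only [CBD, pderiv_mul]
  ring

lemma CBD_self : CBD f f = 0 := by
  simp only [CBD]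
  ring

lemma CB_pderiv_pow (p : ℕ) [CharP k p] (i : Fin 2) (a : MvPolynomial (Fin 2) k) :
    pderiv i (a ^ p) = 0 := by
  rw [pderiv_pow, CharP.cast_eq_zero]
  ring

lemma CBD_pow (p : ℕ) [CharP k p] (a : MvPolynomial (Fin 2) k) : CBD f (a ^ p) = 0 := by
  simp only [CBD, CB_pderiv_pow p]
  ring

lemma CBD_sum {ι : Type*} (s : Finset ι) (a : ι → MvPolynomial (Fin 2) k) :
    CBD f (∑ i ∈ s, a i) = ∑ i ∈ s, CBD f (a i) := by
  simp only [CBD, map_sum, Finset.mul_sum, Finset.sum_sub_distrib]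

lemma CBD_X_pow (n : ℕ) : CBD f (X 0 ^ (n + 1)) =
    pderiv 1 f * (((n + 1 : ℕ) : MvPolynomial (Fin 2) k) * X 0 ^ n) := by
  simp only [CBD, pderiv_pow, pderiv_X_self, Nat.add_sub_cancel]
  rw [pderiv_X_of_ne (by decide)]
  ring

/-- derivation of a `p`-expansion -/
lemma CBD_S (p : ℕ) [hp : Fact p.Prime] [CharP k p] (n : ℕ) (a : ℕ → MvPolynomial (Fin 2) k) :
    CBD f (∑ i ∈ Finset.range (n + 2), a i ^ p * X 0 ^ i) =
      pderiv 1 f * ∑ i ∈ Finset.range (n + 1),
        (((i + 1 : ℕ) : MvPolynomial (Fin 2) k) * a (i + 1)) ^ p * X 0 ^ i := by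
  rw [CBD_sum, Finset.sum_range_succ', Finset.mul_sum]
  have e0 : CBD f (a 0 ^ p * X 0 ^ 0) = 0 := by
    rw [CBD_mul, CBD_pow, pow_zero]
    simp [CBD]
  rw [e0, add_zero]
  apply Finset.sum_congr rfl
  intro i _
  rw [CBD_mul, CBD_pow, CBD_X_pow, mul_pow]
  have e1 : (((i + 1 : ℕ) : MvPolynomial (Fin 2) k)) ^ p =
      ((i + 1 : ℕ) : MvPolynomial (Fin 2) k) := by
    have := map_natCast (frobenius (MvPolynomial (Fin 2) k) p) (i + 1)
    rwa [frobenius_def] at this
  rw [e1]
  ring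

variable {f} in
lemma CB_cast (p : ℕ) [CharP k p] (hf : Prime f) {i : ℕ} (hi : i + 1 < p)
    {a : MvPolynomial (Fin 2) k}
    (h : f ∣ ((i + 1 : ℕ) : MvPolynomial (Fin 2) k) * a) : f ∣ a := by
  rcases hf.dvd_or_dvd h with h6 | h6
  · exfalso
    have h7 : IsUnit (((i + 1 : ℕ) : MvPolynomial (Fin 2) k)) := by
      rw [← map_natCast (C : k →+* MvPolynomial (Fin 2) k)]
      apply IsUnit.map
      rw [isUnit_iff_ne_zero]
      intro h8
      rw [CharP.cast_eq_zero_iff k p] at h8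
      have := Nat.le_of_dvd (by omega) h8
      omega
    exact hf.not_isUnit (isUnit_of_dvd_unit h6 h7)
  · exact h6

variable {f} in
lemma CB_dvd_D {h : MvPolynomial (Fin 2) k} (hh : f ∣ h) : f ∣ CBD f h := by
  obtain ⟨c, hc⟩ := hh
  rw [hc, CBD_mul, CBD_self, zero_mul, zero_add]
  exact dvd_mul_right _ _

variable {f} in
/-- independence of the powers of `x` -/
lemma CB_indep (p : ℕ) [hp : Fact p.Prime] [CharP k p] (hf : Prime f)
    (hf1 : ¬ f ∣ pderiv 1 f) (n : ℕ) : n < p → ∀ a : ℕ → MvPolynomial (Fin 2) k,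
    f ∣ ∑ i ∈ Finset.range (n + 1), a i ^ p * X 0 ^ i → ∀ i ≤ n, f ∣ a i := by
  induction n with
  | zero =>
    intro _ a h i hi
    obtain rfl : i = 0 := by omega
    simp at h
    exact hf.dvd_of_dvd_pow h
  | succ n ih =>
    intro hn a h
    have h1 := CB_dvd_D h
    rw [CBD_S] at h1
    have h3 := (hf.dvd_or_dvd h1).resolve_left hf1
    have h4 := ih (by omega) (fun i => ((i + 1 : ℕ) : MvPolynomial (Fin 2) k) * a (i + 1)) h3
    have h5 : ∀ i ≤ n, f ∣ a (i + 1) := fun i hi => CB_cast p hf (by omega) (h4 i hi)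
    intro i hi
    rcases Nat.eq_zero_or_pos i with rfl | hi0
    · have h6 : f ∣ ∑ i ∈ Finset.range (n + 1), a (i + 1) ^ p * X 0 ^ (i + 1) := by
        apply Finset.dvd_sum
        intro i hi
        rw [Finset.mem_range] at hi
        exact Dvd.dvd.mul_right (dvd_pow (h5 i (by omega)) hp.out.ne_zero) _
      rw [Finset.sum_range_succ'] at h
      have h7 := (dvd_add_right h6).mp h
      simp at h7
      exact hf.dvd_of_dvd_pow h7
    · obtain ⟨j, rfl⟩ : ∃ j, i = j + 1 := ⟨i - 1, by omega⟩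
      exact h5 j (by omega)

end CBpoly
section CBfield

variable {k : Type u} [Field k] [IsAlgClosed k] {κ : Type u} [Field κ]

/-- a separable `p`-radical element is in the base -/
lemma CB_sep_insep (p : ℕ) [hp : Fact p.Prime] {E L : Type u} [Field E] [Field L] [Algebra E L]
    [CharP E p] {y : L} (h1 : y ^ p ∈ (algebraMap E L).range) {F0 : Polynomial E}
    (h2 : Polynomial.aeval y F0 = 0) (h3 : Polynomial.aeval y (Polynomial.derivative F0) ≠ 0) :
    y ∈ (algebraMap E L).range := by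
  obtain ⟨c, hc⟩ := h1
  have hint : IsIntegral E y := by
    refine ⟨Polynomial.X ^ p - Polynomial.C c, Polynomial.monic_X_pow_sub_C c hp.out.ne_zero, ?_⟩
    simp [hc]
  have hirr := minpoly.irreducible hint
  have hsep : (minpoly E y).Separable := by
    rw [Polynomial.separable_iff_derivative_ne_zero hirr]
    intro hd
    obtain ⟨Q, hQ⟩ := minpoly.dvd E y h2
    apply h3
    rw [hQ, Polynomial.derivative_mul, map_add, map_mul, map_mul, minpoly.aeval, hd]
    simp
  rw [← minpoly.natDegree_eq_one_iff, ← Polynomial.natSepDegree_eq_natDegree_of_separable _ hsep,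
    minpoly.natSepDegree_eq_one_iff_pow_mem p]
  exact ⟨1, by rw [pow_one]; exact ⟨c, hc⟩⟩

variable {f : MvPolynomial (Fin 2) k} (π : MvPolynomial (Fin 2) k →+* κ)

/-- the powers of `x` span -/
lemma CB_span (p : ℕ) [hp : Fact p.Prime] [CharP k p] (hπ : ∀ h, π h = 0 ↔ f ∣ h)
    (hsurj : ∀ z, ∃ N D, π D ≠ 0 ∧ z = π N / π D) (hf1 : ¬ f ∣ pderiv 1 f) (z : κ) :
    ∃ c : ℕ → κ, z = ∑ i ∈ Finset.range p, c i ^ p * π (X 0) ^ i := by
  have : CharP κ p := charP_of_injective_ringHom (π.comp C).injective p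
  let K0 : Subfield κ := (frobenius κ p).fieldRange
  have hK0 : ∀ c : κ, c ^ p ∈ K0 := fun c => ⟨c, rfl⟩
  have hK0' : ∀ c : K0, ∃ d : κ, d ^ p = c := by
    rintro ⟨c, d, hd⟩
    exact ⟨d, hd⟩
  have : CharP K0 p := RingHom.charP (algebraMap K0 κ) (algebraMap K0 κ).injective p
  let E : IntermediateField K0 κ := IntermediateField.adjoin K0 {π (X 0)}
  have hxE : π (X 0) ∈ E := IntermediateField.mem_adjoin_simple_self K0 _
  have hE0 : ∀ c : κ, c ^ p ∈ E := fun c => E.algebraMap_mem ⟨c ^ p, hK0 c⟩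
  have : CharP E p := RingHom.charP (algebraMap E κ) (algebraMap E κ).injective p
  have hkE : ∀ c : k, π (C c) ∈ E := by
    intro c
    obtain ⟨d, hd⟩ := IsAlgClosed.exists_pow_nat_eq c hp.out.pos
    rw [← hd, map_pow, map_pow]
    exact hE0 _
  let ι : k →+* E := (π.comp C).codRestrict E.toSubfield hkE
  have hι : ∀ c, ((ι c : E) : κ) = π (C c) := fun c => rfl
  let Θ : MvPolynomial (Fin 2) k →+* Polynomial E :=
    MvPolynomial.eval₂Hom (Polynomial.C.comp ι) ![Polynomial.C ⟨_, hxE⟩, Polynomial.X]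
  have hΘC : ∀ c, Θ (C c) = Polynomial.C (ι c) := by
    intro c
    simp [Θ]
  have hΘ0 : Θ (X 0) = Polynomial.C ⟨_, hxE⟩ := by
    simp [Θ]
  have hΘ1 : Θ (X 1) = Polynomial.X := by
    simp [Θ]
  have hev : ∀ h, Polynomial.aeval (π (X 1)) (Θ h) = π h := by
    intro h
    induction h using MvPolynomial.induction_on with
    | C a =>
      rw [hΘC, Polynomial.aeval_C]
      exact hι a
    | add a b ha hb => rw [map_add, map_add, ha, hb, map_add]
    | mul_X a i ha =>
      rw [map_mul, map_mul, map_mul, ha]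
      congr 1
      fin_cases i
      · simp only [Fin.zero_eta, hΘ0, Polynomial.aeval_C]
        rfl
      · simp only [Fin.mk_one, hΘ1, Polynomial.aeval_X]
  have hder : ∀ h, Polynomial.derivative (Θ h) = Θ (pderiv 1 h) := by
    intro h
    induction h using MvPolynomial.induction_on with
    | C a =>
      rw [hΘC, pderiv_C]
      simp
    | add a b ha hb => rw [map_add, map_add, ha, hb, map_add, map_add]
    | mul_X a i ha =>
      rw [map_mul, Polynomial.derivative_mul, ha, pderiv_mul, map_add, map_mul, map_mul]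
      congr 2
      fin_cases i
      · simp only [Fin.zero_eta, hΘ0]
        rw [pderiv_X_of_ne (by decide)]
        simp
      · simp only [Fin.mk_one, hΘ1]
        rw [pderiv_X_self]
        simp
  have hyE : π (X 1) ∈ E := by
    have h1 : π (X 1) ∈ (algebraMap E κ).range := by
      refine CB_sep_insep p (F0 := Θ f) ⟨⟨_, hE0 (π (X 1))⟩, rfl⟩ ?_ ?_
      · rw [hev, hπ]
      · rw [hder, hev]
        intro h
        exact hf1 ((hπ _).mp h)
    obtain ⟨e, he⟩ := h1
    rw [← he]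
    exact e.2
  have hRE : ∀ h, π h ∈ E := by
    intro h
    induction h using MvPolynomial.induction_on with
    | C a => exact hkE a
    | add a b ha hb => rw [map_add]; exact E.add_mem ha hb
    | mul_X a i ha =>
      rw [map_mul]
      refine E.mul_mem ha ?_
      fin_cases i
      · exact hxE
      · exact hyE
  have hz : z ∈ E := by
    obtain ⟨N, D, -, rfl⟩ := hsurj z
    exact E.div_mem (hRE N) (hRE D)
  set c0 : K0 := ⟨_, hK0 (π (X 0))⟩ with hc0
  have hmon := Polynomial.monic_X_pow_sub_C c0 hp.out.ne_zero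
  have hroot : Polynomial.aeval (π (X 0)) (Polynomial.X ^ p - Polynomial.C c0) = 0 := by
    rw [map_sub, map_pow, Polynomial.aeval_X, Polynomial.aeval_C]
    exact sub_self _
  have hint : IsIntegral K0 (π (X 0)) := ⟨_, hmon, hroot⟩
  have hz2 : z ∈ Algebra.adjoin K0 {π (X 0)} := by
    rw [← IntermediateField.adjoin_simple_toSubalgebra_of_isAlgebraic hint.isAlgebraic]
    exact hz
  rw [Algebra.adjoin_singleton_eq_range_aeval] at hz2
  obtain ⟨q, hq⟩ := hz2
  have hq2 : Polynomial.aeval (π (X 0)) q = z := hq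
  rw [← Polynomial.aeval_modByMonic_eq_self_of_root hroot] at hq2
  have hdeg : (q %ₘ (Polynomial.X ^ p - Polynomial.C c0)).natDegree < p := by
    have h1 := Polynomial.natDegree_modByMonic_lt q hmon (by
      intro h
      have := congrArg Polynomial.natDegree h
      rw [Polynomial.natDegree_X_pow_sub_C, Polynomial.natDegree_one] at this
      exact hp.out.ne_zero this)
    rwa [Polynomial.natDegree_X_pow_sub_C] at h1
  rw [Polynomial.aeval_eq_sum_range' hdeg] at hq2
  choose d hd using hK0'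
  refine ⟨fun i => d ((q %ₘ (Polynomial.X ^ p - Polynomial.C c0)).coeff i), ?_⟩
  rw [← hq2]
  apply Finset.sum_congr rfl
  intro i _
  rw [hd]
  rfl

omit [IsAlgClosed k] in
/-- clearing denominators -/
lemma CB_denom (hf : Prime f) (hπ : ∀ h, π h = 0 ↔ f ∣ h)
    (hsurj : ∀ z, ∃ N D, π D ≠ 0 ∧ z = π N / π D) (s : Finset ℕ) (c : ℕ → κ) :
    ∃ (d : MvPolynomial (Fin 2) k) (n : ℕ → MvPolynomial (Fin 2) k), ¬ f ∣ d ∧
      ∀ i ∈ s, π d * c i = π (n i) := by
  classical
  choose N D hD hND using hsurj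
  refine ⟨∏ i ∈ s, D (c i), fun i => N (c i) * ∏ j ∈ s.erase i, D (c j), ?_, ?_⟩
  · intro h
    rw [hf.dvd_finsetProd_iff] at h
    obtain ⟨i, -, hi⟩ := h
    exact hD (c i) ((hπ _).mpr hi)
  · intro i hi
    rw [← Finset.mul_prod_erase s (fun i => D (c i)) hi, map_mul, map_mul]
    have h1 := hND (c i)
    rw [eq_div_iff (hD (c i))] at h1
    rw [← h1]
    ring

/-- constants of the derivation are `p`-th powers modulo `f` -/
lemma CB_const (p : ℕ) [hp : Fact p.Prime] [CharP k p] (hf : Prime f)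
    (hf1 : ¬ f ∣ pderiv 1 f) {b : MvPolynomial (Fin 2) k} (hb : f ∣ CBD f b) :
    ∃ c d : MvPolynomial (Fin 2) k, ¬ f ∣ d ∧ f ∣ b * d ^ p - c ^ p := by
  have hprime : (Ideal.span {f}).IsPrime := by
    rw [Ideal.span_singleton_prime hf.ne_zero]
    exact hf
  let κ := FractionRing (MvPolynomial (Fin 2) k ⧸ Ideal.span {f})
  let π : MvPolynomial (Fin 2) k →+* κ :=
    (algebraMap (MvPolynomial (Fin 2) k ⧸ Ideal.span {f}) κ).comp (Ideal.Quotient.mk _)
  have hπ : ∀ h, π h = 0 ↔ f ∣ h := by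
    intro h
    rw [← Ideal.mem_span_singleton, ← Ideal.Quotient.eq_zero_iff_mem]
    constructor
    · intro h1
      exact (IsFractionRing.injective (MvPolynomial (Fin 2) k ⧸ Ideal.span {f}) κ)
        (h1.trans (map_zero _).symm)
    · intro h1
      change algebraMap _ κ (Ideal.Quotient.mk (Ideal.span {f}) h) = 0
      rw [h1, map_zero]
  have hsurj : ∀ z : κ, ∃ N D, π D ≠ 0 ∧ z = π N / π D := by
    intro z
    obtain ⟨N', D', hD', rfl⟩ :=
      IsFractionRing.div_surjective (MvPolynomial (Fin 2) k ⧸ Ideal.span {f}) z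
    obtain ⟨N, rfl⟩ := Ideal.Quotient.mk_surjective N'
    obtain ⟨D, rfl⟩ := Ideal.Quotient.mk_surjective D'
    refine ⟨N, D, ?_, rfl⟩
    rw [Ne, hπ, ← Ideal.mem_span_singleton, ← Ideal.Quotient.eq_zero_iff_mem]
    exact nonZeroDivisors.ne_zero hD'
  have : CharP κ p := charP_of_injective_ringHom (π.comp C).injective p
  obtain ⟨c, hc⟩ := CB_span π p hπ hsurj hf1 (π b)
  obtain ⟨d, n, hd, hn⟩ := CB_denom π hf hπ hsurj (Finset.range p) c
  obtain ⟨m, hm⟩ : ∃ m, p = m + 2 := ⟨p - 2, by have := hp.out.two_le; omega⟩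
  have h1 : f ∣ b * d ^ p - ∑ i ∈ Finset.range (m + 2), n i ^ p * X 0 ^ i := by
    rw [← hπ, map_sub, map_mul, map_pow, hc, map_sum, ← hm, Finset.sum_mul,
      ← Finset.sum_sub_distrib]
    apply Finset.sum_eq_zero
    intro i hi
    rw [map_mul, map_pow, map_pow, ← hn i hi]
    ring
  have h2 := CB_dvd_D h1
  rw [CBD_sub, CBD_mul, CBD_pow, mul_zero, add_zero, CBD_S] at h2
  have h3 := (dvd_sub_right (Dvd.dvd.mul_right hb (d ^ p))).mp h2
  have h4 := (hf.dvd_or_dvd h3).resolve_left hf1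
  have h5 := CB_indep p hf hf1 m (by omega)
    (fun i => ((i + 1 : ℕ) : MvPolynomial (Fin 2) k) * n (i + 1)) h4
  have h6 : ∀ i ≤ m, f ∣ n (i + 1) := fun i hi => CB_cast p hf (by omega) (h5 i hi)
  refine ⟨n 0, d, hd, ?_⟩
  have h7 : f ∣ ∑ i ∈ Finset.range (m + 1), n (i + 1) ^ p * X 0 ^ (i + 1) := by
    apply Finset.dvd_sum
    intro i hi
    rw [Finset.mem_range] at hi
    exact Dvd.dvd.mul_right (dvd_pow (h6 i (by omega)) hp.out.ne_zero) _
  rw [Finset.sum_range_succ'] at h1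
  have h8 := dvd_add h1 h7
  have e : b * d ^ p - (∑ i ∈ Finset.range (m + 1), n (i + 1) ^ p * X 0 ^ (i + 1) +
      n 0 ^ p * X 0 ^ 0) + ∑ i ∈ Finset.range (m + 1), n (i + 1) ^ p * X 0 ^ (i + 1) =
      b * d ^ p - n 0 ^ p := by ring
  rwa [e] at h8

/-- the best approximation by a `p`-th power -/
lemma CB_best (p : ℕ) [hp : Fact p.Prime] [CharP k p] (hf : Prime f)
    (hf1 : ¬ f ∣ pderiv 1 f) {G : MvPolynomial (Fin 2) k} {i : Fin 2} (hG : pderiv i G ≠ 0) :
    ∃ (e : ℕ) (D A b : MvPolynomial (Fin 2) k), ¬ f ∣ D ∧ G * D ^ p - A ^ p = f ^ e * b ∧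
      ¬ f ∣ b ∧ (p ∣ e → ¬ f ∣ CBD f b) := by
  classical
  have hfin : FiniteMultiplicity f (pderiv i G) :=
    FiniteMultiplicity.of_prime_left hf hG
  obtain ⟨M, hM⟩ := hfin
  let P : ℕ → Prop := fun e => ∃ D A : MvPolynomial (Fin 2) k, ¬ f ∣ D ∧
    f ^ e ∣ G * D ^ p - A ^ p
  have hP0 : P 0 := ⟨1, 0, fun h => hf.not_isUnit (isUnit_of_dvd_one h), by simp⟩
  have hPb : ∀ e, P e → e ≤ M + 1 := by
    rintro e ⟨D, A, hD, h1⟩
    by_contra hcon
    push Not at hcon
    apply hM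
    obtain ⟨e', rfl⟩ : ∃ e', e = e' + 1 := ⟨e - 1, by omega⟩
    obtain ⟨c, hc⟩ := h1
    have h2 : f ^ e' ∣ pderiv i (G * D ^ p - A ^ p) := by
      rw [hc, pderiv_mul, pderiv_pow, Nat.add_sub_cancel]
      refine dvd_add ?_ ?_
      · exact ⟨((e' + 1 : ℕ) : MvPolynomial (Fin 2) k) * pderiv i f * c, by ring⟩
      · exact Dvd.dvd.mul_right (pow_dvd_pow f (by omega)) _
    rw [map_sub, pderiv_mul, CB_pderiv_pow p, CB_pderiv_pow p, mul_zero, add_zero, sub_zero] at h2
    have h3 : f ^ (M + 1) ∣ pderiv i G * D ^ p := (pow_dvd_pow f (by omega)).trans h2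
    have h4 : ¬ f ∣ D ^ p := fun h => hD (hf.dvd_of_dvd_pow h)
    exact (hf.pow_dvd_of_dvd_mul_right (M + 1) h4 h3)
  have hex : ∃ e, P e ∧ ∀ e', P e' → e' ≤ e := by
    refine ⟨Nat.findGreatest P (M + 1), Nat.findGreatest_spec (Nat.zero_le _) hP0, ?_⟩
    intro e' he'
    exact Nat.le_findGreatest (hPb e' he') he'
  obtain ⟨e, ⟨D, A, hD, b, hb⟩, hmax⟩ := hex
  refine ⟨e, D, A, b, hD, hb, ?_, ?_⟩
  · intro hfb
    have := hmax (e + 1) ⟨D, A, hD, by
      rw [hb, pow_succ]
      exact mul_dvd_mul_left _ hfb⟩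
    omega
  · rintro ⟨e', rfl⟩ hfb
    obtain ⟨c, d, hd, hcd⟩ := CB_const p hf hf1 hfb
    have := hmax (p * e' + 1) ⟨D * d, A * d + f ^ e' * c, fun h => by
        rcases hf.dvd_or_dvd h with h | h
        · exact hD h
        · exact hd h, by
      have e1 : G * (D * d) ^ p - (A * d + f ^ e' * c) ^ p =
          f ^ (p * e') * (b * d ^ p - c ^ p) := by
        rw [add_pow_char, mul_pow, mul_pow, mul_pow, ← pow_mul, mul_comm e' p]
        calc _ = (G * D ^ p - A ^ p) * d ^ p - f ^ (p * e') * c ^ p := by ring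
          _ = _ := by rw [hb]; ring
      rw [e1, pow_succ]
      exact mul_dvd_mul_left _ hcd⟩
    omega

end CBfield

section CBmain

variable {k : Type u} {F : Type u} [Field k] [Field F] [Algebra k F]

section setup

variable {O : ValuationSubring F} {x y : F} {f : MvPolynomial (Fin 2) k}

lemma CB_val_le (hO : ∀ c : k, algebraMap k F c ∈ O) (hx : x ∈ O) (hy : y ∈ O)
    (h : MvPolynomial (Fin 2) k) : O.valuation (aeval ![x, y] h) ≤ 1 := by
  rw [ValuationSubring.valuation_le_one_iff]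
  exact aeval_mem hO (fun i => by fin_cases i <;> assumption) h

lemma CB_val_one (hO : ∀ c : k, algebraMap k F c ∈ O) (hx : x ∈ O) (hy : y ∈ O)
    (hc : ∀ h : MvPolynomial (Fin 2) k, O.valuation (aeval ![x, y] h) < 1 ↔ f ∣ h)
    {h : MvPolynomial (Fin 2) k} (hh : ¬ f ∣ h) : O.valuation (aeval ![x, y] h) = 1 := by
  rcases (CB_val_le hO hx hy h).lt_or_eq with h1 | h1
  · exact absurd ((hc h).mp h1) hh
  · exact h1

/-- every element is a power of `f` times a unit -/
lemma CB_factor (hO : ∀ c : k, algebraMap k F c ∈ O) (hx : x ∈ O) (hy : y ∈ O)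
    (hc : ∀ h : MvPolynomial (Fin 2) k, O.valuation (aeval ![x, y] h) < 1 ↔ f ∣ h)
    (hgen : IntermediateField.adjoin k {x, y} = ⊤) (hf : Prime f)
    (hf0 : aeval ![x, y] f ≠ 0) {z : F} (hz : z ≠ 0) :
    ∃ (m : ℤ) (ρ : F), z = (aeval ![x, y] f) ^ m * ρ ∧ ULoc k O ![x, y] ρ := by
  obtain ⟨N, D, hD, rfl⟩ := exists_frac hgen z
  have hN : aeval ![x, y] N ≠ 0 := fun h => hz (by rw [h, zero_div])
  have hN0 : N ≠ 0 := by
    rintro rfl
    exact hN (map_zero _)
  have hD0 : D ≠ 0 := by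
    rintro rfl
    exact hD (map_zero _)
  obtain ⟨N', hN1, hN2⟩ :=
    (FiniteMultiplicity.of_prime_left hf hN0).exists_eq_pow_mul_and_not_dvd
  obtain ⟨D', hD1, hD2⟩ :=
    (FiniteMultiplicity.of_prime_left hf hD0).exists_eq_pow_mul_and_not_dvd
  refine ⟨(multiplicity f N : ℤ) - (multiplicity f D : ℤ), aeval ![x, y] N' / aeval ![x, y] D',
    ?_, N', D', CB_val_one hO hx hy hc hN2, CB_val_one hO hx hy hc hD2, rfl⟩
  conv_lhs => rw [hN1, hD1]
  rw [map_mul, map_mul, map_pow, map_pow, zpow_sub₀ hf0, zpow_natCast, zpow_natCast]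
  rw [mul_div_mul_comm]

lemma CB_chart1 (hO : ∀ c : k, algebraMap k F c ∈ O) (hx : x ∈ O) (hy : y ∈ O)
    (hc : ∀ h : MvPolynomial (Fin 2) k, O.valuation (aeval ![x, y] h) < 1 ↔ f ∣ h)
    (hgen : IntermediateField.adjoin k {x, y} = ⊤)
    (hf0 : aeval ![x, y] f ≠ 0) (hx0 : x ≠ 0) (hf1 : ¬ f ∣ pderiv 1 f) :
    Chart k O ![aeval ![x, y] f, x] ![x, y]
      ![X (Sum.inr 0) - X (Sum.inl 1), rename Sum.inr f - X (Sum.inl 0)] := by
  have hren : ∀ (u : Fin 2 → F) (h : MvPolynomial (Fin 2) k),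
      aeval (Sum.elim u ![x, y]) (rename Sum.inr h) = aeval ![x, y] h := by
    intro u h
    rw [aeval_rename, Sum.elim_comp_inr]
  have hpd : ∀ (l : Fin 2) (h : MvPolynomial (Fin 2) k),
      pderiv (Sum.inr l) (rename Sum.inr h : MvPolynomial (Fin 2 ⊕ Fin 2) k) =
        rename Sum.inr (pderiv l h) := fun l h => pderiv_rename Sum.inr_injective l h
  constructor
  · intro i
    fin_cases i
    · exact hf0
    · exact hx0
  · intro i
    fin_cases i
    · rw [← ValuationSubring.valuation_le_one_iff]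
      exact CB_val_le hO hx hy f
    · exact hx
  · intro i
    fin_cases i
    · exact hx
    · exact hy
  · intro l
    fin_cases l
    · simp
    · simp only [Fin.mk_one, Matrix.cons_val_one, Matrix.cons_val_zero, map_sub, hren, aeval_X,
        Sum.elim_inl, sub_self]
  · have e : ∀ l : Fin 2, pderiv (Sum.inr l)
        (X (Sum.inl 1) : MvPolynomial (Fin 2 ⊕ Fin 2) k) = 0 := by
      intro l
      rw [pderiv_X_of_ne (by simp)]
    have e' : ∀ l : Fin 2, pderiv (Sum.inr l)
        (X (Sum.inl 0) : MvPolynomial (Fin 2 ⊕ Fin 2) k) = 0 := by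
      intro l
      rw [pderiv_X_of_ne (by simp)]
    have e0 : pderiv (Sum.inr 0) (X (Sum.inr 0) : MvPolynomial (Fin 2 ⊕ Fin 2) k) = 1 :=
      pderiv_X_self _
    have e1 : pderiv (Sum.inr 1) (X (Sum.inr 0) : MvPolynomial (Fin 2 ⊕ Fin 2) k) = 0 :=
      pderiv_X_of_ne (by simp)
    rw [Matrix.det_fin_two]
    simp only [Matrix.of_apply, Matrix.cons_val_zero, Matrix.cons_val_one, map_sub, hpd, hren,
      e, e', e0, e1, map_zero, map_one, sub_zero, one_mul, zero_mul]
    exact CB_val_one hO hx hy hc hf1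
  · rw [eq_top_iff, ← hgen]
    apply IntermediateField.adjoin.mono
    rintro z (rfl | rfl)
    · exact Or.inr ⟨0, rfl⟩
    · exact Or.inr ⟨1, rfl⟩

lemma CB_chart2 (p : ℕ) [CharP k p] (hO : ∀ c : k, algebraMap k F c ∈ O) (hx : x ∈ O)
    (hy : y ∈ O)
    (hc : ∀ h : MvPolynomial (Fin 2) k, O.valuation (aeval ![x, y] h) < 1 ↔ f ∣ h)
    (hgen : IntermediateField.adjoin k {x, y} = ⊤) (hf : Prime f)
    (hf0 : aeval ![x, y] f ≠ 0) {b D : MvPolynomial (Fin 2) k} (hb : ¬ f ∣ b) (hD : ¬ f ∣ D)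
    (hbD : ¬ f ∣ CBD f b) :
    Chart k O ![aeval ![x, y] f, aeval ![x, y] b / aeval ![x, y] (D ^ p)] ![x, y]
      ![rename Sum.inr f - X (Sum.inl 0),
        rename Sum.inr b - X (Sum.inl 1) * rename Sum.inr (D ^ p)] := by
  have hren : ∀ (u : Fin 2 → F) (h : MvPolynomial (Fin 2) k),
      aeval (Sum.elim u ![x, y]) (rename Sum.inr h) = aeval ![x, y] h := by
    intro u h
    rw [aeval_rename, Sum.elim_comp_inr]
  have hpd : ∀ (l : Fin 2) (h : MvPolynomial (Fin 2) k),
      pderiv (Sum.inr l) (rename Sum.inr h : MvPolynomial (Fin 2 ⊕ Fin 2) k) =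
        rename Sum.inr (pderiv l h) := fun l h => pderiv_rename Sum.inr_injective l h
  have hDp : ¬ f ∣ D ^ p := fun h => hD (hf.dvd_of_dvd_pow h)
  have hvD := CB_val_one hO hx hy hc hDp
  have hvb := CB_val_one hO hx hy hc hb
  have hD0 : aeval ![x, y] (D ^ p) ≠ 0 := by
    intro h
    rw [h, map_zero] at hvD
    exact zero_ne_one hvD
  have hb0 : aeval ![x, y] b ≠ 0 := by
    intro h
    rw [h, map_zero] at hvb
    exact zero_ne_one hvb
  constructor
  · intro i
    fin_cases i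
    · exact hf0
    · exact div_ne_zero hb0 hD0
  · intro i
    fin_cases i
    · rw [← ValuationSubring.valuation_le_one_iff]
      exact CB_val_le hO hx hy f
    · rw [← ValuationSubring.valuation_le_one_iff]
      change O.valuation (aeval ![x, y] b / aeval ![x, y] (D ^ p)) ≤ 1
      rw [map_div₀, hvD, hvb, div_one]
  · intro i
    fin_cases i
    · exact hx
    · exact hy
  · intro l
    fin_cases l
    · simp only [Fin.zero_eta, Matrix.cons_val_zero, map_sub, hren, aeval_X,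
        Sum.elim_inl, sub_self]
    · simp only [Fin.mk_one, Matrix.cons_val_one, Matrix.cons_val_zero, map_sub, map_mul, hren,
        aeval_X, Sum.elim_inl]
      field_simp
      simp
  · have e : ∀ l : Fin 2, pderiv (Sum.inr l)
        (X (Sum.inl 1) * rename Sum.inr (D ^ p) : MvPolynomial (Fin 2 ⊕ Fin 2) k) = 0 := by
      intro l
      rw [pderiv_mul, hpd, CB_pderiv_pow p, pderiv_X_of_ne (by simp), map_zero]
      ring
    have e' : ∀ l : Fin 2, pderiv (Sum.inr l)
        (X (Sum.inl 0) : MvPolynomial (Fin 2 ⊕ Fin 2) k) = 0 := by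
      intro l
      rw [pderiv_X_of_ne (by simp)]
    rw [Matrix.det_fin_two]
    simp only [Matrix.of_apply, Matrix.cons_val_zero, Matrix.cons_val_one, map_sub, hpd, hren,
      e, e', sub_zero]
    have h1 := CB_val_one hO hx hy hc hbD
    rw [← Valuation.map_neg] at h1
    rw [← h1]
    congr 1
    simp only [CBD, map_sub, map_mul]
    ring
  · rw [eq_top_iff, ← hgen]
    apply IntermediateField.adjoin.mono
    rintro z (rfl | rfl)
    · exact Or.inr ⟨0, rfl⟩
    · exact Or.inr ⟨1, rfl⟩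

end setup

theorem CB_aux [IsAlgClosed k] (p : ℕ) [hp : Fact p.Prime] [CharP k p] {O : ValuationSubring F}
    (hO : ∀ c : k, algebraMap k F c ∈ O) (htr : Algebra.trdeg k F = 2) {x y : F}
    (hgen : IntermediateField.adjoin k {x, y} = ⊤) (hx : x ∈ O) (hy : y ∈ O)
    {f : MvPolynomial (Fin 2) k} (hf : Irreducible f)
    (hc : ∀ h : MvPolynomial (Fin 2) k, O.valuation (aeval ![x, y] h) < 1 ↔ f ∣ h)
    (g : F) (H : Finset F) (hf1 : ¬ f ∣ pderiv 1 f) : HasNF k p 2 O g H := by
  have hfp : Prime f := hf.prime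
  have hinj := aeval_inj hgen htr
  have hne : ∀ {h : MvPolynomial (Fin 2) k}, h ≠ 0 → aeval ![x, y] h ≠ 0 := by
    intro h hh h1
    exact hh (hinj (h1.trans (map_zero _).symm))
  have hf0 : aeval ![x, y] f ≠ 0 := hne hf.ne_zero
  have hx0 : x ≠ 0 := by
    have := hne (X_ne_zero (R := k) (0 : Fin 2))
    simpa using this
  have hcharF : CharP F p := charP_of_injective_ringHom (algebraMap k F).injective p
  have hcomp : ∀ {u : Fin 2 → F} {ρ : F}, ULoc k O ![x, y] ρ →
      ULoc k O (Sum.elim u ![x, y]) ρ := by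
    intro u ρ h
    exact ULoc.comp Sum.inr (fun t => rfl) h
  have hH : ∀ (t : F) (h : F), h ≠ 0 → ∃ (e : Fin 2 → ℤ) (ρ : F),
      h = mon ![aeval ![x, y] f, t] e * ρ ∧
        ULoc k O (Sum.elim ![aeval ![x, y] f, t] ![x, y]) ρ := by
    intro t h hh
    obtain ⟨m, ρ, hm, hρ⟩ := CB_factor hO hx hy hc hgen hfp hf0 hh
    refine ⟨![m, 0], ρ, ?_, hcomp hρ⟩
    rw [hm]
    simp [mon]
  have hinvf : (aeval ![x, y] f)⁻¹ ∉ O := by
    intro h
    rw [← ValuationSubring.valuation_le_one_iff, map_inv₀] at h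
    have h1 := (hc f).mpr dvd_rfl
    have h2 : O.valuation (aeval ![x, y] f) ≠ 0 := (Valuation.ne_zero_iff _).mpr hf0
    rw [inv_le_one₀ (zero_lt_iff.mpr h2)] at h
    exact absurd h1 (not_lt.mpr h)
  obtain ⟨N, D, hD, hg⟩ := exists_frac hgen g
  have hD0 : D ≠ 0 := by
    rintro rfl
    exact hD (map_zero _)
  obtain ⟨p', hp'⟩ : ∃ p', p = p' + 1 := ⟨p - 1, by have := hp.out.pos; omega⟩
  have hgG : g * aeval ![x, y] D ^ p = aeval ![x, y] (N * D ^ p') := by
    rw [hg, map_mul, map_pow, hp', pow_succ]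
    field_simp
  by_cases hG : pderiv 0 (N * D ^ p') = 0 ∧ pderiv 1 (N * D ^ p') = 0
  · obtain ⟨q, hq⟩ := CB_pow_of_pderiv p hG.1 hG.2
    refine ⟨_, _, _, CB_chart1 hO hx hy hc hgen hf0 hx0 hf1, fun h _ hh => hH x h hh,
      aeval ![x, y] q / aeval ![x, y] D, 0, ?_, Or.inl rfl⟩
    rw [add_zero, div_pow, eq_div_iff (pow_ne_zero _ hD), hgG, hq, map_pow]
  · obtain ⟨i, hi⟩ : ∃ i, pderiv i (N * D ^ p') ≠ 0 := by
      by_contra hcon
      push Not at hcon
      exact hG ⟨hcon 0, hcon 1⟩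
    obtain ⟨e, D0, A, b, hD0', hb, hfb, hpe⟩ := CB_best p hfp hf1 hi
    obtain ⟨D1, hD1, hD2⟩ :=
      (FiniteMultiplicity.of_prime_left hfp hD0).exists_eq_pow_mul_and_not_dvd
    set m := multiplicity f D with hm
    have hDD : ¬ f ∣ D0 * D1 := by
      intro h
      rcases hfp.dvd_or_dvd h with h | h
      · exact hD0' h
      · exact hD2 h
    have hDDp : ¬ f ∣ (D0 * D1) ^ p := fun h => hDD (hfp.dvd_of_dvd_pow h)
    have hD00 : aeval ![x, y] D0 ≠ 0 := hne (fun h => hD0' (h ▸ dvd_zero f))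
    have hD10 : aeval ![x, y] D1 ≠ 0 := hne (fun h => hD2 (h ▸ dvd_zero f))
    have hB : g = (aeval ![x, y] A / (aeval ![x, y] D0 * aeval ![x, y] D)) ^ p +
        aeval ![x, y] f ^ ((e : ℤ) - p * m) *
          (aeval ![x, y] b / aeval ![x, y] ((D0 * D1) ^ p)) := by
      have h1 : aeval ![x, y] (N * D ^ p') * aeval ![x, y] D0 ^ p - aeval ![x, y] A ^ p =
          aeval ![x, y] f ^ e * aeval ![x, y] b := by
        rw [← map_pow, ← map_pow, ← map_mul, ← map_sub, hb, map_mul, map_pow]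
      rw [← hgG] at h1
      have h2 : aeval ![x, y] D = aeval ![x, y] f ^ m * aeval ![x, y] D1 := by
        conv_lhs => rw [hD1]
        rw [map_mul, map_pow]
      have h3 : aeval ![x, y] f ^ ((e : ℤ) - p * m) =
          aeval ![x, y] f ^ e / (aeval ![x, y] f ^ m) ^ p := by
        rw [zpow_sub₀ hf0, zpow_natCast, ← Nat.cast_mul, zpow_natCast, ← pow_mul, mul_comm m p]
      have h4 : g = (aeval ![x, y] A ^ p + aeval ![x, y] f ^ e * aeval ![x, y] b) /
          (aeval ![x, y] D0 * aeval ![x, y] D) ^ p := by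
        rw [eq_div_iff (pow_ne_zero _ (mul_ne_zero hD00 hD)), ← h1]
        ring
      rw [h3, div_pow, h4, h2, map_pow, map_mul]
      field_simp
      ring
    by_cases hdp : p ∣ e
    · refine ⟨_, _, _, CB_chart2 p hO hx hy hc hgen hfp hf0 hfb hDD (hpe hdp),
        fun h _ hh => hH _ h hh, _, _, hB, Or.inr ?_⟩
      refine ⟨![(e : ℤ) - p * m, 1], 1, ?_, ULoc.one, 1, ?_, Or.inr rfl⟩
      · simp [mon]
      · simp
    · refine ⟨_, _, _, CB_chart1 hO hx hy hc hgen hf0 hx0 hf1,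
        fun h _ hh => hH _ h hh, _, _, hB, Or.inr ?_⟩
      refine ⟨![(e : ℤ) - p * m, 0], aeval ![x, y] b / aeval ![x, y] ((D0 * D1) ^ p), ?_,
        hcomp ⟨b, (D0 * D1) ^ p, CB_val_one hO hx hy hc hfb, CB_val_one hO hx hy hc hDDp, rfl⟩,
        0, ?_, Or.inl hinvf⟩
      · simp [mon]
      · simp only [Matrix.cons_val_zero]
        push_cast
        rw [CharP.cast_eq_zero k p, zero_mul, sub_zero]
        intro h
        exact hdp ((CharP.cast_eq_zero_iff k p e).mp h)

end CBmain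

variable {k : Type u} {F : Type u} [Field k] [IsAlgClosed k] [Field F] [Algebra k F]

theorem case_b (p : ℕ) [Fact p.Prime] [CharP k p] {O : ValuationSubring F}
    (hO : ∀ c : k, algebraMap k F c ∈ O) (htr : Algebra.trdeg k F = 2) {x y : F}
    (hgen : IntermediateField.adjoin k {x, y} = ⊤) (hx : x ∈ O) (hy : y ∈ O)
    {f : MvPolynomial (Fin 2) k} (hf : Irreducible f)
    (hc : ∀ h : MvPolynomial (Fin 2) k, O.valuation (aeval ![x, y] h) < 1 ↔ f ∣ h)
    (g : F) (H : Finset F) : HasNF k p 2 O g H := by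
  rcases CB_some_deriv p hf with h0 | h1
  · have hev : ∀ h : MvPolynomial (Fin 2) k,
        aeval ![y, x] h = aeval ![x, y] (rename (Equiv.swap 0 1 : Fin 2 ≃ Fin 2) h) := by
      intro h
      rw [aeval_rename]
      congr 2
      funext i
      fin_cases i <;> rfl
    have hinv : ∀ h : MvPolynomial (Fin 2) k,
        rename (Equiv.swap 0 1 : Fin 2 ≃ Fin 2) (rename (Equiv.swap 0 1 : Fin 2 ≃ Fin 2) h) = h := by
      intro h
      rw [rename_rename]
      have : ((Equiv.swap 0 1 : Fin 2 ≃ Fin 2) ∘ (Equiv.swap 0 1 : Fin 2 ≃ Fin 2)) = id := by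
        funext i
        simp
      rw [this, rename_id_apply]
    have hdvd : ∀ a b : MvPolynomial (Fin 2) k,
        a ∣ b → rename (Equiv.swap 0 1 : Fin 2 ≃ Fin 2) a ∣
          rename (Equiv.swap 0 1 : Fin 2 ≃ Fin 2) b := fun a b h => map_dvd _ h
    refine CB_aux p hO htr (x := y) (y := x) (f := rename (Equiv.swap 0 1 : Fin 2 ≃ Fin 2) f)
      (by rw [Set.pair_comm]; exact hgen) hy hx ?_ ?_ g H ?_
    · exact (MulEquiv.irreducible_iff (renameEquiv k (Equiv.swap 0 1 : Fin 2 ≃ Fin 2))).mpr hf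
    · intro h
      rw [hev, hc]
      constructor
      · intro h2
        have := hdvd _ _ h2
        rwa [hinv] at this
      · intro h2
        have := hdvd _ _ h2
        rwa [hinv] at this
    · intro h2
      apply h0
      have e := pderiv_rename (Equiv.swap 0 1 : Fin 2 ≃ Fin 2).injective 0 f
      rw [Equiv.swap_apply_left] at e
      rw [e] at h2
      have := hdvd _ _ h2
      rwa [hinv, hinv] at this
  · exact CB_aux p hO htr hgen hx hy hf hc g H h1

end LS
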