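import Pool.Agent.helper90.LS.ADefs
import Pool.Agent.helper90.LS.CaseB

/-! # LUS-ACaseB: the center is a plane curve, Artin-Schreier version -/

open MvPolynomial

namespace LS

open LU

universe u

section ACBmain

variable {k : Type u} {F : Type u} [Field k] [Field F] [Algebra k F]

/-- descending induction on the order of the pole along the curve -/
theorem ACaseB_ind [IsAlgClosed k] (p : ℕ) [hp : Fact p.Prime] [CharP k p] {O : ValuationSubring F}
    (hO : ∀ c : k, algebraMap k F c ∈ O) (htr : Algebra.trdeg k F = 2) {x y : F}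
    (hgen : IntermediateField.adjoin k {x, y} = ⊤) (hx : x ∈ O) (hy : y ∈ O)
    {f : MvPolynomial (Fin 2) k} (hf : Irreducible f)
    (hc : ∀ h : MvPolynomial (Fin 2) k, O.valuation (aeval ![x, y] h) < 1 ↔ f ∣ h)
    (H : Finset F) (hf1 : ¬ f ∣ pderiv 1 f) (n : ℕ) : ∀ g : F,
    (∃ N D : MvPolynomial (Fin 2) k, ¬ f ∣ D ∧
      g * aeval ![x, y] f ^ n = aeval ![x, y] N / aeval ![x, y] D) → HasAS k p 2 O g H := by
  have hfp : Prime f := hf.prime
  have hinj := aeval_inj hgen htr
  have hne : ∀ {h : MvPolynomial (Fin 2) k}, h ≠ 0 → aeval ![x, y] h ≠ 0 := by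
    intro h hh h1
    exact hh (hinj (h1.trans (map_zero _).symm))
  have hnf : ∀ {h : MvPolynomial (Fin 2) k}, ¬ f ∣ h → aeval ![x, y] h ≠ 0 := by
    intro h hh
    exact hne fun h1 => hh (h1 ▸ dvd_zero f)
  have hf0 : aeval ![x, y] f ≠ 0 := hne hf.ne_zero
  have hx0 : x ≠ 0 := by
    have := hne (X_ne_zero (R := k) (0 : Fin 2))
    simpa using this
  have hcharF : CharP F p := charP_of_injective_ringHom (algebraMap k F).injective p
  have hcomp : ∀ {u : Fin 2 → F} {ρ : F}, ULoc k O ![x, y] ρ →
      ULoc k O (Sum.elim u ![x, y]) ρ := by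
    intro u ρ h
    exact ULoc.comp Sum.inr (fun t => rfl) h
  have hH : ∀ (t : F) (h : F), h ≠ 0 → ∃ (e : Fin 2 → ℤ) (ρ : F),
      h = mon ![aeval ![x, y] f, t] e * ρ ∧
        ULoc k O (Sum.elim ![aeval ![x, y] f, t] ![x, y]) ρ := by
    intro t h hh
    obtain ⟨m, ρ, hm, hρ⟩ := CB_factor hO hx hy hc hgen hfp hf0 hh
    refine ⟨![m, 0], ρ, ?_, hcomp hρ⟩
    rw [hm]
    simp [mon]
  have hvf : O.valuation (aeval ![x, y] f) < 1 := (hc f).mpr dvd_rfl
  have hvf0 : O.valuation (aeval ![x, y] f) ≠ 0 := (Valuation.ne_zero_iff _).mpr hf0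
  have hinvf : (aeval ![x, y] f)⁻¹ ∉ O := by
    intro h
    rw [← ValuationSubring.valuation_le_one_iff, map_inv₀] at h
    rw [inv_le_one₀ (zero_lt_iff.mpr hvf0)] at h
    exact absurd hvf (not_lt.mpr h)
  obtain ⟨p', hp'⟩ : ∃ p', p = p' + 2 := ⟨p - 2, by have := hp.out.two_le; omega⟩
  have hpole : ∀ (n : ℕ) {z : F}, O.valuation z = 1 →
      1 < O.valuation (aeval ![x, y] f ^ (-((n : ℤ) + 1)) * z) := by
    intro n z hz
    rw [map_mul, hz, mul_one, zpow_neg, map_inv₀, one_lt_inv₀]
    · have e : ((n : ℤ) + 1) = ((n + 1 : ℕ) : ℤ) := by push_cast; ring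
      rw [e, zpow_natCast, map_pow]
      exact pow_lt_one₀ zero_le hvf (by omega)
    · rw [zero_lt_iff, Valuation.ne_zero_iff]
      exact zpow_ne_zero _ hf0
  induction n with
  | zero =>
    rintro g ⟨N, D, hD, hg⟩
    rw [pow_zero, mul_one] at hg
    have hL : LLoc k O ![x, y] g := ⟨N, D, CB_val_one hO hx hy hc hD, hg⟩
    refine ⟨_, _, _, CB_chart1 hO hx hy hc hgen hf0 hx0 hf1, fun h _ hh => hH x h hh,
      0, g, ?_, Or.inl (LLoc.comp Sum.inr (fun t => rfl) hL)⟩
    rw [zero_pow hp.out.ne_zero]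
    ring
  | succ n ih =>
    rintro g ⟨N, D, hD, hg⟩
    have hD0 := hnf hD
    by_cases hN : f ∣ N
    · obtain ⟨N', rfl⟩ := hN
      refine ih g ⟨N', D, hD, ?_⟩
      rw [map_mul, pow_succ, ← mul_assoc, mul_comm (aeval ![x, y] f) (aeval ![x, y] N'),
        mul_div_right_comm] at hg
      exact mul_right_cancel₀ hf0 hg
    · -- `g = f ^ (-(n+1)) * b / D ^ p`
      set b : MvPolynomial (Fin 2) k := N * D ^ (p' + 1) with hb
      have hfb : ¬ f ∣ b := by
        intro h
        rcases hfp.dvd_or_dvd h with h | h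
        · exact hN h
        · exact hD (hfp.dvd_of_dvd_pow h)
      have hDp : ¬ f ∣ D ^ p := fun h => hD (hfp.dvd_of_dvd_pow h)
      have hg2 : g = aeval ![x, y] f ^ (-((n : ℤ) + 1)) *
          (aeval ![x, y] b / aeval ![x, y] (D ^ p)) := by
        have e : ((n : ℤ) + 1) = ((n + 1 : ℕ) : ℤ) := by push_cast; ring
        rw [zpow_neg, e, zpow_natCast, hb, map_mul, map_pow, map_pow]
        have e2 : aeval ![x, y] N * aeval ![x, y] D ^ (p' + 1) / aeval ![x, y] D ^ p =
            aeval ![x, y] N / aeval ![x, y] D := by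
          rw [hp', div_eq_div_iff (pow_ne_zero _ hD0) hD0]
          ring
        rw [e2, ← hg]
        field_simp
      have hub : ULoc k O ![x, y] (aeval ![x, y] b / aeval ![x, y] (D ^ p)) :=
        ⟨b, D ^ p, CB_val_one hO hx hy hc hfb, CB_val_one hO hx hy hc hDp, rfl⟩
      by_cases hdp : p ∣ n + 1
      · by_cases hbD : f ∣ CBD f b
        · -- the pole drops
          obtain ⟨c, d, hd, r, hr⟩ := CB_const p hfp hf1 hbD
          obtain ⟨m, hm⟩ := hdp
          have hd0 := hnf hd
          have hm0 : 0 < m := Nat.pos_of_ne_zero (by rintro rfl; omega)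
          have hmn : m ≤ n := by
            have : p * m = m + (p' + 1) * m := by rw [hp']; ring
            have h2 : 1 ≤ (p' + 1) * m := Nat.mul_pos (by omega) hm0
            omega
          set A : F := aeval ![x, y] c / (aeval ![x, y] f ^ m * (aeval ![x, y] d * aeval ![x, y] D))
            with hA
          have hdD : ¬ f ∣ (d * D) ^ p := by
            intro h
            rcases hfp.dvd_or_dvd (hfp.dvd_of_dvd_pow h) with h | h
            · exact hd h
            · exact hD h
          refine HasAS.add (A := A) (ih (g - A ^ p + A)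
            ⟨r + f ^ (n - m) * c * (d * D) ^ (p' + 1), (d * D) ^ p, hdD, ?_⟩) (by ring)
          have e1 : aeval ![x, y] b * aeval ![x, y] d ^ p - aeval ![x, y] c ^ p =
              aeval ![x, y] f * aeval ![x, y] r := by
            rw [← map_pow, ← map_pow, ← map_mul, ← map_sub, hr, map_mul]
          have e2 : g = aeval ![x, y] b / (aeval ![x, y] f ^ (n + 1) * aeval ![x, y] D ^ p) := by
            have e : ((n : ℤ) + 1) = ((n + 1 : ℕ) : ℤ) := by push_cast; ring
            rw [hg2, zpow_neg, e, zpow_natCast, map_pow]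
            field_simp
          have e3 : A ^ p = aeval ![x, y] c ^ p /
              (aeval ![x, y] f ^ (n + 1) * (aeval ![x, y] d * aeval ![x, y] D) ^ p) := by
            rw [hA, div_pow, mul_pow, ← pow_mul, mul_comm m p, ← hm]
          have e4 : g - A ^ p = aeval ![x, y] r /
              (aeval ![x, y] f ^ n * (aeval ![x, y] d * aeval ![x, y] D) ^ p) := by
            rw [e2, e3, mul_pow, div_sub_div _ _ (mul_ne_zero (pow_ne_zero _ hf0) (pow_ne_zero _ hD0))
              (mul_ne_zero (pow_ne_zero _ hf0) (mul_ne_zero (pow_ne_zero _ hd0) (pow_ne_zero _ hD0))),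
              div_eq_div_iff]
            · linear_combination (aeval ![x, y] f ^ (n + 1) * aeval ![x, y] D ^ p *
                aeval ![x, y] f ^ n * aeval ![x, y] d ^ p * aeval ![x, y] D ^ p) * e1
            · exact mul_ne_zero (mul_ne_zero (pow_ne_zero _ hf0) (pow_ne_zero _ hD0))
                (mul_ne_zero (pow_ne_zero _ hf0) (mul_ne_zero (pow_ne_zero _ hd0) (pow_ne_zero _ hD0)))
            · exact mul_ne_zero (pow_ne_zero _ hf0) (mul_ne_zero (pow_ne_zero _ hd0)
                (pow_ne_zero _ hD0))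
          have e5 : A * aeval ![x, y] f ^ n = aeval ![x, y] f ^ (n - m) * aeval ![x, y] c /
              (aeval ![x, y] d * aeval ![x, y] D) := by
            have e6 : aeval ![x, y] f ^ n = aeval ![x, y] f ^ (n - m) * aeval ![x, y] f ^ m := by
              rw [← pow_add]
              congr 1
              omega
            rw [hA, e6]
            field_simp
          rw [add_mul, e5, e4]
          simp only [map_add, map_mul, map_pow]
          rw [hp']
          field_simp
          ring
        · -- residue not a `p`-th power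
          refine ⟨_, _, _, CB_chart2 p hO hx hy hc hgen hfp hf0 hfb hD hbD,
            fun h _ hh => hH _ h hh, 0, g, ?_, Or.inr ⟨?_, ?_⟩⟩
          · rw [zero_pow hp.out.ne_zero]
            ring
          · refine ⟨![-((n : ℤ) + 1), 1], 1, ?_, ULoc.one, 1, ?_, Or.inr rfl⟩
            · rw [hg2]
              simp [mon]
            · simp
          · rw [hg2]
            exact hpole n hub.val
      · refine ⟨_, _, _, CB_chart1 hO hx hy hc hgen hf0 hx0 hf1,
          fun h _ hh => hH x h hh, 0, g, ?_, Or.inr ⟨?_, ?_⟩⟩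
        · rw [zero_pow hp.out.ne_zero]
          ring
        · refine ⟨![-((n : ℤ) + 1), 0], _, ?_, hcomp hub, 0, ?_, Or.inl hinvf⟩
          · rw [hg2]
            simp [mon]
          · simp only [Matrix.cons_val_zero]
            push_cast
            intro h
            rw [neg_eq_zero] at h
            apply hdp
            rw [← CharP.cast_eq_zero_iff k p]
            push_cast
            exact h
        · rw [hg2]
          exact hpole n hub.val

theorem ACaseB_aux [IsAlgClosed k] (p : ℕ) [hp : Fact p.Prime] [CharP k p] {O : ValuationSubring F}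
    (hO : ∀ c : k, algebraMap k F c ∈ O) (htr : Algebra.trdeg k F = 2) {x y : F}
    (hgen : IntermediateField.adjoin k {x, y} = ⊤) (hx : x ∈ O) (hy : y ∈ O)
    {f : MvPolynomial (Fin 2) k} (hf : Irreducible f)
    (hc : ∀ h : MvPolynomial (Fin 2) k, O.valuation (aeval ![x, y] h) < 1 ↔ f ∣ h)
    (g : F) (H : Finset F) (hf1 : ¬ f ∣ pderiv 1 f) : HasAS k p 2 O g H := by
  obtain ⟨N, D, hD, hg⟩ := exists_frac hgen g
  have hD0 : D ≠ 0 := by
    rintro rfl
    exact hD (map_zero _)
  have hf0 : aeval ![x, y] f ≠ 0 := by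
    intro h
    exact hf.ne_zero (aeval_inj hgen htr (h.trans (map_zero _).symm))
  obtain ⟨D1, hD1, hD2⟩ :=
    (FiniteMultiplicity.of_prime_left hf.prime hD0).exists_eq_pow_mul_and_not_dvd
  refine ACaseB_ind p hO htr hgen hx hy hf hc H hf1 (multiplicity f D) g ⟨N, D1, hD2, ?_⟩
  have h1 : aeval ![x, y] D = aeval ![x, y] f ^ (multiplicity f D) * aeval ![x, y] D1 := by
    conv_lhs => rw [hD1]
    rw [map_mul, map_pow]
  rw [hg, h1]
  have h2 : aeval ![x, y] D1 ≠ 0 := by
    intro h
    rw [h1, h, mul_zero] at hD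
    exact hD rfl
  field_simp

end ACBmain

variable {k : Type u} {F : Type u} [Field k] [IsAlgClosed k] [Field F] [Algebra k F]

theorem as_case_b (p : ℕ) [Fact p.Prime] [CharP k p] {O : ValuationSubring F}
    (hO : ∀ c : k, algebraMap k F c ∈ O) (htr : Algebra.trdeg k F = 2) {x y : F}
    (hgen : IntermediateField.adjoin k {x, y} = ⊤) (hx : x ∈ O) (hy : y ∈ O)
    {f : MvPolynomial (Fin 2) k} (hf : Irreducible f)
    (hc : ∀ h : MvPolynomial (Fin 2) k, O.valuation (aeval ![x, y] h) < 1 ↔ f ∣ h)
    (g : F) (H : Finset F) : HasAS k p 2 O g H := by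
  rcases CB_some_deriv p hf with h0 | h1
  · have hev : ∀ h : MvPolynomial (Fin 2) k,
        aeval ![y, x] h = aeval ![x, y] (rename (Equiv.swap 0 1 : Fin 2 ≃ Fin 2) h) := by
      intro h
      rw [aeval_rename]
      congr 2
      funext i
      fin_cases i <;> rfl
    have hinv : ∀ h : MvPolynomial (Fin 2) k,
        rename (Equiv.swap 0 1 : Fin 2 ≃ Fin 2) (rename (Equiv.swap 0 1 : Fin 2 ≃ Fin 2) h) = h := by
      intro h
      rw [rename_rename]
      have : ((Equiv.swap 0 1 : Fin 2 ≃ Fin 2) ∘ (Equiv.swap 0 1 : Fin 2 ≃ Fin 2)) = id := by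
        funext i
        simp
      rw [this, rename_id_apply]
    have hdvd : ∀ a b : MvPolynomial (Fin 2) k,
        a ∣ b → rename (Equiv.swap 0 1 : Fin 2 ≃ Fin 2) a ∣
          rename (Equiv.swap 0 1 : Fin 2 ≃ Fin 2) b := fun a b h => map_dvd _ h
    refine ACaseB_aux p hO htr (x := y) (y := x) (f := rename (Equiv.swap 0 1 : Fin 2 ≃ Fin 2) f)
      (by rw [Set.pair_comm]; exact hgen) hy hx ?_ ?_ g H ?_
    · exact (MulEquiv.irreducible_iff (renameEquiv k (Equiv.swap 0 1 : Fin 2 ≃ Fin 2))).mpr hf
    · intro h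
      rw [hev, hc]
      constructor
      · intro h2
        have := hdvd _ _ h2
        rwa [hinv] at this
      · intro h2
        have := hdvd _ _ h2
        rwa [hinv] at this
    · intro h2
      apply h0
      have e := pderiv_rename (Equiv.swap 0 1 : Fin 2 ≃ Fin 2).injective 0 f
      rw [Equiv.swap_apply_left] at e
      rw [e] at h2
      have := hdvd _ _ h2
      rwa [hinv, hinv] at this
  · exact ACaseB_aux p hO htr hgen hx hy hf hc g H h1

end LS
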