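import Pool.Agent.helper90.LS.Basic

/-! # LUS-CaseR: independent values -/

open MvPolynomial

namespace LS

open LU

universe u

variable {k : Type u} {F : Type u} [Field k] [IsAlgClosed k] [Field F] [Algebra k F]

/-- exponent vector with integer entries -/
def crE (m : Fin 2 →₀ ℕ) : Fin 2 → ℤ := fun i => (m i : ℤ)

omit [IsAlgClosed k] in
lemma cr_val_const {O : ValuationSubring F} (hO : ∀ c : k, algebraMap k F c ∈ O) {a : k}
    (ha : a ≠ 0) : O.valuation (algebraMap k F a) = 1 := by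
  have h1 : O.valuation (algebraMap k F a) ≤ 1 := (O.valuation_le_one_iff _).2 (hO a)
  have h2 : O.valuation (algebraMap k F a⁻¹) ≤ 1 := (O.valuation_le_one_iff _).2 (hO a⁻¹)
  have h3 : O.valuation (algebraMap k F a) * O.valuation (algebraMap k F a⁻¹) = 1 := by
    rw [← map_mul, ← map_mul, mul_inv_cancel₀ ha, map_one, map_one]
  refine le_antisymm h1 ?_
  calc (1 : O.ValueGroup) = O.valuation (algebraMap k F a) * O.valuation (algebraMap k F a⁻¹) :=
        h3.symm
    _ ≤ O.valuation (algebraMap k F a) * 1 := mul_le_mul_right h2 _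
    _ = O.valuation (algebraMap k F a) := mul_one _

omit [IsAlgClosed k] in
lemma cr_aeval (c : Fin 2 → F) (P : MvPolynomial (Fin 2) k) :
    aeval c P = ∑ m ∈ P.support, algebraMap k F (coeff m P) * mon c (crE m) := by
  rw [aeval_def, eval₂_eq']
  refine Finset.sum_congr rfl fun m _ => ?_
  congr 1
  exact Finset.prod_congr rfl fun i _ => (zpow_natCast _ _).symm

lemma cr_val_mon (O : ValuationSubring F) (c : Fin 2 → F) (a : Fin 2 → ℤ) :
    O.valuation (mon c a) = O.valuation (c 0) ^ a 0 * O.valuation (c 1) ^ a 1 := by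
  rw [mon, Fin.prod_univ_two, map_mul, map_zpow₀, map_zpow₀]

lemma cr_mon_nat (z : Fin 2 → F) (b : Fin 2 → ℤ) (hb : ∀ l, 0 ≤ b l) :
    mon z b = ∏ l, z l ^ (b l).toNat := by
  refine Finset.prod_congr rfl fun l _ => ?_
  conv_lhs => rw [← Int.toNat_of_nonneg (hb l)]
  rw [zpow_natCast]

omit [IsAlgClosed k] [Algebra k F] in
/-- the monomial of largest value -/
lemma cr_top {O : ValuationSubring F} {u v : F} (hu0 : u ≠ 0) (hv0 : v ≠ 0)
    (hi : Indep O u v) (P : MvPolynomial (Fin 2) k) (hP : P ≠ 0) :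
    ∃ m ∈ P.support, ∀ m' ∈ P.support, m' ≠ m →
      O.valuation (mon ![u, v] (crE m' - crE m)) < 1 := by
  have hc : ∀ i, (![u, v] : Fin 2 → F) i ≠ 0 := by
    intro i
    fin_cases i
    · exact hu0
    · exact hv0
  obtain ⟨m, hm, hmax⟩ := Finset.exists_max_image P.support
    (fun m => O.valuation (mon ![u, v] (crE m))) (by
      rw [Finset.nonempty_iff_ne_empty]
      intro h0
      exact hP (MvPolynomial.support_eq_empty.1 h0))
  refine ⟨m, hm, fun m' hm' hne => ?_⟩
  have h0 : O.valuation (mon ![u, v] (crE m)) ≠ 0 := by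
    rw [Ne, map_eq_zero]
    exact mon_ne_zero hc _
  have h1 : O.valuation (mon ![u, v] (crE m' - crE m)) ≤ 1 := by
    rw [mon_sub hc, map_div₀]
    exact div_le_one_of_le₀ (hmax m' hm') zero_le
  refine lt_of_le_of_ne h1 fun h2 => hne ?_
  rw [cr_val_mon] at h2
  obtain ⟨h3, h4⟩ := hi _ _ h2
  ext i
  fin_cases i
  · simp only [Pi.sub_apply, crE] at h3
    simp only [Fin.zero_eta]
    omega
  · simp only [Pi.sub_apply, crE] at h4
    simp only [Fin.mk_one]
    omega

omit [IsAlgClosed k] in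
theorem cr_fam {O : ValuationSubring F} (hO : ∀ c : k, algebraMap k F c ∈ O) {u v : F}
    (hu0 : u ≠ 0) (hv0 : v ≠ 0) (hu : O.valuation u < 1) (hv : O.valuation v < 1)
    (hi : Indep O u v) (PP : Finset (MvPolynomial (Fin 2) k)) (hPP : ∀ P ∈ PP, P ≠ 0) :
    ∃ C D : Matrix (Fin 2) (Fin 2) ℤ, IsSt O ![u, v] C D ∧
      (∀ l, (mon ![u, v] (D l))⁻¹ ∉ O) ∧
      ∀ P ∈ PP, ∃ m ∈ P.support, ∃ N : MvPolynomial (Fin 2) k,
        O.valuation (aeval (fun l => mon ![u, v] (D l)) N) = 1 ∧
        aeval ![u, v] P = mon (fun l => mon ![u, v] (D l)) (Matrix.vecMul (crE m) C) *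
          aeval (fun l => mon ![u, v] (D l)) N := by
  classical
  have hc : ∀ i, (![u, v] : Fin 2 → F) i ≠ 0 := by
    intro i
    fin_cases i
    · exact hu0
    · exact hv0
  have hcO : ∀ i, (![u, v] : Fin 2 → F) i ∈ O := by
    intro i
    fin_cases i
    · exact (O.valuation_le_one_iff _).1 hu.le
    · exact (O.valuation_le_one_iff _).1 hv.le
  have key : ∀ P : MvPolynomial (Fin 2) k, P ≠ 0 → ∃ m ∈ P.support, ∀ m' ∈ P.support,
      m' ≠ m → O.valuation (mon ![u, v] (crE m' - crE m)) < 1 :=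
    fun P hP => cr_top hu0 hv0 hi P hP
  choose! top htop1 htop2 using key
  let T : Finset (Fin 2 → ℤ) :=
    PP.biUnion fun P => P.support.image fun m' => crE m' - crE (top P)
  have hT : ∀ a ∈ T.toList, mon ![u, v] a ∈ O := by
    intro a ha
    rw [Finset.mem_toList] at ha
    obtain ⟨P, hP, ha⟩ := Finset.mem_biUnion.1 ha
    obtain ⟨m', hm', rfl⟩ := Finset.mem_image.1 ha
    by_cases he : m' = top P
    · subst he
      rw [sub_self]
      simp [mon, one_mem]
    · exact (O.valuation_le_one_iff _).1 (htop2 P (hPP P hP) m' hm' he).le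
  obtain ⟨C, D, hst, hgood⟩ := perron hc hcO T.toList hT
  have hz0 : ∀ l, mon ![u, v] (D l) ≠ 0 := fun l => mon_ne_zero hc _
  have hzi : ∀ l, (mon ![u, v] (D l))⁻¹ ∉ O := by
    intro l hl
    have h1 : O.valuation (mon ![u, v] (D l)) = 1 := by
      refine le_antisymm ((O.valuation_le_one_iff _).2 (hst.mem l)) ?_
      have h2 := (O.valuation_le_one_iff _).2 hl
      rw [map_inv₀] at h2
      have h3 : O.valuation (mon ![u, v] (D l)) ≠ 0 := by
        rw [Ne, map_eq_zero]
        exact hz0 l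
      rwa [inv_le_one₀ (zero_lt_iff.2 h3)] at h2
    rw [cr_val_mon] at h1
    obtain ⟨h3, h4⟩ := hi _ _ h1
    have hDC : D * C = 1 := mul_eq_one_comm.1 hst.CD
    have h5 := congrFun (congrFun hDC l) l
    rw [Matrix.mul_apply, Fin.sum_univ_two, h3, h4, Matrix.one_apply_eq] at h5
    simp at h5
  refine ⟨C, D, hst, hzi, fun P hP => ?_⟩
  have hP0 := hPP P hP
  have hnn : ∀ m' ∈ P.support, ∀ l, 0 ≤ Matrix.vecMul (crE m' - crE (top P)) C l := by
    intro m' hm' l
    refine (hgood (crE m' - crE (top P)) ?_ l).resolve_right (hzi l)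
    rw [Finset.mem_toList]
    exact Finset.mem_biUnion.2 ⟨P, hP, Finset.mem_image.2 ⟨m', hm', rfl⟩⟩
  let z : Fin 2 → F := fun l => mon ![u, v] (D l)
  have hzz : ∀ l, z l ≠ 0 := hz0
  let N : MvPolynomial (Fin 2) k := ∑ m' ∈ P.support, MvPolynomial.C (coeff m' P) *
    ∏ l, X l ^ (Matrix.vecMul (crE m' - crE (top P)) C l).toNat
  have hN : aeval z N = ∑ m' ∈ P.support, algebraMap k F (coeff m' P) *
      mon z (Matrix.vecMul (crE m' - crE (top P)) C) := by
    simp only [N, map_sum, map_mul, map_prod, map_pow, aeval_X, algHom_C]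
    refine Finset.sum_congr rfl fun m' hm' => ?_
    rw [cr_mon_nat z _ (hnn m' hm')]
  refine ⟨top P, htop1 P hP0, N, ?_, ?_⟩
  · change O.valuation (aeval z N) = 1
    rw [hN, ← Finset.add_sum_erase _ _ (htop1 P hP0), sub_self, Matrix.zero_vecMul]
    have h1 : O.valuation (algebraMap k F (coeff (top P) P) * mon z 0) = 1 := by
      have : mon z 0 = 1 := by simp [mon]
      rw [this, mul_one]
      exact cr_val_const hO (MvPolynomial.mem_support_iff.1 (htop1 P hP0))
    rw [Valuation.map_add_eq_of_lt_left, h1]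
    rw [h1]
    refine Valuation.map_sum_lt _ one_ne_zero fun m' hm' => ?_
    obtain ⟨h2, h3⟩ := Finset.mem_erase.1 hm'
    rw [mon_new hc hst, map_mul, cr_val_const hO (MvPolynomial.mem_support_iff.1 h3), one_mul]
    exact htop2 P hP0 m' h3 h2
  · change aeval ![u, v] P = mon z _ * aeval z N
    rw [hN, cr_aeval, Finset.mul_sum]
    refine Finset.sum_congr rfl fun m' hm' => ?_
    rw [mul_left_comm, ← mon_add hzz, ← Matrix.add_vecMul, add_sub_cancel, mon_new hc hst]

omit [IsAlgClosed k] [Algebra k F] in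
lemma cr_mon_nsmul {z : Fin 2 → F} (hz : ∀ l, z l ≠ 0) (e : Fin 2 → ℤ) (n : ℕ) :
    mon z (n • e) = mon z e ^ n := by
  induction n with
  | zero => simp [mon]
  | succ n ih => rw [succ_nsmul, mon_add hz, ih, pow_succ]

/-- splitting off the `p`-th power -/
lemma cr_split (p : ℕ) [Fact p.Prime] [CharP k p] (G : MvPolynomial (Fin 2) k) :
    ∃ A B : MvPolynomial (Fin 2) k, G = A ^ p + B ∧
      ∀ m ∈ B.support, ¬ (p ∣ m 0 ∧ p ∣ m 1) := by
  classical
  have hp : 0 < p := (Fact.out : p.Prime).pos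
  choose r hr using fun a : k => IsAlgClosed.exists_pow_nat_eq a hp
  let S := G.support.filter fun m => p ∣ m 0 ∧ p ∣ m 1
  let S' := G.support.filter fun m => ¬ (p ∣ m 0 ∧ p ∣ m 1)
  refine ⟨∑ m ∈ S, monomial (m.mapRange (· / p) (Nat.zero_div p)) (r (coeff m G)),
    ∑ m ∈ S', monomial m (coeff m G), ?_, ?_⟩
  · rw [sum_pow_char]
    conv_lhs => rw [← support_sum_monomial_coeff G]
    rw [← Finset.sum_filter_add_sum_filter_not G.support (fun m => p ∣ m 0 ∧ p ∣ m 1)]
    congr 1
    refine Finset.sum_congr rfl fun m hm => ?_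
    obtain ⟨-, h0, h1⟩ := Finset.mem_filter.1 hm
    have hm' : p • m.mapRange (· / p) (Nat.zero_div p) = m := by
      refine Finsupp.ext fun i => ?_
      fin_cases i
      · simpa using (Nat.mul_div_cancel' h0)
      · simpa using (Nat.mul_div_cancel' h1)
    rw [monomial_pow, hr, hm']
  · intro m hm
    rw [MvPolynomial.mem_support_iff, coeff_sum] at hm
    obtain ⟨m', hm', hne⟩ := Finset.exists_ne_zero_of_sum_ne_zero hm
    rw [coeff_monomial] at hne
    split_ifs at hne with he
    · rw [← he]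
      exact (Finset.mem_filter.1 hm').2
    · exact absurd rfl hne

theorem case_r (p : ℕ) [Fact p.Prime] [CharP k p] {O : ValuationSubring F}
    (hO : ∀ c : k, algebraMap k F c ∈ O) (htr : Algebra.trdeg k F = 2) {u v : F}
    (h : Stg k O u v) (hi : Indep O u v) (g : F) (H : Finset F) : HasNF k p 2 O g H := by
  classical
  have hp : 0 < p := (Fact.out : p.Prime).pos
  have hc : ∀ i, (![u, v] : Fin 2 → F) i ≠ 0 := by
    intro i
    fin_cases i
    · exact h.u0
    · exact h.v0
  choose Nf Df hD hx using fun x : F => exists_frac h.gen x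
  obtain ⟨A, B, hAB, hB⟩ := cr_split p (Nf g * Df g ^ (p - 1))
  let PP : Finset (MvPolynomial (Fin 2) k) :=
    (H.image Nf ∪ H.image Df ∪ {Df g, B}).filter (· ≠ 0)
  obtain ⟨C, D, hst, hzi, hPP⟩ := cr_fam hO h.u0 h.v0 h.hu h.hv hi PP
    fun P hP => (Finset.mem_filter.1 hP).2
  set z : Fin 2 → F := fun l => mon ![u, v] (D l) with hz
  have hz0 : ∀ l, z l ≠ 0 := fun l => mon_ne_zero hc _
  let w : Fin 2 → F := fun _ => 0
  have hloc : ∀ N : MvPolynomial (Fin 2) k, O.valuation (aeval z N) = 1 →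
      ULoc k O (Sum.elim z w) (aeval z N) := fun N hN =>
    ULoc.comp Sum.inl (fun _ => rfl) (ULoc.of_poly hN)
  have hDf0 : ∀ x : F, Df x ≠ 0 := by
    intro x h0
    apply hD x
    rw [h0, map_zero]
  have hNf0 : ∀ x : F, x ≠ 0 → Nf x ≠ 0 := by
    intro x hx0 h0
    apply hx0
    rw [hx x, h0, map_zero, zero_div]
  refine ⟨z, w, fun l => X (Sum.inr l), ?_, ?_, ?_⟩
  · refine ⟨hz0, hst.mem, fun _ => zero_mem _, fun l => by simp [w], ?_, ?_⟩
    · have : (Matrix.of fun l l' : Fin 2 => aeval (Sum.elim z w)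
          (pderiv (Sum.inr l') (X (Sum.inr l) : MvPolynomial (Fin 2 ⊕ Fin 2) k))) =
          (1 : Matrix (Fin 2) (Fin 2) F) := by
        ext l l'
        rw [Matrix.of_apply, pderiv_X]
        by_cases hl : l = l'
        · subst hl
          simp
        · rw [Matrix.one_apply_ne hl, Pi.single_eq_of_ne]
          · simp
          · intro h1
            exact hl (Sum.inr_injective h1)
      rw [this, Matrix.det_one, map_one]
    · rw [eq_top_iff, ← h.gen, IntermediateField.adjoin_le_iff]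
      have hzm : ∀ l, z l ∈ IntermediateField.adjoin k (Set.range z ∪ Set.range w) := fun l =>
        IntermediateField.subset_adjoin _ _ (Or.inl ⟨l, rfl⟩)
      have hmm : ∀ i, (![u, v] : Fin 2 → F) i ∈
          IntermediateField.adjoin k (Set.range z ∪ Set.range w) := by
        intro i
        have h1 := mon_new hc hst (Pi.single i 1)
        rw [mon_single, zpow_one] at h1
        rw [← h1]
        exact prod_mem fun l _ => zpow_mem (hzm l) _
      rintro x hx'
      rcases hx' with rfl | hx'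
      · exact hmm 0
      · rw [Set.mem_singleton_iff.1 hx']
        exact hmm 1
  · intro x hxH hx0
    obtain ⟨m, -, N, hN1, hN2⟩ := hPP (Nf x) (Finset.mem_filter.2 ⟨by
      simp only [Finset.mem_union, Finset.mem_image]
      exact Or.inl (Or.inl ⟨x, hxH, rfl⟩), hNf0 x hx0⟩)
    obtain ⟨m', -, N', hN1', hN2'⟩ := hPP (Df x) (Finset.mem_filter.2 ⟨by
      simp only [Finset.mem_union, Finset.mem_image]
      exact Or.inl (Or.inr ⟨x, hxH, rfl⟩), hDf0 x⟩)
    refine ⟨Matrix.vecMul (crE m) C - Matrix.vecMul (crE m') C,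
      aeval z N * (aeval z N')⁻¹, ?_, ULoc.mul (hloc N hN1) (ULoc.inv (hloc N' hN1'))⟩
    rw [mon_sub hz0]
    conv_lhs => rw [hx x, hN2, hN2']
    rw [mul_div_mul_comm, div_eq_mul_inv (aeval z N)]
  · obtain ⟨mq, -, Nq, hq1, hq2⟩ := hPP (Df g) (Finset.mem_filter.2 ⟨by
      simp, hDf0 g⟩)
    set q : F := aeval ![u, v] (Df g) with hq
    have hq0 : q ≠ 0 := hD g
    refine ⟨aeval ![u, v] A / q, aeval ![u, v] B / q ^ p, ?_, ?_⟩
    · have h1 := congrArg (aeval ![u, v] : MvPolynomial (Fin 2) k →ₐ[k] F) hAB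
      rw [map_mul, map_pow, map_add, map_pow, ← hq] at h1
      rw [div_pow, ← add_div, ← h1, eq_div_iff (pow_ne_zero _ hq0)]
      conv_lhs => rw [hx g, ← hq]
      obtain ⟨n, hn⟩ : ∃ n, p = n + 1 := ⟨p - 1, by omega⟩
      rw [hn, Nat.add_sub_cancel, pow_succ]
      field_simp
    · by_cases hB0 : B = 0
      · left
        rw [hB0, map_zero, zero_div]
      · right
        obtain ⟨m, hm, N, hN1, hN2⟩ := hPP B (Finset.mem_filter.2 ⟨by simp, hB0⟩)
        refine ⟨Matrix.vecMul (crE m) C - p • Matrix.vecMul (crE mq) C,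
          aeval z N * (aeval z Nq ^ p)⁻¹, ?_,
          ULoc.mul (hloc N hN1) (ULoc.inv (ULoc.pow (hloc Nq hq1) p)), ?_⟩
        · rw [mon_sub hz0, cr_mon_nsmul hz0, hN2, hq2, mul_pow, mul_div_mul_comm,
            div_eq_mul_inv (aeval z N)]
        · by_contra hcon
          push Not at hcon
          have h1 : ∀ i, (p : ℤ) ∣ Matrix.vecMul (crE m) C i := by
            intro i
            by_cases h2 : ((((Matrix.vecMul (crE m) C - p • Matrix.vecMul (crE mq) C) i : ℤ)) :
                k) = 0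
            · rw [CharP.intCast_eq_zero_iff k p] at h2
              rw [Pi.sub_apply, Pi.smul_apply, nsmul_eq_mul] at h2
              obtain ⟨t, ht⟩ := h2
              exact ⟨t + Matrix.vecMul (crE mq) C i, by linear_combination ht⟩
            · exact absurd (hcon i h2).1 (hzi i)
          have h2 : ∀ i, (p : ℤ) ∣ crE m i := by
            intro i
            have h3 : Matrix.vecMul (Matrix.vecMul (crE m) C) D = crE m := by
              rw [Matrix.vecMul_vecMul, hst.CD, Matrix.vecMul_one]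
            rw [← h3, Matrix.vecMul, dotProduct, Fin.sum_univ_two]
            exact dvd_add (Dvd.dvd.mul_right (h1 0) _) (Dvd.dvd.mul_right (h1 1) _)
          exact hB m hm ⟨Int.natCast_dvd_natCast.1 (h2 0), Int.natCast_dvd_natCast.1 (h2 1)⟩

end LS
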