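import Pool.Agent.helper90.LS.ADefs
import Pool.Agent.helper90.LS.CaseR

/-! # LUS-ACaseR: independent values, Artin-Schreier version -/

open MvPolynomial

namespace LS

open LU

universe u

variable {k : Type u} {F : Type u} [Field k] [IsAlgClosed k] [Field F] [Algebra k F]

omit [IsAlgClosed k] in
/-- the dominating monomial -/
lemma ar_top {O : ValuationSubring F} (hO : ∀ c : k, algebraMap k F c ∈ O) {u v : F}
    (hu0 : u ≠ 0) (hv0 : v ≠ 0) (hi : Indep O u v) (P : MvPolynomial (Fin 2) k) (hP : P ≠ 0) :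
    ∃ m ∈ P.support, O.valuation (aeval ![u, v] P) = O.valuation (mon ![u, v] (crE m)) ∧
      ∀ s ∈ P.support,
        O.valuation (mon ![u, v] (crE s)) ≤ O.valuation (mon ![u, v] (crE m)) := by
  classical
  have hc : ∀ i, (![u, v] : Fin 2 → F) i ≠ 0 := by
    intro i
    fin_cases i
    · exact hu0
    · exact hv0
  obtain ⟨m, hm, hlt⟩ := cr_top hu0 hv0 hi P hP
  have h0 : 0 < O.valuation (mon ![u, v] (crE m)) := by
    rw [zero_lt_iff, Ne, map_eq_zero]
    exact mon_ne_zero hc _
  have hlt2 : ∀ s ∈ P.support, s ≠ m →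
      O.valuation (mon ![u, v] (crE s)) < O.valuation (mon ![u, v] (crE m)) := by
    intro s hs hne
    have h1 := hlt s hs hne
    rwa [mon_sub hc, map_div₀, div_lt_one₀ h0] at h1
  refine ⟨m, hm, ?_, fun s hs => ?_⟩
  · rw [cr_aeval, ← Finset.add_sum_erase _ _ hm]
    have h1 : O.valuation (algebraMap k F (coeff m P) * mon ![u, v] (crE m)) =
        O.valuation (mon ![u, v] (crE m)) := by
      rw [map_mul, cr_val_const hO (MvPolynomial.mem_support_iff.1 hm), one_mul]
    rw [Valuation.map_add_eq_of_lt_left, h1]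
    rw [h1]
    refine Valuation.map_sum_lt _ h0.ne' fun s hs => ?_
    obtain ⟨h2, h3⟩ := Finset.mem_erase.1 hs
    rw [map_mul, cr_val_const hO (MvPolynomial.mem_support_iff.1 h3), one_mul]
    exact hlt2 s h3 h2
  · by_cases h : s = m
    · rw [h]
    · exact (hlt2 s hs h).le

/-- splitting off a set of `p`-th power monomials -/
lemma ar_split (p : ℕ) [Fact p.Prime] [CharP k p] (G : MvPolynomial (Fin 2) k)
    (S : Finset (Fin 2 →₀ ℕ)) (hS : S ⊆ G.support) (hSp : ∀ m ∈ S, p ∣ m 0 ∧ p ∣ m 1) :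
    ∃ A B : MvPolynomial (Fin 2) k, G = A ^ p + B ∧ (∀ m ∈ A.support, p • m ∈ S) ∧
      ∀ m ∈ B.support, m ∈ G.support ∧ m ∉ S := by
  classical
  have hp : 0 < p := (Fact.out : p.Prime).pos
  choose r hr using fun a : k => IsAlgClosed.exists_pow_nat_eq a hp
  have hdiv : ∀ m ∈ S, p • m.mapRange (· / p) (Nat.zero_div p) = m := by
    intro m hm
    obtain ⟨h0, h1⟩ := hSp m hm
    refine Finsupp.ext fun i => ?_
    fin_cases i
    · simpa using (Nat.mul_div_cancel' h0)
    · simpa using (Nat.mul_div_cancel' h1)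
  refine ⟨∑ m ∈ S, monomial (m.mapRange (· / p) (Nat.zero_div p)) (r (coeff m G)),
    ∑ m ∈ G.support \ S, monomial m (coeff m G), ?_, ?_, ?_⟩
  · rw [sum_pow_char]
    conv_lhs => rw [← support_sum_monomial_coeff G]
    rw [← Finset.sum_sdiff hS, add_comm]
    congr 1
    refine Finset.sum_congr rfl fun m hm => ?_
    rw [monomial_pow, hr, hdiv m hm]
  · intro m hm
    rw [MvPolynomial.mem_support_iff, coeff_sum] at hm
    obtain ⟨m', hm', hne⟩ := Finset.exists_ne_zero_of_sum_ne_zero hm
    rw [coeff_monomial] at hne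
    split_ifs at hne with he
    · rw [← he, hdiv m' hm']
      exact hm'
    · exact absurd rfl hne
  · intro m hm
    rw [MvPolynomial.mem_support_iff, coeff_sum] at hm
    obtain ⟨m', hm', hne⟩ := Finset.exists_ne_zero_of_sum_ne_zero hm
    rw [coeff_monomial] at hne
    split_ifs at hne with he
    · rw [← he]
      exact Finset.mem_sdiff.1 hm'
    · exact absurd rfl hne

omit [IsAlgClosed k] [Algebra k F] in
/-- rank of an exponent by its value, among the exponents at most `d` -/
noncomputable def arRk (O : ValuationSubring F) (u v : F) (d : ℕ) (s : Fin 2 →₀ ℕ) : ℕ := by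
  classical exact ((Finset.range (d + 1) ×ˢ Finset.range (d + 1)).filter fun x =>
    O.valuation u ^ x.1 * O.valuation v ^ x.2 < O.valuation u ^ s 0 * O.valuation v ^ s 1).card

omit [IsAlgClosed k] [Algebra k F] in
lemma ar_val (O : ValuationSubring F) (u v : F) (s : Fin 2 →₀ ℕ) :
    O.valuation (mon ![u, v] (crE s)) = O.valuation u ^ s 0 * O.valuation v ^ s 1 := by
  rw [cr_val_mon]
  simp [crE]

omit [IsAlgClosed k] [Algebra k F] in
lemma ar_rk_lt (O : ValuationSubring F) (u v : F) (d : ℕ) {s t : Fin 2 →₀ ℕ} (h0 : s 0 ≤ d)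
    (h1 : s 1 ≤ d)
    (h : O.valuation (mon ![u, v] (crE s)) < O.valuation (mon ![u, v] (crE t))) :
    arRk O u v d s < arRk O u v d t := by
  classical
  rw [ar_val, ar_val] at h
  unfold arRk
  refine Finset.card_lt_card ?_
  rw [Finset.ssubset_iff_of_subset]
  · refine ⟨(s 0, s 1), ?_, ?_⟩
    · simp only [Finset.mem_filter, Finset.mem_product, Finset.mem_range]
      exact ⟨⟨by omega, by omega⟩, h⟩
    · simp
  · intro x hx
    rw [Finset.mem_filter] at hx ⊢
    exact ⟨hx.1, hx.2.trans h⟩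

omit [IsAlgClosed k] [Algebra k F] in
lemma ar_rk_bd (O : ValuationSubring F) (u v : F) (d : ℕ) (s : Fin 2 →₀ ℕ) :
    arRk O u v d s < (d + 1) * (d + 1) + 1 := by
  classical
  unfold arRk
  refine Nat.lt_succ_of_le ((Finset.card_filter_le _ _).trans ?_)
  rw [Finset.card_product, Finset.card_range]

omit [IsAlgClosed k] in
lemma ar_deg {P : MvPolynomial (Fin 2) k} {d : ℕ} (h : P.totalDegree ≤ d) {s : Fin 2 →₀ ℕ}
    (hs : s ∈ P.support) : s 0 + s 1 ≤ d := by
  have h1 := MvPolynomial.le_totalDegree hs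
  rw [Finsupp.sum_fintype _ _ (fun _ => rfl), Fin.sum_univ_two] at h1
  exact h1.trans h

/-- removing the `p`-th power monomials with a pole -/
theorem ar_red (p : ℕ) [Fact p.Prime] [CharP k p] {O : ValuationSubring F}
    (hO : ∀ c : k, algebraMap k F c ∈ O) {u v : F} (hu0 : u ≠ 0) (hv0 : v ≠ 0)
    (hi : Indep O u v) {Q : MvPolynomial (Fin 2) k} (hQ : aeval ![u, v] Q ≠ 0) (d : ℕ)
    (hd : p * Q.totalDegree ≤ d) (n : ℕ) : ∀ G : MvPolynomial (Fin 2) k, G.totalDegree ≤ d →
    (∀ s ∈ G.support, p ∣ s 0 → p ∣ s 1 →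
      O.valuation (aeval ![u, v] Q) ^ p < O.valuation (mon ![u, v] (crE s)) →
        arRk O u v d s < n) →
    ∃ (A : F) (G' : MvPolynomial (Fin 2) k),
      aeval ![u, v] G / aeval ![u, v] Q ^ p = A ^ p - A + aeval ![u, v] G' / aeval ![u, v] Q ^ p ∧
      ∀ s ∈ G'.support, p ∣ s 0 → p ∣ s 1 →
        O.valuation (mon ![u, v] (crE s)) ≤ O.valuation (aeval ![u, v] Q) ^ p := by
  classical
  have hp : p.Prime := Fact.out
  have hF : CharP F p := charP_of_injective_algebraMap (algebraMap k F).injective p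
  have hE : ExpChar F p := ExpChar.prime hp
  have hc : ∀ i, (![u, v] : Fin 2 → F) i ≠ 0 := by
    intro i
    fin_cases i
    · exact hu0
    · exact hv0
  induction n with
  | zero =>
    intro G hG hbad
    refine ⟨0, G, by rw [zero_pow hp.ne_zero, sub_zero, zero_add], fun s hs h0 h1 => ?_⟩
    by_contra hcon
    exact absurd (hbad s hs h0 h1 (not_le.1 hcon)) (Nat.not_lt_zero _)
  | succ n ih =>
    intro G hG hbad
    set S : Finset (Fin 2 →₀ ℕ) := G.support.filter fun s => (p ∣ s 0 ∧ p ∣ s 1) ∧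
      O.valuation (aeval ![u, v] Q) ^ p < O.valuation (mon ![u, v] (crE s)) with hS
    obtain ⟨A0, B, hAB, hA0, hB⟩ := ar_split p G S (Finset.filter_subset _ _)
      (fun m hm => (Finset.mem_filter.1 hm).2.1)
    have hdegA : p * A0.totalDegree ≤ d := by
      have h1 : A0.totalDegree ≤ d / p := by
        refine Finset.sup_le fun m hm => ?_
        rw [Finsupp.sum_fintype _ _ (fun _ => rfl), Fin.sum_univ_two,
          Nat.le_div_iff_mul_le hp.pos]
        have h2 := ar_deg hG (Finset.mem_filter.1 (hA0 m hm)).1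
        simp only [Finsupp.smul_apply, smul_eq_mul] at h2
        nlinarith
      calc p * A0.totalDegree ≤ p * (d / p) := Nat.mul_le_mul_left _ h1
        _ ≤ d := Nat.mul_div_le _ _
    have hdegB : B.totalDegree ≤ d := by
      refine le_trans (Finset.sup_le fun m hm => ?_) hG
      exact MvPolynomial.le_totalDegree (hB m hm).1
    have hdegAQ : (A0 * Q ^ (p - 1)).totalDegree ≤ d := by
      have h1 := MvPolynomial.totalDegree_mul A0 (Q ^ (p - 1))
      have h2 := MvPolynomial.totalDegree_pow Q (p - 1)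
      obtain ⟨n, hn⟩ : ∃ n, p = n + 1 := ⟨p - 1, by have := hp.pos; omega⟩
      rw [hn, Nat.add_sub_cancel] at h1 h2 ⊢
      rw [hn] at hdegA hd
      have h3 : (n + 1) * (A0.totalDegree + n * Q.totalDegree) ≤ (n + 1) * d := by
        nlinarith
      have h4 := Nat.le_of_mul_le_mul_left h3 (Nat.succ_pos n)
      omega
    have hdeg1 : (B + A0 * Q ^ (p - 1)).totalDegree ≤ d :=
      (MvPolynomial.totalDegree_add _ _).trans (max_le hdegB hdegAQ)
    obtain ⟨A', G', h1, h2⟩ := ih (B + A0 * Q ^ (p - 1)) hdeg1 (by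
      intro s hs hs0 hs1 hsv
      have hsd := ar_deg hdeg1 hs
      rcases Finset.mem_union.1 (MvPolynomial.support_add hs) with h3 | h3
      · exact absurd (Finset.mem_filter.2 ⟨(hB s h3).1, ⟨hs0, hs1⟩, hsv⟩) (hB s h3).2
      · have hAQ0 : A0 * Q ^ (p - 1) ≠ 0 := by
          intro h0
          rw [h0] at h3
          simp at h3
        have hA00 : A0 ≠ 0 := left_ne_zero_of_mul hAQ0
        obtain ⟨m, hm, hmv, -⟩ := ar_top hO hu0 hv0 hi A0 hA00
        obtain ⟨m2, -, hmv2, hmax⟩ := ar_top hO hu0 hv0 hi _ hAQ0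
        have h4 := hmax s h3
        rw [← hmv2, map_mul, map_mul, hmv, map_pow, map_pow] at h4
        obtain ⟨h5, h6, h7⟩ := Finset.mem_filter.1 (hA0 m hm)
        have h8 : O.valuation (mon ![u, v] (crE (p • m))) =
            O.valuation (mon ![u, v] (crE m)) ^ p := by
          rw [ar_val, ar_val, mul_pow, ← pow_mul, ← pow_mul]
          simp [mul_comm]
        rw [h8] at h7
        have h9 : O.valuation (aeval ![u, v] Q) < O.valuation (mon ![u, v] (crE m)) :=
          lt_of_pow_lt_pow_left₀ p zero_le h7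
        have h10 : O.valuation (mon ![u, v] (crE s)) < O.valuation (mon ![u, v] (crE (p • m))) := by
          rw [h8]
          refine lt_of_le_of_lt h4 ?_
          obtain ⟨n, hn⟩ : ∃ n, p = n + 2 := ⟨p - 2, by have := hp.two_le; omega⟩
          rw [hn, show n + 2 - 1 = n + 1 from rfl, pow_succ' _ (n + 1)]
          refine mul_lt_mul_of_pos_left (pow_lt_pow_left₀ h9 zero_le (Nat.succ_ne_zero n)) ?_
          exact lt_of_le_of_lt zero_le h9
        have h11 := ar_rk_lt O u v d (s := s) (by omega) (by omega) h10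
        have h12 := hbad (p • m) h5 h6.1 h6.2 (by rw [h8]; exact h7)
        omega)
    refine ⟨aeval ![u, v] A0 / aeval ![u, v] Q + A', G', ?_, h2⟩
    have h3 : aeval ![u, v] A0 / aeval ![u, v] Q =
        aeval ![u, v] (A0 * Q ^ (p - 1)) / aeval ![u, v] Q ^ p := by
      rw [map_mul, map_pow]
      obtain ⟨n, hn⟩ : ∃ n, p = n + 1 := ⟨p - 1, by have := hp.pos; omega⟩
      rw [hn, Nat.add_sub_cancel, pow_succ]
      field_simp
    have h4 : aeval ![u, v] G / aeval ![u, v] Q ^ p =
        (aeval ![u, v] A0 / aeval ![u, v] Q) ^ p + aeval ![u, v] B / aeval ![u, v] Q ^ p := by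
      rw [hAB, map_add, map_pow, add_div, div_pow]
    rw [map_add, add_div, ← h3] at h1
    rw [h4, add_pow_expChar]
    linear_combination h1

omit [IsAlgClosed k] in
/-- `cr_fam` with additional exponents `E0` -/
theorem ar_fam {O : ValuationSubring F} (hO : ∀ c : k, algebraMap k F c ∈ O) {u v : F}
    (hu0 : u ≠ 0) (hv0 : v ≠ 0) (hu : O.valuation u < 1) (hv : O.valuation v < 1)
    (hi : Indep O u v) (PP : Finset (MvPolynomial (Fin 2) k)) (hPP : ∀ P ∈ PP, P ≠ 0) (E0 : Finset (Fin 2 → ℤ))
    (hE0 : ∀ a ∈ E0, mon ![u, v] a ∈ O) :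
    ∃ C D : Matrix (Fin 2) (Fin 2) ℤ, IsSt O ![u, v] C D ∧
      (∀ l, (mon ![u, v] (D l))⁻¹ ∉ O) ∧
      (∀ a ∈ E0, ∀ l, 0 ≤ Matrix.vecMul a C l) ∧
      ∀ P ∈ PP, ∃ m ∈ P.support, ∃ N : MvPolynomial (Fin 2) k,
        O.valuation (aeval (fun l => mon ![u, v] (D l)) N) = 1 ∧
        aeval ![u, v] P = mon (fun l => mon ![u, v] (D l)) (Matrix.vecMul (crE m) C) *
          aeval (fun l => mon ![u, v] (D l)) N := by
  classical
  have hc : ∀ i, (![u, v] : Fin 2 → F) i ≠ 0 := by
    intro i
    fin_cases i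
    · exact hu0
    · exact hv0
  have hcO : ∀ i, (![u, v] : Fin 2 → F) i ∈ O := by
    intro i
    fin_cases i
    · exact (O.valuation_le_one_iff _).1 hu.le
    · exact (O.valuation_le_one_iff _).1 hv.le
  have key : ∀ P : MvPolynomial (Fin 2) k, P ≠ 0 → ∃ m ∈ P.support, ∀ m' ∈ P.support,
      m' ≠ m → O.valuation (mon ![u, v] (crE m' - crE m)) < 1 :=
    fun P hP => cr_top hu0 hv0 hi P hP
  choose! top htop1 htop2 using key
  let T : Finset (Fin 2 → ℤ) :=
    (PP.biUnion fun P => P.support.image fun m' => crE m' - crE (top P)) ∪ E0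
  have hT : ∀ a ∈ T.toList, mon ![u, v] a ∈ O := by
    intro a ha
    rw [Finset.mem_toList] at ha
    rcases Finset.mem_union.1 ha with ha | ha
    swap
    · exact hE0 a ha
    obtain ⟨P, hP, ha⟩ := Finset.mem_biUnion.1 ha
    obtain ⟨m', hm', rfl⟩ := Finset.mem_image.1 ha
    by_cases he : m' = top P
    · subst he
      rw [sub_self]
      simp [mon, one_mem]
    · exact (O.valuation_le_one_iff _).1 (htop2 P (hPP P hP) m' hm' he).le
  obtain ⟨C, D, hst, hgood⟩ := perron hc hcO T.toList hT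
  have hz0 : ∀ l, mon ![u, v] (D l) ≠ 0 := fun l => mon_ne_zero hc _
  have hzi : ∀ l, (mon ![u, v] (D l))⁻¹ ∉ O := by
    intro l hl
    have h1 : O.valuation (mon ![u, v] (D l)) = 1 := by
      refine le_antisymm ((O.valuation_le_one_iff _).2 (hst.mem l)) ?_
      have h2 := (O.valuation_le_one_iff _).2 hl
      rw [map_inv₀] at h2
      have h3 : O.valuation (mon ![u, v] (D l)) ≠ 0 := by
        rw [Ne, map_eq_zero]
        exact hz0 l
      rwa [inv_le_one₀ (zero_lt_iff.2 h3)] at h2
    rw [cr_val_mon] at h1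
    obtain ⟨h3, h4⟩ := hi _ _ h1
    have hDC : D * C = 1 := mul_eq_one_comm.1 hst.CD
    have h5 := congrFun (congrFun hDC l) l
    rw [Matrix.mul_apply, Fin.sum_univ_two, h3, h4, Matrix.one_apply_eq] at h5
    simp at h5
  refine ⟨C, D, hst, hzi, fun a ha l => (hgood a (by
    rw [Finset.mem_toList]
    exact Finset.mem_union_right _ ha) l).resolve_right (hzi l), fun P hP => ?_⟩
  have hP0 := hPP P hP
  have hnn : ∀ m' ∈ P.support, ∀ l, 0 ≤ Matrix.vecMul (crE m' - crE (top P)) C l := by
    intro m' hm' l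
    refine (hgood (crE m' - crE (top P)) ?_ l).resolve_right (hzi l)
    rw [Finset.mem_toList]
    exact Finset.mem_union_left _
      (Finset.mem_biUnion.2 ⟨P, hP, Finset.mem_image.2 ⟨m', hm', rfl⟩⟩)
  let z : Fin 2 → F := fun l => mon ![u, v] (D l)
  have hzz : ∀ l, z l ≠ 0 := hz0
  let N : MvPolynomial (Fin 2) k := ∑ m' ∈ P.support, MvPolynomial.C (coeff m' P) *
    ∏ l, X l ^ (Matrix.vecMul (crE m' - crE (top P)) C l).toNat
  have hN : aeval z N = ∑ m' ∈ P.support, algebraMap k F (coeff m' P) *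
      mon z (Matrix.vecMul (crE m' - crE (top P)) C) := by
    simp only [N, map_sum, map_mul, map_prod, map_pow, aeval_X, algHom_C]
    refine Finset.sum_congr rfl fun m' hm' => ?_
    rw [cr_mon_nat z _ (hnn m' hm')]
  refine ⟨top P, htop1 P hP0, N, ?_, ?_⟩
  · change O.valuation (aeval z N) = 1
    rw [hN, ← Finset.add_sum_erase _ _ (htop1 P hP0), sub_self, Matrix.zero_vecMul]
    have h1 : O.valuation (algebraMap k F (coeff (top P) P) * mon z 0) = 1 := by
      have : mon z 0 = 1 := by simp [mon]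
      rw [this, mul_one]
      exact cr_val_const hO (MvPolynomial.mem_support_iff.1 (htop1 P hP0))
    rw [Valuation.map_add_eq_of_lt_left, h1]
    rw [h1]
    refine Valuation.map_sum_lt _ one_ne_zero fun m' hm' => ?_
    obtain ⟨h2, h3⟩ := Finset.mem_erase.1 hm'
    rw [mon_new hc hst, map_mul, cr_val_const hO (MvPolynomial.mem_support_iff.1 h3), one_mul]
    exact htop2 P hP0 m' h3 h2
  · change aeval ![u, v] P = mon z _ * aeval z N
    rw [hN, cr_aeval, Finset.mul_sum]
    refine Finset.sum_congr rfl fun m' hm' => ?_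
    rw [mul_left_comm, ← mon_add hzz, ← Matrix.add_vecMul, add_sub_cancel, mon_new hc hst]

theorem as_case_r (p : ℕ) [Fact p.Prime] [CharP k p] {O : ValuationSubring F}
    (hO : ∀ c : k, algebraMap k F c ∈ O) (htr : Algebra.trdeg k F = 2) {u v : F}
    (h : Stg k O u v) (hi : Indep O u v) (g : F) (H : Finset F) : HasAS k p 2 O g H := by
  classical
  have hp : 0 < p := (Fact.out : p.Prime).pos
  have hc : ∀ i, (![u, v] : Fin 2 → F) i ≠ 0 := by
    intro i
    fin_cases i
    · exact h.u0
    · exact h.v0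
  choose Nf Df hD hx using fun x : F => exists_frac h.gen x
  set q : F := aeval ![u, v] (Df g) with hq
  have hq0 : q ≠ 0 := hD g
  have hDf0 : ∀ x : F, Df x ≠ 0 := by
    intro x h0
    apply hD x
    rw [h0, map_zero]
  have hNf0 : ∀ x : F, x ≠ 0 → Nf x ≠ 0 := by
    intro x hx0 h0
    apply hx0
    rw [hx x, h0, map_zero, zero_div]
  -- removing the bad monomials
  obtain ⟨A, G, hAG, hG⟩ := ar_red p hO h.u0 h.v0 hi (hD g)
    (max (Nf g * Df g ^ (p - 1)).totalDegree (p * (Df g).totalDegree)) (le_max_right _ _) _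
    (Nf g * Df g ^ (p - 1)) (le_max_left _ _) (fun s _ _ _ _ => ar_rk_bd O u v _ s)
  rw [← hq] at hAG hG
  have hgA : g = A ^ p - A + aeval ![u, v] G / q ^ p := by
    rw [← hAG, map_mul, map_pow, ← hq]
    conv_lhs => rw [hx g, ← hq]
    obtain ⟨n, hn⟩ : ∃ n, p = n + 1 := ⟨p - 1, by omega⟩
    rw [hn, Nat.add_sub_cancel, pow_succ]
    field_simp
  obtain ⟨mq, hmq, hmqv, hmqmax⟩ := ar_top hO h.u0 h.v0 hi (Df g) (hDf0 g)
  rw [← hq] at hmqv
  have hq1v : O.valuation (mon ![u, v] (p • crE mq)) = O.valuation q ^ p := by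
    rw [cr_mon_nsmul hc, map_pow, ← hmqv]
  let E0 : Finset (Fin 2 → ℤ) := (G.support.filter fun s =>
    O.valuation (mon ![u, v] (crE s)) ≤ O.valuation q ^ p).image fun s => crE s - p • crE mq
  have hE0 : ∀ a ∈ E0, mon ![u, v] a ∈ O := by
    intro a ha
    obtain ⟨s, hs, rfl⟩ := Finset.mem_image.1 ha
    rw [← O.valuation_le_one_iff, mon_sub hc, map_div₀, hq1v]
    exact div_le_one_of_le₀ (Finset.mem_filter.1 hs).2 zero_le
  let PP : Finset (MvPolynomial (Fin 2) k) :=
    (H.image Nf ∪ H.image Df ∪ {Df g, G}).filter (· ≠ 0)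
  obtain ⟨C, D, hst, hzi, hE0', hPP⟩ := ar_fam hO h.u0 h.v0 h.hu h.hv hi PP
    (fun P hP => (Finset.mem_filter.1 hP).2) E0 hE0
  set z : Fin 2 → F := fun l => mon ![u, v] (D l) with hz
  have hz0 : ∀ l, z l ≠ 0 := fun l => mon_ne_zero hc _
  let w : Fin 2 → F := fun _ => 0
  have hloc : ∀ N : MvPolynomial (Fin 2) k, O.valuation (aeval z N) = 1 →
      ULoc k O (Sum.elim z w) (aeval z N) := fun N hN =>
    ULoc.comp Sum.inl (fun _ => rfl) (ULoc.of_poly hN)
  refine ⟨z, w, fun l => X (Sum.inr l), ?_, ?_, ?_⟩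
  · refine ⟨hz0, hst.mem, fun _ => zero_mem _, fun l => by simp [w], ?_, ?_⟩
    · have : (Matrix.of fun l l' : Fin 2 => aeval (Sum.elim z w)
          (pderiv (Sum.inr l') (X (Sum.inr l) : MvPolynomial (Fin 2 ⊕ Fin 2) k))) =
          (1 : Matrix (Fin 2) (Fin 2) F) := by
        ext l l'
        rw [Matrix.of_apply, pderiv_X]
        by_cases hl : l = l'
        · subst hl
          simp
        · rw [Matrix.one_apply_ne hl, Pi.single_eq_of_ne]
          · simp
          · intro h1
            exact hl (Sum.inr_injective h1)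
      rw [this, Matrix.det_one, map_one]
    · rw [eq_top_iff, ← h.gen, IntermediateField.adjoin_le_iff]
      have hzm : ∀ l, z l ∈ IntermediateField.adjoin k (Set.range z ∪ Set.range w) := fun l =>
        IntermediateField.subset_adjoin _ _ (Or.inl ⟨l, rfl⟩)
      have hmm : ∀ i, (![u, v] : Fin 2 → F) i ∈
          IntermediateField.adjoin k (Set.range z ∪ Set.range w) := by
        intro i
        have h1 := mon_new hc hst (Pi.single i 1)
        rw [mon_single, zpow_one] at h1
        rw [← h1]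
        exact prod_mem fun l _ => zpow_mem (hzm l) _
      rintro x hx'
      rcases hx' with rfl | hx'
      · exact hmm 0
      · rw [Set.mem_singleton_iff.1 hx']
        exact hmm 1
  · intro x hxH hx0
    obtain ⟨m, -, N, hN1, hN2⟩ := hPP (Nf x) (Finset.mem_filter.2 ⟨by
      simp only [Finset.mem_union, Finset.mem_image]
      exact Or.inl (Or.inl ⟨x, hxH, rfl⟩), hNf0 x hx0⟩)
    obtain ⟨m', -, N', hN1', hN2'⟩ := hPP (Df x) (Finset.mem_filter.2 ⟨by
      simp only [Finset.mem_union, Finset.mem_image]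
      exact Or.inl (Or.inr ⟨x, hxH, rfl⟩), hDf0 x⟩)
    refine ⟨Matrix.vecMul (crE m) C - Matrix.vecMul (crE m') C,
      aeval z N * (aeval z N')⁻¹, ?_, ULoc.mul (hloc N hN1) (ULoc.inv (hloc N' hN1'))⟩
    rw [mon_sub hz0]
    conv_lhs => rw [hx x, hN2, hN2']
    rw [mul_div_mul_comm, div_eq_mul_inv (aeval z N)]
  · obtain ⟨mq', hmq', Nq, hq1, hq2⟩ := hPP (Df g) (Finset.mem_filter.2 ⟨by
      simp, hDf0 g⟩)
    rw [← hq] at hq2
    refine ⟨A, aeval ![u, v] G / q ^ p, hgA, ?_⟩
    by_cases hB0 : G = 0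
    · left
      rw [hB0, map_zero, zero_div]
      exact ⟨0, 1, by rw [map_one, map_one], by rw [map_zero, zero_div]⟩
    · obtain ⟨m, hm, N, hN1, hN2⟩ := hPP G (Finset.mem_filter.2 ⟨by simp, hB0⟩)
      have hGv : O.valuation (aeval ![u, v] G) = O.valuation (mon ![u, v] (crE m)) := by
        rw [hN2, map_mul, hN1, mul_one, mon_new hc hst]
      obtain ⟨mt, hmt, hmtv, hmtmax⟩ := ar_top hO h.u0 h.v0 hi G hB0
      rcases le_or_gt (O.valuation (aeval ![u, v] G)) (O.valuation q ^ p) with hle | hgt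
      · left
        -- all monomials are regular
        have hall : ∀ s ∈ G.support, ∀ l, 0 ≤ Matrix.vecMul (crE s - p • crE mq) C l := by
          intro s hs l
          refine hE0' _ (Finset.mem_image.2 ⟨s, Finset.mem_filter.2 ⟨hs, ?_⟩, rfl⟩) l
          exact (hmtmax s hs).trans (hmtv ▸ hle)
        have hmm : mq' = mq := by
          have h1 : O.valuation q = O.valuation (mon ![u, v] (crE mq')) := by
            rw [hq2, map_mul, hq1, mul_one, mon_new hc hst]
          have h2 : O.valuation (mon ![u, v] (crE mq' - crE mq)) = 1 := by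
            rw [mon_sub hc, map_div₀, ← h1, ← hmqv, div_self]
            rw [Ne, map_eq_zero]
            exact hq0
          rw [cr_val_mon] at h2
          obtain ⟨h3, h4⟩ := hi _ _ h2
          ext i
          fin_cases i
          · simp only [Pi.sub_apply, crE] at h3
            simp only [Fin.zero_eta]
            omega
          · simp only [Pi.sub_apply, crE] at h4
            simp only [Fin.mk_one]
            omega
        let N2 : MvPolynomial (Fin 2) k := ∑ s ∈ G.support, MvPolynomial.C (coeff s G) *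
          ∏ l, X l ^ (Matrix.vecMul (crE s - p • crE mq) C l).toNat
        have hN2z : aeval z N2 = ∑ s ∈ G.support, algebraMap k F (coeff s G) *
            mon z (Matrix.vecMul (crE s - p • crE mq) C) := by
          simp only [N2, map_sum, map_mul, map_prod, map_pow, aeval_X, algHom_C]
          refine Finset.sum_congr rfl fun s hs => ?_
          rw [cr_mon_nat z _ (hall s hs)]
        have hGz : aeval ![u, v] G =
            mon z (p • Matrix.vecMul (crE mq) C) * aeval z N2 := by
          rw [hN2z, cr_aeval, Finset.mul_sum]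
          refine Finset.sum_congr rfl fun s _ => ?_
          rw [mul_left_comm, ← mon_add hz0, ← Matrix.smul_vecMul, ← Matrix.add_vecMul,
            add_sub_cancel, mon_new hc hst]
        have hfin : aeval ![u, v] G / q ^ p = aeval z N2 / aeval z (Nq ^ p) := by
          rw [hGz, hq2, hmm, mul_pow, ← cr_mon_nsmul hz0, map_pow,
            mul_div_mul_left _ _ (mon_ne_zero hz0 _)]
        have hl : LLoc k O z (aeval z N2 / aeval z (Nq ^ p)) :=
          ⟨N2, Nq ^ p, by rw [map_pow, map_pow, hq1, one_pow], rfl⟩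
        rw [hfin]
        exact LLoc.comp Sum.inl (fun _ => rfl) hl
      · right
        refine ⟨⟨Matrix.vecMul (crE m) C - p • Matrix.vecMul (crE mq') C,
          aeval z N * (aeval z Nq ^ p)⁻¹, ?_,
          ULoc.mul (hloc N hN1) (ULoc.inv (ULoc.pow (hloc Nq hq1) p)), ?_⟩, ?_⟩
        · rw [mon_sub hz0, cr_mon_nsmul hz0, hN2, hq2, mul_pow, mul_div_mul_comm,
            div_eq_mul_inv (aeval z N)]
        · by_contra hcon
          push Not at hcon
          have h1 : ∀ i, (p : ℤ) ∣ Matrix.vecMul (crE m) C i := by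
            intro i
            by_cases h2 : ((((Matrix.vecMul (crE m) C - p • Matrix.vecMul (crE mq') C) i : ℤ)) :
                k) = 0
            · rw [CharP.intCast_eq_zero_iff k p] at h2
              rw [Pi.sub_apply, Pi.smul_apply, nsmul_eq_mul] at h2
              obtain ⟨t, ht⟩ := h2
              exact ⟨t + Matrix.vecMul (crE mq') C i, by linear_combination ht⟩
            · exact absurd (hcon i h2).1 (hzi i)
          have h2 : ∀ i, (p : ℤ) ∣ crE m i := by
            intro i
            have h3 : Matrix.vecMul (Matrix.vecMul (crE m) C) D = crE m := by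
              rw [Matrix.vecMul_vecMul, hst.CD, Matrix.vecMul_one]
            rw [← h3, Matrix.vecMul, dotProduct, Fin.sum_univ_two]
            exact dvd_add (Dvd.dvd.mul_right (h1 0) _) (Dvd.dvd.mul_right (h1 1) _)
          have h3 := hG m hm (Int.natCast_dvd_natCast.1 (h2 0)) (Int.natCast_dvd_natCast.1 (h2 1))
          rw [← hGv] at h3
          exact absurd h3 (not_le.2 hgt)
        · have h1 : 0 < O.valuation q ^ p := by
            rw [zero_lt_iff]
            exact pow_ne_zero _ (by rw [Ne, map_eq_zero]; exact hq0)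
          rw [map_div₀, map_pow, one_lt_div₀ h1]
          exact hgt

end LS
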