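import Pool.Agent.helper90.LS.Defs
import Pool.Agent.helper90.LP.LocDec

/-! # LUS-CurveNF: normal forms on curves -/

open MvPolynomial

namespace LS

open LU

universe u

namespace CurveNF

/-- the variables `0, 1` among `Fin 1 ⊕ Fin 2` -/
def ps : Fin 2 → Fin 1 ⊕ Fin 2 := ![Sum.inl 0, Sum.inr 0]

lemma ps_inj : Function.Injective ps := by
  intro i j h
  fin_cases i <;> fin_cases j <;> simp_all [ps]

lemma ps_ne (i : Fin 2) : ps i ≠ Sum.inr 1 := by
  fin_cases i <;> simp [ps]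

variable {k : Type u} {F : Type u} [Field k] [Field F] [Algebra k F]

lemma aeval_ps (u w : F) (N : MvPolynomial (Fin 2) k) :
    aeval (Sum.elim ![u] ![w, 0]) (rename ps N) = aeval ![u, w] N := by
  rw [aeval_rename]
  congr 2
  funext i
  fin_cases i <;> rfl

lemma uloc_ps {O : ValuationSubring F} {u w : F} {N D : MvPolynomial (Fin 2) k}
    (hN : O.valuation (aeval ![u, w] N) = 1) (hD : O.valuation (aeval ![u, w] D) = 1) :
    ULoc k O (Sum.elim ![u] ![w, 0]) (aeval ![u, w] N / aeval ![u, w] D) := by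
  refine ⟨rename ps N, rename ps D, ?_, ?_, ?_⟩
  · rw [aeval_ps]; exact hN
  · rw [aeval_ps]; exact hD
  · rw [aeval_ps, aeval_ps]

lemma mon_fin_one (u : F) (m : ℤ) : mon ![u] (fun _ => m) = u ^ m := by
  simp [mon]

lemma chart_of_germ {O : ValuationSubring F} (hO : ∀ c : k, algebraMap k F c ∈ O) {u w : F}
    {Φ : MvPolynomial (Fin 2) k} (hG : IsGerm O u w Φ) :
    Chart k O ![u] ![w, 0] ![rename ps Φ, X (Sum.inr 1)] where
  u0 i := by
    fin_cases i
    exact hG.hu0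
  uO i := by
    fin_cases i
    exact hG.huO
  wO l := by
    fin_cases l
    · exact hG.hwO
    · exact O.zero_mem
  rel l := by
    fin_cases l
    · show aeval (Sum.elim ![u] ![w, 0]) (rename ps Φ) = 0
      rw [aeval_ps]
      exact hG.hΦ
    · show aeval (Sum.elim ![u] ![w, 0]) (X (Sum.inr 1) : MvPolynomial (Fin 1 ⊕ Fin 2) k) = 0
      rw [aeval_X]
      rfl
  jac := by
    rw [Matrix.det_fin_two]
    simp only [Matrix.of_apply, Matrix.cons_val_zero, Matrix.cons_val_one]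
    have h00 : aeval (Sum.elim ![u] ![w, 0]) (pderiv (Sum.inr 0) (rename ps Φ)) =
        aeval ![u, w] (pderiv 1 Φ) := by
      have h : (Sum.inr 0 : Fin 1 ⊕ Fin 2) = ps 1 := rfl
      rw [h, pderiv_rename ps_inj, aeval_ps]
    have h10 : pderiv (Sum.inr 0) (X (Sum.inr 1) : MvPolynomial (Fin 1 ⊕ Fin 2) k) = 0 :=
      pderiv_X_of_ne (by simp)
    have h11 : pderiv (Sum.inr 1) (X (Sum.inr 1) : MvPolynomial (Fin 1 ⊕ Fin 2) k) = 1 :=
      pderiv_X_self _
    rw [h00, h10, h11, map_zero, mul_zero, sub_zero, map_one, mul_one]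
    exact LT.val_one_of hG.hΦ0 (LP.germ_mem hO hG _) hG.hΦO
  gen := by
    rw [eq_top_iff, ← hG.gen]
    refine IntermediateField.adjoin.mono _ _ _ ?_
    rintro x (rfl | hx)
    · exact Or.inl ⟨0, rfl⟩
    · right
      rw [Set.mem_singleton_iff] at hx
      exact ⟨0, hx.symm⟩

/-- additive decomposition with coefficient zero or one -/
lemma add_dec' (p : ℕ) [hp : Fact p.Prime] [PerfectField k] [CharP k p]
    [Algebra.EssFiniteType k F] (htr : Algebra.trdeg k F = 1) (O : ValuationSubring F)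
    (hO : ∀ c : k, algebraMap k F c ∈ O) (g : F) :
    ∃ (A B u w : F) (Φ : MvPolynomial (Fin 2) k), IsGerm O u w Φ ∧ g = A ^ p + B ∧
      (B = 0 ∨ ∃ (N D : MvPolynomial (Fin 2) k) (m : ℤ), LT.TGerm O B u w Φ N D m 0) := by
  have hFp : CharP F p := charP_of_injective_algebraMap (algebraMap k F).injective p
  have hroot : ∀ c : k, ∃ d, d ^ p = c := LP.root_of_perfect (k := k) p
  obtain ⟨u, w, Φ, hG⟩ := exists_germ htr O hO
  have hpb : ∀ g : F, LT.PB p u g := LT.pb_of_sep (p := p) hroot u (LT.sep_of_germ hG)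
  by_cases hpow : ∃ x, x ^ p = g
  · obtain ⟨x, rfl⟩ := hpow
    exact ⟨x, 0, u, w, Φ, hG, (add_zero _).symm, Or.inl rfl⟩
  push Not at hpow
  by_cases hne : O = ⊤
  · subst hne
    have htrans : Transcendental k g := LP.transcendental_of_not_pow p hpow
    obtain ⟨w', Φ', hG'⟩ := Curve.germ_top_of htr g htrans
      (LT.sep_of_not_pow p hroot u hpb g hpow)
    exact ⟨0, g, g, w', Φ', hG', by rw [zero_pow hp.out.ne_zero, zero_add],
      Or.inr ⟨1, 1, 1, LP.tgerm_self hG'⟩⟩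
  · obtain ⟨a, ha⟩ := hpb g
    rw [LP.sum_split] at ha
    have hS : ∑ i ∈ Finset.Ico 1 p, a i ^ p * u ^ i ≠ 0 := by
      intro h
      rw [h, add_zero] at ha
      exact hpow _ ha.symm
    obtain ⟨m, hm, hv⟩ := LP.ico_val p hO hG hne a hS
    obtain ⟨N, D, hT⟩ := LP.tgerm_of_val p hO hG hne hv hm
    exact ⟨a 0, _, u, w, Φ, hG, ha, Or.inr ⟨N, D, m, hT⟩⟩

end CurveNF

open CurveNF in
theorem curve_nf {k : Type u} {F : Type u} [Field k] [IsAlgClosed k] [Field F] [Algebra k F]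
    (p : ℕ) [Fact p.Prime] [CharP k p] {O : ValuationSubring F}
    (hO : ∀ c : k, algebraMap k F c ∈ O) (hfg : Algebra.EssFiniteType k F)
    (htr : Algebra.trdeg k F = 1) (g : F) (H : Finset F) : HasNF k p 1 O g H := by
  obtain ⟨A, B, u, w, Φ, hG, hg, hB⟩ := add_dec' (k := k) p htr O hO g
  have hmem := LP.germ_mem hO hG
  refine ⟨![u], ![w, 0], ![rename ps Φ, X (Sum.inr 1)], chart_of_germ hO hG, ?_, A, B, hg, ?_⟩
  · intro h _ hh
    obtain ⟨m, N, D, hN0, hNO, hD0, hDO, hfac⟩ := LT.facs hG h hh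
    refine ⟨fun _ => m, aeval ![u, w] N / aeval ![u, w] D, ?_, ?_⟩
    · rw [mon_fin_one]
      exact hfac
    · exact uloc_ps (LT.val_one_of hN0 (hmem N) hNO) (LT.val_one_of hD0 (hmem D) hDO)
  · rcases hB with hB | ⟨N, D, m, hT⟩
    · exact Or.inl hB
    · right
      refine ⟨fun _ => m, aeval ![u, w] N / aeval ![u, w] D, ?_, ?_, 0, hT.hm, ?_⟩
      · rw [mon_fin_one, ← hT.fac, map_zero, sub_zero]
      · exact uloc_ps (LT.val_one_of hT.hN0 (hmem N) hT.hNO)
          (LT.val_one_of hT.hD0 (hmem D) hT.hDO)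
      · rcases hT.dir with h | ⟨h1, h2⟩
        · exact Or.inl h
        · right
          rw [h1, h2, map_one, div_one]

end LS
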