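import Pool.Agent.helper90.LS.ADefs
import Pool.Agent.helper90.LS.CurveNF
import Pool.Agent.helper90.LU.Norm
import Pool.Agent.helper90.LU.Res

/-! # LUS-ACurve: Artin-Schreier normal forms on curves -/

open MvPolynomial

namespace LS

open LU

universe u

namespace ACurve

lemma roots {k : Type u} {F : Type u} [Field k] [IsAlgClosed k] [Field F] [Algebra k F]
    (p : ℕ) [hp : Fact p.Prime] [CharP k p] {O : ValuationSubring F}
    (hO : ∀ c : k, algebraMap k F c ∈ O) {u w : F} {Φ : MvPolynomial (Fin 2) k}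
    (hG : IsGerm O u w Φ) (hne : O ≠ ⊤) : HasRoots O p := by
  have h := perfect_residue hO (hG.res hne)
  have : CharP (IsLocalRing.ResidueField O) p :=
    charP_of_injective_ringHom (((IsLocalRing.residue O).comp (kO hO)).injective) p
  exact hasRoots_of_perfect p h

end ACurve

open CurveNF in
theorem curve_as {k : Type u} {F : Type u} [Field k] [IsAlgClosed k] [Field F] [Algebra k F]
    (p : ℕ) [Fact p.Prime] [CharP k p] {O : ValuationSubring F}
    (hO : ∀ c : k, algebraMap k F c ∈ O) (hfg : Algebra.EssFiniteType k F)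
    (htr : Algebra.trdeg k F = 1) (g : F) (H : Finset F) : HasAS k p 1 O g H := by
  obtain ⟨u, w, Φ, hG⟩ := exists_germ htr O hO
  have hmem := LP.germ_mem hO hG
  obtain ⟨A, e, N, D, hD0, hDO, he, hg⟩ := hG.nf p hO (fun hne => ACurve.roots p hO hG hne) g
  have hvD := LT.val_one_of hD0 (hmem D) hDO
  refine ⟨![u], ![w, 0], ![rename ps Φ, X (Sum.inr 1)], chart_of_germ hO hG, ?_, A,
    aeval ![u, w] N / aeval ![u, w] D * (u ^ e)⁻¹, ?_, ?_⟩
  · intro h _ hh
    obtain ⟨m, N, D, hN0, hNO, hD0, hDO, hfac⟩ := LT.facs hG h hh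
    refine ⟨fun _ => m, aeval ![u, w] N / aeval ![u, w] D, ?_, ?_⟩
    · rw [mon_fin_one]
      exact hfac
    · exact uloc_ps (LT.val_one_of hN0 (hmem N) hNO) (LT.val_one_of hD0 (hmem D) hDO)
  · rw [← hg]
    ring
  · by_cases he0 : e = 0
    · left
      refine ⟨rename ps N, rename ps D, ?_, ?_⟩
      · rw [aeval_ps]
        exact hvD
      · rw [aeval_ps, aeval_ps, he0, pow_zero, inv_one, mul_one]
    · right
      obtain ⟨hu, hN0, hNO, hek⟩ := he he0
      have hvN := LT.val_one_of hN0 (hmem N) hNO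
      constructor
      · refine ⟨fun _ => -(e : ℤ), aeval ![u, w] N / aeval ![u, w] D, ?_, uloc_ps hvN hvD, 0, ?_,
          Or.inl hu⟩
        · rw [mon_fin_one, zpow_neg, zpow_natCast, mul_comm]
        · push_cast
          rw [neg_ne_zero]
          exact hek
      · have h1 := pow_not_mem hu he0
        rw [← ValuationSubring.valuation_le_one_iff, not_le] at h1
        rw [map_mul, map_div₀, hvN, hvD, div_one, one_mul]
        exact h1

end LS
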