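import Pool.Agent.helper90.LS.Basic

set_option autoImplicit false

/-! # LUS-DFin: a composite valuation, at a point where the curve is transversal -/

open MvPolynomial

namespace LS

open LU

universe u

section alg

variable {k : Type u} [Field k]

theorem DFin_split0 (P : MvPolynomial (Fin 2) k) :
    ∃ A B, P = C (coeff 0 P) + X 0 * A + X 1 * B := by
  induction P using MvPolynomial.induction_on with
  | C a => exact ⟨0, 0, by simp⟩
  | add p q hp hq =>
    obtain ⟨A, B, h1⟩ := hp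
    obtain ⟨A', B', h2⟩ := hq
    refine ⟨A + A', B + B', ?_⟩
    rw [coeff_add, map_add]
    linear_combination h1 + h2
  | mul_X p i _ =>
    have h0 : coeff 0 (p * X i) = 0 := by
      have := MvPolynomial.constantCoeff_X (R := k) i
      rw [← MvPolynomial.constantCoeff_eq, map_mul, this, mul_zero]
    rw [h0]
    fin_cases i
    · exact ⟨p, 0, by simp [mul_comm]⟩
    · exact ⟨0, p, by simp [mul_comm]⟩

theorem DFin_split {P : MvPolynomial (Fin 2) k} (h : coeff 0 P = 0) :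
    ∃ A B, P = X 0 * A + X 1 * B := by
  obtain ⟨A, B, h1⟩ := DFin_split0 P
  exact ⟨A, B, by rw [h1, h]; simp⟩

/-- if a power of a polynomial with non-zero constant term times `P` lies in `m ^ n` modulo `f`,
for all `n`, then `f` divides `P` -/
theorem DFin_krull {f f1 P : MvPolynomial (Fin 2) k} (hf : Irreducible f) (hf0 : coeff 0 f = 0)
    (h1 : coeff 0 f1 ≠ 0)
    (h : ∀ n : ℕ, ∃ P' r, f1 ^ n * P = X 0 ^ n * P' + f * r) : f ∣ P := by
  have hp : (Ideal.span {f}).IsPrime := (Ideal.span_singleton_prime hf.ne_zero).2 hf.prime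
  set π := Ideal.Quotient.mk (Ideal.span {f}) with hπ
  have hπf : π f = 0 := Ideal.Quotient.eq_zero_iff_mem.2 (Ideal.mem_span_singleton_self f)
  let m0 : Ideal (MvPolynomial (Fin 2) k) := RingHom.ker (constantCoeff (R := k) (σ := Fin 2))
  let m := m0.map π
  have hm : m ≠ ⊤ := by
    intro ht
    have h2 : (1 : MvPolynomial (Fin 2) k ⧸ Ideal.span {f}) ∈ m := ht ▸ Submodule.mem_top
    rw [Ideal.mem_map_iff_of_surjective π Ideal.Quotient.mk_surjective] at h2
    obtain ⟨x, hx, hx1⟩ := h2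
    have h3 : π (x - 1) = 0 := by rw [map_sub, hx1, map_one, sub_self]
    rw [Ideal.Quotient.eq_zero_iff_mem, Ideal.mem_span_singleton] at h3
    obtain ⟨y, hy⟩ := h3
    have h4 := congrArg (constantCoeff (R := k) (σ := Fin 2)) hy
    rw [map_sub, map_mul, map_one, (RingHom.mem_ker).1 hx, congrFun MvPolynomial.constantCoeff_eq f,
      hf0,
      zero_mul, zero_sub, neg_eq_zero] at h4
    exact one_ne_zero h4
  have hmem : ∀ q : MvPolynomial (Fin 2) k, coeff 0 q = 0 → π q ∈ m := by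
    intro q hq
    refine Ideal.mem_map_of_mem π ?_
    rw [RingHom.mem_ker, MvPolynomial.constantCoeff_eq]
    exact hq
  -- the unit
  have hcan : ∀ (n : ℕ) (x : MvPolynomial (Fin 2) k ⧸ Ideal.span {f}),
      π f1 * x ∈ m ^ n → x ∈ m ^ n := by
    intro n x hx
    set c := coeff 0 f1 with hc
    have e1 : π (C c⁻¹) * π f1 = 1 - π (1 - C c⁻¹ * f1) := by
      rw [map_sub, map_one, map_mul]; ring
    set y := π (1 - C c⁻¹ * f1) with hy
    have hym : y ∈ m := by
      refine hmem _ ?_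
      rw [← MvPolynomial.constantCoeff_eq, map_sub, map_mul, map_one,
        MvPolynomial.constantCoeff_C, MvPolynomial.constantCoeff_eq, ← hc, inv_mul_cancel₀ h1,
        sub_self]
    have e2 : (1 - y) * ∑ i ∈ Finset.range n, y ^ i = 1 - y ^ n := mul_neg_geom_sum y n
    have e3 : x = (∑ i ∈ Finset.range n, y ^ i) * (π (C c⁻¹) * (π f1 * x)) + y ^ n * x := by
      linear_combination (-x * (∑ i ∈ Finset.range n, y ^ i)) * e1 - x * e2
    rw [e3]
    exact add_mem (Ideal.mul_mem_left _ _ (Ideal.mul_mem_left _ _ hx))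
      (Ideal.mul_mem_right _ _ (Ideal.pow_mem_pow hym n))
  have hall : ∀ n : ℕ, π P ∈ m ^ n := by
    intro n
    obtain ⟨P', r, hn⟩ := h n
    have h5 := congrArg π hn
    rw [map_mul, map_pow, map_add, map_mul, map_mul, map_pow, hπf, zero_mul, add_zero] at h5
    have h6 : (π f1) ^ n * π P ∈ m ^ n := by
      rw [h5]
      refine Ideal.mul_mem_right _ _ (Ideal.pow_mem_pow (hmem _ ?_) n)
      rw [← MvPolynomial.constantCoeff_eq, MvPolynomial.constantCoeff_X]
    have h7 : ∀ j : ℕ, (π f1) ^ j * π P ∈ m ^ n → π P ∈ m ^ n := by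
      intro j
      induction j with
      | zero => intro h8; simpa using h8
      | succ j ih =>
        intro h8
        rw [pow_succ', mul_assoc] at h8
        exact ih (hcan n _ h8)
    exact h7 n h6
  have hz : π P = 0 := by
    have h8 : π P ∈ ⨅ i : ℕ, m ^ i := by
      rw [Submodule.mem_iInf]
      exact hall
    rw [Ideal.iInf_pow_eq_bot_of_isDomain m hm] at h8
    exact (Submodule.mem_bot _).1 h8
  rw [Ideal.Quotient.eq_zero_iff_mem, Ideal.mem_span_singleton] at hz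
  exact hz

/-- the local ring of the curve `f = 0` at the origin is a discrete valuation ring with
uniformizer `X 0` -/
theorem DFin_dvr {f : MvPolynomial (Fin 2) k} (hf : Irreducible f) (hf0 : coeff 0 f = 0)
    (hfd : coeff 0 (pderiv 1 f) ≠ 0) {P : MvPolynomial (Fin 2) k} (hP : ¬ f ∣ P) :
    ∃ (m : ℕ) (N D r : MvPolynomial (Fin 2) k), coeff 0 N ≠ 0 ∧ coeff 0 D ≠ 0 ∧
      D * P = X 0 ^ m * N + f * r := by
  obtain ⟨f2, f1, hfe⟩ := DFin_split hf0
  have h1 : coeff 0 f1 ≠ 0 := by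
    intro h
    apply hfd
    have e : pderiv 1 f = X 0 * pderiv 1 f2 + (f1 + X 1 * pderiv 1 f1) := by
      rw [hfe, map_add, Derivation.leibniz, Derivation.leibniz]
      simp [smul_eq_mul]
      ring
    rw [← MvPolynomial.constantCoeff_eq] at h ⊢
    rw [e]
    simp [h]
  by_contra hcon
  apply hP
  refine DFin_krull hf hf0 h1 fun n => ?_
  induction n with
  | zero => exact ⟨P, 0, by simp⟩
  | succ n ih =>
    obtain ⟨P', r, hn⟩ := ih
    by_cases h0 : coeff 0 P' = 0
    · obtain ⟨P2, P1, hP'⟩ := DFin_split h0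
      refine ⟨f1 * P2 - f2 * P1, X 0 ^ n * P1 + f1 * r, ?_⟩
      have e : f1 * P' = X 0 * (f1 * P2 - f2 * P1) + f * P1 := by
        rw [hP', hfe]; ring
      calc f1 ^ (n + 1) * P = f1 * (f1 ^ n * P) := by ring
        _ = X 0 ^ n * (f1 * P') + f1 * (f * r) := by rw [hn]; ring
        _ = _ := by rw [e]; ring
    · exact (hcon ⟨n, P', f1 ^ n, r, h0, by
        rw [← MvPolynomial.constantCoeff_eq, map_pow, MvPolynomial.constantCoeff_eq]
        exact pow_ne_zero _ h1, hn⟩).elim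

end alg


section pb

variable {k F : Type u} [Field k] [Field F] [Algebra k F]

/-- an element which is a simple root of a polynomial over `E` and whose `p`-th power lies in
`E` lies in `E` -/
theorem DFin_mem (p : ℕ) [Fact p.Prime] [CharP F p] (E : IntermediateField k F) {v : F}
    (hv : v ^ p ∈ E) {G : Polynomial E} (hG : Polynomial.aeval v G = 0)
    (hG' : Polynomial.aeval v (Polynomial.derivative G) ≠ 0) : v ∈ E := by
  have : CharP E p := RingHom.charP (algebraMap E F) (algebraMap E F).injective p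
  have : ExpChar E p := ExpChar.prime Fact.out
  have hint : IsIntegral E v := by
    refine IsIntegral.of_pow (Nat.Prime.pos (Fact.out : p.Prime)) ?_
    exact isIntegral_algebraMap (R := E) (x := (⟨v ^ p, hv⟩ : E))
  have hsep : v ∈ separableClosure E F := by
    rw [mem_separableClosure_iff, IsSeparable,
      Polynomial.separable_iff_derivative_ne_zero (minpoly.irreducible hint)]
    intro h0
    obtain ⟨Q, hQ⟩ := minpoly.dvd E v hG
    apply hG'
    rw [hQ, Polynomial.derivative_mul, h0, zero_mul, zero_add, map_mul, minpoly.aeval, zero_mul]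
  have hins : v ∈ perfectClosure E F := by
    rw [mem_perfectClosure_iff_pow_mem p]
    exact ⟨1, ⟨⟨v ^ p, hv⟩, by rw [pow_one]; rfl⟩⟩
  have h : v ∈ separableClosure E F ⊓ perfectClosure E F :=
    IntermediateField.mem_inf.2 ⟨hsep, hins⟩
  rw [separableClosure_inf_perfectClosure, IntermediateField.mem_bot] at h
  obtain ⟨x, rfl⟩ := h
  exact x.2

/-- a polynomial in `u` and `v` is a polynomial in `v` over a field which contains `u` -/
theorem DFin_poly (E : IntermediateField k F) (u : E) (v : F) (f : MvPolynomial (Fin 2) k) :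
    Polynomial.aeval v (aeval ![Polynomial.C u, (Polynomial.X : Polynomial E)] f) =
      aeval ![(u : F), v] f ∧
    Polynomial.aeval v (Polynomial.derivative
      (aeval ![Polynomial.C u, (Polynomial.X : Polynomial E)] f)) =
      aeval ![(u : F), v] (pderiv 1 f) := by
  induction f using MvPolynomial.induction_on with
  | C a =>
    constructor
    · rw [aeval_C, aeval_C, IsScalarTower.algebraMap_apply k E (Polynomial E) a,
        AlgHom.commutes, ← IsScalarTower.algebraMap_apply]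
    · simp
  | add p q hp hq =>
    refine ⟨?_, ?_⟩
    · rw [map_add, map_add, map_add, hp.1, hq.1]
    · rw [map_add, map_add, map_add, map_add, map_add, hp.2, hq.2]
  | mul_X p i hp =>
    fin_cases i
    · refine ⟨?_, ?_⟩
      · simp [hp.1]
      · simp [Derivation.leibniz, hp.2, mul_comm]
    · refine ⟨?_, ?_⟩
      · simp [hp.1]
      · simp [Derivation.leibniz, hp.2, hp.1, mul_comm]

/-- the field of quotients of polynomials with `p`-th power coefficients -/
theorem DFin_top (p : ℕ) [Fact p.Prime] [CharP F p] {u v : F}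
    (hgen : IntermediateField.adjoin k {u, v} = ⊤) {f : MvPolynomial (Fin 2) k}
    (hf : aeval ![u, v] (pderiv 1 f) ≠ 0) (E : IntermediateField k F) (hu : u ∈ E)
    (hfE : aeval ![u, v] f ∈ E) (hpE : ∀ x : F, x ^ p ∈ E) : E = ⊤ := by
  have hv : v ∈ E := by
    refine DFin_mem p E (hpE v) (G := aeval ![Polynomial.C ⟨u, hu⟩, (Polynomial.X : Polynomial E)] f
      - Polynomial.C ⟨_, hfE⟩) ?_ ?_
    · rw [map_sub, (DFin_poly E ⟨u, hu⟩ v f).1, Polynomial.aeval_C]
      exact sub_self _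
    · rw [map_sub, map_sub, (DFin_poly E ⟨u, hu⟩ v f).2, Polynomial.derivative_C, map_zero,
        sub_zero]
      exact hf
  rw [eq_top_iff, ← hgen, IntermediateField.adjoin_le_iff]
  rintro x (rfl | hx)
  · exact hu
  · rw [Set.mem_singleton_iff.1 hx]
    exact hv

/-- the `p`-basis `u, f` -/
theorem DFin_pbasis (p : ℕ) [Fact p.Prime] [CharP F p] (hk : ∀ c : k, ∃ d : k, d ^ p = c)
    {u v : F} (hgen : IntermediateField.adjoin k {u, v} = ⊤) {f : MvPolynomial (Fin 2) k}
    (hf : aeval ![u, v] (pderiv 1 f) ≠ 0) (g : F) :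
    ∃ c : Fin p × Fin p → F,
      g = ∑ ij, c ij ^ p * (u ^ (ij.1 : ℕ) * (aeval ![u, v] f) ^ (ij.2 : ℕ)) := by
  set φ := aeval ![u, v] f with hφ
  have hp : 0 < p := Nat.Prime.pos (Fact.out : p.Prime)
  have : ExpChar F p := ExpChar.prime Fact.out
  let P : Subfield F := (frobenius F p).fieldRange
  have hPm : ∀ x : F, x ^ p ∈ P := fun x => ⟨x, rfl⟩
  have halg : ∀ x : F, IsAlgebraic P x := by
    intro x
    refine IsIntegral.isAlgebraic (IsIntegral.of_pow hp ?_)
    exact isIntegral_algebraMap (R := P) (x := (⟨x ^ p, hPm x⟩ : P))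
  let E : IntermediateField P F := IntermediateField.adjoin P {u, φ}
  have huE : u ∈ E := IntermediateField.subset_adjoin _ _ (by simp)
  have hφE : φ ∈ E := IntermediateField.subset_adjoin _ _ (by simp)
  have hPE : ∀ x : F, x ^ p ∈ E := fun x => E.algebraMap_mem ⟨x ^ p, hPm x⟩
  let E' : IntermediateField k F :=
    { E.toSubfield with
      algebraMap_mem' := by
        intro c
        obtain ⟨d, rfl⟩ := hk c
        rw [map_pow]
        exact hPE _ }
  have htop : E' = ⊤ := DFin_top p hgen hf E' huE hφE hPE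
  have hg : g ∈ E := by
    have : g ∈ E' := htop ▸ IntermediateField.mem_top
    exact this
  have hg1 : g ∈ Algebra.adjoin P {u, φ} := by
    rw [← IntermediateField.adjoin_toSubalgebra_of_isAlgebraic (fun x _ => halg x)]
    exact hg
  have hg2 : g ∈ Submodule.span P (Set.range fun ij : Fin p × Fin p =>
      u ^ (ij.1 : ℕ) * φ ^ (ij.2 : ℕ)) := by
    have h1 : g ∈ Subalgebra.toSubmodule (Algebra.adjoin P {u, φ}) := hg1
    rw [Algebra.adjoin_eq_span] at h1
    refine Submodule.span_le.2 ?_ h1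
    intro x hx
    obtain ⟨m, n, rfl⟩ := (Submonoid.mem_closure_pair u φ x).1 hx
    have e : u ^ m * φ ^ n = (⟨(u ^ (m / p) * φ ^ (n / p)) ^ p, hPm _⟩ : P) •
        (u ^ (m % p) * φ ^ (n % p)) := by
      rw [Subfield.smul_def, smul_eq_mul]
      show _ = (u ^ (m / p) * φ ^ (n / p)) ^ p * _
      conv_lhs => rw [← Nat.div_add_mod m p, ← Nat.div_add_mod n p]
      rw [pow_add, pow_add, pow_mul', pow_mul', mul_pow]
      ring
    rw [e]
    exact Submodule.smul_mem _ _ (Submodule.subset_span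
      ⟨(⟨m % p, Nat.mod_lt _ hp⟩, ⟨n % p, Nat.mod_lt _ hp⟩), rfl⟩)
  obtain ⟨c, hc⟩ := (Submodule.mem_span_range_iff_exists_fun P).1 hg2
  have hc' : ∀ ij, ∃ y : F, y ^ p = (c ij : F) := fun ij => (c ij).2
  choose y hy using hc'
  refine ⟨y, ?_⟩
  rw [← hc]
  refine Finset.sum_congr rfl fun ij _ => ?_
  rw [Subfield.smul_def, smul_eq_mul, hy]

end pb

section val

variable {k : Type u} {F : Type u} [Field k] [Field F] [Algebra k F]

theorem DFin_mem_O {O : ValuationSubring F} (hO : ∀ c : k, algebraMap k F c ∈ O) {σ : Type}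
    {z : σ → F} (hz : ∀ i, z i ∈ O) (q : MvPolynomial σ k) : aeval z q ∈ O := by
  induction q using MvPolynomial.induction_on with
  | C c => rw [aeval_C]; exact hO c
  | add p q hp hq => rw [map_add]; exact add_mem hp hq
  | mul_X p i hp => rw [map_mul, aeval_X]; exact mul_mem hp (hz i)

theorem DFin_zinr (a b : Fin 2 → F) (P : MvPolynomial (Fin 2) k) :
    aeval (Sum.elim a b) (rename (Sum.inr : Fin 2 → Fin 2 ⊕ Fin 2) P) = aeval b P := by
  rw [aeval_rename, Sum.elim_comp_inr]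

theorem DFin_mon {u : F} (hu : u ≠ 0) (φ : F) (M : ℕ) (a b : ℤ) :
    u ^ a * φ ^ b = mon ![u, φ / u ^ M] ![a + M * b, b] := by
  have h : u ^ ((M : ℤ) * b) ≠ 0 := zpow_ne_zero _ hu
  rw [mon, Fin.prod_univ_two]
  show u ^ a * φ ^ b = u ^ (a + M * b) * (φ / u ^ M) ^ b
  rw [div_zpow, zpow_add₀ hu, ← zpow_natCast, ← zpow_mul, mul_assoc, mul_div_cancel₀ _ h]

/-- the chart -/
theorem DFin_chart {O : ValuationSubring F} (hO : ∀ c : k, algebraMap k F c ∈ O) {u v : F}
    (hs : Stg k O u v) {f : MvPolynomial (Fin 2) k} (h0 : aeval ![u, v] f ≠ 0)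
    (hfN : ∀ N : ℕ, O.valuation (aeval ![u, v] f) < O.valuation u ^ N)
    (hfd : coeff 0 (pderiv 1 f) ≠ 0) (M : ℕ) :
    Chart k O ![u, aeval ![u, v] f / u ^ M] ![u, v]
      ![X (Sum.inr 0) - X (Sum.inl 0),
        rename Sum.inr f - X (Sum.inl 1) * X (Sum.inl 0) ^ M] := by
  have hu : u ∈ O := (O.valuation_le_one_iff u).1 hs.hu.le
  have hv : v ∈ O := (O.valuation_le_one_iff v).1 hs.hv.le
  have hVu : O.valuation u ≠ 0 := (Valuation.ne_zero_iff _).2 hs.u0
  refine ⟨?_, ?_, ?_, ?_, ?_, ?_⟩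
  · intro i
    fin_cases i
    · exact hs.u0
    · exact div_ne_zero h0 (pow_ne_zero _ hs.u0)
  · intro i
    fin_cases i
    · exact hu
    · show aeval ![u, v] f / u ^ M ∈ O
      rw [← O.valuation_le_one_iff, map_div₀, map_pow]
      exact div_le_one_of_le₀ (hfN M).le zero_le
  · intro l
    fin_cases l
    · exact hu
    · exact hv
  · intro l
    fin_cases l
    · simp
    · simp only [Fin.mk_one, Matrix.cons_val_one, Matrix.cons_val_fin_one]
      rw [map_sub, DFin_zinr, map_mul, map_pow, aeval_X, aeval_X]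
      show aeval ![u, v] f - aeval ![u, v] f / u ^ M * u ^ M = 0
      rw [div_mul_cancel₀ _ (pow_ne_zero _ hs.u0), sub_self]
  · have e1 : pderiv (Sum.inr 0) (X (Sum.inr 0) - X (Sum.inl 0) :
        MvPolynomial (Fin 2 ⊕ Fin 2) k) = 1 := by
      rw [map_sub, pderiv_X_self, pderiv_X_of_ne (by simp), sub_zero]
    have e2 : pderiv (Sum.inr 1) (X (Sum.inr 0) - X (Sum.inl 0) :
        MvPolynomial (Fin 2 ⊕ Fin 2) k) = 0 := by
      rw [map_sub, pderiv_X_of_ne (by simp), pderiv_X_of_ne (by simp), sub_zero]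
    have e3 : pderiv (Sum.inr 1) (rename Sum.inr f - X (Sum.inl 1) * X (Sum.inl 0) ^ M :
        MvPolynomial (Fin 2 ⊕ Fin 2) k) = rename Sum.inr (pderiv 1 f) := by
      rw [map_sub, pderiv_rename Sum.inr_injective, Derivation.leibniz, Derivation.leibniz_pow,
        pderiv_X_of_ne (by simp), pderiv_X_of_ne (by simp)]
      simp
    rw [Matrix.det_fin_two]
    simp only [Matrix.of_apply, Matrix.cons_val_zero, Matrix.cons_val_one,
      Matrix.cons_val_fin_one]
    rw [e1, e2, e3, DFin_zinr, map_one, map_zero, one_mul, zero_mul, sub_zero]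
    exact val_const hO hs.hu hs.hv hfd
  · rw [eq_top_iff, ← hs.gen]
    refine IntermediateField.adjoin.mono _ _ _ ?_
    rintro x (rfl | hx)
    · exact Or.inr ⟨0, rfl⟩
    · rw [Set.mem_singleton_iff.1 hx]
      exact Or.inr ⟨1, rfl⟩

/-- `x` is `u ^ a * φ ^ b` times a unit of the chart with number `M`, for all large `M` -/
def DFin_G (k : Type u) {F : Type u} [Field k] [Field F] [Algebra k F] (O : ValuationSubring F)
    (u v φ x : F) (a b : ℤ) : Prop :=
  ∀ᶠ M : ℕ in Filter.atTop, ∃ ρ, ULoc k O (Sum.elim ![u, φ / u ^ M] ![u, v]) ρ ∧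
    x = u ^ a * φ ^ b * ρ

variable {O : ValuationSubring F} {u v φ : F}

theorem DFin_G.mul {x y : F} {a b a' b' : ℤ} (hu : u ≠ 0) (hφ : φ ≠ 0)
    (hx : DFin_G k O u v φ x a b) (hy : DFin_G k O u v φ y a' b') :
    DFin_G k O u v φ (x * y) (a + a') (b + b') := by
  filter_upwards [hx, hy] with M h1 h2
  obtain ⟨ρ, hρ, e1⟩ := h1
  obtain ⟨ρ', hρ', e2⟩ := h2
  refine ⟨ρ * ρ', hρ.mul hρ', ?_⟩
  rw [e1, e2, zpow_add₀ hu, zpow_add₀ hφ]
  ring

theorem DFin_G.inv {x : F} {a b : ℤ} (hx : DFin_G k O u v φ x a b) :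
    DFin_G k O u v φ x⁻¹ (-a) (-b) := by
  filter_upwards [hx] with M h1
  obtain ⟨ρ, hρ, e1⟩ := h1
  refine ⟨ρ⁻¹, hρ.inv, ?_⟩
  rw [e1, mul_inv, mul_inv, zpow_neg, zpow_neg]

theorem DFin_G.pow {x : F} {a b : ℤ} (hx : DFin_G k O u v φ x a b) (n : ℕ) :
    DFin_G k O u v φ (x ^ n) (n * a) (n * b) := by
  filter_upwards [hx] with M h1
  obtain ⟨ρ, hρ, e1⟩ := h1
  refine ⟨ρ ^ n, hρ.pow n, ?_⟩
  rw [e1, mul_pow, mul_pow, mul_comm (n : ℤ) a, mul_comm (n : ℤ) b, zpow_mul, zpow_mul,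
    zpow_natCast, zpow_natCast]

theorem DFin_G.one : DFin_G k O u v φ 1 0 0 :=
  Filter.Eventually.of_forall fun M => ⟨1, ULoc.one, by simp⟩

theorem DFin_G.Xu : DFin_G k O u v φ u 1 0 :=
  Filter.Eventually.of_forall fun M => ⟨1, ULoc.one, by simp⟩

theorem DFin_G.Xf : DFin_G k O u v φ φ 0 1 :=
  Filter.Eventually.of_forall fun M => ⟨1, ULoc.one, by simp⟩

/-- polynomials which are not divisible by `f` -/
theorem DFin_G.poly0 (hO : ∀ c : k, algebraMap k F c ∈ O) (hs : Stg k O u v)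
    {f : MvPolynomial (Fin 2) k} (hf : Irreducible f)
    (hfN : ∀ N : ℕ, O.valuation (aeval ![u, v] f) < O.valuation u ^ N)
    (hf0 : coeff 0 f = 0) (hfd : coeff 0 (pderiv 1 f) ≠ 0) {P : MvPolynomial (Fin 2) k}
    (hP : ¬ f ∣ P) : ∃ m : ℕ, DFin_G k O u v (aeval ![u, v] f) (aeval ![u, v] P) m 0 := by
  obtain ⟨m, N, D, r, hN, hD, he⟩ := DFin_dvr hf hf0 hfd hP
  refine ⟨m, ?_⟩
  have hVu : O.valuation u ≠ 0 := (Valuation.ne_zero_iff _).2 hs.u0
  have hVN := val_const hO hs.hu hs.hv hN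
  have hVD := val_const hO hs.hu hs.hv hD
  have hr : O.valuation (aeval ![u, v] r) ≤ 1 := by
    rw [O.valuation_le_one_iff]
    have hu : u ∈ O := (O.valuation_le_one_iff u).1 hs.hu.le
    have hv : v ∈ O := (O.valuation_le_one_iff v).1 hs.hv.le
    refine DFin_mem_O hO (fun i => ?_) r
    fin_cases i
    · exact hu
    · exact hv
  filter_upwards [Filter.eventually_ge_atTop m] with M hM
  set φ := aeval ![u, v] f with hφ
  have ht : O.valuation (φ / u ^ M) < 1 := by
    rw [map_div₀, map_pow]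
    exact (div_lt_one₀ (pow_pos (zero_lt_iff.2 hVu) _)).2 (hfN M)
  set z : Fin 2 ⊕ Fin 2 → F := Sum.elim ![u, φ / u ^ M] ![u, v] with hz
  -- the numerator
  set N' : MvPolynomial (Fin 2 ⊕ Fin 2) k := rename Sum.inr N +
    X (Sum.inl 0) ^ (M - m) * X (Sum.inl 1) * rename Sum.inr r with hN'
  have eN : aeval z N' = aeval ![u, v] N + u ^ (M - m) * (φ / u ^ M) * aeval ![u, v] r := by
    rw [hN', map_add, map_mul, map_mul, map_pow, hz, DFin_zinr, DFin_zinr, aeval_X, aeval_X]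
    rfl
  have hsm : O.valuation (u ^ (M - m) * (φ / u ^ M) * aeval ![u, v] r) < 1 := by
    rw [map_mul, map_mul]
    have h1 : O.valuation (u ^ (M - m)) ≤ 1 := by
      rw [map_pow]; exact pow_le_one₀ zero_le hs.hu.le
    calc O.valuation (u ^ (M - m)) * O.valuation (φ / u ^ M) * O.valuation (aeval ![u, v] r)
        ≤ 1 * O.valuation (φ / u ^ M) * 1 := by gcongr
      _ < 1 := by rw [one_mul, mul_one]; exact ht
  have hVN' : O.valuation (aeval z N') = 1 := by
    rw [eN, Valuation.map_add_eq_of_lt_left _ (by rw [hVN]; exact hsm), hVN]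
  refine ⟨aeval z N' / aeval z (rename Sum.inr D), ⟨N', rename Sum.inr D, hVN', ?_, rfl⟩, ?_⟩
  · rw [hz, DFin_zinr]; exact hVD
  · have hD0 : aeval ![u, v] D ≠ 0 := by
      intro h
      rw [h, map_zero] at hVD
      exact zero_ne_one hVD
    have he' := congrArg (aeval ![u, v]) he
    rw [map_mul, map_add, map_mul, map_mul, map_pow, aeval_X, ← hφ] at he'
    have hu0 : ![u, v] 0 = u := rfl
    rw [hu0] at he'
    rw [eN, hz, DFin_zinr, zpow_zero, mul_one, zpow_natCast, ← mul_div_assoc, eq_div_iff hD0]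
    have e3 : u ^ m * (u ^ (M - m) * (φ / u ^ M)) = φ := by
      rw [← mul_assoc, ← pow_add, Nat.add_sub_cancel' hM, mul_div_cancel₀ _ (pow_ne_zero _ hs.u0)]
    linear_combination he' - aeval ![u, v] r * e3

/-- non-zero polynomials -/
theorem DFin_G.poly (hO : ∀ c : k, algebraMap k F c ∈ O) (hs : Stg k O u v)
    {f : MvPolynomial (Fin 2) k} (hf : Irreducible f)
    (hfN : ∀ N : ℕ, O.valuation (aeval ![u, v] f) < O.valuation u ^ N)
    (hf0 : coeff 0 f = 0) (hfd : coeff 0 (pderiv 1 f) ≠ 0) (h0 : aeval ![u, v] f ≠ 0)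
    {P : MvPolynomial (Fin 2) k} (hP : P ≠ 0) :
    ∃ a b : ℤ, DFin_G k O u v (aeval ![u, v] f) (aeval ![u, v] P) a b := by
  obtain ⟨n, Q, hQ, rfl⟩ := WfDvdMonoid.max_power_factor hP hf
  obtain ⟨m, hm⟩ := DFin_G.poly0 hO hs hf hfN hf0 hfd hQ
  rw [map_mul, map_pow]
  exact ⟨_, _, (DFin_G.Xf.pow n).mul hs.u0 h0 hm⟩

/-- non-zero elements of the field -/
theorem DFin_G.all (hO : ∀ c : k, algebraMap k F c ∈ O) (hs : Stg k O u v)
    {f : MvPolynomial (Fin 2) k} (hf : Irreducible f)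
    (hfN : ∀ N : ℕ, O.valuation (aeval ![u, v] f) < O.valuation u ^ N)
    (hf0 : coeff 0 f = 0) (hfd : coeff 0 (pderiv 1 f) ≠ 0) (h0 : aeval ![u, v] f ≠ 0)
    {x : F} (hx : x ≠ 0) : ∃ a b : ℤ, DFin_G k O u v (aeval ![u, v] f) x a b := by
  obtain ⟨N, D, hD, rfl⟩ := exists_frac hs.gen x
  have hN : aeval ![u, v] N ≠ 0 := fun h => hx (by rw [h, zero_div])
  obtain ⟨a, b, h1⟩ := DFin_G.poly hO hs hf hfN hf0 hfd h0 (P := N)
    (fun h => hN (by rw [h, map_zero]))
  obtain ⟨a', b', h2⟩ := DFin_G.poly hO hs hf hfN hf0 hfd h0 (P := D)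
    (fun h => hD (by rw [h, map_zero]))
  rw [div_eq_mul_inv]
  exact ⟨_, _, h1.mul hs.u0 h0 h2.inv⟩

/-- the values of the monomials -/
theorem DFin_val_pos (hu : O.valuation u < 1) (hu0 : u ≠ 0) (hφ0 : φ ≠ 0)
    (hφ : ∀ N : ℕ, O.valuation φ < O.valuation u ^ N) {a b : ℤ}
    (h : O.valuation (u ^ a * φ ^ b) ≤ 1) (hab : a ≠ 0 ∨ b ≠ 0) : 0 < b ∨ (b = 0 ∧ 0 < a) := by
  have hVu : O.valuation u ≠ 0 := (Valuation.ne_zero_iff _).2 hu0
  have hVφ : O.valuation φ ≠ 0 := (Valuation.ne_zero_iff _).2 hφ0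
  have hV1 : O.valuation φ ≤ 1 := by
    have := (hφ 0).le
    rwa [pow_zero] at this
  rw [map_mul, map_zpow₀, map_zpow₀] at h
  rcases lt_trichotomy b 0 with hb | hb | hb
  · exfalso
    obtain ⟨n, hn⟩ : ∃ n : ℕ, b = -((n : ℤ) + 1) := ⟨(-b - 1).toNat, by omega⟩
    have h1 : O.valuation u ^ a ≤ O.valuation φ ^ (n + 1) := by
      rw [hn, zpow_neg, ← div_eq_mul_inv] at h
      have h2 := (div_le_one₀ (zpow_pos (zero_lt_iff.2 hVφ) _)).1 h
      rwa [← Nat.cast_succ, zpow_natCast] at h2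
    have h2 : O.valuation φ ^ (n + 1) ≤ O.valuation φ := by
      calc O.valuation φ ^ (n + 1) ≤ O.valuation φ ^ 1 := pow_le_pow_of_le_one zero_le hV1 (by omega)
        _ = _ := pow_one _
    have h3 : O.valuation u ^ a.natAbs ≤ O.valuation u ^ a := by
      rw [← zpow_natCast]
      exact zpow_le_zpow_right_of_le_one₀ (zero_lt_iff.2 hVu) hu.le (by omega)
    exact absurd (hφ a.natAbs) (not_lt.2 ((h3.trans h1).trans h2))
  · right
    refine ⟨hb, ?_⟩
    rw [hb, zpow_zero, mul_one] at h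
    have ha : a ≠ 0 := hab.resolve_right (by simpa using hb)
    by_contra hc
    have h1 : O.valuation u ^ a = (O.valuation u ^ a.natAbs)⁻¹ := by
      rw [← zpow_natCast, ← zpow_neg]
      congr 1
      omega
    have h2 : O.valuation u ^ a.natAbs < 1 := pow_lt_one₀ zero_le hu (by omega)
    rw [h1, inv_le_one₀ (pow_pos (zero_lt_iff.2 hVu) _)] at h
    exact absurd h2 (not_lt.2 h)
  · exact Or.inl hb

/-- the small monomials are polynomials in the parameters of the charts -/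
theorem DFin_small (hu : O.valuation u < 1) (hu0 : u ≠ 0)
    (hφ : ∀ N : ℕ, O.valuation φ < O.valuation u ^ N) {a b : ℤ} (h : 0 < b ∨ (b = 0 ∧ 0 < a))
    {M : ℕ} (hM : a.natAbs ≤ M) :
    LLoc k O (Sum.elim ![u, φ / u ^ M] ![u, v]) (u ^ a * φ ^ b) ∧
      O.valuation (u ^ a * φ ^ b) < 1 := by
  have hVu : O.valuation u ≠ 0 := (Valuation.ne_zero_iff _).2 hu0
  have ht : O.valuation (φ / u ^ M) < 1 := by
    rw [map_div₀, map_pow]
    exact (div_lt_one₀ (pow_pos (zero_lt_iff.2 hVu) _)).2 (hφ M)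
  have hnn : 0 ≤ a + M * b := by
    rcases h with h | ⟨h, h'⟩
    · have : (M : ℤ) * 1 ≤ M * b := mul_le_mul_of_nonneg_left (by omega) (by omega)
      omega
    · rw [h, mul_zero]; omega
  have hb : 0 ≤ b := by omega
  obtain ⟨n1, h1⟩ := Int.eq_ofNat_of_zero_le hnn
  obtain ⟨n2, h2⟩ := Int.eq_ofNat_of_zero_le hb
  have e : u ^ a * φ ^ b = u ^ n1 * (φ / u ^ M) ^ n2 := by
    rw [DFin_mon hu0 φ M, mon, Fin.prod_univ_two]
    show u ^ (a + M * b) * (φ / u ^ M) ^ b = _
    rw [h1, h2, zpow_natCast, zpow_natCast]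
  have hn : 0 < n1 ∨ 0 < n2 := by
    rcases h with h | ⟨h, h'⟩
    · right; omega
    · left
      rw [h, mul_zero] at h1
      omega
  rw [e]
  constructor
  · have := LLoc.of_poly (O := O) (z := Sum.elim ![u, φ / u ^ M] ![u, v])
      (X (Sum.inl 0) ^ n1 * X (Sum.inl 1) ^ n2 : MvPolynomial (Fin 2 ⊕ Fin 2) k)
    rw [map_mul, map_pow, map_pow, aeval_X, aeval_X] at this
    exact this
  · rw [map_mul, map_pow, map_pow]
    rcases hn with hn | hn
    · calc O.valuation u ^ n1 * O.valuation (φ / u ^ M) ^ n2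
          ≤ O.valuation u ^ n1 * 1 := by
            gcongr
            exact pow_le_one₀ zero_le ht.le
        _ < 1 := by rw [mul_one]; exact pow_lt_one₀ zero_le hu (by omega)
    · calc O.valuation u ^ n1 * O.valuation (φ / u ^ M) ^ n2
          ≤ 1 * O.valuation (φ / u ^ M) ^ n2 := by
            gcongr
            exact pow_le_one₀ zero_le hu.le
        _ < 1 := by rw [one_mul]; exact pow_lt_one₀ zero_le ht (by omega)

end val

section main

variable {k : Type u} {F : Type u} [Field k] [IsAlgClosed k] [Field F] [Algebra k F]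

/-- normal forms at a composite valuation, at a point where the curve `f = 0` is transversal to
the direction of the second coordinate -/
theorem d_fin (p : ℕ) [Fact p.Prime] [CharP k p] {O : ValuationSubring F}
    (hO : ∀ c : k, algebraMap k F c ∈ O) (htr : Algebra.trdeg k F = 2) {u v : F}
    (hs : Stg k O u v) {f : MvPolynomial (Fin 2) k} (hf : Irreducible f)
    (hfN : ∀ N : ℕ, O.valuation (aeval ![u, v] f) < O.valuation u ^ N)
    (hfd : coeff 0 (pderiv 1 f) ≠ 0) (g : F) (H : Finset F) : HasNF k p 2 O g H := by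
  classical
  have hinj := aeval_inj hs.gen htr
  have h0 : aeval ![u, v] f ≠ 0 := by
    intro h
    exact hf.ne_zero (hinj (by rw [h, map_zero]))
  have hfd1 : aeval ![u, v] (pderiv 1 f) ≠ 0 := by
    intro h
    have h1 : pderiv 1 f = 0 := hinj (by rw [h, map_zero])
    exact hfd (by rw [h1, coeff_zero])
  have hf0 : coeff 0 f = 0 := by
    by_contra h
    have h1 := val_const hO hs.hu hs.hv h
    have h2 := hfN 0
    rw [h1, pow_zero] at h2
    exact lt_irrefl _ h2
  have hcF : CharP F p := charP_of_injective_algebraMap (algebraMap k F).injective p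
  have hp : 0 < p := Nat.Prime.pos (Fact.out : p.Prime)
  have hperf : ∀ c : k, ∃ d : k, d ^ p = c := fun c => IsAlgClosed.exists_pow_nat_eq c hp
  have hall : ∀ x : F, x ≠ 0 → ∃ a b : ℤ, DFin_G k O u v (aeval ![u, v] f) x a b :=
    fun x hx => DFin_G.all hO hs hf hfN hf0 hfd h0 hx
  obtain ⟨c, hc⟩ := DFin_pbasis p hperf hs.gen hfd1 g
  have hchart := DFin_chart hO hs h0 hfN hfd
  set φ := aeval ![u, v] f with hφ
  have hVu : O.valuation u ≠ 0 := (Valuation.ne_zero_iff _).2 hs.u0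
  -- the elements of `H`
  have hH : ∀ᶠ M : ℕ in Filter.atTop, ∀ h ∈ H, h ≠ 0 → ∃ (e : Fin 2 → ℤ) (ρ : F),
      h = mon ![u, φ / u ^ M] e * ρ ∧
      ULoc k O (Sum.elim ![u, φ / u ^ M] ![u, v]) ρ := by
    rw [Filter.eventually_all_finset]
    intro h _
    by_cases hh : h = 0
    · exact Filter.Eventually.of_forall fun M hn => absurd hh hn
    · obtain ⟨a, b, hab⟩ := hall h hh
      filter_upwards [hab] with M h1 _
      obtain ⟨ρ, hρ, e⟩ := h1
      exact ⟨![a + M * b, b], ρ, by rw [e, DFin_mon hs.u0 φ M], hρ⟩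
  -- the terms
  set T : Fin p × Fin p → F := fun ij => c ij ^ p * (u ^ (ij.1 : ℕ) * φ ^ (ij.2 : ℕ)) with hT
  let o : Fin p × Fin p := (⟨0, hp⟩, ⟨0, hp⟩)
  set I : Finset (Fin p × Fin p) := Finset.univ.filter (fun ij => ij ≠ o ∧ T ij ≠ 0) with hI
  have hTo : T o = c o ^ p := by
    show c o ^ p * (u ^ 0 * φ ^ 0) = _
    rw [pow_zero, pow_zero, mul_one, mul_one]
  have hg : g = c o ^ p + ∑ ij ∈ I, T ij := by
    rw [hc, ← hTo, ← Finset.add_sum_erase _ T (Finset.mem_univ o)]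
    refine congrArg (T o + ·) ?_
    rw [hI]
    symm
    refine Finset.sum_subset (fun x hx => ?_) (fun x hx hx' => ?_)
    · rw [Finset.mem_filter] at hx
      exact Finset.mem_erase.2 ⟨hx.2.1, hx.1⟩
    · by_contra hne
      exact hx' (Finset.mem_filter.2 ⟨Finset.mem_univ _, (Finset.mem_erase.1 hx).1, hne⟩)
  rcases I.eq_empty_or_nonempty with hIe | hIn
  · -- a `p`-th power
    obtain ⟨M, hM⟩ := hH.exists
    exact ⟨_, _, _, hchart M, hM, c o, 0, by rw [hg, hIe, Finset.sum_empty], Or.inl rfl⟩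
  -- the exponents of the terms
  have hex : ∀ ij : Fin p × Fin p, T ij ≠ 0 → ∃ a b : ℤ,
      DFin_G k O u v φ (T ij) (p * a + (ij.1 : ℕ)) (p * b + (ij.2 : ℕ)) := by
    intro ij hij
    have hcij : c ij ≠ 0 := by
      intro h
      apply hij
      show c ij ^ p * _ = 0
      rw [h, zero_pow hp.ne', zero_mul]
    obtain ⟨a, b, hab⟩ := hall _ hcij
    refine ⟨a, b, ?_⟩
    have h1 := (DFin_G.Xu (k := k) (O := O) (u := u) (v := v) (φ := φ)).pow (ij.1 : ℕ)
    have h2 := (DFin_G.Xf (k := k) (O := O) (u := u) (v := v) (φ := φ)).pow (ij.2 : ℕ)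
    have h3 := (hab.pow p).mul hs.u0 h0 (h1.mul hs.u0 h0 h2)
    have e1 : (p : ℤ) * a + (((ij.1 : ℕ) : ℤ) * 1 + ((ij.2 : ℕ) : ℤ) * 0) = p * a + (ij.1 : ℕ) := by
      ring
    have e2 : (p : ℤ) * b + (((ij.1 : ℕ) : ℤ) * 0 + ((ij.2 : ℕ) : ℤ) * 1) = p * b + (ij.2 : ℕ) := by
      ring
    rw [e1, e2] at h3
    exact h3
  choose! α β hαβ using hex
  -- the dominant term
  obtain ⟨q, hqI, hqmax⟩ := Finset.exists_max_image I (fun ij => O.valuation (T ij)) hIn
  have hq : q ≠ o ∧ T q ≠ 0 := (Finset.mem_filter.1 hqI).2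
  set A : Fin p × Fin p → ℤ := fun ij => p * α ij + (ij.1 : ℕ) with hA
  set B : Fin p × Fin p → ℤ := fun ij => p * β ij + (ij.2 : ℕ) with hB
  have hrat : ∀ ij ∈ I.erase q, DFin_G k O u v φ (T ij / T q) (A ij - A q) (B ij - B q) := by
    intro ij hij
    have h1 : T ij ≠ 0 := (Finset.mem_filter.1 (Finset.mem_of_mem_erase hij)).2.2
    rw [div_eq_mul_inv, sub_eq_add_neg, sub_eq_add_neg]
    exact (hαβ ij h1).mul hs.u0 h0 (hαβ q hq.2).inv
  have hne : ∀ ij ∈ I.erase q, A ij - A q ≠ 0 ∨ B ij - B q ≠ 0 := by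
    intro ij hij
    by_contra hcon
    push Not at hcon
    apply (Finset.mem_erase.1 hij).1
    have hmod : ∀ (x y : ℤ) (i j : Fin p), (p : ℤ) * x + (i : ℕ) - (p * y + (j : ℕ)) = 0 →
        i = j := by
      intro x y i j h
      have h1 : ((i : ℕ) : ℤ) = ((i : ℕ) : ℤ) % p := by
        rw [Int.emod_eq_of_lt (by positivity) (by exact_mod_cast i.2)]
      have h2 : ((j : ℕ) : ℤ) = ((j : ℕ) : ℤ) % p := by
        rw [Int.emod_eq_of_lt (by positivity) (by exact_mod_cast j.2)]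
      have h3 : ((i : ℕ) : ℤ) = ((j : ℕ) : ℤ) + p * (y - x) := by linear_combination h
      have h4 : ((i : ℕ) : ℤ) = ((j : ℕ) : ℤ) := by
        rw [h1, h3, Int.add_mul_emod_self_left, ← h2]
      exact Fin.ext (by exact_mod_cast h4)
    exact Prod.ext (hmod _ _ _ _ hcon.1) (hmod _ _ _ _ hcon.2)
  have hrat' : ∀ᶠ M : ℕ in Filter.atTop, ∀ ij ∈ I.erase q,
      (∃ ρ, ULoc k O (Sum.elim ![u, φ / u ^ M] ![u, v]) ρ ∧
        T ij / T q = u ^ (A ij - A q) * φ ^ (B ij - B q) * ρ) ∧ (A ij - A q).natAbs ≤ M := by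
    rw [Filter.eventually_all_finset]
    intro ij hij
    exact (hrat ij hij).and (Filter.eventually_ge_atTop _)
  obtain ⟨M, hMH, hMr, hMq⟩ := (hH.and (hrat'.and (hαβ q hq.2))).exists
  obtain ⟨ρ, hρ, hTq⟩ := hMq
  have hsmall : ∀ ij ∈ I.erase q, LLoc k O (Sum.elim ![u, φ / u ^ M] ![u, v]) (T ij / T q) ∧
      O.valuation (T ij / T q) < 1 := by
    intro ij hij
    obtain ⟨⟨ρ', hρ', e⟩, hM1⟩ := hMr ij hij
    have hle : O.valuation (T ij / T q) ≤ 1 := by
      rw [map_div₀]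
      exact div_le_one_of_le₀ (hqmax ij (Finset.mem_of_mem_erase hij)) zero_le
    have hv1 : O.valuation ρ' = 1 := hρ'.val
    have hle' : O.valuation (u ^ (A ij - A q) * φ ^ (B ij - B q)) ≤ 1 := by
      rw [e, map_mul, hv1, mul_one] at hle
      exact hle
    have hpos := DFin_val_pos hs.hu hs.u0 h0 hfN hle' (hne ij hij)
    obtain ⟨h1, h2⟩ := DFin_small (k := k) hs.hu hs.u0 hfN hpos hM1
    rw [e]
    refine ⟨h1.mul hρ'.toLLoc, ?_⟩
    rw [map_mul, hv1, mul_one]
    exact h2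
  have hBeq : ∑ ij ∈ I, T ij = T q * (1 + ∑ ij ∈ I.erase q, T ij / T q) := by
    rw [← Finset.add_sum_erase _ _ hqI, mul_add, mul_one, Finset.mul_sum]
    congr 1
    refine Finset.sum_congr rfl fun ij _ => ?_
    rw [mul_div_cancel₀ _ hq.2]
  have hsum : O.valuation (∑ ij ∈ I.erase q, T ij / T q) < 1 :=
    Valuation.map_sum_lt _ one_ne_zero fun ij hij => (hsmall ij hij).2
  have hunit : ULoc k O (Sum.elim ![u, φ / u ^ M] ![u, v])
      (1 + ∑ ij ∈ I.erase q, T ij / T q) := by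
    refine LLoc.uloc (LLoc.add (ULoc.one).toLLoc (LLoc.sum _ fun ij hij => (hsmall ij hij).1)) ?_
    rw [Valuation.map_add_eq_of_lt_left _ (by rw [map_one]; exact hsum), map_one]
  refine ⟨_, _, _, hchart M, hMH, c o, ∑ ij ∈ I, T ij, hg, Or.inr ⟨![A q + M * B q, B q],
    ρ * (1 + ∑ ij ∈ I.erase q, T ij / T q), ?_, hρ.mul hunit, ?_⟩⟩
  · rw [hBeq, ← DFin_mon hs.u0 φ M]
    generalize (1 + ∑ ij ∈ I.erase q, T ij / T q) = S
    rw [hTq]
    show _ = u ^ ((p : ℤ) * α q + ((q.1 : ℕ) : ℤ)) * φ ^ ((p : ℤ) * β q + ((q.2 : ℕ) : ℤ)) *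
      (ρ * S)
    ring
  · have hu1 : u⁻¹ ∉ O := by
      intro h
      rw [← O.valuation_le_one_iff, map_inv₀, inv_le_one₀ (zero_lt_iff.2 hVu)] at h
      exact absurd hs.hu (not_lt.2 h)
    have ht1 : (φ / u ^ M)⁻¹ ∉ O := by
      intro h
      have ht : O.valuation (φ / u ^ M) < 1 := by
        rw [map_div₀, map_pow]
        exact (div_lt_one₀ (pow_pos (zero_lt_iff.2 hVu) _)).2 (hfN M)
      have ht0 : O.valuation (φ / u ^ M) ≠ 0 :=
        (Valuation.ne_zero_iff _).2 (div_ne_zero h0 (pow_ne_zero _ hs.u0))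
      rw [← O.valuation_le_one_iff, map_inv₀, inv_le_one₀ (zero_lt_iff.2 ht0)] at h
      exact absurd ht (not_lt.2 h)
    have hAk : ((A q : ℤ) : k) = ((q.1 : ℕ) : k) := by
      simp only [hA]
      push_cast
      rw [CharP.cast_eq_zero k p]
      ring
    have hBk : ((B q : ℤ) : k) = ((q.2 : ℕ) : k) := by
      simp only [hB]
      push_cast
      rw [CharP.cast_eq_zero k p]
      ring
    have hcast : ∀ i : Fin p, ((i : ℕ) : k) = 0 → i = ⟨0, hp⟩ := by
      intro i hi
      rw [CharP.cast_eq_zero_iff k p] at hi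
      exact Fin.ext (Nat.eq_zero_of_dvd_of_lt hi i.2)
    by_cases hq2 : ((B q : ℤ) : k) = 0
    · refine ⟨0, ?_, Or.inl hu1⟩
      show (((A q + M * B q : ℤ)) : k) ≠ 0
      push_cast
      rw [hq2, mul_zero, add_zero, hAk]
      intro h
      rw [hBk] at hq2
      exact hq.1 (Prod.ext (hcast _ h) (hcast _ hq2))
    · exact ⟨1, hq2, Or.inl ht1⟩

end main

end LS
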