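import Pool.Agent.helper90.LS.ADefs
import Pool.Agent.helper90.LS.DFin

/-! # LUS-ADFin: a composite valuation at a transversal point, Artin-Schreier version -/

open MvPolynomial

namespace LS

open LU

universe u

section val

variable {k : Type u} {F : Type u} [Field k] [Field F] [Algebra k F]
variable {O : ValuationSubring F} {u v φ : F}

/-- an element of value at most one with non-zero exponents is small -/
theorem ADFin_lt (hu : O.valuation u < 1) (hu0 : u ≠ 0) (hφ0 : φ ≠ 0)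
    (hφ : ∀ N : ℕ, O.valuation φ < O.valuation u ^ N) {r : F} {a b : ℤ}
    (hr : DFin_G k O u v φ r a b) (h : O.valuation r ≤ 1) (hab : a ≠ 0 ∨ b ≠ 0) :
    (0 < b ∨ (b = 0 ∧ 0 < a)) ∧ O.valuation r < 1 := by
  obtain ⟨M, ⟨ρ, hρ, e⟩, hM⟩ := (hr.and (Filter.eventually_ge_atTop a.natAbs)).exists
  have hle : O.valuation (u ^ a * φ ^ b) ≤ 1 := by
    rw [e, map_mul, hρ.val, mul_one] at h
    exact h
  have hpos := DFin_val_pos hu hu0 hφ0 hφ hle hab
  refine ⟨hpos, ?_⟩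
  rw [e, map_mul, hρ.val, mul_one]
  exact (DFin_small (k := k) (v := v) hu hu0 hφ hpos hM).2

/-- an element of value at most one is regular on the charts with a large number -/
theorem ADFin_L (hu : O.valuation u < 1) (hu0 : u ≠ 0) (hφ0 : φ ≠ 0)
    (hφ : ∀ N : ℕ, O.valuation φ < O.valuation u ^ N) {r : F} {a b : ℤ}
    (hr : DFin_G k O u v φ r a b) (h : O.valuation r ≤ 1) :
    ∀ᶠ M : ℕ in Filter.atTop, LLoc k O (Sum.elim ![u, φ / u ^ M] ![u, v]) r := by
  by_cases hab : a ≠ 0 ∨ b ≠ 0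
  · have hpos := (ADFin_lt hu hu0 hφ0 hφ hr h hab).1
    filter_upwards [hr, Filter.eventually_ge_atTop a.natAbs] with M h1 hM
    obtain ⟨ρ, hρ, e⟩ := h1
    rw [e]
    exact (DFin_small (k := k) hu hu0 hφ hpos hM).1.mul hρ.toLLoc
  · push Not at hab
    filter_upwards [hr] with M h1
    obtain ⟨ρ, hρ, e⟩ := h1
    rw [e, hab.1, hab.2, zpow_zero, zpow_zero, one_mul, one_mul]
    exact hρ.toLLoc

theorem ADFin_LLoc_zero {σ : Type} {z : σ → F} : LLoc k O z 0 :=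
  ⟨0, 1, by simp, by simp⟩

/-- the exponents of a term -/
theorem ADFin_exp {p : ℕ} (hu0 : u ≠ 0) (hφ0 : φ ≠ 0) {c : F} {a b : ℤ}
    (h : DFin_G k O u v φ c a b) (i j : ℕ) :
    DFin_G k O u v φ (c ^ p * (u ^ i * φ ^ j)) (p * a + i) (p * b + j) := by
  have h1 := (DFin_G.Xu (k := k) (O := O) (u := u) (v := v) (φ := φ)).pow i
  have h2 := (DFin_G.Xf (k := k) (O := O) (u := u) (v := v) (φ := φ)).pow j
  have h3 := (h.pow p).mul hu0 hφ0 (h1.mul hu0 hφ0 h2)
  have e1 : (p : ℤ) * a + ((i : ℤ) * 1 + (j : ℤ) * 0) = p * a + i := by ring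
  have e2 : (p : ℤ) * b + ((i : ℤ) * 0 + (j : ℤ) * 1) = p * b + j := by ring
  rw [e1, e2] at h3
  exact h3

theorem ADFin_mod {p : ℕ} {x y : ℤ} {i j : Fin p}
    (h : (p : ℤ) * x + (i : ℕ) - (p * y + (j : ℕ)) = 0) : i = j := by
  have h1 : ((i : ℕ) : ℤ) = ((i : ℕ) : ℤ) % p := by
    rw [Int.emod_eq_of_lt (by positivity) (by exact_mod_cast i.2)]
  have h2 : ((j : ℕ) : ℤ) = ((j : ℕ) : ℤ) % p := by
    rw [Int.emod_eq_of_lt (by positivity) (by exact_mod_cast j.2)]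
  have h3 : ((i : ℕ) : ℤ) = ((j : ℕ) : ℤ) + p * (y - x) := by linear_combination h
  have h4 : ((i : ℕ) : ℤ) = ((j : ℕ) : ℤ) := by
    rw [h1, h3, Int.add_mul_emod_self_left, ← h2]
  exact Fin.ext (by exact_mod_cast h4)

/-- the ratio of two terms -/
theorem ADFin_rat {p : ℕ} (hp : 0 < p) (hu : O.valuation u < 1) (hu0 : u ≠ 0) (hφ0 : φ ≠ 0)
    (hφ : ∀ N : ℕ, O.valuation φ < O.valuation u ^ N)
    (hall : ∀ x : F, x ≠ 0 → ∃ a b : ℤ, DFin_G k O u v φ x a b)
    (c : Fin p × Fin p → F) {ij q : Fin p × Fin p} (hne : ij ≠ q)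
    (hq : c q ≠ 0)
    (hle : O.valuation (c ij ^ p * (u ^ (ij.1 : ℕ) * φ ^ (ij.2 : ℕ))) ≤
      O.valuation (c q ^ p * (u ^ (q.1 : ℕ) * φ ^ (q.2 : ℕ)))) :
    O.valuation (c ij ^ p * (u ^ (ij.1 : ℕ) * φ ^ (ij.2 : ℕ)) /
        (c q ^ p * (u ^ (q.1 : ℕ) * φ ^ (q.2 : ℕ)))) < 1 ∧
      ∀ᶠ M : ℕ in Filter.atTop, LLoc k O (Sum.elim ![u, φ / u ^ M] ![u, v])
        (c ij ^ p * (u ^ (ij.1 : ℕ) * φ ^ (ij.2 : ℕ)) /
          (c q ^ p * (u ^ (q.1 : ℕ) * φ ^ (q.2 : ℕ)))) := by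
  by_cases h0 : c ij = 0
  · rw [h0, zero_pow hp.ne', zero_mul, zero_div, map_zero]
    exact ⟨zero_lt_one, Filter.Eventually.of_forall fun M => ADFin_LLoc_zero⟩
  obtain ⟨a, b, hab⟩ := hall _ h0
  obtain ⟨a', b', hab'⟩ := hall _ hq
  have h1 := ADFin_exp (p := p) hu0 hφ0 hab (ij.1 : ℕ) (ij.2 : ℕ)
  have h2 := ADFin_exp (p := p) hu0 hφ0 hab' (q.1 : ℕ) (q.2 : ℕ)
  have h3 := h1.mul hu0 hφ0 h2.inv
  rw [← div_eq_mul_inv, ← sub_eq_add_neg, ← sub_eq_add_neg] at h3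
  have hd : O.valuation (c ij ^ p * (u ^ (ij.1 : ℕ) * φ ^ (ij.2 : ℕ)) /
        (c q ^ p * (u ^ (q.1 : ℕ) * φ ^ (q.2 : ℕ)))) ≤ 1 := by
    rw [map_div₀]
    exact div_le_one_of_le₀ hle zero_le
  refine ⟨(ADFin_lt hu hu0 hφ0 hφ h3 hd ?_).2, ADFin_L hu hu0 hφ0 hφ h3 hd⟩
  by_contra hcon
  push Not at hcon
  exact hne (Prod.ext (ADFin_mod hcon.1) (ADFin_mod hcon.2))

/-- factoring out the dominant term -/
theorem ADFin_fac {ι : Type} [Fintype ι] [DecidableEq ι] {T : ι → F} {q : ι} (hq : T q ≠ 0) :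
    ∑ ij, T ij = T q * (1 + ∑ ij ∈ Finset.univ.erase q, T ij / T q) := by
  rw [← Finset.add_sum_erase _ _ (Finset.mem_univ q), mul_add, mul_one, Finset.mul_sum]
  congr 1
  refine Finset.sum_congr rfl fun ij _ => ?_
  rw [mul_div_cancel₀ _ hq]

/-- the reduction modulo `A ^ p - A` -/
theorem ADFin_red {p : ℕ} [Fact p.Prime] [CharP F p] (hu : O.valuation u < 1) (hu0 : u ≠ 0)
    (hφ0 : φ ≠ 0) (hφ : ∀ N : ℕ, O.valuation φ < O.valuation u ^ N)
    (hall : ∀ x : F, x ≠ 0 → ∃ a b : ℤ, DFin_G k O u v φ x a b)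
    (hpb : ∀ g : F, ∃ c : Fin p × Fin p → F,
      g = ∑ ij, c ij ^ p * (u ^ (ij.1 : ℕ) * φ ^ (ij.2 : ℕ)))
    (o : Fin p × Fin p) (ho : o.1.1 = 0 ∧ o.2.1 = 0) (n : ℕ ×ₗ ℕ) :
    ∀ (x : F) (a b : ℤ), DFin_G k O u v φ x a b → x ≠ 0 →
      toLex ((-b).toNat, (-a).toNat) = n →
      ∃ (A : F) (c : Fin p × Fin p → F),
        x = A ^ p - A + ∑ ij, c ij ^ p * (u ^ (ij.1 : ℕ) * φ ^ (ij.2 : ℕ)) ∧
        O.valuation (c o) ≤ 1 := by
  classical
  have hp : 0 < p := Nat.Prime.pos (Fact.out : p.Prime)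
  have hp2 : 2 ≤ p := Nat.Prime.two_le (Fact.out : p.Prime)
  have hE : ExpChar F p := ExpChar.prime (Fact.out : p.Prime)
  induction n using WellFoundedLT.induction with
  | ind n ih =>
    intro x a b hx hx0 hn
    obtain ⟨c, hc⟩ := hpb x
    by_cases hco : O.valuation (c o) ≤ 1
    · exact ⟨0, c, by rw [zero_pow hp.ne', sub_zero, zero_add]; exact hc, hco⟩
    rw [not_le] at hco
    have hc0 : c o ≠ 0 := by
      intro h
      rw [h, map_zero] at hco
      exact absurd hco (not_lt.2 zero_le)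
    obtain ⟨a', b', hab'⟩ := hall _ hc0
    -- the value of `c o`
    have hle : O.valuation (c o ^ p) ≤ O.valuation x := by
      set T : Fin p × Fin p → F := fun ij => c ij ^ p * (u ^ (ij.1 : ℕ) * φ ^ (ij.2 : ℕ)) with hT
      have hTo : T o = c o ^ p := by
        show c o ^ p * (u ^ (o.1.1) * φ ^ (o.2.1)) = _
        rw [ho.1, ho.2, pow_zero, pow_zero, mul_one, mul_one]
      obtain ⟨q, -, hqmax⟩ := Finset.exists_max_image Finset.univ (fun ij => O.valuation (T ij))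
        ⟨o, Finset.mem_univ o⟩
      have hoq : O.valuation (T o) ≤ O.valuation (T q) := hqmax o (Finset.mem_univ o)
      have hTq : T q ≠ 0 := by
        intro h
        rw [h, map_zero, hTo] at hoq
        have : O.valuation (c o ^ p) = 0 := le_antisymm hoq zero_le
        rw [map_eq_zero] at this
        exact pow_ne_zero p hc0 this
      have hcq : c q ≠ 0 := by
        intro h
        apply hTq
        show c q ^ p * _ = 0
        rw [h, zero_pow hp.ne', zero_mul]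
      have hsum : O.valuation (∑ ij ∈ Finset.univ.erase q, T ij / T q) < 1 :=
        Valuation.map_sum_lt _ one_ne_zero fun ij hij =>
          (ADFin_rat (k := k) (v := v) hp hu hu0 hφ0 hφ hall c (Finset.ne_of_mem_erase hij) hcq
            (hqmax ij (Finset.mem_univ ij))).1
      have hxT : O.valuation x = O.valuation (T q) := by
        rw [hc]
        show O.valuation (∑ ij, T ij) = _
        rw [ADFin_fac hTq, map_mul, Valuation.map_add_eq_of_lt_left _ (by rw [map_one]; exact hsum),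
          map_one, mul_one]
      rw [hxT, ← hTo]
      exact hoq
    have hcinv : O.valuation (c o)⁻¹ < 1 := by
      rw [map_inv₀]
      exact inv_lt_one_of_one_lt₀ hco
    -- the exponents
    have hab1 : a' ≠ 0 ∨ b' ≠ 0 := by
      by_contra hcon
      push Not at hcon
      obtain ⟨M, ρ, hρ, e⟩ := hab'.exists
      rw [e, hcon.1, hcon.2, zpow_zero, zpow_zero, one_mul, one_mul, hρ.val] at hco
      exact lt_irrefl _ hco
    have hneg := (ADFin_lt hu hu0 hφ0 hφ hab'.inv hcinv.le (by omega)).1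
    have hdiv : O.valuation (c o ^ p * x⁻¹) ≤ 1 := by
      rw [map_mul, map_inv₀, ← div_eq_mul_inv]
      exact div_le_one_of_le₀ hle zero_le
    have hdd := (hab'.pow p).mul hu0 hφ0 hx.inv
    have hexp : (p * a' + -a = 0 ∧ p * b' + -b = 0) ∨
        (0 < p * b' + -b ∨ (p * b' + -b = 0 ∧ 0 < p * a' + -a)) := by
      by_cases h : (p : ℤ) * a' + -a ≠ 0 ∨ (p : ℤ) * b' + -b ≠ 0
      · exact Or.inr (ADFin_lt hu hu0 hφ0 hφ hdd hdiv h).1
      · push Not at h
        exact Or.inl h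
    have hlt : toLex ((-b').toNat, (-a').toNat) < n := by
      rw [← hn, Prod.Lex.toLex_lt_toLex]
      have hp2' : (2 : ℤ) ≤ p := by exact_mod_cast hp2
      rcases hneg with hb | ⟨hb, ha⟩
      · left
        have h1 : (p : ℤ) * b' ≤ 2 * b' := by nlinarith
        show (-b').toNat < (-b).toNat
        omega
      · have hb0 : b' = 0 := by omega
        have h1 : (p : ℤ) * a' ≤ 2 * a' := by nlinarith
        have h2 : (p : ℤ) * b' = 0 := by rw [hb0, mul_zero]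
        show (-b').toNat < (-b).toNat ∨ ((-b').toNat = (-b).toNat ∧ (-a').toNat < (-a).toNat)
        omega
    obtain ⟨A, d, hd, hdo⟩ := ih _ hlt (c o) a' b' hab' hc0 rfl
    refine ⟨c o + A, fun ij => (if ij = o then 0 else c ij) + d ij, ?_, ?_⟩
    · have h1 : ∑ ij, ((if ij = o then 0 else c ij) + d ij) ^ p *
          (u ^ (ij.1 : ℕ) * φ ^ (ij.2 : ℕ)) =
          ∑ ij, (if ij = o then 0 else c ij) ^ p * (u ^ (ij.1 : ℕ) * φ ^ (ij.2 : ℕ)) +
          ∑ ij, d ij ^ p * (u ^ (ij.1 : ℕ) * φ ^ (ij.2 : ℕ)) := by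
        rw [← Finset.sum_add_distrib]
        refine Finset.sum_congr rfl fun ij _ => ?_
        rw [add_pow_expChar, add_mul]
      have h2 : x = c o ^ p +
          ∑ ij, (if ij = o then 0 else c ij) ^ p * (u ^ (ij.1 : ℕ) * φ ^ (ij.2 : ℕ)) := by
        conv_lhs => rw [hc]
        rw [← Finset.add_sum_erase Finset.univ _ (Finset.mem_univ o),
          ← Finset.add_sum_erase Finset.univ (fun ij => (if ij = o then 0 else c ij) ^ p *
            (u ^ (ij.1 : ℕ) * φ ^ (ij.2 : ℕ))) (Finset.mem_univ o)]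
        rw [if_pos rfl, zero_pow hp.ne', zero_mul, zero_add, ho.1, ho.2, pow_zero, pow_zero,
          mul_one, mul_one]
        congr 1
        refine Finset.sum_congr rfl fun ij hij => ?_
        rw [if_neg (Finset.ne_of_mem_erase hij)]
      rw [h1, add_pow_expChar]
      linear_combination h2 + hd
    · show O.valuation ((if o = o then 0 else c o) + d o) ≤ 1
      rw [if_pos rfl, zero_add]
      exact hdo

end val

section main

variable {k : Type u} {F : Type u} [Field k] [IsAlgClosed k] [Field F] [Algebra k F]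

theorem as_d_fin (p : ℕ) [Fact p.Prime] [CharP k p] {O : ValuationSubring F}
    (hO : ∀ c : k, algebraMap k F c ∈ O) (htr : Algebra.trdeg k F = 2) {u v : F}
    (hs : Stg k O u v) {f : MvPolynomial (Fin 2) k} (hf : Irreducible f)
    (hfN : ∀ N : ℕ, O.valuation (aeval ![u, v] f) < O.valuation u ^ N)
    (hfd : coeff 0 (pderiv 1 f) ≠ 0) (g : F) (H : Finset F) : HasAS k p 2 O g H := by
  classical
  have hinj := aeval_inj hs.gen htr
  have h0 : aeval ![u, v] f ≠ 0 := by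
    intro h
    exact hf.ne_zero (hinj (by rw [h, map_zero]))
  have hfd1 : aeval ![u, v] (pderiv 1 f) ≠ 0 := by
    intro h
    have h1 : pderiv 1 f = 0 := hinj (by rw [h, map_zero])
    exact hfd (by rw [h1, coeff_zero])
  have hf0 : coeff 0 f = 0 := by
    by_contra h
    have h1 := val_const hO hs.hu hs.hv h
    have h2 := hfN 0
    rw [h1, pow_zero] at h2
    exact lt_irrefl _ h2
  have hcF : CharP F p := charP_of_injective_algebraMap (algebraMap k F).injective p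
  have hp : 0 < p := Nat.Prime.pos (Fact.out : p.Prime)
  have hperf : ∀ c : k, ∃ d : k, d ^ p = c := fun c => IsAlgClosed.exists_pow_nat_eq c hp
  have hall : ∀ x : F, x ≠ 0 → ∃ a b : ℤ, DFin_G k O u v (aeval ![u, v] f) x a b :=
    fun x hx => DFin_G.all hO hs hf hfN hf0 hfd h0 hx
  have hpb : ∀ g : F, ∃ c : Fin p × Fin p → F,
      g = ∑ ij, c ij ^ p * (u ^ (ij.1 : ℕ) * (aeval ![u, v] f) ^ (ij.2 : ℕ)) :=
    fun g => DFin_pbasis p hperf hs.gen hfd1 g
  have hchart := DFin_chart hO hs h0 hfN hfd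
  set φ := aeval ![u, v] f with hφ
  have hVu : O.valuation u ≠ 0 := (Valuation.ne_zero_iff _).2 hs.u0
  let o : Fin p × Fin p := (⟨0, hp⟩, ⟨0, hp⟩)
  -- the reduction
  have hred : ∃ (A : F) (c : Fin p × Fin p → F),
      g = A ^ p - A + ∑ ij, c ij ^ p * (u ^ (ij.1 : ℕ) * φ ^ (ij.2 : ℕ)) ∧
        O.valuation (c o) ≤ 1 := by
    by_cases hg : g = 0
    · refine ⟨0, fun _ => 0, ?_, ?_⟩
      · simp [hg, zero_pow hp.ne']
      · rw [map_zero]
        exact zero_le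
    · obtain ⟨a, b, hab⟩ := hall g hg
      exact ADFin_red hs.hu hs.u0 h0 hfN hall hpb o ⟨rfl, rfl⟩ _ g a b hab hg rfl
  obtain ⟨A, c, hg, hco⟩ := hred
  -- the elements of `H`
  have hH : ∀ᶠ M : ℕ in Filter.atTop, ∀ h ∈ H, h ≠ 0 → ∃ (e : Fin 2 → ℤ) (ρ : F),
      h = mon ![u, φ / u ^ M] e * ρ ∧
      ULoc k O (Sum.elim ![u, φ / u ^ M] ![u, v]) ρ := by
    rw [Filter.eventually_all_finset]
    intro h _
    by_cases hh : h = 0
    · exact Filter.Eventually.of_forall fun M hn => absurd hh hn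
    · obtain ⟨a, b, hab⟩ := hall h hh
      filter_upwards [hab] with M h1 _
      obtain ⟨ρ, hρ, e⟩ := h1
      exact ⟨![a + M * b, b], ρ, by rw [e, DFin_mon hs.u0 φ M], hρ⟩
  -- the terms
  set T : Fin p × Fin p → F := fun ij => c ij ^ p * (u ^ (ij.1 : ℕ) * φ ^ (ij.2 : ℕ)) with hT
  have hTo : T o = c o ^ p := by
    show c o ^ p * (u ^ 0 * φ ^ 0) = _
    rw [pow_zero, pow_zero, mul_one, mul_one]
  have hVTo : O.valuation (T o) ≤ 1 := by
    rw [hTo, map_pow]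
    exact pow_le_one₀ zero_le hco
  obtain ⟨q, -, hqmax⟩ := Finset.exists_max_image Finset.univ (fun ij => O.valuation (T ij))
    ⟨o, Finset.mem_univ o⟩
  by_cases hVq : O.valuation (T q) ≤ 1
  · -- regular
    have hreg : ∀ᶠ M : ℕ in Filter.atTop, ∀ ij ∈ (Finset.univ : Finset (Fin p × Fin p)),
        LLoc k O (Sum.elim ![u, φ / u ^ M] ![u, v]) (T ij) := by
      rw [Filter.eventually_all_finset]
      intro ij hij
      by_cases hc0 : c ij = 0
      · have : T ij = 0 := by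
          show c ij ^ p * _ = 0
          rw [hc0, zero_pow hp.ne', zero_mul]
        rw [this]
        exact Filter.Eventually.of_forall fun M => ADFin_LLoc_zero
      · obtain ⟨a, b, hab⟩ := hall _ hc0
        exact ADFin_L hs.hu hs.u0 h0 hfN (ADFin_exp (p := p) hs.u0 h0 hab (ij.1 : ℕ) (ij.2 : ℕ))
          ((hqmax ij hij).trans hVq)
    obtain ⟨M, hMH, hMr⟩ := (hH.and hreg).exists
    exact ⟨_, _, _, hchart M, hMH, A, ∑ ij, T ij, hg, Or.inl (LLoc.sum _ hMr)⟩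
  rw [not_le] at hVq
  have hTq : T q ≠ 0 := by
    intro h
    rw [h, map_zero] at hVq
    exact absurd hVq (not_lt.2 zero_le)
  have hcq : c q ≠ 0 := by
    intro h
    apply hTq
    show c q ^ p * _ = 0
    rw [h, zero_pow hp.ne', zero_mul]
  have hqo : q ≠ o := by
    intro h
    rw [h] at hVq
    exact absurd hVTo (not_le.2 hVq)
  have hrat : ∀ ij ∈ Finset.univ.erase q, O.valuation (T ij / T q) < 1 ∧
      ∀ᶠ M : ℕ in Filter.atTop, LLoc k O (Sum.elim ![u, φ / u ^ M] ![u, v]) (T ij / T q) :=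
    fun ij hij => ADFin_rat hp hs.hu hs.u0 h0 hfN hall c (Finset.ne_of_mem_erase hij) hcq
      (hqmax ij (Finset.mem_univ ij))
  have hrat' : ∀ᶠ M : ℕ in Filter.atTop, ∀ ij ∈ Finset.univ.erase q,
      LLoc k O (Sum.elim ![u, φ / u ^ M] ![u, v]) (T ij / T q) := by
    rw [Filter.eventually_all_finset]
    exact fun ij hij => (hrat ij hij).2
  obtain ⟨α, β, hαβ⟩ := hall _ hcq
  have hTexp : DFin_G k O u v φ (T q) (p * α + ((q.1 : ℕ) : ℤ)) (p * β + ((q.2 : ℕ) : ℤ)) :=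
    ADFin_exp (p := p) hs.u0 h0 hαβ (q.1 : ℕ) (q.2 : ℕ)
  obtain ⟨M, hMH, hMr, ρ, hρ, hTqe⟩ := (hH.and (hrat'.and hTexp)).exists
  have hsum : O.valuation (∑ ij ∈ Finset.univ.erase q, T ij / T q) < 1 :=
    Valuation.map_sum_lt _ one_ne_zero fun ij hij => (hrat ij hij).1
  have hunit : ULoc k O (Sum.elim ![u, φ / u ^ M] ![u, v])
      (1 + ∑ ij ∈ Finset.univ.erase q, T ij / T q) := by
    refine LLoc.uloc (LLoc.add (ULoc.one).toLLoc (LLoc.sum _ hMr)) ?_
    rw [Valuation.map_add_eq_of_lt_left _ (by rw [map_one]; exact hsum), map_one]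
  have hBeq := ADFin_fac (T := T) hTq
  refine ⟨_, _, _, hchart M, hMH, A, ∑ ij, T ij, hg, Or.inr ⟨⟨![p * α + ((q.1 : ℕ) : ℤ) +
    M * (p * β + ((q.2 : ℕ) : ℤ)), p * β + ((q.2 : ℕ) : ℤ)],
    ρ * (1 + ∑ ij ∈ Finset.univ.erase q, T ij / T q), ?_, hρ.mul hunit, ?_⟩, ?_⟩⟩
  · rw [hBeq, ← DFin_mon hs.u0 φ M]
    generalize (1 + ∑ ij ∈ Finset.univ.erase q, T ij / T q) = S
    rw [hTqe]
    ring
  · have hu1 : u⁻¹ ∉ O := by
      intro h
      rw [← O.valuation_le_one_iff, map_inv₀, inv_le_one₀ (zero_lt_iff.2 hVu)] at h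
      exact absurd hs.hu (not_lt.2 h)
    have ht1 : (φ / u ^ M)⁻¹ ∉ O := by
      intro h
      have ht : O.valuation (φ / u ^ M) < 1 := by
        rw [map_div₀, map_pow]
        exact (div_lt_one₀ (pow_pos (zero_lt_iff.2 hVu) _)).2 (hfN M)
      have ht0 : O.valuation (φ / u ^ M) ≠ 0 :=
        (Valuation.ne_zero_iff _).2 (div_ne_zero h0 (pow_ne_zero _ hs.u0))
      rw [← O.valuation_le_one_iff, map_inv₀, inv_le_one₀ (zero_lt_iff.2 ht0)] at h
      exact absurd ht (not_lt.2 h)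
    have hAk : ((p * α + ((q.1 : ℕ) : ℤ) : ℤ) : k) = ((q.1 : ℕ) : k) := by
      push_cast
      rw [CharP.cast_eq_zero k p]
      ring
    have hBk : ((p * β + ((q.2 : ℕ) : ℤ) : ℤ) : k) = ((q.2 : ℕ) : k) := by
      push_cast
      rw [CharP.cast_eq_zero k p]
      ring
    have hcast : ∀ i : Fin p, ((i : ℕ) : k) = 0 → i = ⟨0, hp⟩ := by
      intro i hi
      rw [CharP.cast_eq_zero_iff k p] at hi
      exact Fin.ext (Nat.eq_zero_of_dvd_of_lt hi i.2)
    by_cases hq2 : ((p * β + ((q.2 : ℕ) : ℤ) : ℤ) : k) = 0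
    · refine ⟨0, ?_, Or.inl hu1⟩
      show ((p * α + ((q.1 : ℕ) : ℤ) + M * (p * β + ((q.2 : ℕ) : ℤ)) : ℤ) : k) ≠ 0
      rw [Int.cast_add, Int.cast_mul, hq2, mul_zero, add_zero, hAk]
      intro h
      rw [hBk] at hq2
      exact hqo (Prod.ext (hcast _ h) (hcast _ hq2))
    · exact ⟨1, hq2, Or.inl ht1⟩
  · rw [hBeq, map_mul, hunit.val, mul_one]
    exact hVq

end main

end LS
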