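import Pool.Agent.helper90.LS.SDat

/-!
# Project LUS: rows of `p`-th root and Artin-Schreier type, and Kummer rows, over a chart
-/

open IsLocalRing

namespace LS

open LU

universe u

/-- charts of blocks inside `K`, rows `JA` with a pole, regular Artin-Schreier rows `JC`, Kummer
rows `JB` -/
structure ADat {k K : Type u} [Field k] [Field K] [Algebra k K] (V : ValuationSubring K) (p : ℕ)
    (ι W B JA JC JB : Type) [Fintype ι] [DecidableEq ι] [Fintype W] [DecidableEq W] [Fintype B]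
    [Fintype JA] [DecidableEq JA] [Fintype JC] [DecidableEq JC] [Fintype JB] [DecidableEq JB] where
  u : ι → K
  w : W → K
  Φ : W → MvPolynomial (ι ⊕ W) k
  G : W → W → K
  e : B → ι → ℤ
  N : B → MvPolynomial (ι ⊕ W) k
  D : B → MvPolynomial (ι ⊕ W) k
  NR : B → MvPolynomial (ι ⊕ W) k
  DR : B → MvPolynomial (ι ⊕ W) k
  η : JA → K
  γ : JA → k
  a : JA → B → k
  c : JA → B → k
  π : JA → B
  pv : JA → ι
  θ : JC → K
  cc : JC → B → k
  ζ : JB → K
  m : JB → ℕ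
  E : JB → ι → ℤ
  N2 : JB → MvPolynomial (ι ⊕ W) k
  D2 : JB → MvPolynomial (ι ⊕ W) k
  hu0 : ∀ i, u i ≠ 0
  huV : ∀ i, u i ∈ V
  hwV : ∀ l, w l ∈ V
  hΦ : ∀ l, MvPolynomial.aeval (Sum.elim u w) (Φ l) = 0
  hGV : ∀ l l', G l l' ∈ V
  hG1 : ∀ l l', ∑ m, MvPolynomial.aeval (Sum.elim u w) (MvPolynomial.pderiv (Sum.inr m) (Φ l)) *
    G m l' = if l = l' then 1 else 0
  hη : ∀ j, η j ≠ 0
  hθ0 : ∀ l, θ l ≠ 0
  hθV : ∀ l, θ l ∈ V
  hθI : ∀ l, (θ l)⁻¹ ∈ V
  hζ : ∀ l, ζ l ≠ 0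
  hm : ∀ l, (m l : k) ≠ 0
  hN0 : ∀ b, MvPolynomial.aeval (Sum.elim u w) (N b) ≠ 0
  hNV : ∀ b, (MvPolynomial.aeval (Sum.elim u w) (N b))⁻¹ ∈ V
  hD0 : ∀ b, MvPolynomial.aeval (Sum.elim u w) (D b) ≠ 0
  hDV : ∀ b, (MvPolynomial.aeval (Sum.elim u w) (D b))⁻¹ ∈ V
  hDR0 : ∀ b, MvPolynomial.aeval (Sum.elim u w) (DR b) ≠ 0
  hDRV : ∀ b, (MvPolynomial.aeval (Sum.elim u w) (DR b))⁻¹ ∈ V
  hN20 : ∀ b, MvPolynomial.aeval (Sum.elim u w) (N2 b) ≠ 0
  hN2V : ∀ b, (MvPolynomial.aeval (Sum.elim u w) (N2 b))⁻¹ ∈ V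
  hD20 : ∀ b, MvPolynomial.aeval (Sum.elim u w) (D2 b) ≠ 0
  hD2V : ∀ b, (MvPolynomial.aeval (Sum.elim u w) (D2 b))⁻¹ ∈ V
  relA : ∀ j, η j ^ p - algebraMap k K (γ j) * η j =
    ∑ b, algebraMap k K (a j b) * (mon u (e b) *
      (MvPolynomial.aeval (Sum.elim u w) (N b) / MvPolynomial.aeval (Sum.elim u w) (D b))) +
    ∑ b, algebraMap k K (c j b) *
      (MvPolynomial.aeval (Sum.elim u w) (NR b) / MvPolynomial.aeval (Sum.elim u w) (DR b))
  relC : ∀ l, θ l ^ p - θ l = ∑ b, algebraMap k K (cc l b) *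
      (MvPolynomial.aeval (Sum.elim u w) (NR b) / MvPolynomial.aeval (Sum.elim u w) (DR b))
  relB : ∀ l, ζ l ^ m l = mon u (E l) *
    (MvPolynomial.aeval (Sum.elim u w) (N2 l) / MvPolynomial.aeval (Sum.elim u w) (D2 l))
  ha1 : ∀ j, a j (π j) ≠ 0
  ha2 : ∀ j j', j' ≠ j → a j' (π j) = 0
  ha3 : ∀ j b, a j b ≠ 0 → V.valuation (mon u (e b)) ≤ V.valuation (mon u (e (π j)))
  hc1 : ∀ j, γ j ≠ 0 → 1 ≤ V.valuation (mon u (e (π j)))
  hc2 : ∀ j b, c j b ≠ 0 → 1 ≤ V.valuation (mon u (e (π j)))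
  he1 : ∀ j, (e (π j) (pv j) : k) ≠ 0
  he2 : ∀ j b, b ≠ π j → e b (pv j) = 0
  hdir : ∀ j b, V.valuation (ddw u w (pv j) (dl u w Φ G (pv j)) (N b) *
      MvPolynomial.aeval (Sum.elim u w) (D b) -
      MvPolynomial.aeval (Sum.elim u w) (N b) * ddw u w (pv j) (dl u w Φ G (pv j)) (D b)) < 1
  hdirR : ∀ j j' b, c j' b ≠ 0 → V.valuation (ddw u w (pv j) (dl u w Φ G (pv j)) (NR b) *
      MvPolynomial.aeval (Sum.elim u w) (DR b) -
      MvPolynomial.aeval (Sum.elim u w) (NR b) * ddw u w (pv j) (dl u w Φ G (pv j)) (DR b)) < 1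

namespace ADat

variable {k K : Type u} [Field k] [Field K] [Algebra k K] {V : ValuationSubring K} {p : ℕ}
    {ι W B JA JC JB : Type} [Fintype ι] [DecidableEq ι] [Fintype W] [DecidableEq W] [Fintype B]
    [Fintype JA] [DecidableEq JA] [Fintype JC] [DecidableEq JC] [Fintype JB] [DecidableEq JB]
    (r : ADat (k := k) V p ι W B JA JC JB)

/-- all roots -/
def rt : JA ⊕ (JC ⊕ JB) → K := Sum.elim r.η (Sum.elim r.θ r.ζ)

lemma rt_ne (l) : r.rt l ≠ 0 := by
  rcases l with j | l | l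
  · exact r.hη j
  · exact r.hθ0 l
  · exact r.hζ l

noncomputable def sg (l : JA ⊕ (JC ⊕ JB)) : ℤ := by
  classical exact if r.rt l ∈ V then 1 else -1

lemma sg_sq (l) : r.sg l * r.sg l = 1 := by
  unfold sg
  split_ifs <;> rfl

lemma sg_θ (l : JC) : r.sg (Sum.inr (Sum.inl l)) = 1 := by
  unfold sg
  exact if_pos (r.hθV l)

/-- frame elements -/
noncomputable def zf (l : JA ⊕ (JC ⊕ JB)) : K := r.rt l ^ r.sg l

lemma zf_ne (l) : r.zf l ≠ 0 := zpow_ne_zero _ (r.rt_ne l)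

lemma zf_mem (l) : r.zf l ∈ V := by
  unfold zf sg
  split_ifs with h
  · simpa using h
  · rw [zpow_neg, zpow_one]
    exact (V.mem_or_inv_mem _).resolve_left h

lemma zf_pow (l) : r.zf l ^ r.sg l = r.rt l := by
  rw [zf, ← zpow_mul, sg_sq, zpow_one]

/-- coefficients -/
def ra : JA ⊕ (JC ⊕ JB) → Bool ⊕ (B ⊕ B) → k
  | Sum.inl _, Sum.inl true => 1
  | Sum.inl j, Sum.inl false => - r.γ j
  | Sum.inl j, Sum.inr (Sum.inl b) => - r.a j b
  | Sum.inl j, Sum.inr (Sum.inr b) => - r.c j b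
  | Sum.inr (Sum.inl _), Sum.inl true => 1
  | Sum.inr (Sum.inl _), Sum.inl false => -1
  | Sum.inr (Sum.inl _), Sum.inr (Sum.inl _) => 0
  | Sum.inr (Sum.inl l), Sum.inr (Sum.inr b) => - r.cc l b
  | Sum.inr (Sum.inr _), Sum.inl true => -1
  | Sum.inr (Sum.inr _), Sum.inl false => 1
  | Sum.inr (Sum.inr _), Sum.inr _ => 0

/-- exponents -/
noncomputable def re : JA ⊕ (JC ⊕ JB) → Bool ⊕ (B ⊕ B) → (ι ⊕ (JA ⊕ (JC ⊕ JB)) → ℤ)
  | Sum.inl j, Sum.inl true => Sum.elim (- r.e (r.π j))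
      (Pi.single (Sum.inl j) (r.sg (Sum.inl j) * p))
  | Sum.inl j, Sum.inl false => Sum.elim (- r.e (r.π j))
      (Pi.single (Sum.inl j) (r.sg (Sum.inl j)))
  | Sum.inl j, Sum.inr (Sum.inl b) => Sum.elim (r.e b - r.e (r.π j)) 0
  | Sum.inl j, Sum.inr (Sum.inr _) => Sum.elim (- r.e (r.π j)) 0
  | Sum.inr (Sum.inl l), Sum.inl true => Sum.elim 0
      (Pi.single (Sum.inr (Sum.inl l)) (r.sg (Sum.inr (Sum.inl l)) * p))
  | Sum.inr (Sum.inl l), Sum.inl false => Sum.elim 0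
      (Pi.single (Sum.inr (Sum.inl l)) (r.sg (Sum.inr (Sum.inl l))))
  | Sum.inr (Sum.inl _), Sum.inr _ => 0
  | Sum.inr (Sum.inr _), Sum.inl true => 0
  | Sum.inr (Sum.inr l), Sum.inl false => Sum.elim (r.E l)
      (Pi.single (Sum.inr (Sum.inr l)) (r.sg (Sum.inr (Sum.inr l)) * (-(r.m l : ℤ))))
  | Sum.inr (Sum.inr _), Sum.inr _ => 0

noncomputable def rN : JA ⊕ (JC ⊕ JB) → Bool ⊕ (B ⊕ B) → MvPolynomial (ι ⊕ W) k
  | Sum.inl _, Sum.inl _ => 1
  | Sum.inl _, Sum.inr (Sum.inl b) => r.N b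
  | Sum.inl _, Sum.inr (Sum.inr b) => r.NR b
  | Sum.inr (Sum.inl _), Sum.inl _ => 1
  | Sum.inr (Sum.inl _), Sum.inr (Sum.inl _) => 1
  | Sum.inr (Sum.inl _), Sum.inr (Sum.inr b) => r.NR b
  | Sum.inr (Sum.inr _), Sum.inl true => 1
  | Sum.inr (Sum.inr l), Sum.inl false => r.N2 l
  | Sum.inr (Sum.inr _), Sum.inr _ => 1

noncomputable def rD : JA ⊕ (JC ⊕ JB) → Bool ⊕ (B ⊕ B) → MvPolynomial (ι ⊕ W) k
  | Sum.inl _, Sum.inl _ => 1
  | Sum.inl _, Sum.inr (Sum.inl b) => r.D b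
  | Sum.inl _, Sum.inr (Sum.inr b) => r.DR b
  | Sum.inr (Sum.inl _), Sum.inl _ => 1
  | Sum.inr (Sum.inl _), Sum.inr (Sum.inl _) => 1
  | Sum.inr (Sum.inl _), Sum.inr (Sum.inr b) => r.DR b
  | Sum.inr (Sum.inr _), Sum.inl true => 1
  | Sum.inr (Sum.inr l), Sum.inl false => r.D2 l
  | Sum.inr (Sum.inr _), Sum.inr _ => 1

def rs : JA ⊕ (JC ⊕ JB) → ι ⊕ (JA ⊕ (JC ⊕ JB))
  | Sum.inl j => Sum.inl (r.pv j)
  | Sum.inr l => Sum.inr (Sum.inr l)

/-- the unit of a block -/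
noncomputable def ρ (b : B) : K :=
  MvPolynomial.aeval (Sum.elim r.u r.w) (r.N b) / MvPolynomial.aeval (Sum.elim r.u r.w) (r.D b)

noncomputable def ρR (b : B) : K :=
  MvPolynomial.aeval (Sum.elim r.u r.w) (r.NR b) / MvPolynomial.aeval (Sum.elim r.u r.w) (r.DR b)

noncomputable def ρ2 (l : JB) : K :=
  MvPolynomial.aeval (Sum.elim r.u r.w) (r.N2 l) / MvPolynomial.aeval (Sum.elim r.u r.w) (r.D2 l)

/-- the frame -/
noncomputable def fr : ι ⊕ (JA ⊕ (JC ⊕ JB)) → K := Sum.elim r.u r.zf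

/-- a term -/
noncomputable def tr (j : JA ⊕ (JC ⊕ JB)) (t : Bool ⊕ (B ⊕ B)) : K :=
  algebraMap k K (r.ra j t) * (mon (Sum.elim r.u r.zf) (r.re j t) *
    (MvPolynomial.aeval (Sum.elim r.u r.w) (r.rN j t) /
      MvPolynomial.aeval (Sum.elim r.u r.w) (r.rD j t)))

lemma mon_A1 (j : JA) : mon (Sum.elim r.u r.zf) (r.re (Sum.inl j) (Sum.inl true)) =
    (mon r.u (r.e (r.π j)))⁻¹ * r.η j ^ p := by
  simp only [re]
  rw [mon_elim, mon_single]
  simp only [Sum.elim_inl, Sum.elim_inr]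
  rw [SDat.mon_neg', zpow_mul, r.zf_pow, zpow_natCast]
  rfl

lemma mon_A0 (j : JA) : mon (Sum.elim r.u r.zf) (r.re (Sum.inl j) (Sum.inl false)) =
    (mon r.u (r.e (r.π j)))⁻¹ * r.η j := by
  simp only [re]
  rw [mon_elim, mon_single]
  simp only [Sum.elim_inl, Sum.elim_inr]
  rw [SDat.mon_neg', r.zf_pow]
  rfl

lemma mon_A2 (j : JA) (b : B) : mon (Sum.elim r.u r.zf) (r.re (Sum.inl j) (Sum.inr (Sum.inl b))) =
    (mon r.u (r.e (r.π j)))⁻¹ * mon r.u (r.e b) := by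
  simp only [re]
  rw [mon_elim]
  simp only [Sum.elim_inl, Sum.elim_inr]
  rw [mon_zero', mul_one, mon_sub r.hu0, div_eq_mul_inv, mul_comm]

lemma mon_A3 (j : JA) (b : B) : mon (Sum.elim r.u r.zf) (r.re (Sum.inl j) (Sum.inr (Sum.inr b))) =
    (mon r.u (r.e (r.π j)))⁻¹ := by
  simp only [re]
  rw [mon_elim]
  simp only [Sum.elim_inl, Sum.elim_inr]
  rw [mon_zero', mul_one, SDat.mon_neg']

lemma mon_C1 (l : JC) : mon (Sum.elim r.u r.zf) (r.re (Sum.inr (Sum.inl l)) (Sum.inl true)) =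
    r.θ l ^ p := by
  simp only [re]
  rw [mon_elim, mon_single]
  simp only [Sum.elim_inl, Sum.elim_inr]
  rw [mon_zero', one_mul, zpow_mul, r.zf_pow, zpow_natCast]
  rfl

lemma mon_C0 (l : JC) : mon (Sum.elim r.u r.zf) (r.re (Sum.inr (Sum.inl l)) (Sum.inl false)) =
    r.θ l := by
  simp only [re]
  rw [mon_elim, mon_single]
  simp only [Sum.elim_inl, Sum.elim_inr]
  rw [mon_zero', one_mul, r.zf_pow]
  rfl

lemma mon_B (l : JB) : mon (Sum.elim r.u r.zf) (r.re (Sum.inr (Sum.inr l)) (Sum.inl false)) =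
    mon r.u (r.E l) * (r.ζ l ^ r.m l)⁻¹ := by
  simp only [re]
  rw [mon_elim, mon_single]
  simp only [Sum.elim_inl, Sum.elim_inr]
  rw [zpow_mul, r.zf_pow, zpow_neg, zpow_natCast]
  rfl

lemma tr_A1 (j : JA) : r.tr (Sum.inl j) (Sum.inl true) =
    (mon r.u (r.e (r.π j)))⁻¹ * r.η j ^ p := by
  rw [tr, r.mon_A1]
  simp [ra, rN, rD]

lemma tr_A0 (j : JA) : r.tr (Sum.inl j) (Sum.inl false) =
    - ((mon r.u (r.e (r.π j)))⁻¹ * (algebraMap k K (r.γ j) * r.η j)) := by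
  rw [tr, r.mon_A0]
  simp only [ra, rN, rD, map_neg, map_one, div_one, mul_one]
  ring

lemma tr_A2 (j : JA) (b : B) : r.tr (Sum.inl j) (Sum.inr (Sum.inl b)) =
    - ((mon r.u (r.e (r.π j)))⁻¹ * (algebraMap k K (r.a j b) * (mon r.u (r.e b) * r.ρ b))) := by
  rw [tr, r.mon_A2]
  simp only [ra, rN, rD, map_neg, ρ]
  ring

lemma tr_A3 (j : JA) (b : B) : r.tr (Sum.inl j) (Sum.inr (Sum.inr b)) =
    - ((mon r.u (r.e (r.π j)))⁻¹ * (algebraMap k K (r.c j b) * r.ρR b)) := by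
  rw [tr, r.mon_A3]
  simp only [ra, rN, rD, map_neg, ρR]
  ring

lemma sum_A (j : JA) : ∑ t, r.tr (Sum.inl j) t = 0 := by
  rw [Fintype.sum_sum_type, Fintype.sum_bool, Fintype.sum_sum_type, r.tr_A1, r.tr_A0]
  simp only [r.tr_A2, r.tr_A3]
  rw [Finset.sum_neg_distrib, Finset.sum_neg_distrib, ← Finset.mul_sum, ← Finset.mul_sum]
  have h := r.relA j
  have h1 : r.η j ^ p = algebraMap k K (r.γ j) * r.η j +
      (∑ b, algebraMap k K (r.a j b) * (mon r.u (r.e b) * r.ρ b) +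
        ∑ b, algebraMap k K (r.c j b) * r.ρR b) := by
    rw [← sub_eq_iff_eq_add']
    exact h
  rw [h1]
  ring

lemma tr_C1 (l : JC) : r.tr (Sum.inr (Sum.inl l)) (Sum.inl true) = r.θ l ^ p := by
  rw [tr, r.mon_C1]
  simp [ra, rN, rD]

lemma tr_C0 (l : JC) : r.tr (Sum.inr (Sum.inl l)) (Sum.inl false) = - r.θ l := by
  rw [tr, r.mon_C0]
  simp [ra, rN, rD]

lemma tr_C2 (l : JC) (b : B) : r.tr (Sum.inr (Sum.inl l)) (Sum.inr (Sum.inl b)) = 0 := by
  simp [tr, ra]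

lemma tr_C3 (l : JC) (b : B) : r.tr (Sum.inr (Sum.inl l)) (Sum.inr (Sum.inr b)) =
    - (algebraMap k K (r.cc l b) * r.ρR b) := by
  rw [tr]
  simp only [ra, re, rN, rD, map_neg, ρR, mon_zero']
  ring

lemma sum_C (l : JC) : ∑ t, r.tr (Sum.inr (Sum.inl l)) t = 0 := by
  rw [Fintype.sum_sum_type, Fintype.sum_bool, Fintype.sum_sum_type, r.tr_C1, r.tr_C0]
  simp only [r.tr_C2, r.tr_C3]
  rw [Finset.sum_neg_distrib]
  have h := r.relC l
  have h1 : r.θ l ^ p - r.θ l = ∑ b, algebraMap k K (r.cc l b) * r.ρR b := h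
  rw [← h1]
  simp only [Finset.sum_const_zero]
  ring

lemma relB' (l : JB) : mon r.u (r.E l) * (r.ζ l ^ r.m l)⁻¹ * r.ρ2 l = 1 := by
  have h2 : r.ζ l ^ r.m l ≠ 0 := pow_ne_zero _ (r.hζ _)
  have h3 := r.relB l
  rw [mul_right_comm]
  have h4 : mon r.u (r.E l) * r.ρ2 l = r.ζ l ^ r.m l := h3.symm
  rw [h4, mul_inv_cancel₀ h2]

lemma tr_B0 (l : JB) : r.tr (Sum.inr (Sum.inr l)) (Sum.inl false) = 1 := by
  rw [tr, r.mon_B]
  simp only [ra, rN, rD, map_one, one_mul]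
  exact r.relB' l

lemma tr_B1 (l : JB) : r.tr (Sum.inr (Sum.inr l)) (Sum.inl true) = -1 := by
  rw [tr]
  simp [ra, re, rN, rD, mon_zero']

lemma tr_B2 (l : JB) (b : B ⊕ B) : r.tr (Sum.inr (Sum.inr l)) (Sum.inr b) = 0 := by
  simp [tr, ra]

lemma sum_B (l : JB) : ∑ t, r.tr (Sum.inr (Sum.inr l)) t = 0 := by
  rw [Fintype.sum_sum_type, Fintype.sum_bool, r.tr_B1, r.tr_B0]
  simp [r.tr_B2]

/-- weighted sums of a row with a pole in a pivot direction -/
lemma wA (j j0 : JA) :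
    ∑ t, (r.re (Sum.inl j) t (Sum.inl (r.pv j0)) : K) * r.tr (Sum.inl j) t =
      - ((r.e (r.π j0) (r.pv j0) : K) * ((mon r.u (r.e (r.π j)))⁻¹ *
        (algebraMap k K (r.a j (r.π j0)) * (mon r.u (r.e (r.π j0)) * r.ρ (r.π j0))))) := by
  have h0 := r.sum_A j
  rw [Fintype.sum_sum_type, Fintype.sum_bool, Fintype.sum_sum_type] at h0
  rw [Fintype.sum_sum_type, Fintype.sum_bool, Fintype.sum_sum_type]
  have e1 : (r.re (Sum.inl j) (Sum.inl true) (Sum.inl (r.pv j0)) : K) =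
      - (r.e (r.π j) (r.pv j0) : K) := by
    simp [re]
  have e0 : (r.re (Sum.inl j) (Sum.inl false) (Sum.inl (r.pv j0)) : K) =
      - (r.e (r.π j) (r.pv j0) : K) := by
    simp [re]
  have e2 : ∀ b, (r.re (Sum.inl j) (Sum.inr (Sum.inl b)) (Sum.inl (r.pv j0)) : K) =
      (r.e b (r.pv j0) : K) - (r.e (r.π j) (r.pv j0) : K) := by
    intro b
    simp [re]
  have e3 : ∀ b, (r.re (Sum.inl j) (Sum.inr (Sum.inr b)) (Sum.inl (r.pv j0)) : K) =
      - (r.e (r.π j) (r.pv j0) : K) := by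
    intro b
    simp [re]
  simp only [e1, e0, e2, e3, sub_mul, Finset.sum_sub_distrib, neg_mul, Finset.sum_neg_distrib]
  rw [← Finset.mul_sum, ← Finset.mul_sum]
  have h1 : ∑ b, (r.e b (r.pv j0) : K) * r.tr (Sum.inl j) (Sum.inr (Sum.inl b)) =
      (r.e (r.π j0) (r.pv j0) : K) * r.tr (Sum.inl j) (Sum.inr (Sum.inl (r.π j0))) := by
    rw [Finset.sum_eq_single (r.π j0)]
    · intro b _ hb
      rw [r.he2 j0 b hb, Int.cast_zero, zero_mul]
    · simp
  rw [h1, r.tr_A2 j (r.π j0)]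
  linear_combination (- (r.e (r.π j) (r.pv j0) : K)) * h0

lemma wAB (j : JA) (l : JC ⊕ JB) :
    ∑ t, (r.re (Sum.inl j) t (Sum.inr (Sum.inr l)) : K) * r.tr (Sum.inl j) t = 0 := by
  refine Finset.sum_eq_zero fun t _ => ?_
  rcases t with (_ | _) | (b | b)
  · simp [re]
  · simp [re]
  · simp [re]
  · simp [re]

lemma wC [CharP K p] (l : JC) (y : JC ⊕ JB) :
    ∑ t, (r.re (Sum.inr (Sum.inl l)) t (Sum.inr (Sum.inr y)) : K) * r.tr (Sum.inr (Sum.inl l)) t =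
      if y = Sum.inl l then - r.θ l else 0 := by
  rw [Fintype.sum_sum_type, Fintype.sum_bool, Fintype.sum_sum_type, r.tr_C1, r.tr_C0]
  have h1 : ∀ b : B ⊕ B, r.re (Sum.inr (Sum.inl l)) (Sum.inr b) = 0 := fun b => rfl
  have h2 : (p : K) = 0 := CharP.cast_eq_zero K p
  simp only [h1, Pi.zero_apply, Int.cast_zero, zero_mul, Finset.sum_const_zero, add_zero]
  by_cases h : y = Sum.inl l
  · subst h
    rw [if_pos rfl]
    simp only [re, Sum.elim_inr, Pi.single_eq_same, r.sg_θ]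
    push_cast
    rw [h2]
    ring
  · rw [if_neg h]
    have h3 : ∀ z : ℤ, (Pi.single (Sum.inr (Sum.inl l)) z : JA ⊕ (JC ⊕ JB) → ℤ) (Sum.inr y) = 0 :=
      fun z => Pi.single_eq_of_ne (by simpa using h) _
    simp only [re, Sum.elim_inr, h3, Int.cast_zero, zero_mul, add_zero]

lemma wB (l : JB) (y : JC ⊕ JB) :
    ∑ t, (r.re (Sum.inr (Sum.inr l)) t (Sum.inr (Sum.inr y)) : K) * r.tr (Sum.inr (Sum.inr l)) t =
      if y = Sum.inr l then -((r.sg (Sum.inr (Sum.inr l)) : K) * (r.m l : K)) else 0 := by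
  rw [Fintype.sum_sum_type, Fintype.sum_bool, r.tr_B0, r.tr_B1]
  simp only [r.tr_B2, mul_zero, Finset.sum_const_zero, add_zero]
  by_cases h : y = Sum.inr l
  · subst h
    simp [re]
  · rw [if_neg h]
    have h3 : ∀ z : ℤ, (Pi.single (Sum.inr (Sum.inr l)) z : JA ⊕ (JC ⊕ JB) → ℤ) (Sum.inr y) = 0 :=
      fun z => Pi.single_eq_of_ne (by simpa using h) _
    simp [re, h3]

variable (hV : ∀ c : k, algebraMap k K c ∈ V)

include hV in
lemma ev_mem (q : MvPolynomial (ι ⊕ W) k) : MvPolynomial.aeval (Sum.elim r.u r.w) q ∈ V := by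
  apply aeval_mem hV
  rintro (i | l)
  · exact r.huV i
  · exact r.hwV l

include hV in
lemma ρ_mem (b) : r.ρ b ∈ V := by
  rw [ρ, div_eq_mul_inv]
  exact mul_mem (r.ev_mem hV _) (r.hDV b)

include hV in
lemma ρR_mem (b) : r.ρR b ∈ V := by
  rw [ρR, div_eq_mul_inv]
  exact mul_mem (r.ev_mem hV _) (r.hDRV b)

include hV in
lemma ρ_inv (b) : r.ρ b ≠ 0 ∧ (r.ρ b)⁻¹ ∈ V := by
  refine ⟨div_ne_zero (r.hN0 b) (r.hD0 b), ?_⟩
  rw [ρ, inv_div, div_eq_mul_inv]
  exact mul_mem (r.ev_mem hV _) (r.hNV b)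

include hV in
lemma ρ2_inv (l) : (r.ρ2 l)⁻¹ ∈ V := by
  rw [ρ2, inv_div, div_eq_mul_inv]
  exact mul_mem (r.ev_mem hV _) (r.hN2V l)

include hV in
/-- the right hand side of a row with a pole -/
lemma val_rhs (j : JA) : V.valuation (r.η j ^ p - algebraMap k K (r.γ j) * r.η j) ≤
    V.valuation (mon r.u (r.e (r.π j))) := by
  have hk : ∀ c : k, V.valuation (algebraMap k K c) ≤ 1 := fun c =>
    (V.valuation_le_one_iff _).2 (hV c)
  rw [r.relA j]
  refine (V.valuation.map_add _ _).trans (max_le ?_ ?_)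
  · apply Valuation.map_sum_le
    intro b _
    by_cases hb : r.a j b = 0
    · rw [hb, map_zero, zero_mul, map_zero]
      exact zero_le
    · rw [map_mul, map_mul]
      have h1 := hk (r.a j b)
      have h2 : V.valuation (MvPolynomial.aeval (Sum.elim r.u r.w) (r.N b) /
          MvPolynomial.aeval (Sum.elim r.u r.w) (r.D b)) ≤ 1 :=
        (V.valuation_le_one_iff _).2 (r.ρ_mem hV b)
      calc _ ≤ 1 * (V.valuation (mon r.u (r.e b)) * 1) := by gcongr
        _ = V.valuation (mon r.u (r.e b)) := by rw [one_mul, mul_one]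
        _ ≤ _ := r.ha3 j b hb
  · apply Valuation.map_sum_le
    intro b _
    by_cases hb : r.c j b = 0
    · rw [hb, map_zero, zero_mul, map_zero]
      exact zero_le
    · rw [map_mul]
      have h1 := hk (r.c j b)
      have h2 : V.valuation (MvPolynomial.aeval (Sum.elim r.u r.w) (r.NR b) /
          MvPolynomial.aeval (Sum.elim r.u r.w) (r.DR b)) ≤ 1 :=
        (V.valuation_le_one_iff _).2 (r.ρR_mem hV b)
      calc _ ≤ (1 : V.ValueGroup) * 1 := by gcongr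
        _ = 1 := one_mul 1
        _ ≤ _ := r.hc2 j b hb

include hV in
/-- the sizes of the root and of its `p`-th power -/
lemma val_eta (hp : 2 ≤ p) (j : JA) :
    V.valuation (r.η j ^ p) ≤ V.valuation (mon r.u (r.e (r.π j))) ∧
      (r.γ j ≠ 0 → V.valuation (r.η j) ≤ V.valuation (mon r.u (r.e (r.π j)))) := by
  have h0 := r.val_rhs hV j
  by_cases hγ : r.γ j = 0
  · rw [hγ, map_zero, zero_mul, sub_zero] at h0
    exact ⟨h0, fun h => absurd hγ h⟩
  · have h1 := r.hc1 j hγ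
    rcases le_or_gt (V.valuation (r.η j)) 1 with hle | hgt
    · refine ⟨?_, fun _ => hle.trans h1⟩
      rw [map_pow]
      exact (pow_le_one₀ zero_le hle).trans h1
    · have h2 : V.valuation (algebraMap k K (r.γ j) * r.η j) < V.valuation (r.η j ^ p) := by
        rw [map_mul, map_pow]
        have h3 : V.valuation (algebraMap k K (r.γ j)) ≤ 1 := (V.valuation_le_one_iff _).2 (hV _)
        calc V.valuation (algebraMap k K (r.γ j)) * V.valuation (r.η j) ≤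
            1 * V.valuation (r.η j) := by gcongr
          _ = V.valuation (r.η j) ^ 1 := by rw [one_mul, pow_one]
          _ < V.valuation (r.η j) ^ p := pow_lt_pow_right₀ hgt (by omega)
      rw [V.valuation.map_sub_eq_of_lt_left h2] at h0
      refine ⟨h0, fun _ => le_trans ?_ h0⟩
      rw [map_pow]
      calc V.valuation (r.η j) = V.valuation (r.η j) ^ 1 := (pow_one _).symm
        _ ≤ _ := pow_le_pow_right₀ hgt.le (by omega)

/-- the general system -/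
noncomputable def toH (hp : 2 ≤ p) [CharP K p] :
    HDat (k := k) V ι (JA ⊕ (JC ⊕ JB)) W (JA ⊕ (JC ⊕ JB)) (Bool ⊕ (B ⊕ B)) where
  u := r.u
  w := r.w
  x := r.zf
  Φ := r.Φ
  G := r.G
  N := r.rN
  D := r.rD
  a := r.ra
  e := r.re
  s := r.rs
  rk := Sum.elim (fun _ => 0) (fun _ => 1)
  hu0 := r.hu0
  huV := r.huV
  hwV := r.hwV
  hx0 := r.zf_ne
  hxV := r.zf_mem
  hΦ := r.hΦ
  hGV := r.hGV
  hG1 := r.hG1
  hD0 := by
    rintro (j | l | l) ((_ | _) | (b | b)) <;>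
      simp only [rD, map_one, ne_eq, one_ne_zero, not_false_eq_true]
    · exact r.hD0 b
    · exact r.hDR0 b
    · exact r.hDR0 b
    · exact r.hD20 l
  hDV := by
    rintro (j | l | l) ((_ | _) | (b | b)) <;> simp only [rD, map_one, inv_one, one_mem]
    · exact r.hDV b
    · exact r.hDRV b
    · exact r.hDRV b
    · exact r.hD2V l
  hmon := by
    rintro (j | l | l) ((_ | _) | (b | b)) ha
    · rw [r.mon_A0]
      have ha' : r.γ j ≠ 0 := by
        intro h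
        apply ha
        simp [ra, h]
      exact SDat.inv_mul_mem (mon_ne_zero r.hu0 _) ((r.val_eta hV hp j).2 ha')
    · rw [r.mon_A1]
      exact SDat.inv_mul_mem (mon_ne_zero r.hu0 _) (r.val_eta hV hp j).1
    · rw [r.mon_A2]
      have ha' : r.a j b ≠ 0 := by
        intro h
        apply ha
        simp [ra, h]
      exact SDat.inv_mul_mem (mon_ne_zero r.hu0 _) (r.ha3 j b ha')
    · rw [r.mon_A3]
      have ha' : r.c j b ≠ 0 := by
        intro h
        apply ha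
        simp [ra, h]
      have h1 := SDat.inv_mul_mem (V := V) (x := 1) (mon_ne_zero r.hu0 (r.e (r.π j)))
        (by rw [map_one]; exact r.hc2 j b ha')
      rwa [mul_one] at h1
    · rw [r.mon_C0]
      exact r.hθV l
    · rw [r.mon_C1]
      exact pow_mem (r.hθV l) _
    · exact absurd rfl ha
    · simp [re, mon_zero', one_mem]
    · rw [r.mon_B]
      have h1 := r.relB' l
      have h2 : mon r.u (r.E l) * (r.ζ l ^ r.m l)⁻¹ = (r.ρ2 l)⁻¹ := eq_inv_of_mul_eq_one_left h1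
      rw [h2]
      exact r.ρ2_inv hV l
    · simp [re, mon_zero', one_mem]
    · exact absurd rfl ha
    · exact absurd rfl ha
  hrow := by
    rintro (j | l | l)
    · exact r.sum_A j
    · exact r.sum_C l
    · exact r.sum_B l
  hd1 := by
    rintro (j | l | l)
    · have h := r.wA j j
      change (∑ t, (r.re (Sum.inl j) t (Sum.inl (r.pv j)) : K) * r.tr (Sum.inl j) t ≠ 0) ∧
        (∑ t, (r.re (Sum.inl j) t (Sum.inl (r.pv j)) : K) * r.tr (Sum.inl j) t)⁻¹ ∈ V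
      have hmo : mon r.u (r.e (r.π j)) ≠ 0 := mon_ne_zero r.hu0 _
      have h2 : - ((r.e (r.π j) (r.pv j) : K) * ((mon r.u (r.e (r.π j)))⁻¹ *
        (algebraMap k K (r.a j (r.π j)) * (mon r.u (r.e (r.π j)) * r.ρ (r.π j))))) =
        algebraMap k K (- ((r.e (r.π j) (r.pv j) : k) * r.a j (r.π j))) * r.ρ (r.π j) := by
        rw [map_neg, map_mul, map_intCast]
        field_simp
      rw [h, h2]
      have h3 : algebraMap k K (- ((r.e (r.π j) (r.pv j) : k) * r.a j (r.π j))) ≠ 0 :=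
        (map_ne_zero (algebraMap k K)).2 (neg_ne_zero.2 (mul_ne_zero (r.he1 j) (r.ha1 j)))
      obtain ⟨h4, h5⟩ := r.ρ_inv hV (r.π j)
      refine ⟨mul_ne_zero h3 h4, ?_⟩
      rw [mul_inv, ← map_inv₀]
      exact mul_mem (hV _) h5
    · have h := r.wC l (Sum.inl l)
      change (∑ t, (r.re (Sum.inr (Sum.inl l)) t (Sum.inr (Sum.inr (Sum.inl l))) : K) *
          r.tr (Sum.inr (Sum.inl l)) t ≠ 0) ∧
        (∑ t, (r.re (Sum.inr (Sum.inl l)) t (Sum.inr (Sum.inr (Sum.inl l))) : K) *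
          r.tr (Sum.inr (Sum.inl l)) t)⁻¹ ∈ V
      rw [h, if_pos rfl]
      refine ⟨neg_ne_zero.2 (r.hθ0 l), ?_⟩
      rw [inv_neg]
      exact neg_mem (r.hθI l)
    · have h := r.wB l (Sum.inr l)
      change (∑ t, (r.re (Sum.inr (Sum.inr l)) t (Sum.inr (Sum.inr (Sum.inr l))) : K) *
          r.tr (Sum.inr (Sum.inr l)) t ≠ 0) ∧
        (∑ t, (r.re (Sum.inr (Sum.inr l)) t (Sum.inr (Sum.inr (Sum.inr l))) : K) *
          r.tr (Sum.inr (Sum.inr l)) t)⁻¹ ∈ V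
      rw [h, if_pos rfl]
      have h2 : -((r.sg (Sum.inr (Sum.inr l)) : K) * (r.m l : K)) =
          algebraMap k K (-((r.sg (Sum.inr (Sum.inr l)) : k) * (r.m l : k))) := by
        simp
      rw [h2, ← map_inv₀]
      refine ⟨(map_ne_zero (algebraMap k K)).2 (neg_ne_zero.2 (mul_ne_zero ?_ (r.hm l))), hV _⟩
      have h3 := congrArg (fun n : ℤ => (n : k)) (r.sg_sq (Sum.inr (Sum.inr l)))
      simp only [Int.cast_mul, Int.cast_one] at h3
      exact left_ne_zero_of_mul_eq_one h3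
  hd0 := by
    rintro (j | y) (j' | y') hne hrk
    · refine (r.wA j' j).trans ?_
      rw [r.ha2 j j' (by rintro rfl; exact hne rfl)]
      simp
    · simp at hrk
    · exact r.wAB j' y
    · rcases y' with l' | l'
      · refine (r.wC l' y).trans ?_
        rw [if_neg (by rintro rfl; exact hne rfl)]
      · refine (r.wB l' y).trans ?_
        rw [if_neg (by rintro rfl; exact hne rfl)]
  hdir := by
    rintro (j | y) (j' | y') t i hrk ha hs
    · have h1 : r.pv j = i := by simpa [rs] using hs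
      subst h1
      rcases t with (_ | _) | (b | b)
      · simp only [rN, rD, SDat.ddw_one, zero_mul, mul_zero, sub_zero, map_zero]
        exact zero_lt_one
      · simp only [rN, rD, SDat.ddw_one, zero_mul, mul_zero, sub_zero, map_zero]
        exact zero_lt_one
      · exact r.hdir j b
      · have ha' : r.c j' b ≠ 0 := by
          intro h
          apply ha
          simp [ra, h]
        exact r.hdirR j j' b ha'
    · simp at hrk
    · simp [rs] at hs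
    · simp [rs] at hs

include hV in
theorem uniformizable (hp : 2 ≤ p) [CharP K p]
    (hcard : Algebra.trdeg k K = (Fintype.card ι : Cardinal.{u}))
    (hgen : IntermediateField.adjoin k
      (Set.range r.u ∪ Set.range r.w ∪ (Set.range r.η ∪ Set.range r.θ ∪ Set.range r.ζ)) = ⊤) :
    Uniformizable k V := by
  refine uniformizable_of_hdat (r.toH hV hp) ?_ hV ?_
  · rw [eq_top_iff, ← hgen, IntermediateField.adjoin_le_iff]
    set M := IntermediateField.adjoin k (Set.range (r.toH hV hp).u ∪ Set.range (r.toH hV hp).w ∪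
      Set.range (r.toH hV hp).x) with hM
    have hzf : ∀ l, r.rt l ∈ M := by
      intro l
      rw [← r.zf_pow l]
      have h1 : r.zf l ∈ M := IntermediateField.subset_adjoin _ _ (Or.inr ⟨l, rfl⟩)
      exact zpow_mem h1 _
    rintro _ ((⟨i, rfl⟩ | ⟨i, rfl⟩) | ((⟨j, rfl⟩ | ⟨l, rfl⟩) | ⟨l, rfl⟩))
    · exact IntermediateField.subset_adjoin _ _ (Or.inl (Or.inl ⟨i, rfl⟩))
    · exact IntermediateField.subset_adjoin _ _ (Or.inl (Or.inr ⟨i, rfl⟩))
    · exact hzf (Sum.inl j)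
    · exact hzf (Sum.inr (Sum.inl l))
    · exact hzf (Sum.inr (Sum.inr l))
  · rw [hcard]
    push_cast
    rfl

end ADat

end LS
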