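import Pool.Agent.helper90.LS.Basic

/-! # LUS-ProcFin: the end of the process -/

open MvPolynomial

namespace LS

open LU

universe u

namespace PF

section poly

variable {k : Type u} [Field k]

lemma coeff_X_pderiv (i : Fin 2) (G : MvPolynomial (Fin 2) k) (m : Fin 2 →₀ ℕ) :
    coeff m (X i * pderiv i G) = coeff m G * (m i : k) := by
  classical
  induction G using MvPolynomial.induction_on' with
  | add p q hp hq => rw [map_add, mul_add, coeff_add, hp, hq, coeff_add, add_mul]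
  | monomial n a =>
    rw [X_mul_pderiv_monomial, nsmul_eq_mul, ← C_eq_coe_nat, coeff_C_mul, coeff_monomial]
    split_ifs with h
    · rw [h]; ring
    · ring

/-- division by a power of the first variable -/
lemma exists_X_pow (G : MvPolynomial (Fin 2) k) (e : ℕ)
    (h : ∀ m : Fin 2 →₀ ℕ, coeff m G ≠ 0 → e ≤ m 0) :
    ∃ P : MvPolynomial (Fin 2) k, G = X 0 ^ e * P ∧
      ∀ m, coeff m P = coeff (Finsupp.single 0 e + m) G := by
  classical
  refine ⟨divMonomial G (Finsupp.single 0 e), ?_, fun m => coeff_divMonomial _ _ _⟩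
  have h0 : modMonomial G (Finsupp.single 0 e) = 0 := by
    ext m
    rw [coeff_zero]
    by_cases hm : Finsupp.single 0 e ≤ m
    · exact coeff_modMonomial_of_le _ hm
    · rw [coeff_modMonomial_of_not_le _ hm]
      by_contra hc
      exact hm (Finsupp.single_le_iff.2 (h m hc))
  have := divMonomial_add_modMonomial G (Finsupp.single 0 e)
  rw [h0, add_zero] at this
  rw [X_pow_eq_monomial, this]

lemma div_of_dvd {f f1 : MvPolynomial (Fin 2) k} {m : ℕ} (hf : f = X 0 ^ m * f1)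
    (h1 : coeff 0 f1 ≠ 0) {N : MvPolynomial (Fin 2) k} (hN : N ∣ f) :
    ∃ (a : ℕ) (N1 : MvPolynomial (Fin 2) k), N = X 0 ^ a * N1 ∧ coeff 0 N1 ≠ 0 := by
  classical
  obtain ⟨M, hM⟩ := hN
  have hf1 : f1 ≠ 0 := by rintro rfl; simp at h1
  have hX : Prime (X 0 : MvPolynomial (Fin 2) k) := X_prime
  have hf0 : f ≠ 0 := by rw [hf]; exact mul_ne_zero (pow_ne_zero _ hX.ne_zero) hf1
  have hN0 : N ≠ 0 := by rintro rfl; apply hf0; rw [hM, zero_mul]
  have hM0 : M ≠ 0 := by rintro rfl; apply hf0; rw [hM, mul_zero]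
  obtain ⟨a, N1, hN1, hNe⟩ := WfDvdMonoid.max_power_factor hN0 hX.irreducible
  obtain ⟨b, M1, hM1, hMe⟩ := WfDvdMonoid.max_power_factor hM0 hX.irreducible
  have hdf : ¬ X 0 ∣ f1 := by
    rintro ⟨c, rfl⟩
    apply h1
    rw [← constantCoeff_eq, map_mul]
    simp
  have hnd : ¬ X 0 ∣ N1 * M1 := fun h => (hX.dvd_or_dvd h).elim hN1 hM1
  have he : X 0 ^ m * f1 = X 0 ^ (a + b) * (N1 * M1) := by
    rw [← hf, hM, hNe, hMe]; ring
  have hab : m = a + b := by
    rcases lt_trichotomy m (a + b) with h | h | h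
    · exfalso
      apply hdf
      obtain ⟨c, hc'⟩ : ∃ c, a + b = m + (c + 1) := ⟨a + b - m - 1, by omega⟩
      have hc : X 0 ^ m * f1 = X 0 ^ m * (X 0 * (X 0 ^ c * (N1 * M1))) := by
        rw [he, hc']; ring
      exact ⟨_, mul_left_cancel₀ (pow_ne_zero m hX.ne_zero) hc⟩
    · exact h
    · exfalso
      apply hnd
      obtain ⟨c, rfl⟩ : ∃ c, m = a + b + (c + 1) := ⟨m - (a + b) - 1, by omega⟩
      have hc : X 0 ^ (a + b) * (N1 * M1) = X 0 ^ (a + b) * (X 0 * (X 0 ^ c * f1)) := by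
        rw [← he]; ring
      exact ⟨_, mul_left_cancel₀ (pow_ne_zero _ hX.ne_zero) hc⟩
  subst hab
  have := mul_left_cancel₀ (pow_ne_zero _ hX.ne_zero) he
  refine ⟨a, N1, hNe, fun h => h1 ?_⟩
  rw [← constantCoeff_eq] at h ⊢
  rw [this, map_mul, h, zero_mul]

/-- splitting off the `p`-th powers -/
lemma split_pow [IsAlgClosed k] (p : ℕ) [Fact p.Prime] [CharP k p]
    (G : MvPolynomial (Fin 2) k) :
    ∃ A B : MvPolynomial (Fin 2) k, G = A ^ p + B ∧
      (∀ m : Fin 2 →₀ ℕ, (p ∣ m 0 ∧ p ∣ m 1) → coeff m B = 0) ∧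
      ∀ m : Fin 2 →₀ ℕ, ¬ (p ∣ m 0 ∧ p ∣ m 1) → coeff m B = coeff m G := by
  classical
  have hp : 0 < p := (Fact.out : p.Prime).pos
  have hroot : ∀ c : k, ∃ d : k, d ^ p = c := fun c => IsAlgClosed.exists_pow_nat_eq c hp
  choose r hr using hroot
  let P : (Fin 2 →₀ ℕ) → MvPolynomial (Fin 2) k := fun m =>
    monomial (Finsupp.mapRange (fun n => n / p) (Nat.zero_div p) m) (r (coeff m G))
  have hP : ∀ m : Fin 2 →₀ ℕ, (p ∣ m 0 ∧ p ∣ m 1) → P m ^ p = monomial m (coeff m G) := by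
    intro m hm
    simp only [P]
    rw [monomial_pow, hr]
    have hs : p • Finsupp.mapRange (fun n => n / p) (Nat.zero_div p) m = m := by
      refine Finsupp.ext fun i => ?_
      rw [Finsupp.smul_apply, Finsupp.mapRange_apply, smul_eq_mul]
      apply Nat.mul_div_cancel'
      fin_cases i
      · exact hm.1
      · exact hm.2
    rw [hs]
  let S := G.support.filter (fun m => p ∣ m 0 ∧ p ∣ m 1)
  let T := G.support.filter (fun m => ¬ (p ∣ m 0 ∧ p ∣ m 1))
  refine ⟨∑ m ∈ S, P m, ∑ m ∈ T, monomial m (coeff m G), ?_, ?_, ?_⟩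
  · rw [sum_pow_char]
    have : ∑ m ∈ S, P m ^ p = ∑ m ∈ S, monomial m (coeff m G) :=
      Finset.sum_congr rfl fun m hm => hP m (Finset.mem_filter.1 hm).2
    rw [this, Finset.sum_filter_add_sum_filter_not]
    exact G.as_sum
  · intro m hm
    rw [coeff_sum]
    apply Finset.sum_eq_zero
    intro n hn
    rw [coeff_monomial, if_neg]
    rintro rfl
    exact (Finset.mem_filter.1 hn).2 hm
  · intro m hm
    rw [coeff_sum]
    simp only [coeff_monomial]
    rw [Finset.sum_ite_eq']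
    split_ifs with h
    · rfl
    · by_contra hc
      exact h (Finset.mem_filter.2 ⟨mem_support_iff.2 (Ne.symm hc), hm⟩)

end poly

section fin

variable {k : Type u} [Field k] {F : Type u} [Field F] [Algebra k F]

lemma inv_notMem {O : ValuationSubring F} {t : F} (h0 : t ≠ 0) (ht : O.valuation t < 1) :
    t⁻¹ ∉ O := by
  intro h
  rw [← O.valuation_le_one_iff, map_inv₀] at h
  have h1 : O.valuation t ≠ 0 := (Valuation.ne_zero_iff _).2 h0
  have h2 : (1 : O.ValueGroup) < (O.valuation t)⁻¹ :=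
    (one_lt_inv₀ (zero_lt_iff.2 h1)).2 ht
  exact absurd h (not_le.2 h2)

lemma val_lt_of_coeff {O : ValuationSubring F} (hO : ∀ c : k, algebraMap k F c ∈ O) {u v : F}
    (hu : O.valuation u < 1) (hv : O.valuation v < 1) {N : MvPolynomial (Fin 2) k}
    (hN : coeff 0 N = 0) : O.valuation (aeval ![u, v] N) < 1 := by
  rw [aeval_def, eval₂_eq']
  apply Valuation.map_sum_lt _ one_ne_zero
  intro m hm
  have hm0 : m 0 ≠ 0 ∨ m 1 ≠ 0 := by
    by_contra hc
    push Not at hc
    apply mem_support_iff.1 hm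
    have : m = 0 := by
      refine Finsupp.ext fun i => ?_
      fin_cases i
      · exact hc.1
      · exact hc.2
    rw [this, hN]
  have hc : O.valuation (algebraMap k F (coeff m N)) ≤ 1 := (O.valuation_le_one_iff _).2 (hO _)
  have hprod : O.valuation (∏ i, (![u, v] : Fin 2 → F) i ^ m i) < 1 := by
    rw [Fin.prod_univ_two, map_mul, map_pow, map_pow]
    simp only [Matrix.cons_val_zero, Matrix.cons_val_one, Matrix.cons_val_fin_one]
    rcases hm0 with h | h
    · exact mul_lt_one_of_nonneg_of_lt_one_left zero_le (pow_lt_one₀ zero_le hu h)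
        (pow_le_one₀ zero_le hv.le)
    · exact mul_lt_one_of_nonneg_of_lt_one_right (pow_le_one₀ zero_le hu.le) zero_le
        (pow_lt_one₀ zero_le hv h)
  rw [map_mul]
  exact mul_lt_one_of_nonneg_of_lt_one_right hc zero_le hprod

lemma mon_two (x y : F) (a b : ℤ) : mon ![x, y] ![a, b] = x ^ a * y ^ b := by
  simp [mon, Fin.prod_univ_two]

lemma alg1 {u x y : F} (hu : u ≠ 0) (hy : y ≠ 0) (a b : ℕ) {t : F} :
    u ^ a * x / (u ^ b * y) = u ^ ((a : ℤ) - b) * t ^ (0 : ℤ) * (x * y⁻¹) := by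
  rw [zpow_sub₀ hu, zpow_natCast, zpow_natCast, zpow_zero]
  field_simp

lemma alg2 {u x y t : F} (hu : u ≠ 0) (hy : y ≠ 0) (e e' p a : ℕ) :
    u ^ e * t ^ e' * x / (u ^ a * y) ^ p =
      u ^ ((e : ℤ) - p * a) * t ^ (e' : ℤ) * (x * (y ^ p)⁻¹) := by
  rw [zpow_sub₀ hu, zpow_natCast, zpow_natCast, ← Nat.cast_mul, zpow_natCast, mul_pow,
    ← pow_mul, mul_comm a p]
  field_simp

theorem fin_aux (p : ℕ) [Fact p.Prime] [CharP k p] {O : ValuationSubring F} {u v t : F}
    {Φ : Fin 2 → MvPolynomial (Fin 2 ⊕ Fin 2) k} (hch : Chart k O ![u, t] ![u, v] Φ)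
    (hu : O.valuation u < 1) (f : MvPolynomial (Fin 2) k)
    (hdiv : ∀ N : MvPolynomial (Fin 2) k, N ∣ f → ∃ (a : ℕ) (N1 : MvPolynomial (Fin 2) k),
      aeval ![u, v] N = u ^ a * aeval ![u, v] N1 ∧ O.valuation (aeval ![u, v] N1) = 1)
    (g : F) (H : Finset F) (q A B : MvPolynomial (Fin 2) k) (hq : q ∣ f)
    (hg : g * aeval ![u, v] q ^ p = aeval ![u, v] A ^ p + aeval ![u, v] B)
    (hB : aeval ![u, v] B = 0 ∨ ∃ (e e' : ℕ) (c : MvPolynomial (Fin 2) k),
      aeval ![u, v] B = u ^ e * t ^ e' * aeval ![u, v] c ∧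
      O.valuation (aeval ![u, v] c) = 1 ∧ ((e : k) ≠ 0 ∨ ((e' : k) ≠ 0 ∧ t⁻¹ ∉ O)))
    (hH : ∀ h ∈ H, h ≠ 0 → ∃ N D : MvPolynomial (Fin 2) k, N ∣ f ∧ D ∣ f ∧
      h = aeval ![u, v] N / aeval ![u, v] D) : HasNF k p 2 O g H := by
  have hu0 : u ≠ 0 := hch.u0 0
  have ht0 : t ≠ 0 := hch.u0 1
  have hU : ∀ c : MvPolynomial (Fin 2) k, O.valuation (aeval ![u, v] c) = 1 →
      ULoc k O (Sum.elim ![u, t] ![u, v]) (aeval ![u, v] c) := by
    intro c hc
    have h1 := ULoc.of_poly (z := ![u, v]) hc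
    exact ULoc.comp (z := Sum.elim ![u, t] ![u, v]) (z' := ![u, v]) Sum.inr
      (fun _ => (Sum.elim_inr _ _ _).symm) h1
  have hne : ∀ c : MvPolynomial (Fin 2) k, O.valuation (aeval ![u, v] c) = 1 →
      aeval ![u, v] c ≠ 0 := by
    intro c hc h0
    rw [h0, map_zero] at hc
    exact zero_ne_one hc
  refine ⟨![u, t], ![u, v], Φ, hch, ?_, ?_⟩
  · intro h hh h0
    obtain ⟨N, D, hN, hD, rfl⟩ := hH h hh h0
    obtain ⟨a, N1, hN1, hN1v⟩ := hdiv N hN
    obtain ⟨b, D1, hD1, hD1v⟩ := hdiv D hD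
    refine ⟨![(a : ℤ) - b, 0], aeval ![u, v] N1 * (aeval ![u, v] D1)⁻¹, ?_,
      (hU N1 hN1v).mul (hU D1 hD1v).inv⟩
    have hD10 := hne D1 hD1v
    rw [mon_two, hN1, hD1]
    exact alg1 hu0 hD10 a b
  · obtain ⟨a, q1, hq1, hq1v⟩ := hdiv q hq
    have hq10 := hne q1 hq1v
    have hq0 : aeval ![u, v] q ≠ 0 := by
      rw [hq1]; exact mul_ne_zero (pow_ne_zero _ hu0) hq10
    refine ⟨aeval ![u, v] A / aeval ![u, v] q, aeval ![u, v] B / aeval ![u, v] q ^ p, ?_, ?_⟩
    · rw [div_pow, ← add_div, ← hg, mul_div_cancel_right₀ _ (pow_ne_zero _ hq0)]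
    · rcases hB with hB | ⟨e, e', c, hB, hcv, he⟩
      · left; rw [hB, zero_div]
      · right
        refine ⟨![(e : ℤ) - p * a, e'], aeval ![u, v] c * ((aeval ![u, v] q1) ^ p)⁻¹, ?_,
          (hU c hcv).mul ((hU q1 hq1v).pow p).inv, ?_⟩
        · rw [mon_two, hB, hq1]
          exact alg2 hu0 hq10 e e' p a
        · rcases he with he | ⟨he, ht⟩
          · refine ⟨0, ?_, Or.inl ?_⟩
            · simpa using he
            · exact inv_notMem hu0 hu
          · refine ⟨1, ?_, Or.inl ?_⟩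
            · simpa using he
            · exact ht

theorem chart_id {O : ValuationSubring F} {u v : F} (hs : Stg k O u v) :
    Chart k O ![u, v] ![u, v] (fun l => X (Sum.inr l) - X (Sum.inl l)) := by
  have huO : u ∈ O := (O.valuation_le_one_iff _).1 hs.hu.le
  have hvO : v ∈ O := (O.valuation_le_one_iff _).1 hs.hv.le
  refine ⟨?_, ?_, ?_, ?_, ?_, ?_⟩
  · intro i; fin_cases i
    · exact hs.u0
    · exact hs.v0
  · intro i; fin_cases i
    · exact huO
    · exact hvO
  · intro i; fin_cases i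
    · exact huO
    · exact hvO
  · intro l; simp
  · have : (Matrix.of fun l l' : Fin 2 => aeval (Sum.elim ![u, v] ![u, v])
        (pderiv (Sum.inr l') ((X (Sum.inr l) - X (Sum.inl l) :
          MvPolynomial (Fin 2 ⊕ Fin 2) k)))) = (1 : Matrix (Fin 2) (Fin 2) F) := by
      ext l l'
      have h2 : pderiv (Sum.inr l') (X (Sum.inl l) : MvPolynomial (Fin 2 ⊕ Fin 2) k) = 0 :=
        pderiv_X_of_ne Sum.inl_ne_inr
      rw [Matrix.of_apply, map_sub, h2, sub_zero, Matrix.one_apply]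
      split_ifs with h
      · rw [h, pderiv_X_self, map_one]
      · rw [pderiv_X_of_ne (fun hh => h (Sum.inr_injective hh)), map_zero]
    rw [this, Matrix.det_one, map_one]
  · rw [eq_top_iff, ← hs.gen]
    apply IntermediateField.adjoin.mono
    rintro x (rfl | rfl)
    · exact Or.inl ⟨0, rfl⟩
    · exact Or.inl ⟨1, rfl⟩

theorem chart_h {O : ValuationSubring F} (hO : ∀ c : k, algebraMap k F c ∈ O) {u v : F}
    (hs : Stg k O u v) (h : MvPolynomial (Fin 2) k) (h0 : aeval ![u, v] h ≠ 0)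
    (h1 : coeff 0 (pderiv 1 h) ≠ 0) :
    Chart k O ![u, aeval ![u, v] h] ![u, v] ![X (Sum.inr 0) - X (Sum.inl 0),
      rename Sum.inr h - X (Sum.inl 1)] := by
  have huO : u ∈ O := (O.valuation_le_one_iff _).1 hs.hu.le
  have hvO : v ∈ O := (O.valuation_le_one_iff _).1 hs.hv.le
  have hz : ∀ i, (![u, v] : Fin 2 → F) i ∈ O := by
    intro i; fin_cases i
    · exact huO
    · exact hvO
  refine ⟨?_, ?_, hz, ?_, ?_, ?_⟩
  · intro i; fin_cases i
    · exact hs.u0
    · exact h0
  · intro i; fin_cases i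
    · exact huO
    · exact aeval_mem hO hz h
  · intro l; fin_cases l
    · simp
    · simp only [Fin.mk_one, Matrix.cons_val_one, Matrix.cons_val_fin_one, map_sub, aeval_rename,
        aeval_X, Sum.elim_inl]
      rw [Sum.elim_comp_inr, sub_self]
  · rw [Matrix.det_fin_two]
    simp only [Matrix.of_apply, Matrix.cons_val_zero, Matrix.cons_val_one,
      Matrix.cons_val_fin_one, map_sub]
    rw [pderiv_X_self, pderiv_X_of_ne (i := Sum.inr 0) (j := Sum.inl 0) Sum.inl_ne_inr,
      pderiv_X_of_ne (i := Sum.inr 1) (j := Sum.inr 0)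
        (fun hh => zero_ne_one (Sum.inr_injective hh)),
      pderiv_X_of_ne (i := Sum.inr 1) (j := Sum.inl 0) Sum.inl_ne_inr,
      pderiv_X_of_ne (i := Sum.inr 1) (j := Sum.inl 1) Sum.inl_ne_inr]
    rw [pderiv_rename Sum.inr_injective]
    simp only [map_one, map_zero, sub_zero, one_mul, zero_mul, aeval_rename]
    rw [Sum.elim_comp_inr]
    exact val_const hO hs.hu hs.hv h1
  · rw [eq_top_iff, ← hs.gen]
    apply IntermediateField.adjoin.mono
    rintro x (rfl | rfl)
    · exact Or.inr ⟨0, rfl⟩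
    · exact Or.inr ⟨1, rfl⟩

end fin

end PF

open PF

variable {k : Type u} {F : Type u} [Field k] [IsAlgClosed k] [Field F] [Algebra k F]

theorem proc_fin (p : ℕ) [Fact p.Prime] [CharP k p] {O : ValuationSubring F}
    (hO : ∀ c : k, algebraMap k F c ∈ O) (htr : Algebra.trdeg k F = 2) {u v : F}
    (hs : Stg k O u v) (G f : MvPolynomial (Fin 2) k) (hG : nu (SD G) = 0) (hf : f ≠ 0)
    (hν : nu f.support = 0) (g : F) (H : Finset F) (q : MvPolynomial (Fin 2) k) (hq : q ∣ f)
    (hg : g * aeval ![u, v] q ^ p = aeval ![u, v] G)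
    (hH : ∀ h ∈ H, h ≠ 0 → ∃ N D : MvPolynomial (Fin 2) k, N ∣ f ∧ D ∣ f ∧
      h = aeval ![u, v] N / aeval ![u, v] D) : HasNF k p 2 O g H := by
  classical
  have hp : p.Prime := Fact.out
  have hinj := aeval_inj hs.gen htr
  -- the least exponents of a set
  have hnu : ∀ S : Finset (Fin 2 →₀ ℕ), S.Nonempty → nu S = 0 →
      Finsupp.single 0 (lo S) ∈ S ∧ ∀ m ∈ S, lo S ≤ m 0 := by
    intro S hS h0
    have h1 : lo S ∈ {i | ∃ m ∈ S, m 0 = i} := by
      apply Nat.sInf_mem
      obtain ⟨m, hm⟩ := hS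
      exact ⟨m 0, m, hm, rfl⟩
    have h2 : nu S ∈ {j | ∃ m ∈ S, m 0 = lo S ∧ m 1 = j} := by
      apply Nat.sInf_mem
      obtain ⟨m, hm, hm0⟩ := h1
      exact ⟨m 1, m, hm, hm0, rfl⟩
    rw [h0] at h2
    obtain ⟨m, hm, hm0, hm1⟩ := h2
    have hms : m = Finsupp.single 0 (lo S) := by
      refine Finsupp.ext fun i => ?_
      fin_cases i
      · simpa using hm0
      · simpa using hm1
    refine ⟨hms ▸ hm, fun m' hm' => Nat.sInf_le ⟨m', hm', rfl⟩⟩
  obtain ⟨hf1, hf2⟩ := hnu f.support (support_nonempty.2 hf) hν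
  obtain ⟨f1, hff, hf1c⟩ := exists_X_pow f (lo f.support)
    (fun m hm => hf2 m (mem_support_iff.2 hm))
  have hdiv : ∀ N : MvPolynomial (Fin 2) k, N ∣ f → ∃ (a : ℕ) (N1 : MvPolynomial (Fin 2) k),
      aeval ![u, v] N = u ^ a * aeval ![u, v] N1 ∧ O.valuation (aeval ![u, v] N1) = 1 := by
    intro N hN
    obtain ⟨a, N1, hN1, hN1c⟩ := div_of_dvd hff (by
      rw [hf1c, add_zero]; exact mem_support_iff.1 hf1) hN
    refine ⟨a, N1, ?_, val_const hO hs.hu hs.hv hN1c⟩
    rw [hN1, map_mul, map_pow, aeval_X]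
    rfl
  obtain ⟨A, B, hGAB, hB0, hB1⟩ := split_pow p G
  have hg' : g * aeval ![u, v] q ^ p = aeval ![u, v] A ^ p + aeval ![u, v] B := by
    rw [hg, hGAB, map_add, map_pow]
  -- exponents of `B`
  have hBS : ∀ m, coeff m B ≠ 0 → ∃ m' ∈ SD G, m' 0 = m 0 := by
    intro m hm
    have hnot : ¬ (p ∣ m 0 ∧ p ∣ m 1) := fun h => hm (hB0 m h)
    have hGm : coeff m G ≠ 0 := by rw [← hB1 m hnot]; exact hm
    by_cases h0 : p ∣ m 0
    · have h1 : ¬ p ∣ m 1 := fun h => hnot ⟨h0, h⟩
      have h10 : m 1 ≠ 0 := by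
        intro h
        apply h1
        rw [h]
        exact dvd_zero p
      refine ⟨m - Finsupp.single 1 1, ?_, ?_⟩
      · rw [SD, Finset.mem_union]
        right
        rw [mem_support_iff, coeff_pderiv]
        have he : m - Finsupp.single 1 1 + Finsupp.single 1 1 = m := by
          refine Finsupp.ext fun i => ?_
          fin_cases i
          · simp
          · simp only [Fin.mk_one, Finsupp.add_apply, Finsupp.tsub_apply, Finsupp.single_eq_same]
            omega
        rw [he]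
        refine mul_ne_zero hGm ?_
        have : (((m - Finsupp.single 1 1 : Fin 2 →₀ ℕ) 1 : ℕ) : k) + 1 = ((m 1 : ℕ) : k) := by
          rw [Finsupp.tsub_apply, Finsupp.single_eq_same, ← Nat.cast_succ]
          congr 1
          omega
        rw [this]
        intro h
        exact h1 ((CharP.cast_eq_zero_iff k p _).1 h)
      · simp
    · refine ⟨m, ?_, rfl⟩
      rw [SD, Finset.mem_union]
      left
      rw [mem_support_iff, coeff_X_pderiv]
      refine mul_ne_zero hGm ?_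
      intro h
      exact h0 ((CharP.cast_eq_zero_iff k p _).1 h)
  rcases (SD G).eq_empty_or_nonempty with hSD | hSD
  · have hBz : B = 0 := by
      ext m
      rw [coeff_zero]
      by_contra hm
      obtain ⟨m', hm', -⟩ := hBS m hm
      rw [hSD] at hm'
      exact absurd hm' (Finset.notMem_empty _)
    exact fin_aux p (chart_id hs) hs.hu f hdiv g H q A B hq hg' (Or.inl (by rw [hBz, map_zero])) hH
  obtain ⟨hS1, hS2⟩ := hnu (SD G) hSD hG
  set e := lo (SD G) with he
  obtain ⟨h, hBh, hhc⟩ := exists_X_pow B e (fun m hm => by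
    obtain ⟨m', hm', hm0⟩ := hBS m hm
    rw [← hm0]
    exact hS2 m' hm')
  have hBev : aeval ![u, v] B = u ^ e * aeval ![u, v] h := by
    rw [hBh, map_mul, map_pow, aeval_X]
    rfl
  by_cases hc : coeff (Finsupp.single 0 e) G ≠ 0 ∧ (e : k) ≠ 0
  · -- pivot `u`
    have hpe : ¬ p ∣ e := fun h => hc.2 ((CharP.cast_eq_zero_iff k p _).2 h)
    refine fin_aux p (chart_id hs) hs.hu f hdiv g H q A B hq hg' (Or.inr ⟨e, 0, h, ?_, ?_,
      Or.inl hc.2⟩) hH
    · rw [hBev, pow_zero, mul_one]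
    · apply val_const hO hs.hu hs.hv
      rw [hhc, add_zero, hB1 _ (by
        rintro ⟨h1, -⟩
        exact hpe (by simpa using h1))]
      exact hc.1
  · -- pivot `h(u, v)`
    have hcB : coeff (Finsupp.single 0 e) B = 0 := by
      by_cases hpe : p ∣ e
      · apply hB0
        constructor
        · simpa using hpe
        · simp
      · rw [hB1 _ (by
          rintro ⟨h1, -⟩
          exact hpe (by simpa using h1))]
        by_contra h1
        exact hc ⟨h1, fun h2 => hpe ((CharP.cast_eq_zero_iff k p _).1 h2)⟩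
    have hc1 : coeff (Finsupp.single 0 e + Finsupp.single 1 1) G ≠ 0 := by
      rw [SD, Finset.mem_union] at hS1
      rcases hS1 with hS1 | hS1
      · rw [mem_support_iff, coeff_X_pderiv] at hS1
        exfalso
        apply hc
        refine ⟨left_ne_zero_of_mul hS1, ?_⟩
        have := right_ne_zero_of_mul hS1
        simpa using this
      · rw [mem_support_iff, coeff_pderiv] at hS1
        exact left_ne_zero_of_mul hS1
    have hc2 : coeff (Finsupp.single 0 e + Finsupp.single 1 1) B ≠ 0 := by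
      rw [hB1 _ (by
        rintro ⟨-, h1⟩
        have h2 : p ∣ 1 := by simpa using h1
        exact hp.one_lt.ne' (Nat.dvd_one.1 h2))]
      exact hc1
    have hh1 : coeff 0 (pderiv 1 h) ≠ 0 := by
      rw [coeff_pderiv, zero_add, hhc]
      refine mul_ne_zero hc2 ?_
      simp
    have hh0 : h ≠ 0 := by
      rintro rfl
      apply hh1
      rw [map_zero, coeff_zero]
    have hhe : aeval ![u, v] h ≠ 0 := by
      intro hz
      apply hh0
      apply hinj
      rw [hz, map_zero]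
    -- `h(u, v)` is in the maximal ideal
    have hhv : O.valuation (aeval ![u, v] h) < 1 := by
      apply val_lt_of_coeff hO hs.hu hs.hv
      rw [hhc, add_zero]
      exact hcB
    refine fin_aux p (chart_h hO hs h hhe hh1) hs.hu f hdiv g H q A B hq hg'
      (Or.inr ⟨e, 1, 1, ?_, ?_, Or.inr ⟨?_, inv_notMem hhe hhv⟩⟩) hH
    · rw [hBev, pow_one, map_one, mul_one]
    · rw [map_one, map_one]
    · simp

end LS
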