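import Pool.Agent.helper90.LS.ADefs
import Pool.Agent.helper90.LS.ProcFin

/-! # LUS-AFin: the end of the process, Artin-Schreier version -/

open MvPolynomial

namespace LS

open LU

universe u

namespace AFin

open PF

section

variable {k : Type u} [Field k] {F : Type u} [Field F] [Algebra k F]

/-- assembly: the chart is given and `g` is regular or a normal form with a pole -/
theorem aux (p : ℕ) [Fact p.Prime] {O : ValuationSubring F} {u v t : F}
    {Φ : Fin 2 → MvPolynomial (Fin 2 ⊕ Fin 2) k} (hch : Chart k O ![u, t] ![u, v] Φ)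
    (f : MvPolynomial (Fin 2) k)
    (hdiv : ∀ N : MvPolynomial (Fin 2) k, N ∣ f → ∃ (a : ℕ) (N1 : MvPolynomial (Fin 2) k),
      aeval ![u, v] N = u ^ a * aeval ![u, v] N1 ∧ O.valuation (aeval ![u, v] N1) = 1)
    (g : F) (H : Finset F)
    (hB : LLoc k O (Sum.elim ![u, t] ![u, v]) g ∨
      (NForm k O ![u, t] ![u, v] g ∧ 1 < O.valuation g))
    (hH : ∀ h ∈ H, h ≠ 0 → ∃ N D : MvPolynomial (Fin 2) k, N ∣ f ∧ D ∣ f ∧
      h = aeval ![u, v] N / aeval ![u, v] D) : HasAS k p 2 O g H := by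
  have hu0 : u ≠ 0 := hch.u0 0
  refine ⟨![u, t], ![u, v], Φ, hch, ?_, 0, g, ?_, hB⟩
  · intro h hh h0
    obtain ⟨N, D, hN, hD, rfl⟩ := hH h hh h0
    obtain ⟨a, N1, hN1, hN1v⟩ := hdiv N hN
    obtain ⟨b, D1, hD1, hD1v⟩ := hdiv D hD
    have hU : ∀ c : MvPolynomial (Fin 2) k, O.valuation (aeval ![u, v] c) = 1 →
        ULoc k O (Sum.elim ![u, t] ![u, v]) (aeval ![u, v] c) := fun c hc =>
      ULoc.comp (z := Sum.elim ![u, t] ![u, v]) (z' := ![u, v]) Sum.inr
        (fun _ => (Sum.elim_inr _ _ _).symm) (ULoc.of_poly (z := ![u, v]) hc)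
    refine ⟨![(a : ℤ) - b, 0], aeval ![u, v] N1 * (aeval ![u, v] D1)⁻¹, ?_,
      (hU N1 hN1v).mul (hU D1 hD1v).inv⟩
    rw [mon_two, hN1, hD1]
    exact alg1 hu0 (ne_zero_of_val_one hD1v) a b
  · rw [zero_pow (Fact.out : p.Prime).ne_zero, sub_zero, zero_add]

/-- the chart with the second parameter `h(u, v) / u ^ m` -/
theorem chart_hm {O : ValuationSubring F} (hO : ∀ c : k, algebraMap k F c ∈ O) {u v : F}
    (hs : Stg k O u v) (h : MvPolynomial (Fin 2) k) (h0 : aeval ![u, v] h ≠ 0)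
    (h1 : coeff 0 (pderiv 1 h) ≠ 0) (m : ℕ) (ht : aeval ![u, v] h / u ^ m ∈ O) :
    Chart k O ![u, aeval ![u, v] h / u ^ m] ![u, v] ![X (Sum.inr 0) - X (Sum.inl 0),
      rename Sum.inr h - X (Sum.inl 1) * X (Sum.inl 0) ^ m] := by
  have huO : u ∈ O := (O.valuation_le_one_iff _).1 hs.hu.le
  have hvO : v ∈ O := (O.valuation_le_one_iff _).1 hs.hv.le
  have hz : ∀ i, (![u, v] : Fin 2 → F) i ∈ O := by
    intro i; fin_cases i
    · exact huO
    · exact hvO
  have hpd : ∀ l : Fin 2, pderiv (Sum.inr l)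
      (X (Sum.inl 1) * X (Sum.inl 0) ^ m : MvPolynomial (Fin 2 ⊕ Fin 2) k) = 0 := by
    intro l
    rw [Derivation.leibniz, Derivation.leibniz_pow, pderiv_X_of_ne Sum.inl_ne_inr,
      pderiv_X_of_ne Sum.inl_ne_inr, smul_zero, smul_zero, smul_zero, smul_zero, add_zero]
  refine ⟨?_, ?_, hz, ?_, ?_, ?_⟩
  · intro i; fin_cases i
    · exact hs.u0
    · exact div_ne_zero h0 (pow_ne_zero _ hs.u0)
  · intro i; fin_cases i
    · exact huO
    · exact ht
  · intro l; fin_cases l
    · simp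
    · simp only [Fin.mk_one, Matrix.cons_val_one, Matrix.cons_val_fin_one, map_sub, aeval_rename,
        aeval_X, Sum.elim_inl, map_mul, map_pow, Matrix.cons_val_zero]
      rw [Sum.elim_comp_inr, div_mul_cancel₀ _ (pow_ne_zero _ hs.u0), sub_self]
  · rw [Matrix.det_fin_two]
    simp only [Matrix.of_apply, Matrix.cons_val_zero, Matrix.cons_val_one,
      Matrix.cons_val_fin_one, map_sub]
    rw [pderiv_X_self, pderiv_X_of_ne (i := Sum.inr 0) (j := Sum.inl 0) Sum.inl_ne_inr,
      pderiv_X_of_ne (i := Sum.inr 1) (j := Sum.inr 0)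
        (fun hh => zero_ne_one (Sum.inr_injective hh)),
      pderiv_X_of_ne (i := Sum.inr 1) (j := Sum.inl 0) Sum.inl_ne_inr, hpd, hpd]
    rw [pderiv_rename Sum.inr_injective]
    simp only [map_one, map_zero, sub_zero, one_mul, zero_mul, aeval_rename]
    rw [Sum.elim_comp_inr]
    exact val_const hO hs.hu hs.hv h1
  · rw [eq_top_iff, ← hs.gen]
    apply IntermediateField.adjoin.mono
    rintro x (rfl | rfl)
    · exact Or.inr ⟨0, rfl⟩
    · exact Or.inr ⟨1, rfl⟩

/-- value of a pole -/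
lemma one_lt_val {O : ValuationSubring F} {u x : F} (hu0 : u ≠ 0) (hu : O.valuation u < 1)
    {e a : ℕ} (hea : e < a) (hx : O.valuation x = 1) :
    1 < O.valuation (u ^ ((e : ℤ) - a) * x) := by
  have hV : 0 < O.valuation u := zero_lt_iff.2 ((Valuation.ne_zero_iff _).2 hu0)
  obtain ⟨m, rfl⟩ : ∃ m, a = e + (m + 1) := ⟨a - e - 1, by omega⟩
  have h1 : ((e : ℤ) - ((e + (m + 1) : ℕ) : ℤ)) = -((m + 1 : ℕ) : ℤ) := by push_cast; ring
  rw [map_mul, hx, mul_one, h1, zpow_neg, zpow_natCast, map_inv₀, map_pow]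
  exact (one_lt_inv₀ (pow_pos hV _)).2 (pow_lt_one₀ zero_le hu (Nat.succ_ne_zero m))

end

end AFin

open PF

variable {k : Type u} {F : Type u} [Field k] [IsAlgClosed k] [Field F] [Algebra k F]

theorem as_fin (p : ℕ) [Fact p.Prime] [CharP k p] {O : ValuationSubring F}
    (hO : ∀ c : k, algebraMap k F c ∈ O) (htr : Algebra.trdeg k F = 2) {u v : F}
    (hs : Stg k O u v) (g : F) (M : ℕ) (h G f : MvPolynomial (Fin 2) k)
    (hh : coeff 0 h ≠ 0) (hg : g * (u ^ M * aeval ![u, v] h) ^ p = aeval ![u, v] G)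
    (hred : Red p M G) (hG : nu (SD G) = 0 ∨ p * M ≤ lo (SD G)) (hf : f ≠ 0)
    (hν : nu f.support = 0) (H : Finset F)
    (hH : ∀ x ∈ H, x ≠ 0 → ∃ N D : MvPolynomial (Fin 2) k, N ∣ f ∧ D ∣ f ∧
      x = aeval ![u, v] N / aeval ![u, v] D) : HasAS k p 2 O g H := by
  classical
  have hp : p.Prime := Fact.out
  have hinj := aeval_inj hs.gen htr
  have hu0 : u ≠ 0 := hs.u0
  -- the least exponents of a set
  have hnu : ∀ S : Finset (Fin 2 →₀ ℕ), S.Nonempty → nu S = 0 →
      Finsupp.single 0 (lo S) ∈ S := by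
    intro S hS h0
    have h1 : lo S ∈ {i | ∃ m ∈ S, m 0 = i} := by
      apply Nat.sInf_mem
      obtain ⟨m, hm⟩ := hS
      exact ⟨m 0, m, hm, rfl⟩
    have h2 : nu S ∈ {j | ∃ m ∈ S, m 0 = lo S ∧ m 1 = j} := by
      apply Nat.sInf_mem
      obtain ⟨m, hm, hm0⟩ := h1
      exact ⟨m 1, m, hm, hm0, rfl⟩
    rw [h0] at h2
    obtain ⟨m, hm, hm0, hm1⟩ := h2
    have hms : m = Finsupp.single 0 (lo S) := by
      refine Finsupp.ext fun i => ?_
      fin_cases i
      · simpa using hm0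
      · simpa using hm1
    exact hms ▸ hm
  have hlo : ∀ S : Finset (Fin 2 →₀ ℕ), ∀ m ∈ S, lo S ≤ m 0 :=
    fun S m hm => Nat.sInf_le ⟨m, hm, rfl⟩
  have hf1 := hnu f.support (support_nonempty.2 hf) hν
  obtain ⟨f1, hff, hf1c⟩ := exists_X_pow f (lo f.support)
    (fun m hm => hlo _ m (mem_support_iff.2 hm))
  have hdiv : ∀ N : MvPolynomial (Fin 2) k, N ∣ f → ∃ (a : ℕ) (N1 : MvPolynomial (Fin 2) k),
      aeval ![u, v] N = u ^ a * aeval ![u, v] N1 ∧ O.valuation (aeval ![u, v] N1) = 1 := by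
    intro N hN
    obtain ⟨a, N1, hN1, hN1c⟩ := div_of_dvd hff (by
      rw [hf1c, add_zero]; exact mem_support_iff.1 hf1) hN
    refine ⟨a, N1, ?_, val_const hO hs.hu hs.hv hN1c⟩
    rw [hN1, map_mul, map_pow, aeval_X]
    rfl
  -- exponents of `G`
  have hGS : ∀ m, coeff m G ≠ 0 → ¬ (p ∣ m 0 ∧ p ∣ m 1) → ∃ m' ∈ SD G, m' 0 = m 0 := by
    intro m hGm hnot
    by_cases h0 : p ∣ m 0
    · have h1 : ¬ p ∣ m 1 := fun h => hnot ⟨h0, h⟩
      have h10 : m 1 ≠ 0 := by
        intro h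
        apply h1
        rw [h]
        exact dvd_zero p
      refine ⟨m - Finsupp.single 1 1, ?_, ?_⟩
      · rw [SD, Finset.mem_union]
        right
        rw [mem_support_iff, coeff_pderiv]
        have he : m - Finsupp.single 1 1 + Finsupp.single 1 1 = m := by
          refine Finsupp.ext fun i => ?_
          fin_cases i
          · simp
          · simp only [Fin.mk_one, Finsupp.add_apply, Finsupp.tsub_apply, Finsupp.single_eq_same]
            omega
        rw [he]
        refine mul_ne_zero hGm ?_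
        have : (((m - Finsupp.single 1 1 : Fin 2 →₀ ℕ) 1 : ℕ) : k) + 1 = ((m 1 : ℕ) : k) := by
          rw [Finsupp.tsub_apply, Finsupp.single_eq_same, ← Nat.cast_succ]
          congr 1
          omega
        rw [this]
        intro h
        exact h1 ((CharP.cast_eq_zero_iff k p _).1 h)
      · simp
    · refine ⟨m, ?_, rfl⟩
      rw [SD, Finset.mem_union]
      left
      rw [mem_support_iff, coeff_X_pderiv]
      refine mul_ne_zero hGm ?_
      intro h
      exact h0 ((CharP.cast_eq_zero_iff k p _).1 h)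
  -- the denominator
  have hhv : O.valuation (aeval ![u, v] h) = 1 := val_const hO hs.hu hs.hv hh
  have hh0 : aeval ![u, v] h ≠ 0 := ne_zero_of_val_one hhv
  have hden : (u ^ M * aeval ![u, v] h) ^ p ≠ 0 :=
    pow_ne_zero _ (mul_ne_zero (pow_ne_zero _ hu0) hh0)
  have hUh : ∀ t : F, ULoc k O (Sum.elim ![u, t] ![u, v]) ((aeval ![u, v] h) ^ p)⁻¹ := fun t =>
    ((ULoc.comp (z := Sum.elim ![u, t] ![u, v]) (z' := ![u, v]) Sum.inr
      (fun _ => (Sum.elim_inr _ _ _).symm) (ULoc.of_poly (z := ![u, v]) hhv)).pow p).inv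
  -- division of `G` by a power of `X 0`
  have hGdiv : ∀ e : ℕ, (∀ m : Fin 2 →₀ ℕ, coeff m G ≠ 0 → e ≤ m 0) →
      ∃ h1 : MvPolynomial (Fin 2) k, (∀ m, coeff m h1 = coeff (Finsupp.single 0 e + m) G) ∧
        g = u ^ ((e : ℤ) - (p * M : ℕ)) * (aeval ![u, v] h1 * ((aeval ![u, v] h) ^ p)⁻¹) := by
    intro e he
    obtain ⟨h1, hG1, hc⟩ := exists_X_pow G e he
    refine ⟨h1, hc, ?_⟩
    have h2 : aeval ![u, v] G = u ^ e * aeval ![u, v] h1 := by
      rw [hG1, map_mul, map_pow, aeval_X]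
      rfl
    have h3 : g = u ^ e * aeval ![u, v] h1 / (u ^ M * aeval ![u, v] h) ^ p := by
      rw [eq_div_iff hden, hg, h2]
    rw [h3, zpow_sub₀ hu0, zpow_natCast, zpow_natCast, mul_pow, ← pow_mul, mul_comm M p]
    field_simp
  by_cases hall : ∀ m : Fin 2 →₀ ℕ, coeff m G ≠ 0 → p * M ≤ m 0
  · -- `g` is regular
    obtain ⟨h1, -, hg1⟩ := hGdiv (p * M) hall
    rw [sub_self, zpow_zero, one_mul] at hg1
    refine AFin.aux p (chart_id hs) f hdiv g H (Or.inl ?_) hH
    rw [hg1]
    exact (LLoc.comp (z := Sum.elim ![u, v] ![u, v]) (z' := ![u, v]) Sum.inr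
      (fun _ => (Sum.elim_inr _ _ _).symm) (LLoc.of_poly h1)).mul (hUh v).toLLoc
  · -- the generic case
    push Not at hall
    obtain ⟨m₀, hm₀, hm₀M⟩ := hall
    have hnot₀ : ¬ (p ∣ m₀ 0 ∧ p ∣ m₀ 1) := fun hc =>
      absurd (hred m₀ (mem_support_iff.2 hm₀) hc.1 hc.2) (not_le.2 hm₀M)
    obtain ⟨m₁, hm₁, hm₁0⟩ := hGS m₀ hm₀ hnot₀
    have hSD : (SD G).Nonempty := ⟨m₁, hm₁⟩
    have heM : lo (SD G) < p * M := lt_of_le_of_lt (hlo _ m₁ hm₁) (by rw [hm₁0]; exact hm₀M)
    have hG0 : nu (SD G) = 0 := hG.resolve_right (not_le.2 heM)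
    have hS1 := hnu (SD G) hSD hG0
    set e := lo (SD G) with he
    obtain ⟨h1, hc1, hg1⟩ := hGdiv e (fun m hm => by
      by_cases hpm : p ∣ m 0 ∧ p ∣ m 1
      · exact heM.le.trans (hred m (mem_support_iff.2 hm) hpm.1 hpm.2)
      · obtain ⟨m', hm', hm0⟩ := hGS m hm hpm
        rw [← hm0]
        exact hlo _ m' hm')
    by_cases hc : coeff (Finsupp.single 0 e) G ≠ 0 ∧ (e : k) ≠ 0
    · -- pivot `u`
      have hh1v : O.valuation (aeval ![u, v] h1) = 1 := by
        apply val_const hO hs.hu hs.hv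
        rw [hc1, add_zero]
        exact hc.1
      have hρ : ULoc k O (Sum.elim ![u, v] ![u, v])
          (aeval ![u, v] h1 * ((aeval ![u, v] h) ^ p)⁻¹) :=
        (ULoc.comp (z := Sum.elim ![u, v] ![u, v]) (z' := ![u, v]) Sum.inr
          (fun _ => (Sum.elim_inr _ _ _).symm) (ULoc.of_poly (z := ![u, v]) hh1v)).mul (hUh v)
      refine AFin.aux p (chart_id hs) f hdiv g H (Or.inr ⟨?_, ?_⟩) hH
      · refine ⟨![(e : ℤ) - (p * M : ℕ), 0], _, ?_, hρ, 0, ?_, Or.inl (inv_notMem hu0 hs.hu)⟩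
        · rw [mon_two, zpow_zero, mul_one]
          exact hg1
        · simpa using hc.2
      · rw [hg1]
        exact AFin.one_lt_val hu0 hs.hu heM hρ.val
    · -- the second row
      have hcG : coeff (Finsupp.single 0 e) G = 0 := by
        by_contra hne
        by_cases hpe : p ∣ e
        · have := hred (Finsupp.single 0 e) (mem_support_iff.2 hne) (by simpa using hpe)
            (by simp)
          rw [Finsupp.single_eq_same] at this
          exact absurd this (not_le.2 heM)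
        · exact hc ⟨hne, fun h2 => hpe ((CharP.cast_eq_zero_iff k p _).1 h2)⟩
      have hc2 : coeff (Finsupp.single 0 e + Finsupp.single 1 1) G ≠ 0 := by
        rw [SD, Finset.mem_union] at hS1
        rcases hS1 with hS1 | hS1
        · rw [mem_support_iff, coeff_X_pderiv] at hS1
          exfalso
          exact left_ne_zero_of_mul hS1 hcG
        · rw [mem_support_iff, coeff_pderiv] at hS1
          exact left_ne_zero_of_mul hS1
      have hh1 : coeff 0 (pderiv 1 h1) ≠ 0 := by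
        rw [coeff_pderiv, zero_add, hc1]
        refine mul_ne_zero hc2 ?_
        simp
      have hh10 : h1 ≠ 0 := by
        rintro rfl
        apply hh1
        rw [map_zero, coeff_zero]
      have hhe : aeval ![u, v] h1 ≠ 0 := by
        intro hz
        apply hh10
        apply hinj
        rw [hz, map_zero]
      -- `h1(u, v)` is in the maximal ideal
      have hh1v : O.valuation (aeval ![u, v] h1) < 1 := by
        apply val_lt_of_coeff hO hs.hu hs.hv
        rw [hc1, add_zero]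
        exact hcG
      rcases lt_or_ge 1 (O.valuation g) with hV | hV
      · -- pivot `h1(u, v)`
        refine AFin.aux p (chart_h hO hs h1 hhe hh1) f hdiv g H (Or.inr ⟨?_, hV⟩) hH
        refine ⟨![(e : ℤ) - (p * M : ℕ), 1], _, ?_, hUh _, 1, ?_,
          Or.inl (inv_notMem hhe hh1v)⟩
        · rw [mon_two, zpow_one, hg1]
          ring
        · simp
      · -- `g` is regular
        obtain ⟨m, hm⟩ : ∃ m, p * M = e + m := ⟨p * M - e, by omega⟩
        have hgm : g = aeval ![u, v] h1 / u ^ m * ((aeval ![u, v] h) ^ p)⁻¹ := by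
          rw [hg1, hm]
          have h2 : ((e : ℤ) - ((e + m : ℕ) : ℤ)) = -(m : ℤ) := by push_cast; ring
          rw [h2, zpow_neg, zpow_natCast]
          field_simp
        have ht : aeval ![u, v] h1 / u ^ m ∈ O := by
          rw [← O.valuation_le_one_iff]
          have h2 : O.valuation g = O.valuation (aeval ![u, v] h1 / u ^ m) := by
            rw [hgm, map_mul, map_inv₀, map_pow, hhv, one_pow, inv_one, mul_one]
          rw [← h2]
          exact hV
        refine AFin.aux p (AFin.chart_hm hO hs h1 hhe hh1 m ht) f hdiv g H (Or.inl ?_) hH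
        have h3 : LLoc k O (Sum.elim ![u, aeval ![u, v] h1 / u ^ m] ![u, v])
            (aeval ![u, v] h1 / u ^ m) := by
          have h4 := LLoc.of_poly (k := k) (O := O)
            (z := Sum.elim ![u, aeval ![u, v] h1 / u ^ m] ![u, v]) (X (Sum.inl 1))
          rw [aeval_X] at h4
          exact h4
        have h5 := h3.mul (hUh (aeval ![u, v] h1 / u ^ m)).toLLoc
        rw [← hgm] at h5
        exact h5

end LS
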