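import Pool.Agent.helper90.LS.Defs

/-! # LUS-Face: the order along `X 0 = 0` under a monomial substitution -/

open MvPolynomial

namespace LS

universe u

variable {k : Type u} [Field k]

/-! ## rows -/

/-- the exponent `(i, j)` -/
noncomputable def Face_pt (i j : ℕ) : Fin 2 →₀ ℕ := Finsupp.single 0 i + Finsupp.single 1 j

theorem Face_pt0 (i j : ℕ) : Face_pt i j 0 = i := by
  simp [Face_pt]

theorem Face_pt1 (i j : ℕ) : Face_pt i j 1 = j := by
  simp [Face_pt]

theorem Face_ext {m m' : Fin 2 →₀ ℕ} (h0 : m 0 = m' 0) (h1 : m 1 = m' 1) : m = m' := by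
  ext i
  fin_cases i
  · exact h0
  · exact h1

theorem Face_eta (m : Fin 2 →₀ ℕ) : Face_pt (m 0) (m 1) = m :=
  Face_ext (Face_pt0 _ _) (Face_pt1 _ _)

/-- `X 0 ↦ X`, `X 1 ↦ C X` -/
noncomputable def Face_psi : MvPolynomial (Fin 2) k →ₐ[k] Polynomial (Polynomial k) :=
  aeval ![Polynomial.X, Polynomial.C Polynomial.X]

theorem Face_psi_monomial (m : Fin 2 →₀ ℕ) (r : k) :
    Face_psi (monomial m r) =
      Polynomial.monomial (m 0) (Polynomial.monomial (m 1) r) := by
  unfold Face_psi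
  rw [aeval_monomial, Finsupp.prod_fintype _ _ (fun i => pow_zero _), Fin.prod_univ_two]
  simp only [Matrix.cons_val_zero, Matrix.cons_val_one]
  rw [← Polynomial.C_pow, ← Polynomial.C_mul_X_pow_eq_monomial,
    ← Polynomial.C_mul_X_pow_eq_monomial]
  have : (algebraMap k (Polynomial (Polynomial k))) r = Polynomial.C (Polynomial.C r) := rfl
  rw [this, Polynomial.C_mul]
  ring

/-- the coefficient of `X 0 ^ n` -/
noncomputable def Face_row (n : ℕ) (F : MvPolynomial (Fin 2) k) : Polynomial k :=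
  (Face_psi F).coeff n

theorem Face_row_coeff (n j : ℕ) (F : MvPolynomial (Fin 2) k) :
    (Face_row n F).coeff j = coeff (Face_pt n j) F := by
  unfold Face_row
  induction F using MvPolynomial.induction_on' with
  | add p q hp hq => rw [map_add, Polynomial.coeff_add, Polynomial.coeff_add, hp, hq, coeff_add]
  | monomial m r =>
    rw [Face_psi_monomial, Polynomial.coeff_monomial, coeff_monomial]
    by_cases h : m 0 = n
    · rw [if_pos h, Polynomial.coeff_monomial]
      by_cases h' : m 1 = j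
      · rw [if_pos h', if_pos]
        exact Face_ext (by rw [Face_pt0, h]) (by rw [Face_pt1, h'])
      · rw [if_neg h', if_neg]
        intro e
        apply h'
        rw [e, Face_pt1]
    · rw [if_neg h, Polynomial.coeff_zero, if_neg]
      intro e
      apply h
      rw [e, Face_pt0]

theorem Face_mem_iff (F : MvPolynomial (Fin 2) k) (m : Fin 2 →₀ ℕ) :
    m ∈ F.support ↔ (Face_row (m 0) F).coeff (m 1) ≠ 0 := by
  rw [Face_row_coeff, Face_eta, mem_support_iff]

theorem Face_pt_mem (F : MvPolynomial (Fin 2) k) (n j : ℕ) :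
    Face_pt n j ∈ F.support ↔ (Face_row n F).coeff j ≠ 0 := by
  rw [Face_row_coeff, mem_support_iff]

theorem Face_row_ne (F : MvPolynomial (Fin 2) k) (n : ℕ) :
    Face_row n F ≠ 0 ↔ ∃ m ∈ F.support, m 0 = n := by
  constructor
  · intro h
    obtain ⟨j, hj⟩ : ∃ j, (Face_row n F).coeff j ≠ 0 := by
      by_contra hno
      push Not at hno
      exact h (Polynomial.ext (by simpa using hno))
    exact ⟨Face_pt n j, (Face_pt_mem F n j).2 hj, Face_pt0 n j⟩
  · rintro ⟨m, hm, rfl⟩ h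
    rw [Face_mem_iff, h, Polynomial.coeff_zero] at hm
    exact hm rfl

theorem Face_row_add (n : ℕ) (F G : MvPolynomial (Fin 2) k) :
    Face_row n (F + G) = Face_row n F + Face_row n G := by
  unfold Face_row
  rw [map_add, Polynomial.coeff_add]

theorem Face_row_natCast_mul (n a : ℕ) (F : MvPolynomial (Fin 2) k) :
    Face_row n ((a : MvPolynomial (Fin 2) k) * F) = (a : Polynomial k) * Face_row n F := by
  unfold Face_row
  rw [map_mul, map_natCast, ← Polynomial.C_eq_natCast, Polynomial.coeff_C_mul]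

theorem Face_row_XC (n : ℕ) (c : k) (F : MvPolynomial (Fin 2) k) :
    Face_row n ((X 1 + C c) * F) = (Polynomial.X + Polynomial.C c) * Face_row n F := by
  unfold Face_row
  have h : Face_psi (X 1 + C c : MvPolynomial (Fin 2) k) =
      Polynomial.C (Polynomial.X + Polynomial.C c) := by
    unfold Face_psi
    rw [map_add, aeval_X, aeval_C, Polynomial.C_add]
    rfl
  rw [map_mul, h, Polynomial.coeff_C_mul]

/-! ## the substitution -/

theorem Face_psi_sb_monomial (α β a b : ℕ) (c : k) (m : Fin 2 →₀ ℕ) (r : k) :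
    Face_psi (sb α β a b c (monomial m r)) = Polynomial.monomial (α * m 0 + β * m 1)
      ((Polynomial.monomial (a * m 0 + b * m 1) r).comp (Polynomial.X + Polynomial.C c)) := by
  have h1 : Face_psi (X 1 + C c : MvPolynomial (Fin 2) k) =
      Polynomial.C (Polynomial.X + Polynomial.C c) := by
    unfold Face_psi
    rw [map_add, aeval_X, aeval_C, Polynomial.C_add]
    rfl
  have h0 : Face_psi (X 0 : MvPolynomial (Fin 2) k) = Polynomial.X := by
    unfold Face_psi
    rw [aeval_X]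
    rfl
  unfold sb
  rw [aeval_monomial, Finsupp.prod_fintype _ _ (fun i => pow_zero _), Fin.prod_univ_two]
  simp only [Matrix.cons_val_zero, Matrix.cons_val_one]
  rw [map_mul, map_mul, map_pow, map_pow, map_mul, map_mul, map_pow, map_pow, map_pow, map_pow,
    h0, h1, AlgHom.commutes, ← Polynomial.C_mul_X_pow_eq_monomial,
    ← Polynomial.C_mul_X_pow_eq_monomial, Polynomial.mul_comp, Polynomial.C_comp,
    Polynomial.pow_comp, Polynomial.X_comp, Polynomial.C_mul, Polynomial.C_pow]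
  have : (algebraMap k (Polynomial (Polynomial k))) r = Polynomial.C (Polynomial.C r) := rfl
  rw [this, mul_pow, mul_pow, pow_add, pow_add, pow_mul, pow_mul, pow_mul, pow_mul]
  ring

/-- the face polynomial of weight `n` -/
noncomputable def Face_q (α β a b : ℕ) (f : MvPolynomial (Fin 2) k) (n : ℕ) : Polynomial k :=
  ∑ m ∈ f.support with α * m 0 + β * m 1 = n,
    Polynomial.monomial (a * m 0 + b * m 1) (coeff m f)

theorem Face_row_sb (α β a b : ℕ) (c : k) (f : MvPolynomial (Fin 2) k) (n : ℕ) :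
    Face_row n (sb α β a b c f) =
      (Face_q α β a b f n).comp (Polynomial.X + Polynomial.C c) := by
  have h : sb α β a b c f = ∑ m ∈ f.support, sb α β a b c (monomial m (coeff m f)) := by
    conv_lhs => rw [f.as_sum]
    rw [map_sum]
  unfold Face_row Face_q
  rw [h, map_sum, Polynomial.finsetSum_coeff, ← Polynomial.coe_compRingHom_apply, map_sum,
    Finset.sum_filter]
  refine Finset.sum_congr rfl fun m _ => ?_
  rw [Face_psi_sb_monomial, Polynomial.coeff_monomial, Polynomial.coe_compRingHom_apply]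

theorem Face_face_alpha {α β a b : ℕ} (hab : α * b = β * a + 1) {n : ℕ} {m : Fin 2 →₀ ℕ}
    (hm : α * m 0 + β * m 1 = n) : α * (a * m 0 + b * m 1) = a * n + m 1 := by
  rw [← hm]
  calc α * (a * m 0 + b * m 1) = a * (α * m 0) + (α * b) * m 1 := by ring
    _ = a * (α * m 0 + β * m 1) + m 1 := by rw [hab]; ring

theorem Face_q_coeff {α β a b : ℕ} (hα : 0 < α) (hab : α * b = β * a + 1)
    (f : MvPolynomial (Fin 2) k) {n : ℕ} {m : Fin 2 →₀ ℕ} (hm : m ∈ f.support)
    (hmn : α * m 0 + β * m 1 = n) : (Face_q α β a b f n).coeff (a * m 0 + b * m 1) = coeff m f := by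
  unfold Face_q
  rw [Polynomial.finsetSum_coeff, Finset.sum_eq_single m]
  · rw [Polynomial.coeff_monomial, if_pos rfl]
  · intro m' hm' hne
    rw [Finset.mem_filter] at hm'
    rw [Polynomial.coeff_monomial, if_neg]
    intro e
    apply hne
    have h1 := Face_face_alpha hab hm'.2
    have h2 := Face_face_alpha hab hmn
    rw [e, h2] at h1
    have h3 : m' 1 = m 1 := by omega
    have h4 : α * m' 0 = α * m 0 := by
      have := hm'.2
      rw [h3] at this
      omega
    exact Face_ext (Nat.eq_of_mul_eq_mul_left hα h4) h3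
  · intro h
    exact absurd (Finset.mem_filter.2 ⟨hm, hmn⟩) h

theorem Face_q_ne {α β a b : ℕ} {f : MvPolynomial (Fin 2) k} {n t : ℕ}
    (h : (Face_q α β a b f n).coeff t ≠ 0) :
    ∃ m ∈ f.support, α * m 0 + β * m 1 = n ∧ a * m 0 + b * m 1 = t := by
  unfold Face_q at h
  rw [Polynomial.finsetSum_coeff] at h
  obtain ⟨m, hm, hne⟩ := Finset.exists_ne_zero_of_sum_ne_zero h
  rw [Finset.mem_filter] at hm
  refine ⟨m, hm.1, hm.2, ?_⟩
  by_contra hno
  rw [Polynomial.coeff_monomial, if_neg hno] at hne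
  exact hne rfl

theorem Face_q_zero {α β a b : ℕ} {f : MvPolynomial (Fin 2) k} {n : ℕ}
    (h : ∀ m ∈ f.support, α * m 0 + β * m 1 ≠ n) : Face_q α β a b f n = 0 := by
  unfold Face_q
  rw [Finset.filter_false_of_mem h, Finset.sum_empty]

theorem Face_comp_ne {q : Polynomial k} (c : k) (hq : q ≠ 0) :
    q.comp (Polynomial.X + Polynomial.C c) ≠ 0 := by
  intro h
  apply hq
  have h1 := congrArg (fun p => Polynomial.comp p (Polynomial.X - Polynomial.C c)) h
  simp only [Polynomial.comp_assoc, Polynomial.zero_comp, Polynomial.add_comp,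
    Polynomial.X_comp, Polynomial.C_comp, sub_add_cancel, Polynomial.comp_X] at h1
  exact h1

/-- the rows of the substituted polynomial and the weights of the points -/
theorem Face_row_sb_ne {α β a b : ℕ} (hα : 0 < α) (hab : α * b = β * a + 1) (c : k)
    (f : MvPolynomial (Fin 2) k) (n : ℕ) :
    Face_row n (sb α β a b c f) ≠ 0 ↔ ∃ m ∈ f.support, α * m 0 + β * m 1 = n := by
  rw [Face_row_sb]
  constructor
  · intro h
    by_contra hno
    push Not at hno
    rw [Face_q_zero hno, Polynomial.zero_comp] at h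
    exact h rfl
  · rintro ⟨m, hm, hmn⟩
    apply Face_comp_ne
    intro h0
    have h1 := Face_q_coeff hα hab f hm hmn
    rw [h0, Polynomial.coeff_zero] at h1
    exact (mem_support_iff.1 hm) h1.symm

/-- the order of a row -/
theorem Face_ord {α β a b : ℕ} (hab : α * b = β * a + 1) {c : k}
    (hc : c ≠ 0) (f : MvPolynomial (Fin 2) k) {n r : ℕ}
    (h0 : Face_row n (sb α β a b c f) ≠ 0)
    (hr : Polynomial.X ^ r ∣ Face_row n (sb α β a b c f)) :
    ∃ m ∈ f.support, ∃ m' ∈ f.support, α * m 0 + β * m 1 = n ∧ α * m' 0 + β * m' 1 = n ∧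
      α * r + m' 1 ≤ m 1 := by
  rw [Face_row_sb] at h0 hr
  have hq : Face_q α β a b f n ≠ 0 := by
    intro h
    rw [h, Polynomial.zero_comp] at h0
    exact h0 rfl
  have h1 : (Polynomial.X - Polynomial.C c) ^ r ∣ Face_q α β a b f n := by
    obtain ⟨t, ht⟩ := hr
    have h2 := congrArg (fun p => Polynomial.comp p (Polynomial.X - Polynomial.C c)) ht
    simp only [Polynomial.comp_assoc, Polynomial.mul_comp, Polynomial.pow_comp, Polynomial.add_comp,
      Polynomial.X_comp, Polynomial.C_comp, sub_add_cancel, Polynomial.comp_X] at h2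
    exact ⟨_, h2⟩
  have h2 : (Polynomial.X - Polynomial.C 0) ^ (Face_q α β a b f n).natTrailingDegree ∣
      Face_q α β a b f n := by
    rw [Polynomial.C_0, sub_zero, Polynomial.X_pow_dvd_iff]
    intro d hd
    exact Polynomial.coeff_eq_zero_of_lt_natTrailingDegree hd
  have h3 : IsCoprime (Polynomial.X - Polynomial.C c) (Polynomial.X - Polynomial.C (0 : k)) :=
    Polynomial.isCoprime_X_sub_C_of_isUnit_sub (by rw [sub_zero]; exact hc.isUnit)
  have h4 := (h3.pow (m := r) (n := (Face_q α β a b f n).natTrailingDegree)).mul_dvd h1 h2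
  have h5 := Polynomial.natDegree_le_of_dvd h4 hq
  rw [Polynomial.natDegree_mul (pow_ne_zero _ (Polynomial.X_sub_C_ne_zero _))
    (pow_ne_zero _ (Polynomial.X_sub_C_ne_zero _)), Polynomial.natDegree_pow,
    Polynomial.natDegree_pow, Polynomial.natDegree_X_sub_C, Polynomial.natDegree_X_sub_C,
    mul_one, mul_one] at h5
  have h6 : (Face_q α β a b f n).coeff (Face_q α β a b f n).natDegree ≠ 0 := by
    rw [Polynomial.coeff_natDegree]
    exact Polynomial.leadingCoeff_ne_zero.2 hq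
  have h7 : (Face_q α β a b f n).coeff (Face_q α β a b f n).natTrailingDegree ≠ 0 :=
    Polynomial.trailingCoeff_nonzero_iff_nonzero.2 hq
  obtain ⟨m, hm, hmn, hmt⟩ := Face_q_ne h6
  obtain ⟨m', hm', hmn', hmt'⟩ := Face_q_ne h7
  refine ⟨m, hm, m', hm', hmn, hmn', ?_⟩
  have e1 := Face_face_alpha hab hmn
  have e2 := Face_face_alpha hab hmn'
  rw [hmt] at e1
  rw [hmt'] at e2
  have e3 : α * (r + (Face_q α β a b f n).natTrailingDegree) ≤
      α * (Face_q α β a b f n).natDegree := Nat.mul_le_mul_left _ h5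
  rw [mul_add, e1, e2] at e3
  omega

/-! ## least coordinates -/

theorem Face_lo_le {S : Finset (Fin 2 →₀ ℕ)} {m : Fin 2 →₀ ℕ} (hm : m ∈ S) : lo S ≤ m 0 :=
  Nat.sInf_le ⟨m, hm, rfl⟩

theorem Face_lo_mem {S : Finset (Fin 2 →₀ ℕ)} (hS : S.Nonempty) : ∃ m ∈ S, m 0 = lo S :=
  Nat.sInf_mem (s := {i | ∃ m ∈ S, m 0 = i}) (by
    obtain ⟨m, hm⟩ := hS
    exact ⟨m 0, m, hm, rfl⟩)

theorem Face_nu_le {S : Finset (Fin 2 →₀ ℕ)} {m : Fin 2 →₀ ℕ} (hm : m ∈ S) (h0 : m 0 = lo S) :
    nu S ≤ m 1 :=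
  Nat.sInf_le ⟨m, hm, h0, rfl⟩

theorem Face_nu_mem {S : Finset (Fin 2 →₀ ℕ)} (hS : S.Nonempty) :
    ∃ m ∈ S, m 0 = lo S ∧ m 1 = nu S :=
  Nat.sInf_mem (s := {j | ∃ m ∈ S, m 0 = lo S ∧ m 1 = j}) (by
    obtain ⟨m, hm, h0⟩ := Face_lo_mem hS
    exact ⟨m 1, m, hm, h0, rfl⟩)

theorem Face_dvd {S : Finset (Fin 2 →₀ ℕ)} {F : MvPolynomial (Fin 2) k} (h : F.support ⊆ S) :
    Polynomial.X ^ nu S ∣ Face_row (lo S) F := by
  rw [Polynomial.X_pow_dvd_iff]
  intro d hd
  by_contra hne
  have h1 := (Face_pt_mem F (lo S) d).2 hne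
  have h2 := Face_nu_le (h h1) (Face_pt0 _ _)
  rw [Face_pt1] at h2
  omega

theorem Face_min {S : Finset (Fin 2 →₀ ℕ)} (hS : S.Nonempty) (α β : ℕ) :
    ∃ m ∈ S, ∀ m' ∈ S, α * m 0 + β * m 1 ≤ α * m' 0 + β * m' 1 :=
  S.exists_min_image (fun m => α * m 0 + β * m 1) hS

theorem Face_lo_sb {α β a b : ℕ} (hα : 0 < α) (hab : α * b = β * a + 1) (c : k)
    {f : MvPolynomial (Fin 2) k} (hf : f ≠ 0) :
    (sb α β a b c f).support.Nonempty ∧
      (∃ m ∈ f.support, α * m 0 + β * m 1 = lo (sb α β a b c f).support) ∧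
      ∀ m ∈ f.support, lo (sb α β a b c f).support ≤ α * m 0 + β * m 1 := by
  obtain ⟨m, hm, hmin⟩ := Face_min (MvPolynomial.support_nonempty.2 hf) α β
  have h1 := (Face_row_sb_ne hα hab c f (α * m 0 + β * m 1)).2 ⟨m, hm, rfl⟩
  obtain ⟨m1, hm1, hm1'⟩ := (Face_row_ne _ _).1 h1
  have hne : (sb α β a b c f).support.Nonempty := ⟨m1, hm1⟩
  have h2 : lo (sb α β a b c f).support ≤ α * m 0 + β * m 1 := by
    rw [← hm1']
    exact Face_lo_le hm1
  obtain ⟨m2, hm2, hm2'⟩ := Face_lo_mem hne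
  obtain ⟨m3, hm3, hm3'⟩ := (Face_row_sb_ne hα hab c f _).1 ((Face_row_ne _ _).2 ⟨m2, hm2, hm2'⟩)
  exact ⟨hne, ⟨m3, hm3, hm3'⟩, fun m' hm' => h2.trans (hmin m' hm')⟩

theorem face_f {α β a b : ℕ} (hα : 0 < α) (hβ : 0 < β) (hab : α * b = β * a + 1) {c : k}
    (hc : c ≠ 0) {f : MvPolynomial (Fin 2) k} (hf : f ≠ 0) :
    sb α β a b c f ≠ 0 ∧ α * nu (sb α β a b c f).support ≤ nu f.support := by
  obtain ⟨hne, ⟨m0, hm0, hm0'⟩, hmin⟩ := Face_lo_sb hα hab c hf
  refine ⟨MvPolynomial.support_nonempty.1 hne, ?_⟩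
  have h1 : Face_row (lo (sb α β a b c f).support) (sb α β a b c f) ≠ 0 :=
    (Face_row_sb_ne hα hab c f _).2 ⟨m0, hm0, hm0'⟩
  obtain ⟨m, hm, m', hm', hmn, hmn', hle⟩ := Face_ord hab hc f h1 (Face_dvd subset_rfl)
  obtain ⟨p, hp, hp0, hp1⟩ := Face_nu_mem (MvPolynomial.support_nonempty.2 hf)
  have h2 := hmin p hp
  rw [hp0, hp1] at h2
  have h3 := Face_lo_le hm
  have h4 : α * lo f.support ≤ α * m 0 := Nat.mul_le_mul_left _ h3
  have h5 : β * m 1 ≤ β * nu f.support := by omega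
  have h6 := Nat.le_of_mul_le_mul_left h5 hβ
  omega

/-- `α = 1` -/
theorem face_f1 {β : ℕ} (hβ : 0 < β) {c : k} (hc : c ≠ 0) {f : MvPolynomial (Fin 2) k}
    (hf : f ≠ 0) (hν : 1 ≤ nu f.support) :
    lo f.support + 1 ≤ lo (sb 1 β 0 1 c f).support := by
  obtain ⟨hne, ⟨m0, hm0, hm0'⟩, hmin⟩ := Face_lo_sb (α := 1) (β := β) (a := 0) (b := 1)
    Nat.one_pos (by ring) c hf
  rw [← hm0', one_mul]
  have h1 := Face_lo_le hm0
  by_cases h2 : m0 0 = lo f.support
  · have h3 := Face_nu_le hm0 h2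
    have h4 : 1 ≤ β * m0 1 := Nat.mul_pos hβ (by omega)
    omega
  · omega

/-! ## derivatives -/

theorem Face_mul_pderiv_pow {i : Fin 2} {Y : MvPolynomial (Fin 2) k} (hY : pderiv i Y = 1)
    (n : ℕ) : Y * pderiv i (Y ^ n) = (n : MvPolynomial (Fin 2) k) * Y ^ n := by
  rw [pderiv_pow, hY]
  cases n with
  | zero => simp
  | succ n =>
    rw [Nat.add_sub_cancel, pow_succ]
    ring

theorem Face_sb_X0 (α β a b : ℕ) (c : k) : sb α β a b c (X 0) = X 0 ^ α * (X 1 + C c) ^ a := by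
  unfold sb
  rw [aeval_X]
  rfl

theorem Face_sb_X1 (α β a b : ℕ) (c : k) : sb α β a b c (X 1) = X 0 ^ β * (X 1 + C c) ^ b := by
  unfold sb
  rw [aeval_X]
  rfl

theorem Face_chain (i : Fin 2) (α β a b : ℕ) (c : k) (g : MvPolynomial (Fin 2) k) :
    pderiv i (sb α β a b c g) = sb α β a b c (pderiv 0 g) * pderiv i (sb α β a b c (X 0)) +
      sb α β a b c (pderiv 1 g) * pderiv i (sb α β a b c (X 1)) := by
  induction g using MvPolynomial.induction_on with
  | C r =>
    have h : sb α β a b c (C r) = C r := AlgHom.commutes _ _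
    rw [h, pderiv_C, pderiv_C, pderiv_C, map_zero]
    ring
  | add p q hp hq =>
    simp only [map_add, hp, hq]
    ring
  | mul_X p j hp =>
    rw [map_mul, pderiv_mul, hp, pderiv_mul, pderiv_mul, map_add, map_add, map_mul, map_mul,
      map_mul, map_mul]
    fin_cases j
    · simp only [Fin.zero_eta, Fin.isValue, pderiv_X_self, ne_eq, zero_ne_one,
        not_false_eq_true, pderiv_X_of_ne, map_one, map_zero]
      ring
    · simp only [Fin.mk_one, Fin.isValue, pderiv_X_self, ne_eq, one_ne_zero,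
        not_false_eq_true, pderiv_X_of_ne, map_one, map_zero]
      ring

theorem Face_d0 : pderiv (0 : Fin 2) (X 0 : MvPolynomial (Fin 2) k) = 1 := pderiv_X_self 0

theorem Face_d1 (c : k) : pderiv (1 : Fin 2) (X 1 + C c : MvPolynomial (Fin 2) k) = 1 := by
  rw [map_add, pderiv_X_self, pderiv_C, add_zero]

theorem Face_d0' (c : k) (n : ℕ) :
    pderiv (0 : Fin 2) ((X 1 + C c : MvPolynomial (Fin 2) k) ^ n) = 0 := by
  rw [pderiv_pow, map_add, pderiv_C, pderiv_X_of_ne (by decide)]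
  ring

theorem Face_d1' (n : ℕ) : pderiv (1 : Fin 2) ((X 0 : MvPolynomial (Fin 2) k) ^ n) = 0 := by
  rw [pderiv_pow, pderiv_X_of_ne (by decide)]
  ring

/-- the first Euler derivation after the substitution -/
theorem Face_E0 (α β a b : ℕ) (c : k) (g : MvPolynomial (Fin 2) k) :
    X 0 * pderiv 0 (sb α β a b c g) =
      (α : MvPolynomial (Fin 2) k) * sb α β a b c (X 0 * pderiv 0 g) +
        (β : MvPolynomial (Fin 2) k) * sb α β a b c (X 1 * pderiv 1 g) := by
  rw [Face_chain, map_mul, map_mul, Face_sb_X0, Face_sb_X1, pderiv_mul, pderiv_mul, Face_d0',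
    Face_d0']
  have h1 := Face_mul_pderiv_pow (k := k) Face_d0 α
  have h2 := Face_mul_pderiv_pow (k := k) Face_d0 β
  linear_combination (sb α β a b c (pderiv 0 g) * (X 1 + C c) ^ a) * h1 +
    (sb α β a b c (pderiv 1 g) * (X 1 + C c) ^ b) * h2

/-- the second Euler derivation after the substitution -/
theorem Face_E1 (α β a b : ℕ) (c : k) (g : MvPolynomial (Fin 2) k) :
    (X 1 + C c) * pderiv 1 (sb α β a b c g) =
      (a : MvPolynomial (Fin 2) k) * sb α β a b c (X 0 * pderiv 0 g) +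
        (b : MvPolynomial (Fin 2) k) * sb α β a b c (X 1 * pderiv 1 g) := by
  rw [Face_chain, map_mul, map_mul, Face_sb_X0, Face_sb_X1, pderiv_mul, pderiv_mul, Face_d1',
    Face_d1']
  have h1 := Face_mul_pderiv_pow (k := k) (Face_d1 c) a
  have h2 := Face_mul_pderiv_pow (k := k) (Face_d1 c) b
  linear_combination (sb α β a b c (pderiv 0 g) * X 0 ^ α) * h1 +
    (sb α β a b c (pderiv 1 g) * X 0 ^ β) * h2

/-- derivatives after the substitution with `α = 1` -/
theorem pderiv_sb1 (β : ℕ) (c : k) (g : MvPolynomial (Fin 2) k) :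
    pderiv 1 (sb 1 β 0 1 c g) = X 0 ^ β * sb 1 β 0 1 c (pderiv 1 g) ∧
      X 0 * pderiv 0 (sb 1 β 0 1 c g) =
        sb 1 β 0 1 c (X 0 * pderiv 0 g + (β : MvPolynomial (Fin 2) k) * (X 1 * pderiv 1 g)) := by
  constructor
  · rw [Face_chain, Face_sb_X0, Face_sb_X1, pow_zero, mul_one, pow_one, pow_one, pderiv_mul,
      Face_d1', Face_d1, pderiv_X_of_ne (by decide)]
    ring
  · rw [Face_E0, map_add, map_mul _ (β : MvPolynomial (Fin 2) k), map_natCast, Nat.cast_one,
      one_mul]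

/-! ## the support of the derivatives -/

theorem Face_mem_SD {g : MvPolynomial (Fin 2) k} {m : Fin 2 →₀ ℕ} :
    m ∈ SD g ↔ m ∈ (X 0 * pderiv 0 g).support ∨ m ∈ (pderiv 1 g).support := by
  unfold SD
  rw [Finset.mem_union]

theorem Face_SD_empty {g : MvPolynomial (Fin 2) k} :
    SD g = ∅ ↔ pderiv 0 g = 0 ∧ pderiv 1 g = 0 := by
  constructor
  · intro h
    constructor
    · have h1 : X 0 * pderiv 0 g = 0 := by
        rw [← MvPolynomial.support_eq_empty]
        by_contra hne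
        obtain ⟨m, hm⟩ := Finset.nonempty_iff_ne_empty.2 hne
        have := Face_mem_SD.2 (Or.inl hm)
        rw [h] at this
        exact absurd this (Finset.notMem_empty _)
      exact (mul_eq_zero.1 h1).resolve_left (X_ne_zero 0)
    · rw [← MvPolynomial.support_eq_empty]
      by_contra hne
      obtain ⟨m, hm⟩ := Finset.nonempty_iff_ne_empty.2 hne
      have := Face_mem_SD.2 (Or.inr hm)
      rw [h] at this
      exact absurd this (Finset.notMem_empty _)
  · rintro ⟨h0, h1⟩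
    rw [Finset.eq_empty_iff_forall_notMem]
    intro m hm
    rw [Face_mem_SD, h0, h1, mul_zero, support_zero] at hm
    rcases hm with hm | hm <;> exact absurd hm (Finset.notMem_empty _)

theorem SD_empty_sb {α β a b : ℕ} (c : k) {g : MvPolynomial (Fin 2) k} (hg : SD g = ∅) :
    SD (sb α β a b c g) = ∅ := by
  rw [Face_SD_empty] at hg ⊢
  constructor <;> rw [Face_chain, hg.1, hg.2, map_zero] <;> ring

/-- `X 1 * ∂_1 g` -/
theorem Face_B_mem {g : MvPolynomial (Fin 2) k} {m : Fin 2 →₀ ℕ}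
    (hm : m ∈ (X 1 * pderiv 1 g).support) :
    1 ≤ m 1 ∧ ∃ m' ∈ (pderiv 1 g).support, m' 0 = m 0 ∧ m' 1 + 1 = m 1 := by
  classical
  rw [mem_support_iff, coeff_X_mul'] at hm
  by_cases h : (1 : Fin 2) ∈ m.support
  · rw [if_pos h] at hm
    have h1 : m 1 ≠ 0 := Finsupp.mem_support_iff.1 h
    refine ⟨by omega, m - Finsupp.single 1 1, mem_support_iff.2 hm, ?_, ?_⟩
    · simp
    · simp
      omega
  · rw [if_neg h] at hm
    exact absurd rfl hm

theorem Face_mem_B {g : MvPolynomial (Fin 2) k} {m : Fin 2 →₀ ℕ} (hm : m ∈ (pderiv 1 g).support) :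
    Face_pt (m 0) (m 1 + 1) ∈ (X 1 * pderiv 1 g).support := by
  have h : Face_pt (m 0) (m 1 + 1) = Finsupp.single 1 1 + m := by
    apply Face_ext
    · simp [Face_pt0]
    · rw [Face_pt1]
      simp
      omega
  rw [mem_support_iff, h, coeff_X_mul]
  exact mem_support_iff.1 hm

theorem Face_A_one {g : MvPolynomial (Fin 2) k} {m : Fin 2 →₀ ℕ}
    (hm : m ∈ (X 0 * pderiv 0 g).support) (h1 : m 1 = 1) :
    Face_pt (m 0) 0 ∈ (pderiv 1 g).support := by
  classical
  rw [mem_support_iff, coeff_X_mul'] at hm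
  by_cases h : (0 : Fin 2) ∈ m.support
  · rw [if_pos h, coeff_pderiv] at hm
    have h0 : m 0 ≠ 0 := Finsupp.mem_support_iff.1 h
    have h2 : m - Finsupp.single 0 1 + Finsupp.single 0 1 = m := by
      apply Face_ext
      · simp
        omega
      · simp
    rw [h2] at hm
    rw [mem_support_iff, coeff_pderiv, Face_pt1]
    have h3 : Face_pt (m 0) 0 + Finsupp.single 1 1 = m := by
      apply Face_ext
      · simp [Face_pt0]
      · simp [Face_pt1, h1]
    rw [h3]
    intro e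
    apply hm
    have h4 : coeff m g = 0 := by simpa using e
    rw [h4, zero_mul]
  · rw [if_neg h] at hm
    exact absurd rfl hm

/-! ## the main statements on derivatives -/

theorem Face_row_SD {G : MvPolynomial (Fin 2) k} {n : ℕ} :
    (∃ m ∈ SD G, m 0 = n) ↔ Face_row n (X 0 * pderiv 0 G) ≠ 0 ∨ Face_row n (pderiv 1 G) ≠ 0 := by
  rw [Face_row_ne, Face_row_ne]
  constructor
  · rintro ⟨m, hm, h⟩
    rcases Face_mem_SD.1 hm with hm | hm
    · exact Or.inl ⟨m, hm, h⟩
    · exact Or.inr ⟨m, hm, h⟩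
  · rintro (⟨m, hm, h⟩ | ⟨m, hm, h⟩)
    · exact ⟨m, Face_mem_SD.2 (Or.inl hm), h⟩
    · exact ⟨m, Face_mem_SD.2 (Or.inr hm), h⟩

theorem Face_core {α β a b : ℕ} (hα : 0 < α) (hab : α * b = β * a + 1) {c : k} (hc : c ≠ 0)
    {g : MvPolynomial (Fin 2) k} (hg : (SD g).Nonempty) :
    (SD (sb α β a b c g)).Nonempty ∧
      ((∃ m ∈ (X 0 * pderiv 0 g).support, α * m 0 + β * m 1 = lo (SD (sb α β a b c g))) ∨
        (∃ m ∈ (X 1 * pderiv 1 g).support, α * m 0 + β * m 1 = lo (SD (sb α β a b c g)))) ∧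
      (∀ m, m ∈ (X 0 * pderiv 0 g).support ∨ m ∈ (X 1 * pderiv 1 g).support →
        lo (SD (sb α β a b c g)) ≤ α * m 0 + β * m 1) ∧
      Polynomial.X ^ nu (SD (sb α β a b c g)) ∣
        Face_row (lo (SD (sb α β a b c g))) (sb α β a b c (X 0 * pderiv 0 g)) ∧
      Polynomial.X ^ nu (SD (sb α β a b c g)) ∣
        Face_row (lo (SD (sb α β a b c g))) (sb α β a b c (X 1 * pderiv 1 g)) := by
  classical
  have hab' : (α : Polynomial k) * b = β * a + 1 := by exact_mod_cast congrArg (Nat.cast (R := Polynomial k)) hab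
  have hR0 : ∀ n, Face_row n (X 0 * pderiv 0 (sb α β a b c g)) =
      (α : Polynomial k) * Face_row n (sb α β a b c (X 0 * pderiv 0 g)) +
        (β : Polynomial k) * Face_row n (sb α β a b c (X 1 * pderiv 1 g)) := by
    intro n
    rw [Face_E0, Face_row_add, Face_row_natCast_mul, Face_row_natCast_mul]
  have hR1 : ∀ n, (Polynomial.X + Polynomial.C c) * Face_row n (pderiv 1 (sb α β a b c g)) =
      (a : Polynomial k) * Face_row n (sb α β a b c (X 0 * pderiv 0 g)) +
        (b : Polynomial k) * Face_row n (sb α β a b c (X 1 * pderiv 1 g)) := by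
    intro n
    rw [← Face_row_XC, Face_E1, Face_row_add, Face_row_natCast_mul, Face_row_natCast_mul]
  have hA : ∀ n, Face_row n (sb α β a b c (X 0 * pderiv 0 g)) =
      (b : Polynomial k) * Face_row n (X 0 * pderiv 0 (sb α β a b c g)) -
        (β : Polynomial k) * ((Polynomial.X + Polynomial.C c) * Face_row n (pderiv 1 (sb α β a b c g))) := by
    intro n
    rw [hR0, hR1]
    linear_combination (-Face_row n (sb α β a b c (X 0 * pderiv 0 g))) * hab'
  have hB : ∀ n, Face_row n (sb α β a b c (X 1 * pderiv 1 g)) =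
      (α : Polynomial k) *
          ((Polynomial.X + Polynomial.C c) * Face_row n (pderiv 1 (sb α β a b c g))) -
        (a : Polynomial k) * Face_row n (X 0 * pderiv 0 (sb α β a b c g)) := by
    intro n
    rw [hR0, hR1]
    linear_combination (-Face_row n (sb α β a b c (X 1 * pderiv 1 g))) * hab'
  have hXc : (Polynomial.X + Polynomial.C c : Polynomial k) ≠ 0 := Polynomial.X_add_C_ne_zero c
  -- rows of `SD G` and weights
  have hiff : ∀ n, (∃ m ∈ SD (sb α β a b c g), m 0 = n) ↔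
      ((∃ m ∈ (X 0 * pderiv 0 g).support, α * m 0 + β * m 1 = n) ∨
        (∃ m ∈ (X 1 * pderiv 1 g).support, α * m 0 + β * m 1 = n)) := by
    intro n
    rw [Face_row_SD, ← Face_row_sb_ne hα hab c, ← Face_row_sb_ne hα hab c]
    constructor
    · intro h
      by_contra hno
      rw [not_or, not_not, not_not] at hno
      have h0 := hR0 n
      have h1 := hR1 n
      rw [hno.1, hno.2, mul_zero, mul_zero, add_zero] at h0 h1
      rcases h with h | h
      · exact h h0
      · exact h ((mul_eq_zero.1 h1).resolve_left hXc)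
    · intro h
      by_contra hno
      rw [not_or, not_not, not_not] at hno
      have h0 := hA n
      have h1 := hB n
      rw [hno.1, hno.2, mul_zero, mul_zero, mul_zero, sub_zero] at h0 h1
      rcases h with h | h
      · exact h h0
      · exact h h1
  obtain ⟨q, hq⟩ := hg
  have hne : ((X 0 * pderiv 0 g).support ∪ (X 1 * pderiv 1 g).support).Nonempty := by
    rcases Face_mem_SD.1 hq with hq | hq
    · exact ⟨q, Finset.mem_union_left _ hq⟩
    · exact ⟨_, Finset.mem_union_right _ (Face_mem_B hq)⟩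
  obtain ⟨m, hm, hmin⟩ := Face_min hne α β
  have hm' : ∃ m' ∈ SD (sb α β a b c g), m' 0 = α * m 0 + β * m 1 := by
    rw [hiff]
    rcases Finset.mem_union.1 hm with hm | hm
    · exact Or.inl ⟨m, hm, rfl⟩
    · exact Or.inr ⟨m, hm, rfl⟩
  obtain ⟨m', hm'S, hm'0⟩ := hm'
  have hSne : (SD (sb α β a b c g)).Nonempty := ⟨m', hm'S⟩
  have hle : lo (SD (sb α β a b c g)) ≤ α * m 0 + β * m 1 := by
    rw [← hm'0]
    exact Face_lo_le hm'S
  have hd0 : Polynomial.X ^ nu (SD (sb α β a b c g)) ∣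
      Face_row (lo (SD (sb α β a b c g))) (X 0 * pderiv 0 (sb α β a b c g)) :=
    Face_dvd fun x hx => Face_mem_SD.2 (Or.inl hx)
  have hd1 : Polynomial.X ^ nu (SD (sb α β a b c g)) ∣
      Face_row (lo (SD (sb α β a b c g))) (pderiv 1 (sb α β a b c g)) :=
    Face_dvd fun x hx => Face_mem_SD.2 (Or.inr hx)
  refine ⟨hSne, (hiff _).1 (Face_lo_mem hSne), ?_, ?_, ?_⟩
  · intro x hx
    exact hle.trans (hmin x (Finset.mem_union.2 hx))
  · rw [hA]
    exact dvd_sub (hd0.mul_left _) ((hd1.mul_left _).mul_left _)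
  · rw [hB]
    exact dvd_sub ((hd1.mul_left _).mul_left _) (hd0.mul_left _)

/-- comparison of the face with the lowest row -/
theorem Face_cmp {α β a b : ℕ} (hα : 0 < α) (hβ : 0 < β) (hab : α * b = β * a + 1) {c : k}
    (hc : c ≠ 0) {g : MvPolynomial (Fin 2) k} (hg : (SD g).Nonempty) :
    (∃ m ∈ (X 1 * pderiv 1 g).support, ∃ m' ∈ (X 1 * pderiv 1 g).support,
      α * m 0 + β * m 1 = lo (SD (sb α β a b c g)) ∧ lo (SD g) ≤ m 0 ∧
      1 ≤ m' 1 ∧ m 1 ≤ nu (SD g) + 1 ∧
      α * nu (SD (sb α β a b c g)) + m' 1 ≤ m 1) ∨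
    (∃ m ∈ (X 0 * pderiv 0 g).support, ∃ m' ∈ (X 0 * pderiv 0 g).support,
      α * m 0 + β * m 1 = lo (SD (sb α β a b c g)) ∧ lo (SD g) ≤ m 0 ∧
      m 1 ≤ nu (SD g) ∧ α * nu (SD (sb α β a b c g)) + m' 1 ≤ m 1) := by
  obtain ⟨-, hex, hmin, hdA, hdB⟩ := Face_core hα hab hc hg
  have hAe : ∀ m ∈ (X 0 * pderiv 0 g).support, lo (SD g) ≤ m 0 := fun m hm =>
    Face_lo_le (Face_mem_SD.2 (Or.inl hm))
  have hBe : ∀ m ∈ (X 1 * pderiv 1 g).support, lo (SD g) ≤ m 0 ∧ 1 ≤ m 1 := by
    intro m hm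
    obtain ⟨h1, m', hm', h0, -⟩ := Face_B_mem hm
    refine ⟨?_, h1⟩
    rw [← h0]
    exact Face_lo_le (Face_mem_SD.2 (Or.inr hm'))
  obtain ⟨p, hp, hp0, hp1⟩ := Face_nu_mem hg
  have hp' : (p ∈ (X 0 * pderiv 0 g).support) ∨
      Face_pt (lo (SD g)) (nu (SD g) + 1) ∈ (X 1 * pderiv 1 g).support := by
    rcases Face_mem_SD.1 hp with h | h
    · exact Or.inl h
    · right
      have := Face_mem_B h
      rwa [hp0, hp1] at this
  have hupper : ∀ m : Fin 2 →₀ ℕ, α * m 0 + β * m 1 = lo (SD (sb α β a b c g)) →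
      lo (SD g) ≤ m 0 → m 1 ≤ nu (SD g) + 1 := by
    intro m hm he
    have h1 : α * lo (SD g) ≤ α * m 0 := Nat.mul_le_mul_left _ he
    have h2 : β * m 1 ≤ β * (nu (SD g) + 1) := by
      rcases hp' with h | h
      · have h3 := hmin p (Or.inl h)
        rw [hp0, hp1] at h3
        have h4 : β * nu (SD g) ≤ β * (nu (SD g) + 1) := Nat.mul_le_mul_left _ (Nat.le_succ _)
        omega
      · have h3 := hmin _ (Or.inr h)
        rw [Face_pt0, Face_pt1] at h3
        omega
    exact Nat.le_of_mul_le_mul_left h2 hβ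
  by_cases hBex : ∃ m ∈ (X 1 * pderiv 1 g).support,
      α * m 0 + β * m 1 = lo (SD (sb α β a b c g))
  · left
    obtain ⟨m, hm, m', hm', hmn, hmn', hle⟩ := Face_ord hab hc (X 1 * pderiv 1 g)
      ((Face_row_sb_ne hα hab c _ _).2 hBex) hdB
    exact ⟨m, hm, m', hm', hmn, (hBe m hm).1, (hBe m' hm').2, hupper m hmn (hBe m hm).1, hle⟩
  · right
    have hAex := hex.resolve_right hBex
    obtain ⟨m, hm, m', hm', hmn, hmn', hle⟩ := Face_ord hab hc (X 0 * pderiv 0 g)
      ((Face_row_sb_ne hα hab c _ _).2 hAex) hdA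
    refine ⟨m, hm, m', hm', hmn, hAe m hm, ?_, hle⟩
    rcases hp' with h | h
    · have h1 : α * lo (SD g) ≤ α * m 0 := Nat.mul_le_mul_left _ (hAe m hm)
      have h3 := hmin p (Or.inl h)
      rw [hp0, hp1] at h3
      exact Nat.le_of_mul_le_mul_left (by omega) hβ
    · have h4 := hupper m hmn (hAe m hm)
      by_contra hlt
      have h5 : m 1 = nu (SD g) + 1 := by omega
      apply hBex
      refine ⟨_, h, ?_⟩
      have h3 := hmin _ (Or.inr h)
      rw [Face_pt0, Face_pt1] at h3 ⊢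
      rw [h5] at hmn
      have h6 : α * m 0 ≤ α * lo (SD g) := by omega
      have h7 := Nat.le_of_mul_le_mul_left h6 hα
      have h8 : m 0 = lo (SD g) := le_antisymm h7 (hAe m hm)
      rw [h8] at hmn
      exact hmn

theorem face_g {α β a b : ℕ} (hα : 0 < α) (hβ : 0 < β) (hab : α * b = β * a + 1) {c : k}
    (hc : c ≠ 0) {g : MvPolynomial (Fin 2) k} (hg : (SD g).Nonempty) :
    (SD (sb α β a b c g)).Nonempty ∧ α * nu (SD (sb α β a b c g)) ≤ nu (SD g) := by
  refine ⟨(Face_core hα hab hc hg).1, ?_⟩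
  rcases Face_cmp hα hβ hab hc hg with ⟨m, -, m', -, -, -, h1, h2, h3⟩ | ⟨m, -, m', -, -, -, h2, h3⟩
  · omega
  · omega

/-- `α = 1`, the order does not drop -/
theorem face_g1 {β : ℕ} (hβ : 0 < β) {c : k} (hc : c ≠ 0) {g : MvPolynomial (Fin 2) k}
    (hg : (SD g).Nonempty) (hν : 1 ≤ nu (SD g)) (he : nu (SD (sb 1 β 0 1 c g)) = nu (SD g)) :
    lo (SD g) + β + 1 ≤ lo (SD (sb 1 β 0 1 c g)) ∨
      (pderiv 1 g = 0 ∧ lo (SD g) + 1 ≤ lo (SD (sb 1 β 0 1 c g))) := by
  left
  rcases Face_cmp (α := 1) (β := β) (a := 0) (b := 1) Nat.one_pos hβ (by ring) hc hg with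
    ⟨m, hm, m', hm', hmn, hm0, h1, h2, h3⟩ | ⟨m, hm, m', hm', hmn, hm0, h2, h3⟩
  · rw [← hmn]
    rw [he] at h3
    have h4 : β * 2 ≤ β * m 1 := Nat.mul_le_mul_left _ (by omega)
    omega
  · rw [← hmn]
    rw [he] at h3
    have h5 : m 1 = nu (SD g) := by omega
    by_cases h6 : m 0 = lo (SD g)
    · by_cases h7 : nu (SD g) = 1
      · exfalso
        have h8 := Face_A_one hm (h5.trans h7)
        have h9 := Face_nu_le (Face_mem_SD.2 (Or.inr h8)) (by rw [Face_pt0, h6])
        rw [Face_pt1] at h9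
        omega
      · have h4 : β * 2 ≤ β * m 1 := Nat.mul_le_mul_left _ (by omega)
        omega
    · have h4 : β * 1 ≤ β * m 1 := Nat.mul_le_mul_left _ (by omega)
      omega

end LS
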