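import Pool.Agent.helper90.LS.Basic

/-! # LUS-Step: the three possibilities at a stage -/

open MvPolynomial

namespace LS

open LU

universe u

variable {k : Type u} {F : Type u} [Field k] [IsAlgClosed k] [Field F] [Algebra k F]

/-- numerical part: coprime exponents with `x ^ β = y ^ α` -/
theorem exists_coprime_exp {Γ : Type*} [LinearOrderedCommGroupWithZero Γ] {x y : Γ}
    (hx0 : 0 < x) (hx : x < 1) (hy0 : 0 < y) (hy : y < 1) {m n : ℤ}
    (h : x ^ m * y ^ n = 1) (hmn : ¬(m = 0 ∧ n = 0)) :
    ∃ α β : ℕ, 0 < α ∧ 0 < β ∧ Nat.Coprime α β ∧ x ^ β = y ^ α := by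
  -- reduce to natural exponents
  have key : ∃ M N : ℕ, 0 < M ∧ 0 < N ∧ x ^ M = y ^ N := by
    have hzx : ∀ z : Γ, 0 < z → z < 1 → ∀ j : ℤ, 0 < j → z ^ j < 1 := by
      intro z hz0 hz j hj
      lift j to ℕ using hj.le
      rw [zpow_natCast]
      exact pow_lt_one₀ hz0.le hz (by omega)
    have hle : ∀ z : Γ, 0 < z → z < 1 → ∀ j : ℤ, 0 ≤ j → z ^ j ≤ 1 := by
      intro z hz0 hz j hj
      rcases hj.lt_or_eq with h1 | h1
      · exact (hzx z hz0 hz j h1).le
      · rw [← h1, zpow_zero]
    have hpos : ∀ z : Γ, 0 < z → ∀ j : ℤ, 0 < z ^ j := fun z hz j => zpow_pos hz j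
    have main : ∀ m n : ℤ, x ^ m * y ^ n = 1 → ¬(m = 0 ∧ n = 0) → 0 ≤ m →
        ∃ M N : ℕ, 0 < M ∧ 0 < N ∧ x ^ M = y ^ N := by
      intro m n h hmn hm
      have hn : n < 0 := by
        by_contra hn
        push Not at hn
        have h1 := hle x hx0 hx m hm
        have h2 := hle y hy0 hy n hn
        rcases hm.lt_or_eq with h3 | h3
        · have h4 := hzx x hx0 hx m h3
          have : x ^ m * y ^ n < 1 := by
            calc x ^ m * y ^ n ≤ x ^ m * 1 := mul_le_mul_right h2 _
              _ = x ^ m := mul_one _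
              _ < 1 := h4
          exact absurd h this.ne
        · rcases hn.lt_or_eq with h5 | h5
          · have h4 := hzx y hy0 hy n h5
            rw [← h3, zpow_zero, one_mul] at h
            exact absurd h h4.ne
          · exact hmn ⟨h3.symm, h5.symm⟩
      have hm' : 0 < m := by
        rcases hm.lt_or_eq with h3 | h3
        · exact h3
        · exfalso
          rw [← h3, zpow_zero, one_mul] at h
          have h4 := hzx y hy0 hy (-n) (by omega)
          rw [zpow_neg, h, inv_one] at h4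
          exact lt_irrefl _ h4
      refine ⟨m.toNat, (-n).toNat, by omega, by omega, ?_⟩
      have e1 : x ^ m.toNat = x ^ m := by
        rw [← zpow_natCast, Int.toNat_of_nonneg hm]
      have e2 : y ^ (-n).toNat = y ^ (-n) := by
        rw [← zpow_natCast, Int.toNat_of_nonneg (by omega)]
      rw [e1, e2, zpow_neg]
      exact eq_inv_of_mul_eq_one_left h
    rcases le_total 0 m with hm | hm
    · exact main m n h hmn hm
    · refine main (-m) (-n) ?_ (by omega) (by omega)
      rw [zpow_neg, zpow_neg, ← mul_inv, h, inv_one]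
  obtain ⟨M, N, hM, hN, hMN⟩ := key
  have hg : 0 < Nat.gcd N M := Nat.gcd_pos_of_pos_left _ hN
  refine ⟨N / Nat.gcd N M, M / Nat.gcd N M, Nat.div_pos (Nat.gcd_le_left _ hN) hg,
    Nat.div_pos (Nat.gcd_le_right _ hM) hg, Nat.coprime_div_gcd_div_gcd hg, ?_⟩
  refine (pow_left_inj₀ (pow_pos hx0 _).le (pow_pos hy0 _).le hg.ne').1 ?_
  rw [← pow_mul, ← pow_mul, Nat.div_mul_cancel (Nat.gcd_dvd_right _ _),
    Nat.div_mul_cancel (Nat.gcd_dvd_left _ _), hMN]

/-- numerical part: the unimodular matrix -/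
theorem exists_ab {α β : ℕ} (hα : 0 < α) (hβ : 0 < β) (h : Nat.Coprime α β) :
    ∃ a b : ℕ, α * b = β * a + 1 ∧ (α = 1 → a = 0 ∧ b = 1) := by
  by_cases h1 : α = 1
  · exact ⟨0, 1, by simp [h1], fun _ => ⟨rfl, rfl⟩⟩
  · by_cases h2 : β = 1
    · refine ⟨α - 1, 1, ?_, fun h => absurd h h1⟩
      rw [h2]; omega
    · obtain ⟨m, -, hm⟩ := Nat.exists_mul_mod_eq_one_of_coprime h (by omega)
      refine ⟨α * m / β, m, ?_, fun h => absurd h h1⟩
      have := Nat.div_add_mod (α * m) β
      rw [hm] at this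
      exact this.symm

theorem step_cases {O : ValuationSubring F} (hO : ∀ c : k, algebraMap k F c ∈ O)
    (htr : Algebra.trdeg k F = 2) {u v : F} (h : Stg k O u v) :
    Indep O u v ∨ (∃ U θ, Tr k O U θ) ∨
      ∃ (U W : F) (α β a b : ℕ) (c : k), StepTo k O u v U W α β a b c := by
  by_cases hI : Indep O u v
  · exact Or.inl hI
  right
  unfold Indep at hI
  push Not at hI
  obtain ⟨m, n, hmn, hne⟩ := hI
  have hu0 : 0 < O.valuation u := by
    rw [zero_lt_iff]; exact (Valuation.ne_zero_iff _).2 h.u0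
  have hv0 : 0 < O.valuation v := by
    rw [zero_lt_iff]; exact (Valuation.ne_zero_iff _).2 h.v0
  obtain ⟨α, β, hα, hβ, hcop, hval⟩ := exists_coprime_exp hu0 h.hu hv0 h.hv hmn
    (fun h' => hne h'.1 h'.2)
  obtain ⟨a, b, hab, hone⟩ := exists_ab hα hβ hcop
  set θ : F := v ^ α / u ^ β with hθ
  set U : F := u ^ b / v ^ a with hU
  have hu := h.u0
  have hv := h.v0
  have eu : u = U ^ α * θ ^ a := by
    rw [hU, hθ, div_pow, div_pow, ← pow_mul, ← pow_mul, ← pow_mul, ← pow_mul, div_mul_div_comm,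
      eq_div_iff (by positivity)]
    have : b * α = β * a + 1 := by rw [mul_comm]; exact hab
    rw [this, pow_succ, mul_comm α a]
    ring
  have ev : v = U ^ β * θ ^ b := by
    rw [hU, hθ, div_pow, div_pow, ← pow_mul, ← pow_mul, ← pow_mul, ← pow_mul, div_mul_div_comm,
      eq_div_iff (by positivity)]
    rw [hab, pow_succ, mul_comm β a, mul_comm b β]
    ring
  have hθv : O.valuation θ = 1 := by
    rw [hθ, map_div₀, map_pow, map_pow, hval]
    exact div_self (pow_pos hv0 _).ne'
  have hU0 : U ≠ 0 := div_ne_zero (pow_ne_zero _ hu) (pow_ne_zero _ hv)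
  have hUv : O.valuation U < 1 := by
    by_contra hge
    push Not at hge
    have h1 : O.valuation u = O.valuation U ^ α := by
      conv_lhs => rw [eu]
      rw [map_mul, map_pow, map_pow, hθv, one_pow, mul_one]
    have h2 : 1 ≤ O.valuation U ^ α := one_le_pow₀ hge
    rw [← h1] at h2
    exact absurd h.hu (not_lt.2 h2)
  -- generation
  have gen' : ∀ (K : IntermediateField k F), U ∈ K → θ ∈ K → K = ⊤ := by
    intro K h1 h2
    have hle : IntermediateField.adjoin k {u, v} ≤ K := by
      rw [IntermediateField.adjoin_le_iff]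
      intro x hx
      rcases hx with hx | hx
      · rw [hx, eu]; exact K.mul_mem (pow_mem h1 _) (pow_mem h2 _)
      · rw [Set.mem_singleton_iff.1 hx, ev]; exact K.mul_mem (pow_mem h1 _) (pow_mem h2 _)
    rw [h.gen] at hle
    exact top_le_iff.1 hle
  have memU : ∀ y : F, U ∈ IntermediateField.adjoin k ({U, y} : Set F) := fun y =>
    IntermediateField.subset_adjoin k _ (by simp)
  have memy : ∀ y : F, y ∈ IntermediateField.adjoin k ({U, y} : Set F) := fun y =>
    IntermediateField.subset_adjoin k _ (by simp)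
  have hθO : θ ∈ O := by
    rw [← O.valuation_le_one_iff]; exact hθv.le
  rcases residue_cases hO hθO with hq | ⟨c, hc⟩
  · left
    exact ⟨U, θ, gen' _ (memU θ) (memy θ), hU0, hUv, hq⟩
  · right
    set W : F := θ - algebraMap k F c with hW
    have hWc : W + algebraMap k F c = θ := by rw [hW]; ring
    have genW : IntermediateField.adjoin k {U, W} = ⊤ := by
      refine gen' _ (memU W) ?_
      rw [← hWc]
      exact add_mem (memy W) (IntermediateField.algebraMap_mem _ c)
    have hc0 : c ≠ 0 := by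
      intro h0
      rw [hW, h0, map_zero, sub_zero, hθv] at hc
      exact lt_irrefl _ hc
    have hW0 : W ≠ 0 := by
      intro h0
      have hinj := aeval_inj genW htr
      have h1 : aeval ![U, W] (X 1 : MvPolynomial (Fin 2) k) = aeval ![U, W] (0 : MvPolynomial (Fin 2) k) := by
        rw [aeval_X, map_zero]; simpa using h0
      exact (X_ne_zero (R := k) (1 : Fin 2)) (hinj h1)
    refine ⟨U, W, α, β, a, b, c, hα, hβ, hab, hone, hc0, ?_, ?_, genW, hU0, hW0, hUv, hc⟩
    · rw [hWc]; exact eu
    · rw [hWc]; exact ev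

end LS
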