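import Pool.Agent.helper90.LS.ARed
import Pool.Agent.helper90.LS.Face
import Pool.Agent.helper90.LS.Step

/-! # LUS-AProc: the process, Artin-Schreier version -/

open MvPolynomial

namespace LS

open LU

universe u

section poly

variable {k : Type u} [Field k]

/-- coefficients of `X 0 * pderiv 0 G` -/
theorem AProc_coeff0 (G : MvPolynomial (Fin 2) k) (m : Fin 2 →₀ ℕ) :
    coeff m (X 0 * pderiv 0 G) = coeff m G * (m 0 : k) := by
  classical
  rw [coeff_X_mul']
  by_cases h : (0 : Fin 2) ∈ m.support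
  · rw [if_pos h, coeff_pderiv]
    have h0 : m 0 ≠ 0 := Finsupp.mem_support_iff.1 h
    have h2 : m - Finsupp.single 0 1 + Finsupp.single 0 1 = m := by
      apply Face_ext
      · simp
        omega
      · simp
    have h3 : (m - Finsupp.single 0 1 : Fin 2 →₀ ℕ) 0 + 1 = m 0 := by
      simp
      omega
    rw [h2, ← h3]
    push_cast
    rfl
  · rw [if_neg h]
    have h0 : m 0 = 0 := by simpa using h
    rw [h0]
    simp

theorem AProc_coeff1 (G : MvPolynomial (Fin 2) k) (m : Fin 2 →₀ ℕ) :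
    coeff m (pderiv 1 G) = coeff (Face_pt (m 0) (m 1 + 1)) G * ((m 1 + 1 : ℕ) : k) := by
  rw [coeff_pderiv]
  have h : m + Finsupp.single 1 1 = Face_pt (m 0) (m 1 + 1) := by
    apply Face_ext
    · rw [Face_pt0]
      simp
    · rw [Face_pt1]
      simp
  rw [h]
  push_cast
  rfl

theorem AProc_mem_SD {p : ℕ} [CharP k p] {G : MvPolynomial (Fin 2) k} {m : Fin 2 →₀ ℕ} :
    m ∈ SD G ↔ (coeff m G ≠ 0 ∧ ¬ p ∣ m 0) ∨
      (coeff (Face_pt (m 0) (m 1 + 1)) G ≠ 0 ∧ ¬ p ∣ m 1 + 1) := by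
  rw [Face_mem_SD, mem_support_iff, mem_support_iff, AProc_coeff0, AProc_coeff1, mul_ne_zero_iff,
    mul_ne_zero_iff, Ne, Ne, Ne, Ne, CharP.cast_eq_zero_iff k p, CharP.cast_eq_zero_iff k p]

/-- a point of the support which is not a `p`-th power gives a weight -/
theorem AProc_weight {p : ℕ} [CharP k p] {G : MvPolynomial (Fin 2) k} {m : Fin 2 →₀ ℕ}
    (hm : m ∈ G.support) (hp : ¬ (p ∣ m 0 ∧ p ∣ m 1)) :
    m ∈ (X 0 * pderiv 0 G).support ∨ m ∈ (X 1 * pderiv 1 G).support := by
  rw [mem_support_iff] at hm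
  by_cases h0 : p ∣ m 0
  · right
    have h1 : ¬ p ∣ m 1 := fun h => hp ⟨h0, h⟩
    have h2 : 1 ≤ m 1 := by
      rcases Nat.eq_zero_or_pos (m 1) with h | h
      · exact absurd (h ▸ dvd_zero p) h1
      · exact h
    have h3 : Face_pt (m 0) (m 1 - 1) ∈ (pderiv 1 G).support := by
      rw [mem_support_iff, AProc_coeff1, Face_pt0, Face_pt1, Nat.sub_add_cancel h2, Face_eta]
      refine mul_ne_zero hm ?_
      rw [Ne, CharP.cast_eq_zero_iff k p]
      exact h1
    have h4 := Face_mem_B h3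
    rw [Face_pt0, Face_pt1, Nat.sub_add_cancel h2, Face_eta] at h4
    exact h4
  · left
    rw [mem_support_iff, AProc_coeff0]
    refine mul_ne_zero hm ?_
    rw [Ne, CharP.cast_eq_zero_iff k p]
    exact h0

/-- a point of `SD G` lies in the row of a point of the support -/
theorem AProc_row {p : ℕ} [CharP k p] {G : MvPolynomial (Fin 2) k} {m : Fin 2 →₀ ℕ}
    (hm : m ∈ SD G) : ∃ m' ∈ G.support, m' 0 = m 0 := by
  rcases (AProc_mem_SD (p := p)).1 hm with h | h
  · exact ⟨m, mem_support_iff.2 h.1, rfl⟩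
  · exact ⟨_, mem_support_iff.2 h.1, Face_pt0 _ _⟩

theorem AProc_nu_empty : nu (∅ : Finset (Fin 2 →₀ ℕ)) = 0 := by
  simp [nu]

/-- sets with the same lowest row -/
theorem AProc_same {S S' : Finset (Fin 2 →₀ ℕ)} (hS : S.Nonempty)
    (h1 : ∀ m ∈ S', lo S ≤ m 0) (h2 : ∀ m : Fin 2 →₀ ℕ, m 0 = lo S → (m ∈ S' ↔ m ∈ S)) :
    lo S' = lo S ∧ nu S' = nu S := by
  obtain ⟨m, hm, hm0, hm1⟩ := Face_nu_mem hS
  have hm' : m ∈ S' := (h2 m hm0).2 hm
  have hlo : lo S' = lo S := by
    apply le_antisymm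
    · rw [← hm0]
      exact Face_lo_le hm'
    · obtain ⟨m2, hm2, hm20⟩ := Face_lo_mem ⟨m, hm'⟩
      rw [← hm20]
      exact h1 m2 hm2
  refine ⟨hlo, le_antisymm ?_ ?_⟩
  · rw [← hm1]
    exact Face_nu_le hm' (by rw [hlo, hm0])
  · obtain ⟨m2, hm2, hm20, hm21⟩ := Face_nu_mem (S := S') ⟨m, hm'⟩
    rw [← hm21]
    rw [hlo] at hm20
    exact Face_nu_le ((h2 m2 hm20).1 hm2) hm20

/-- the rows of `sb G` below the pole order -/
theorem AProc_low {p : ℕ} [CharP k p] {α β a b : ℕ} (hα : 0 < α) (hab : α * b = β * a + 1) {c : k}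
    (hc : c ≠ 0) {M : ℕ} {G : MvPolynomial (Fin 2) k} (hG : Red p M G) (hne : (SD G).Nonempty) :
    ∀ m ∈ (sb α β a b c G).support, m 0 < p * (α * M) → lo (SD (sb α β a b c G)) ≤ m 0 := by
  intro m hm hlt
  obtain ⟨m', hm', hw⟩ := (Face_row_sb_ne hα hab c G (m 0)).1 ((Face_row_ne _ _).2 ⟨m, hm, rfl⟩)
  have hp : ¬ (p ∣ m' 0 ∧ p ∣ m' 1) := by
    rintro ⟨h0, h1⟩
    have h2 := hG m' hm' h0 h1
    have h3 : α * (p * M) ≤ α * m' 0 := Nat.mul_le_mul_left _ h2
    have h4 : α * (p * M) = p * (α * M) := by ring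
    omega
  rw [← hw]
  exact (Face_core hα hab hc hne).2.2.1 m' (AProc_weight (p := p) hm' hp)

theorem AProc_const_sb {α β a b : ℕ} (hα : 0 < α) (hβ : 0 < β) (c : k)
    (h : MvPolynomial (Fin 2) k) : coeff 0 (sb α β a b c h) = coeff 0 h := by
  have key : (constantCoeff (R := k) (σ := Fin 2)).comp (sb α β a b c).toRingHom =
      constantCoeff := by
    refine MvPolynomial.ringHom_ext (fun r => ?_) (fun i => ?_)
    · have h1 : sb α β a b c (C r) = C r := AlgHom.commutes _ _
      simp [h1]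
    · fin_cases i
      · simp [Face_sb_X0, hα.ne']
      · simp [Face_sb_X1, hβ.ne']
  have := RingHom.congr_fun key h
  simpa [constantCoeff_eq] using this

end poly

variable {k : Type u} {F : Type u} [Field k] [IsAlgClosed k] [Field F] [Algebra k F]

/-- the conclusion of the process -/
def AProc_Concl (p : ℕ) (Q : Prop) (O : ValuationSubring F) (u v g : F)
    (f : MvPolynomial (Fin 2) k) : Prop :=
  Q ∨ ∃ (u' v' g' A : F) (M' : ℕ) (h' G' f' : MvPolynomial (Fin 2) k), Stg k O u' v' ∧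
      g = A ^ p - A + g' ∧ coeff 0 h' ≠ 0 ∧
      g' * (u' ^ M' * aeval ![u', v'] h') ^ p = aeval ![u', v'] G' ∧
      Red p M' G' ∧ (nu (SD G') = 0 ∨ p * M' ≤ lo (SD G')) ∧
      f' ≠ 0 ∧ nu f'.support = 0 ∧
      ∀ q : MvPolynomial (Fin 2) k, q ∣ f → ∃ q', q' ∣ f' ∧
        aeval ![u', v'] q' = aeval ![u, v] q

omit [IsAlgClosed k] in
theorem AProc_trans {p : ℕ} [Fact p.Prime] [CharP k p] {Q : Prop} {O : ValuationSubring F}
    {u v g g₁ A : F} {f : MvPolynomial (Fin 2) k} (hg : g = A ^ p - A + g₁)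
    (h : AProc_Concl p Q O u v g₁ f) : AProc_Concl p Q O u v g f := by
  have hF : CharP F p := charP_of_injective_algebraMap (algebraMap k F).injective p
  have hE : ExpChar F p := ExpChar.prime (Fact.out : p.Prime)
  rcases h with h | ⟨u', v', g', A', M', h', G', f', h1, h2, h3⟩
  · exact Or.inl h
  · refine Or.inr ⟨u', v', g', A + A', M', h', G', f', h1, ?_, h3⟩
    rw [hg, h2, add_pow_expChar]
    ring

omit [IsAlgClosed k] in
theorem AProc_comp {p : ℕ} {Q : Prop} {O : ValuationSubring F} {u v U W g : F}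
    {α β a b : ℕ} {c : k} {f : MvPolynomial (Fin 2) k} (hst : StepTo k O u v U W α β a b c)
    (h : AProc_Concl p Q O U W g (sb α β a b c f)) : AProc_Concl p Q O u v g f := by
  rcases h with h | ⟨u', v', g', A', M', h', G', f', h1, h2, h3, h4, h5, h6, h7, h8, h9⟩
  · exact Or.inl h
  · refine Or.inr ⟨u', v', g', A', M', h', G', f', h1, h2, h3, h4, h5, h6, h7, h8, ?_⟩
    intro q hq
    obtain ⟨q', hq', hq''⟩ := h9 (sb α β a b c q) (map_dvd _ hq)
    exact ⟨q', hq', by rw [hq'', aeval_sb hst]⟩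

/-- the reduction in `F` -/
theorem AProc_red (p : ℕ) [Fact p.Prime] [CharP k p] {O : ValuationSubring F}
    (htr : Algebra.trdeg k F = 2) {u v : F} (hs : Stg k O u v) (g : F) (M ω : ℕ)
    (h G : MvPolynomial (Fin 2) k) (hh : coeff 0 h ≠ 0)
    (hg : g * (u ^ M * aeval ![u, v] h) ^ p = aeval ![u, v] G)
    (hG : ∀ m ∈ G.support, m 0 < p * M → ω ≤ m 0) :
    ∃ (A g' : F) (G' : MvPolynomial (Fin 2) k), g = A ^ p - A + g' ∧
      g' * (u ^ M * aeval ![u, v] h) ^ p = aeval ![u, v] G' ∧ Red p M G' ∧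
      (∀ m ∈ G'.support, m 0 < p * M → ω ≤ m 0) ∧
      ∀ m : Fin 2 →₀ ℕ, m 0 ≤ ω → m 0 < p * M → ¬ (p ∣ m 0 ∧ p ∣ m 1) →
        coeff m G' = coeff m G := by
  obtain ⟨A, G', h1, h2, h3, h4⟩ := a_red p M ω h G hG
  have hp : p.Prime := Fact.out
  have hh0 : h ≠ 0 := by
    rintro rfl
    exact hh (by simp)
  have hq0 : u ^ M * aeval ![u, v] h ≠ 0 := by
    refine mul_ne_zero (pow_ne_zero _ hs.u0) ?_
    intro h0
    apply hh0
    apply aeval_inj hs.gen htr
    rw [h0, map_zero]
  obtain ⟨q, hq⟩ : ∃ q, q = u ^ M * aeval ![u, v] h := ⟨_, rfl⟩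
  rw [← hq] at hq0 hg ⊢
  obtain ⟨a, ha⟩ : ∃ a, a = aeval ![u, v] A := ⟨_, rfl⟩
  have h5 : aeval ![u, v] G = a ^ p - a * q ^ (p - 1) + aeval ![u, v] G' := by
    conv_lhs => rw [h1]
    rw [map_add, map_sub, map_pow, map_mul, map_pow, map_mul, map_pow, aeval_X, ← ha, hq]
    rfl
  refine ⟨a / q, g - ((a / q) ^ p - a / q), G', by ring, ?_, h2, h3, h4⟩
  have h6 : q ^ p = q ^ (p - 1) * q := by
    rw [← pow_succ, Nat.sub_add_cancel hp.one_le]
  have h7 : (a / q) ^ p * q ^ p = a ^ p := by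
    rw [div_pow, div_mul_cancel₀ _ (pow_ne_zero _ hq0)]
  have h8 : a / q * q ^ p = a * q ^ (p - 1) := by
    rw [h6]
    field_simp
  rw [sub_mul, sub_mul, hg, h7, h8, h5]
  ring

theorem AProc_main (p : ℕ) [Fact p.Prime] [CharP k p] {Q : Prop} {O : ValuationSubring F}
    (hO : ∀ c : k, algebraMap k F c ∈ O) (htr : Algebra.trdeg k F = 2)
    (hR : ∀ u v : F, Stg k O u v → Indep O u v → Q)
    (hB : ∀ U θ : F, Tr k O U θ → Q) (μ : ℕ) :
    ∀ (N : ℕ) (u v g : F) (M : ℕ) (h G f : MvPolynomial (Fin 2) k), Stg k O u v →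
      coeff 0 h ≠ 0 → g * (u ^ M * aeval ![u, v] h) ^ p = aeval ![u, v] G → Red p M G →
      f ≠ 0 → nu f.support = 0 → nu (SD G) = μ → p * M - lo (SD G) = N →
      AProc_Concl p Q O u v g f := by
  have hp : p.Prime := Fact.out
  induction μ using Nat.strong_induction_on with
  | _ μ ihμ =>
  intro N
  induction N using Nat.strong_induction_on with
  | _ N ihN =>
  intro u v g M h G f hs hh hg hRd hf hν hμ hN
  by_cases hfin : nu (SD G) = 0 ∨ p * M ≤ lo (SD G)
  · refine Or.inr ⟨u, v, g, 0, M, h, G, f, hs, ?_, hh, hg, hRd, hfin, hf, hν,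
      fun q hq => ⟨q, hq, rfl⟩⟩
    rw [zero_pow hp.ne_zero]
    ring
  · rw [not_or, not_le] at hfin
    obtain ⟨hmu0, hlo⟩ := hfin
    have hne : (SD G).Nonempty := by
      rw [Finset.nonempty_iff_ne_empty]
      intro he
      rw [he, AProc_nu_empty] at hmu0
      exact hmu0 rfl
    rcases step_cases hO htr hs with hi | ⟨U, θ, hT⟩ | ⟨U, W, α, β, a, b, c, hst⟩
    · exact Or.inl (hR u v hs hi)
    · exact Or.inl (hB U θ hT)
    · refine AProc_comp hst ?_
      obtain ⟨hg1, hg2⟩ := face_g (a := a) (b := b) hst.hα hst.hβ hst.hab hst.hc hne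
      obtain ⟨hf1, hf2⟩ := face_f (a := a) (b := b) hst.hα hst.hβ hst.hab hst.hc hf
      have hf3 : nu (sb α β a b c f).support = 0 := by
        rw [hν] at hf2
        exact (Nat.mul_eq_zero.1 (Nat.le_zero.1 hf2)).resolve_left hst.hα.ne'
      -- the new denominator
      obtain ⟨h1, hh1⟩ : ∃ h1, h1 = (X 1 + C c) ^ (a * M) * sb α β a b c h := ⟨_, rfl⟩
      have hc1 : coeff 0 h1 ≠ 0 := by
        have e1 : coeff 0 h1 = constantCoeff h1 := rfl
        rw [e1, hh1, map_mul, map_pow, map_add, constantCoeff_X, constantCoeff_C, zero_add]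
        refine mul_ne_zero (pow_ne_zero _ hst.hc) ?_
        have e2 : constantCoeff (sb α β a b c h) = coeff 0 (sb α β a b c h) := rfl
        rw [e2, AProc_const_sb hst.hα hst.hβ]
        exact hh
      have hq1 : U ^ (α * M) * aeval ![U, W] h1 = u ^ M * aeval ![u, v] h := by
        have e3 : u ^ M = U ^ (α * M) * (W + algebraMap k F c) ^ (a * M) := by
          rw [hst.hu, mul_pow, ← pow_mul, ← pow_mul]
        rw [hh1, map_mul, aeval_sb hst, map_pow, map_add, aeval_X, algHom_C, e3]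
        have e4 : (![U, W] : Fin 2 → F) 1 = W := rfl
        rw [e4]
        ring
      have hg' : g * (U ^ (α * M) * aeval ![U, W] h1) ^ p = aeval ![U, W] (sb α β a b c G) := by
        rw [hq1, aeval_sb hst]
        exact hg
      obtain ⟨A, g', G', e1, e2, e3, e4, e5⟩ := AProc_red p htr hst.stg g (α * M)
        (lo (SD (sb α β a b c G))) h1 (sb α β a b c G) hc1 hg'
        (AProc_low hst.hα hst.hab hst.hc hRd hne)
      refine AProc_trans e1 ?_
      by_cases hω : p * (α * M) ≤ lo (SD (sb α β a b c G))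
      · -- no pole left in the relevant part
        refine Or.inr ⟨U, W, g', 0, α * M, h1, G', sb α β a b c f, hst.stg, ?_, hc1, e2, e3, ?_,
          hf1, hf3, fun q hq => ⟨q, hq, rfl⟩⟩
        · rw [zero_pow hp.ne_zero]
          ring
        · rcases (SD G').eq_empty_or_nonempty with he | he
          · left
            rw [he, AProc_nu_empty]
          · right
            obtain ⟨m, hm, hm0⟩ := Face_lo_mem he
            obtain ⟨m', hm', hm'0⟩ := AProc_row (p := p) hm
            by_contra hlt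
            rw [not_le] at hlt
            have := e4 m' hm' (by omega)
            omega
      · rw [not_le] at hω
        obtain ⟨hl1, hl2⟩ := AProc_same (S' := SD G') hg1
          (by
            intro m hm
            obtain ⟨m', hm', hm'0⟩ := AProc_row (p := p) hm
            rcases lt_or_ge (m' 0) (p * (α * M)) with hlt | hge
            · have := e4 m' hm' hlt
              omega
            · omega)
          (by
            intro m hm
            rw [AProc_mem_SD (p := p), AProc_mem_SD (p := p)]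
            have hA : ¬ p ∣ m 0 → coeff m G' = coeff m (sb α β a b c G) := fun hnd =>
              e5 m hm.le (by omega) (fun hd => hnd hd.1)
            have hBc : ¬ p ∣ m 1 + 1 → coeff (Face_pt (m 0) (m 1 + 1)) G' =
                coeff (Face_pt (m 0) (m 1 + 1)) (sb α β a b c G) := fun hnd =>
              e5 _ (by rw [Face_pt0]; exact hm.le) (by rw [Face_pt0]; omega)
                (fun hd => hnd (by have := hd.2; rwa [Face_pt1] at this))
            constructor
            · rintro (⟨h1, h2⟩ | ⟨h1, h2⟩)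
              · exact Or.inl ⟨by rw [← hA h2]; exact h1, h2⟩
              · exact Or.inr ⟨by rw [← hBc h2]; exact h1, h2⟩
            · rintro (⟨h1, h2⟩ | ⟨h1, h2⟩)
              · exact Or.inl ⟨by rw [hA h2]; exact h1, h2⟩
              · exact Or.inr ⟨by rw [hBc h2]; exact h1, h2⟩)
        by_cases hlt : nu (SD (sb α β a b c G)) < μ
        · exact ihμ _ hlt _ U W g' (α * M) h1 G' (sb α β a b c f) hst.stg hc1 e2 e3 hf1 hf3 hl2 rfl
        · have hle : μ ≤ nu (SD (sb α β a b c G)) := not_lt.mp hlt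
          have hα1 : α = 1 := by
            have hα := hst.hα
            rw [hμ] at hg2
            by_contra hne1
            have h2 : 2 ≤ α := by omega
            have : 2 * μ ≤ α * nu (SD (sb α β a b c G)) := Nat.mul_le_mul h2 hle
            omega
          subst hα1
          obtain ⟨ha, hb⟩ := hst.one rfl
          subst ha hb
          have he : nu (SD (sb 1 β 0 1 c G)) = nu (SD G) := by
            rw [one_mul] at hg2
            omega
          have hF := face_g1 hst.hβ hst.hc hne (by omega) he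
          have hlo2 : lo (SD G) + 1 ≤ lo (SD (sb 1 β 0 1 c G)) := by
            rcases hF with hF | hF
            · omega
            · exact hF.2
          rw [one_mul] at hω
          refine ihN (p * (1 * M) - lo (SD G')) ?_ U W g' (1 * M) h1 G' (sb 1 β 0 1 c f) hst.stg
            hc1 e2 e3 hf1 hf3 (by rw [hl2, he, hμ]) rfl
          rw [hl1, one_mul]
          omega

theorem as_proc (p : ℕ) [Fact p.Prime] [CharP k p] {Q : Prop} {O : ValuationSubring F}
    (hO : ∀ c : k, algebraMap k F c ∈ O) (htr : Algebra.trdeg k F = 2)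
    (hR : ∀ u v : F, Stg k O u v → Indep O u v → Q)
    (hB : ∀ U θ : F, Tr k O U θ → Q)
    {u v : F} (hs : Stg k O u v) (g : F) (M : ℕ) (h G f : MvPolynomial (Fin 2) k)
    (hh : coeff 0 h ≠ 0) (hg : g * (u ^ M * aeval ![u, v] h) ^ p = aeval ![u, v] G)
    (hf : f ≠ 0) (hν : nu f.support = 0) :
    Q ∨ ∃ (u' v' g' A : F) (M' : ℕ) (h' G' f' : MvPolynomial (Fin 2) k), Stg k O u' v' ∧
      g = A ^ p - A + g' ∧ coeff 0 h' ≠ 0 ∧
      g' * (u' ^ M' * aeval ![u', v'] h') ^ p = aeval ![u', v'] G' ∧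
      Red p M' G' ∧ (nu (SD G') = 0 ∨ p * M' ≤ lo (SD G')) ∧
      f' ≠ 0 ∧ nu f'.support = 0 ∧
      ∀ q : MvPolynomial (Fin 2) k, q ∣ f → ∃ q', q' ∣ f' ∧
        aeval ![u', v'] q' = aeval ![u, v] q := by
  obtain ⟨A, g', G', e1, e2, e3, -, -⟩ := AProc_red p htr hs g M 0 h G hh hg
    (fun m _ _ => Nat.zero_le _)
  exact AProc_trans (Q := Q) (O := O) e1
    (AProc_main p hO htr hR hB _ _ u v g' M h G' f hs hh e2 e3 hf hν rfl rfl)

end LS
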