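import Pool.Agent.helper90.LS.Basic

/-! # LUS-CaseA: the trivial valuation; the exceptional axis -/

open MvPolynomial

namespace LS

open LU

universe u

variable {k : Type u} {F : Type u} [Field k] [IsAlgClosed k] [Field F] [Algebra k F]

/-- over an algebraically closed field of characteristic `p` a polynomial with vanishing
derivatives is a `p`-th power -/
theorem CaseA_pow (p : ℕ) [Fact p.Prime] [CharP k p] (G : MvPolynomial (Fin 2) k)
    (h : ∀ i, pderiv i G = 0) : ∃ A : MvPolynomial (Fin 2) k, G = A ^ p := by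
  classical
  have hp : 0 < p := (Fact.out : p.Prime).pos
  have hs : ∀ m ∈ G.support, ∀ i, p ∣ m i := by
    intro m hm i
    by_contra hpi
    have hmi : m i ≠ 0 := fun h0 => hpi (h0 ▸ dvd_zero p)
    have h1 := congrArg (coeff (m - Finsupp.single i 1)) (h i)
    rw [coeff_pderiv, coeff_zero] at h1
    have h2 : m - Finsupp.single i 1 + Finsupp.single i 1 = m := by
      ext j
      simp only [Finsupp.add_apply, Finsupp.tsub_apply, Finsupp.single_apply]
      split_ifs with hij
      · subst hij; omega
      · simp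
    have h3 : (((m - Finsupp.single i 1 : Fin 2 →₀ ℕ) i : ℕ) : k) + 1 = (m i : k) := by
      have : (m - Finsupp.single i 1 : Fin 2 →₀ ℕ) i + 1 = m i := by
        rw [Finsupp.tsub_apply, Finsupp.single_eq_same]; omega
      exact_mod_cast congrArg (Nat.cast : ℕ → k) this
    rw [h2, h3] at h1
    rcases mul_eq_zero.1 h1 with h4 | h4
    · exact (mem_support_iff.1 hm) h4
    · exact hpi ((CharP.cast_eq_zero_iff k p (m i)).1 h4)
  have hr : ∀ m : Fin 2 →₀ ℕ, ∃ r : k, r ^ p = coeff m G := fun m =>
    IsAlgClosed.exists_pow_nat_eq _ hp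
  choose r hr using hr
  refine ⟨∑ m ∈ G.support, monomial (m.mapRange (· / p) (Nat.zero_div p)) (r m), ?_⟩
  rw [sum_pow_char]
  conv_lhs => rw [G.as_sum]
  refine Finset.sum_congr rfl fun m hm => ?_
  have he : p • (m.mapRange (· / p) (Nat.zero_div p)) = m := by
    ext i
    rw [Finsupp.smul_apply, Finsupp.mapRange_apply, smul_eq_mul, Nat.mul_div_cancel' (hs m hm i)]
  rw [monomial_pow, hr, he]

omit [IsAlgClosed k] in
theorem CaseA_nf (p : ℕ) [Fact p.Prime] [CharP k p] {O : ValuationSubring F}
    {x y : F} (hgen : IntermediateField.adjoin k {x, y} = ⊤)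
    (hc : ∀ h : MvPolynomial (Fin 2) k, h ≠ 0 → O.valuation (aeval ![x, y] h) = 1)
    (H : Finset F) (u : Fin 2 → F) :
    ∀ h ∈ H, h ≠ 0 → ∃ (e : Fin 2 → ℤ) (ρ : F), h = mon u e * ρ ∧
      ULoc k O (Sum.elim u ![x, y]) ρ := by
  intro h _ h0
  refine ⟨0, h, by simp [mon], ?_⟩
  refine ULoc.comp (z' := ![x, y]) Sum.inr (fun t => rfl) ?_
  obtain ⟨N, D, hD, rfl⟩ := exists_frac hgen h
  have hD0 : D ≠ 0 := by rintro rfl; exact hD (map_zero _)
  have hN0 : N ≠ 0 := by rintro rfl; exact h0 (by simp)
  exact ⟨N, D, hc N hN0, hc D hD0, rfl⟩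

theorem case_a (p : ℕ) [Fact p.Prime] [CharP k p] {O : ValuationSubring F}
    (hO : ∀ c : k, algebraMap k F c ∈ O) (htr : Algebra.trdeg k F = 2) {x y : F}
    (hgen : IntermediateField.adjoin k {x, y} = ⊤)
    (hc : ∀ h : MvPolynomial (Fin 2) k, h ≠ 0 → O.valuation (aeval ![x, y] h) = 1)
    (g : F) (H : Finset F) : HasNF k p 2 O g H := by
  classical
  have hprime : p.Prime := Fact.out
  -- values of the coordinates
  have hw : ∀ i : Fin 2, O.valuation ((![x, y] : Fin 2 → F) i) = 1 := fun i => by
    have := hc (X i) (X_ne_zero i)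
    rwa [aeval_X] at this
  have hwO : ∀ i : Fin 2, (![x, y] : Fin 2 → F) i ∈ O := fun i =>
    (O.valuation_le_one_iff _).1 (hw i).le
  have hw0 : ∀ i : Fin 2, (![x, y] : Fin 2 → F) i ≠ 0 := fun i => ne_zero_of_val_one (hw i)
  have hgen' : ∀ u : Fin 2 → F,
      IntermediateField.adjoin k (Set.range u ∪ Set.range ![x, y]) = ⊤ := by
    intro u
    rw [eq_top_iff, ← hgen]
    refine IntermediateField.adjoin.mono k _ _ ?_
    rw [← range_pair]
    exact Set.subset_union_right
  obtain ⟨N, D, hD, hg⟩ := exists_frac hgen g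
  have hD0 : D ≠ 0 := by rintro rfl; exact hD (map_zero _)
  set G : MvPolynomial (Fin 2) k := N * D ^ (p - 1) with hG
  by_cases hder : ∀ i, pderiv i G = 0
  · -- `g` is a `p`-th power
    obtain ⟨A, hA⟩ := CaseA_pow p G hder
    refine ⟨![x, y], ![x, y], fun l => X (Sum.inr l) - X (Sum.inl l), ⟨hw0, hwO, hwO, ?_, ?_, hgen' _⟩,
      CaseA_nf p hgen hc H _, aeval ![x, y] A / aeval ![x, y] D, 0, ?_, Or.inl rfl⟩
    · intro l
      simp
    · have : (Matrix.of fun l l' : Fin 2 => aeval (Sum.elim ![x, y] ![x, y])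
          (pderiv (Sum.inr l') (X (Sum.inr l) - X (Sum.inl l) : MvPolynomial (Fin 2 ⊕ Fin 2) k)))
          = (1 : Matrix (Fin 2) (Fin 2) F) := by
        ext l l'
        rw [Matrix.of_apply, map_sub, pderiv_X, pderiv_X, Matrix.one_apply]
        by_cases hl : l = l'
        · subst hl; simp
        · simp [hl]
      rw [this, Matrix.det_one, map_one]
    · rw [add_zero, div_pow, ← map_pow, ← hA, hG, map_mul, map_pow, hg]
      have hp1 : p = (p - 1) + 1 := (Nat.sub_add_cancel hprime.one_le).symm
      rw [hp1, pow_succ, Nat.add_sub_cancel]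
      field_simp
  · push Not at hder
    obtain ⟨l, hl⟩ := hder
    set w : Fin 2 → F := ![x, y] with hwdef
    -- the polynomial `N_l D - N D_l`
    set P : MvPolynomial (Fin 2) k := pderiv l N * D - N * pderiv l D with hP
    have hP0 : P ≠ 0 := by
      intro h0
      apply hl
      have hp2 : p - 1 = (p - 2) + 1 := by have := hprime.two_le; omega
      have hpc : ((p - 1 : ℕ) : MvPolynomial (Fin 2) k) = -1 := by
        have h1 : ((p - 1 : ℕ) : MvPolynomial (Fin 2) k) + 1 = 0 := by
          have : (((p - 1) + 1 : ℕ) : MvPolynomial (Fin 2) k) = 0 := by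
            rw [Nat.sub_add_cancel hprime.one_le]
            exact CharP.cast_eq_zero _ p
          exact_mod_cast this
        exact eq_neg_of_add_eq_zero_left h1
      have h2 : pderiv l G = D ^ (p - 2) * P := by
        rw [hG, Derivation.leibniz, Derivation.leibniz_pow, hP, smul_eq_mul, smul_eq_mul,
          smul_eq_mul, nsmul_eq_mul, hpc, Nat.sub_sub]
        conv_lhs => rw [hp2]
        ring
      rw [h2, h0, mul_zero]
    have hg0 : g ≠ 0 := by
      intro h0
      rw [h0, eq_comm, div_eq_zero_iff] at hg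
      rcases hg with h1 | h1
      · have hN0 : N = 0 := by
          by_contra h2
          exact ne_zero_of_val_one (hc N h2) h1
        apply hP0
        rw [hP, hN0]; simp
      · exact hD h1
    have hgO : O.valuation g = 1 := by
      have hN0 : N ≠ 0 := by rintro rfl; exact hg0 (by rw [hg]; simp)
      rw [hg, map_div₀, hc N hN0, hc D hD0, div_one]
    set v : F := aeval w (pderiv l N) - g * aeval w (pderiv l D) with hv
    have hv1 : O.valuation v = 1 := by
      have h1 : v * aeval w D = aeval w P := by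
        rw [hv, hP, map_sub, map_mul, map_mul, hg]
        field_simp
      have h2 := congrArg O.valuation h1
      rw [map_mul, hc D hD0, mul_one, hc P hP0] at h2
      exact h2
    obtain ⟨l', hl'⟩ : ∃ l' : Fin 2, l' ≠ l := ⟨l + 1, by fin_cases l <;> simp⟩
    set u : Fin 2 → F := ![w l', g] with hu
    have hren : ∀ Q : MvPolynomial (Fin 2) k,
        aeval (Sum.elim u w) (rename Sum.inr Q : MvPolynomial (Fin 2 ⊕ Fin 2) k) = aeval w Q := by
      intro Q
      rw [aeval_rename, Sum.elim_comp_inr]
    have hinj : Function.Injective (Sum.inr : Fin 2 → Fin 2 ⊕ Fin 2) := Sum.inr_injective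
    have hu1 : u 1 = g := rfl
    have hgD : g * aeval w D = aeval w N := by rw [hg, div_mul_cancel₀ _ hD]
    refine ⟨u, w, ![X (Sum.inr l') - X (Sum.inl 0), rename Sum.inr N - X (Sum.inl 1) * rename Sum.inr D],
      ⟨?_, ?_, hwO, ?_, ?_, hgen' _⟩, CaseA_nf p hgen hc H _, 0, g, ?_, Or.inr ?_⟩
    · intro i
      fin_cases i
      · exact hw0 l'
      · exact hg0
    · intro i
      fin_cases i
      · exact hwO l'
      · exact (O.valuation_le_one_iff _).1 hgO.le
    · intro i
      fin_cases i
      · simp [hu]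
      · simp only [Fin.mk_one, Matrix.cons_val_one, Matrix.cons_val_fin_one, map_sub, map_mul,
          aeval_X, hren, Sum.elim_inl, hu1]
        rw [hgD, sub_self]
    · have e0 : ∀ j : Fin 2, aeval (Sum.elim u w) (pderiv (Sum.inr j)
          (X (Sum.inr l') - X (Sum.inl 0) : MvPolynomial (Fin 2 ⊕ Fin 2) k)) =
          if j = l' then 1 else 0 := by
        intro j
        rw [map_sub, pderiv_X, pderiv_X]
        by_cases hj : j = l'
        · subst hj; simp
        · simp [hj, Ne.symm hj]
      have e1 : ∀ j : Fin 2, aeval (Sum.elim u w) (pderiv (Sum.inr j)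
          (rename Sum.inr N - X (Sum.inl 1) * rename Sum.inr D : MvPolynomial (Fin 2 ⊕ Fin 2) k)) =
          aeval w (pderiv j N) - g * aeval w (pderiv j D) := by
        intro j
        rw [map_sub, Derivation.leibniz, pderiv_X, pderiv_rename hinj, pderiv_rename hinj]
        simp [hren, hu1]
      rw [Matrix.det_fin_two]
      simp only [Matrix.of_apply, Matrix.cons_val_zero, Matrix.cons_val_one,
        Matrix.cons_val_fin_one, e0, e1]
      fin_cases l
      · have : l' = 1 := by fin_cases l' <;> simp_all
        subst this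
        simp only [Fin.zero_eta, Fin.isValue, zero_ne_one, if_false, if_true, zero_mul, one_mul,
          zero_sub]
        rw [Valuation.map_neg]
        exact hv1
      · have : l' = 0 := by fin_cases l' <;> simp_all
        subst this
        simp only [Fin.mk_one, Fin.isValue, one_ne_zero, if_false, if_true, zero_mul, one_mul,
          sub_zero]
        exact hv1
    · rw [zero_pow hprime.ne_zero, zero_add]
    · refine ⟨![0, 1], 1, ?_, ULoc.one, 1, ?_, Or.inr rfl⟩
      · simp [mon, hu]
      · simp

/-- the hypothesis of `case_b` for `Tr` -/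
theorem tr_center {O : ValuationSubring F} (hO : ∀ c : k, algebraMap k F c ∈ O) {U θ : F}
    (h : Tr k O U θ) : θ ∈ O ∧ Irreducible (X 0 : MvPolynomial (Fin 2) k) ∧
      ∀ f : MvPolynomial (Fin 2) k, O.valuation (aeval ![U, θ] f) < 1 ↔ X 0 ∣ f := by
  have hθ : O.valuation θ = 1 := by
    have := h.hθ Polynomial.X Polynomial.X_ne_zero
    rwa [Polynomial.aeval_X] at this
  have hθO : θ ∈ O := (O.valuation_le_one_iff _).1 hθ.le
  have hUO : U ∈ O := (O.valuation_le_one_iff _).1 h.hU.le
  have hmem : ∀ f : MvPolynomial (Fin 2) k, O.valuation (aeval ![U, θ] f) ≤ 1 := by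
    intro f
    rw [O.valuation_le_one_iff]
    induction f using MvPolynomial.induction_on with
    | C a => rw [aeval_C]; exact hO a
    | add f g hf hg => rw [map_add]; exact add_mem hf hg
    | mul_X f i hf =>
      rw [map_mul, aeval_X]
      refine mul_mem hf ?_
      fin_cases i
      · exact hUO
      · exact hθO
  refine ⟨hθO, X_prime.irreducible, fun f => ⟨fun hf => ?_, ?_⟩⟩
  · have key : ∀ f : MvPolynomial (Fin 2) k, ∃ g, f = Polynomial.aeval (X 1 : MvPolynomial (Fin 2) k)
        (aeval ![0, Polynomial.X] f : Polynomial k) + X 0 * g := by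
      intro f
      induction f using MvPolynomial.induction_on with
      | C a => exact ⟨0, by simp [algebraMap_eq]⟩
      | add f g hf hg =>
        obtain ⟨a, ha⟩ := hf
        obtain ⟨b, hb⟩ := hg
        refine ⟨a + b, ?_⟩
        rw [map_add, map_add]
        conv_lhs => rw [ha, hb]
        ring
      | mul_X f i hf =>
        obtain ⟨a, ha⟩ := hf
        fin_cases i
        · refine ⟨f, ?_⟩
          simp [mul_comm]
        · refine ⟨a * X 1, ?_⟩
          simp only [Fin.mk_one, map_mul, aeval_X, Matrix.cons_val_one, Matrix.cons_val_fin_one,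
            Polynomial.aeval_X]
          conv_lhs => rw [ha]
          ring
    obtain ⟨g, hg⟩ := key f
    set f0 : Polynomial k := aeval ![0, Polynomial.X] f with hf0
    by_cases h0 : f0 = 0
    · rw [h0, map_zero, zero_add] at hg
      exact ⟨g, hg⟩
    · exfalso
      have h1 : aeval ![U, θ] f = Polynomial.aeval θ f0 + U * aeval ![U, θ] g := by
        conv_lhs => rw [hg]
        rw [map_add, map_mul, aeval_X, ← Polynomial.aeval_algHom_apply, aeval_X]
        rfl
      have h2 := h.hθ f0 h0
      have h3 : O.valuation (U * aeval ![U, θ] g) < 1 := by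
        rw [map_mul]
        exact mul_lt_one_of_lt_of_le h.hU (hmem g)
      rw [h1, Valuation.map_add_eq_of_lt_left _ (by rw [h2]; exact h3), h2] at hf
      exact lt_irrefl _ hf
  · rintro ⟨g, rfl⟩
    rw [map_mul, map_mul, aeval_X]
    exact mul_lt_one_of_lt_of_le h.hU (hmem g)

end LS
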