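import Pool.Agent.helper90.LS.DRecC

/-! # LUS-DRec, auxiliary lemmas: irreducible factors -/

open MvPolynomial

namespace LS

open LU

universe u

namespace DRecB

variable {k : Type u} {F : Type u} [Field k] [IsAlgClosed k] [Field F] [Algebra k F]

open DRecC

theorem exists_factor {O : ValuationSubring F} (hO : ∀ c : k, algebraMap k F c ∈ O) {u v : F}
    (hs : Stg k O u v) {h : MvPolynomial (Fin 2) k} (hh : h ≠ 0)
    (hN : ∀ N : ℕ, O.valuation (aeval ![u, v] h) < O.valuation u ^ N) :
    ∃ f : MvPolynomial (Fin 2) k, Irreducible f ∧ f ∣ h ∧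
      ∀ N : ℕ, O.valuation (aeval ![u, v] f) < O.valuation u ^ N := by
  revert hh hN
  induction h using WfDvdMonoid.induction_on_irreducible with
  | zero => intro hh; exact absurd rfl hh
  | unit q hq =>
    intro _ hN
    exfalso
    obtain ⟨r, hr⟩ := hq.exists_right_inv
    have h2 := congrArg (fun z => O.valuation (aeval ![u, v] z)) hr
    simp only [map_mul, map_one] at h2
    have h3 : O.valuation (aeval ![u, v] q) = 1 := by
      refine le_antisymm (V_poly hO hs.hu.le hs.hv.le _) ?_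
      rw [← h2]
      exact mul_le_of_le_one_right' (V_poly hO hs.hu.le hs.hv.le _)
    have h4 := hN 0
    rw [h3, pow_zero] at h4
    exact lt_irrefl _ h4
  | mul a i ha hi ih =>
    intro _ hN
    by_cases hiN : ∀ N : ℕ, O.valuation (aeval ![u, v] i) < O.valuation u ^ N
    · exact ⟨i, hi, dvd_mul_right _ _, hiN⟩
    · push Not at hiN
      obtain ⟨N0, hN0⟩ := hiN
      obtain ⟨f, h1, h2, h3⟩ := ih ha (fun N => by
        have h4 := hN (N0 + N)
        rw [map_mul, map_mul, pow_add] at h4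
        have h5 : O.valuation u ^ N0 * O.valuation (aeval ![u, v] a) <
            O.valuation u ^ N0 * O.valuation u ^ N :=
          (mul_le_mul_left hN0 _).trans_lt h4
        exact lt_of_mul_lt_mul_left' h5)
      exact ⟨f, h1, h2.mul_left i, h3⟩

theorem pow_of_pderiv (p : ℕ) [Fact p.Prime] [CharP k p] {f : MvPolynomial (Fin 2) k}
    (h0 : pderiv 0 f = 0) (h1 : pderiv 1 f = 0) : ∃ q : MvPolynomial (Fin 2) k, f = q ^ p := by
  classical
  have hp : p.Prime := Fact.out
  have hdvd : ∀ m ∈ f.support, ∀ i : Fin 2, p ∣ m i := by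
    intro m hm i
    have hi : pderiv i f = 0 := by fin_cases i; exacts [h0, h1]
    rcases Nat.eq_zero_or_pos (m i) with h2 | h2
    · rw [h2]; exact dvd_zero _
    · have h3 := coeff_pderiv (i := i) f (m - Finsupp.single i 1)
      rw [hi, coeff_zero] at h3
      have h4 : m - Finsupp.single i 1 + Finsupp.single i 1 = m := by
        ext j
        by_cases hj : j = i
        · subst hj; simp; omega
        · simp [Finsupp.single_eq_of_ne hj]
      rw [h4] at h3
      have h5 : ((m - Finsupp.single i 1 : Fin 2 →₀ ℕ) i : k) + 1 = (m i : k) := by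
        have : (m - Finsupp.single i 1 : Fin 2 →₀ ℕ) i = m i - 1 := by simp
        rw [this, Nat.cast_sub h2]; simp
      rw [h5] at h3
      rcases mul_eq_zero.1 h3.symm with h6 | h6
      · exact absurd h6 (mem_support_iff.1 hm)
      · exact (CharP.cast_eq_zero_iff k p _).1 h6
  choose r hr using fun m : Fin 2 →₀ ℕ => IsAlgClosed.exists_pow_nat_eq (coeff m f) hp.pos
  refine ⟨∑ m ∈ f.support, monomial (m.mapRange (fun n => n / p) (by simp)) (r m), ?_⟩
  have : CharP (MvPolynomial (Fin 2) k) p := inferInstance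
  rw [sum_pow_char]
  conv_lhs => rw [f.as_sum]
  refine Finset.sum_congr rfl fun m hm => ?_
  have e : p • m.mapRange (fun n => n / p) (by simp) = m := by
    ext i
    rw [Finsupp.smul_apply, Finsupp.mapRange_apply, smul_eq_mul]
    exact Nat.mul_div_cancel' (hdvd m hm i)
  rw [monomial_pow, hr, e]

theorem pderiv_eq_zero_of_dvd {f : MvPolynomial (Fin 2) k} (i : Fin 2) (h : f ∣ pderiv i f) :
    pderiv i f = 0 := by
  by_contra hne
  obtain ⟨q, hq⟩ := h
  have hq0 : q ≠ 0 := by rintro rfl; exact hne (by rw [hq, mul_zero])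
  have hf0 : f ≠ 0 := by rintro rfl; exact hne (by simp)
  have h1 : degreeOf i (pderiv i f) = degreeOf i f + degreeOf i q := by
    rw [hq, degreeOf_mul_eq hf0 hq0]
  have hS : (pderiv i f).support.Nonempty := by
    rwa [Finset.nonempty_iff_ne_empty, Ne, support_eq_empty]
  obtain ⟨m, hm, hm'⟩ := Finset.exists_mem_eq_sup _ hS (fun m : Fin 2 →₀ ℕ => m i)
  rw [← degreeOf_eq_sup] at hm'
  rw [mem_support_iff, coeff_pderiv] at hm
  have h2 : m + Finsupp.single i 1 ∈ f.support := mem_support_iff.2 (left_ne_zero_of_mul hm)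
  have h3 : (m + Finsupp.single i 1 : Fin 2 →₀ ℕ) i ≤ degreeOf i f := by
    rw [degreeOf_eq_sup]
    exact Finset.le_sup (f := fun m : Fin 2 →₀ ℕ => m i) h2
  rw [Finsupp.add_apply, Finsupp.single_eq_same] at h3
  omega

theorem not_dvd_both (p : ℕ) [Fact p.Prime] [CharP k p] {f : MvPolynomial (Fin 2) k}
    (hf : Irreducible f) : ¬ (f ∣ pderiv 0 f ∧ f ∣ pderiv 1 f) := by
  rintro ⟨h0, h1⟩
  obtain ⟨q, hq⟩ := pow_of_pderiv p (pderiv_eq_zero_of_dvd 0 h0) (pderiv_eq_zero_of_dvd 1 h1)
  rw [hq] at hf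
  exact not_irreducible_pow (Fact.out : p.Prime).ne_one hf

/-- the prime ideal of the polynomials of infinitely small value -/
def pp (O : ValuationSubring F) {u v : F} (hO : ∀ c : k, algebraMap k F c ∈ O)
    (hs : Stg k O u v) : Ideal (MvPolynomial (Fin 2) k) where
  carrier := {h | ∀ N : ℕ, O.valuation (aeval ![u, v] h) < O.valuation u ^ N}
  zero_mem' := by
    intro N
    rw [map_zero, map_zero]
    exact pow_pos (zero_lt_iff.2 ((Valuation.ne_zero_iff _).2 hs.u0)) N
  add_mem' := by
    intro a b ha hb N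
    rw [map_add]
    exact O.valuation.map_add_lt (ha N) (hb N)
  smul_mem' := by
    intro c a ha N
    rw [smul_eq_mul, map_mul, map_mul]
    exact (mul_le_of_le_one_left' (V_poly hO hs.hu.le hs.hv.le _)).trans_lt (ha N)

theorem mem_pp {O : ValuationSubring F} {u v : F} (hO : ∀ c : k, algebraMap k F c ∈ O)
    (hs : Stg k O u v) (h : MvPolynomial (Fin 2) k) :
    h ∈ pp O hO hs ↔ ∀ N : ℕ, O.valuation (aeval ![u, v] h) < O.valuation u ^ N := Iff.rfl

theorem pp_prime {O : ValuationSubring F} {u v : F} (hO : ∀ c : k, algebraMap k F c ∈ O)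
    (hs : Stg k O u v) : (pp O hO hs).IsPrime := by
  refine ⟨?_, ?_⟩
  · rw [Ne, Ideal.eq_top_iff_one, mem_pp]
    intro h
    have h1 := h 0
    rw [map_one, map_one, pow_zero] at h1
    exact lt_irrefl _ h1
  · intro a b hab
    by_contra hcon
    rw [not_or, mem_pp, mem_pp] at hcon
    push Not at hcon
    obtain ⟨⟨N1, h1⟩, ⟨N2, h2⟩⟩ := hcon
    have h3 := (mem_pp hO hs _).1 hab (N1 + N2)
    rw [map_mul, map_mul, pow_add] at h3
    exact absurd h3 (not_lt.2 (mul_le_mul' h1 h2))

theorem X_sub_notMem {O : ValuationSubring F} {u v : F} (hO : ∀ c : k, algebraMap k F c ∈ O)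
    (hs : Stg k O u v) (a : k) : X 0 - C a ∉ pp O hO hs := by
  rw [mem_pp]
  intro h
  have e : aeval ![u, v] (X 0 - C a : MvPolynomial (Fin 2) k) = u + algebraMap k F (-a) := by
    rw [map_sub, aeval_X, aeval_C, map_neg, ← sub_eq_add_neg]; rfl
  rw [e] at h
  by_cases ha : a = 0
  · have h1 := h 1
    rw [ha, neg_zero, map_zero, add_zero, pow_one] at h1
    exact lt_irrefl _ h1
  · have h1 := h 0
    rw [V_Wc hO (neg_ne_zero.2 ha) hs.hu, pow_zero] at h1
    exact lt_irrefl _ h1

theorem exists_le {O : ValuationSubring F} (hO : ∀ c : k, algebraMap k F c ∈ O) {u v : F}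
    (hs : Stg k O u v) {f : MvPolynomial (Fin 2) k} (hf : Irreducible f)
    (hfN : ∀ N : ℕ, O.valuation (aeval ![u, v] f) < O.valuation u ^ N)
    {P : MvPolynomial (Fin 2) k} (hP : ¬ f ∣ P) :
    ∃ N : ℕ, O.valuation u ^ N ≤ O.valuation (aeval ![u, v] P) := by
  by_contra hcon
  push Not at hcon
  have hPp : P ∈ pp O hO hs := (mem_pp hO hs _).2 hcon
  have hfp : f ∈ pp O hO hs := (mem_pp hO hs _).2 hfN
  have hpr := pp_prime hO hs
  have hI : (Ideal.span {f} : Ideal (MvPolynomial (Fin 2) k)).IsPrime :=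
    (Ideal.span_singleton_prime hf.ne_zero).2 hf.prime
  have hle : Ideal.span {f} ≤ pp O hO hs := by
    rw [Ideal.span_singleton_le_iff_mem]; exact hfp
  have hlt : Ideal.span {f} < pp O hO hs := by
    refine lt_of_le_of_ne hle fun h => hP ?_
    rw [← h] at hPp
    exact Ideal.mem_span_singleton.1 hPp
  have hbot : (⊥ : Ideal (MvPolynomial (Fin 2) k)) < Ideal.span {f} := by
    rw [bot_lt_iff_ne_bot, Ne, Ideal.span_singleton_eq_bot]
    exact hf.ne_zero
  by_cases hmax : (pp O hO hs).IsMaximal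
  · obtain ⟨x, hx⟩ := eq_vanishingIdeal_singleton_of_isMaximal k hmax
    apply X_sub_notMem hO hs (x 0)
    rw [hx, mem_vanishingIdeal_singleton_iff]
    simp
  · obtain ⟨M, hM, hpM⟩ := Ideal.exists_le_maximal _ hpr.ne_top
    have hltM : pp O hO hs < M := lt_of_le_of_ne hpM (fun h => hmax (h ▸ hM))
    let q0 : PrimeSpectrum (MvPolynomial (Fin 2) k) := ⟨⊥, Ideal.isPrime_bot⟩
    let q1 : PrimeSpectrum (MvPolynomial (Fin 2) k) := ⟨_, hI⟩
    let q2 : PrimeSpectrum (MvPolynomial (Fin 2) k) := ⟨_, hpr⟩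
    let q3 : PrimeSpectrum (MvPolynomial (Fin 2) k) := ⟨_, hM.isPrime⟩
    have h01 : q0 < q1 := hbot
    have h12 : q1 < q2 := hlt
    have h23 : q2 < q3 := hltM
    let s : LTSeries (PrimeSpectrum (MvPolynomial (Fin 2) k)) :=
      { length := 3
        toFun := ![q0, q1, q2, q3]
        step := by
          intro i
          fin_cases i
          · exact h01
          · exact h12
          · exact h23 }
    have h4 := Order.LTSeries.length_le_krullDim s
    have h5 : Order.krullDim (PrimeSpectrum (MvPolynomial (Fin 2) k)) = 2 := by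
      have := MvPolynomial.ringKrullDim_of_isNoetherianRing (R := k) (ι := Fin 2)
      rw [ringKrullDim, ringKrullDim_eq_zero_of_field] at this
      rw [this]
      simp
    rw [h5] at h4
    have h6 : ((3 : ℕ) : WithBot ℕ∞) ≤ ((2 : ℕ) : WithBot ℕ∞) := h4
    have h7 : (3 : ℕ) ≤ 2 := by exact_mod_cast h6
    omega

end DRecB

end LS
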