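import Pool.Agent.helper90.LS.DRecA

/-! # LUS-DRec, auxiliary lemmas: valuations and one step -/

open MvPolynomial

namespace LS

open LU

universe u

namespace DRecC

open DRecA

variable {k : Type u} {F : Type u} [Field k] [Field F] [Algebra k F]

theorem V_le {O : ValuationSubring F} (hO : ∀ c : k, algebraMap k F c ∈ O) (c : k) :
    O.valuation (algebraMap k F c) ≤ 1 := (O.valuation_le_one_iff _).2 (hO c)

theorem V_C {O : ValuationSubring F} (hO : ∀ c : k, algebraMap k F c ∈ O) {c : k} (hc : c ≠ 0) :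
    O.valuation (algebraMap k F c) = 1 := by
  refine le_antisymm (V_le hO c) ?_
  have h1 : algebraMap k F c * algebraMap k F c⁻¹ = 1 := by
    rw [← map_mul, mul_inv_cancel₀ hc, map_one]
  have h2 : O.valuation (algebraMap k F c) * O.valuation (algebraMap k F c⁻¹) = 1 := by
    rw [← map_mul, h1, map_one]
  rw [← h2]
  exact mul_le_of_le_one_right' (V_le hO c⁻¹)

theorem V_nat {O : ValuationSubring F} (hO : ∀ c : k, algebraMap k F c ∈ O) (n : ℕ) :
    O.valuation (n : F) ≤ 1 := by
  have := V_le hO (n : k)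
  rwa [map_natCast] at this

theorem V_poly {O : ValuationSubring F} (hO : ∀ c : k, algebraMap k F c ∈ O) {u v : F}
    (hu : O.valuation u ≤ 1) (hv : O.valuation v ≤ 1) (N : MvPolynomial (Fin 2) k) :
    O.valuation (aeval ![u, v] N) ≤ 1 := by
  induction N using MvPolynomial.induction_on with
  | C r => rw [aeval_C]; exact V_le hO r
  | add p q hp hq =>
    rw [map_add]
    exact (O.valuation.map_add _ _).trans (max_le hp hq)
  | mul_X p i hp =>
    rw [map_mul, map_mul, aeval_X]
    fin_cases i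
    · exact mul_le_one' hp hu
    · exact mul_le_one' hp hv

theorem V_Wc {O : ValuationSubring F} (hO : ∀ c : k, algebraMap k F c ∈ O) {W : F} {c : k}
    (hc : c ≠ 0) (hW : O.valuation W < 1) : O.valuation (W + algebraMap k F c) = 1 := by
  rw [O.valuation.map_add_eq_of_lt_right (by rw [V_C hO hc]; exact hW), V_C hO hc]

theorem StepTo.Vu {O : ValuationSubring F} (hO : ∀ c : k, algebraMap k F c ∈ O) {u v U W : F}
    {α β a b : ℕ} {c : k} (h : StepTo k O u v U W α β a b c) :
    O.valuation u = O.valuation U ^ α := by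
  rw [h.hu, map_mul, map_pow, map_pow, V_Wc hO h.hc h.stg.hv, one_pow, mul_one]

theorem StepTo.Vv {O : ValuationSubring F} (hO : ∀ c : k, algebraMap k F c ∈ O) {u v U W : F}
    {α β a b : ℕ} {c : k} (h : StepTo k O u v U W α β a b c) :
    O.valuation v = O.valuation U ^ β := by
  rw [h.hv, map_mul, map_pow, map_pow, V_Wc hO h.hc h.stg.hv, one_pow, mul_one]

/-- the two equations between the derivatives -/
theorem StepTo.eqs {O : ValuationSubring F} {u v U W : F} {α β a b : ℕ} {c : k}
    (h : StepTo k O u v U W α β a b c) {f f1 : MvPolynomial (Fin 2) k} {w : ℕ}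
    (hf1 : sb α β a b c f = X 0 ^ w * f1) :
    (α : F) * (u * aeval ![u, v] (pderiv 0 f)) + (β : F) * (v * aeval ![u, v] (pderiv 1 f)) =
      (w : F) * aeval ![u, v] f + U ^ w * (U * aeval ![U, W] (pderiv 0 f1)) ∧
    (a : F) * (u * aeval ![u, v] (pderiv 0 f)) + (b : F) * (v * aeval ![u, v] (pderiv 1 f)) =
      (W + algebraMap k F c) * (U ^ w * aeval ![U, W] (pderiv 1 f1)) := by
  have hX0 : aeval ![U, W] (X 0 : MvPolynomial (Fin 2) k) = U := by simp
  have hX1 : aeval ![U, W] (X 1 : MvPolynomial (Fin 2) k) = W := by simp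
  have hx0 : aeval ![u, v] (X 0 : MvPolynomial (Fin 2) k) = u := by simp
  have hx1 : aeval ![u, v] (X 1 : MvPolynomial (Fin 2) k) = v := by simp
  have hff : aeval ![u, v] f = U ^ w * aeval ![U, W] f1 := by
    rw [← aeval_sb h f, hf1, map_mul, map_pow, hX0]
  constructor
  · have h0 := congrArg (aeval ![U, W]) (chain0 α β a b c f)
    have hd : pderiv 0 (X 0 ^ w * f1 : MvPolynomial (Fin 2) k) * X 0 =
        (w : MvPolynomial (Fin 2) k) * (X 0 ^ w * f1) + X 0 ^ w * (X 0 * pderiv 0 f1) := by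
      rw [Derivation.leibniz, pderiv_pow, pderiv_X_self, smul_eq_mul, smul_eq_mul, mul_one]
      rcases w with _ | w
      · simp; ring
      · rw [Nat.add_sub_cancel, pow_succ]; ring
    have hd' := congrArg (aeval ![U, W]) hd
    rw [hf1] at h0
    simp only [map_add, map_mul, map_natCast, aeval_sb h, hX0, hx0, hx1, map_pow] at h0 hd'
    rw [hff]
    linear_combination hd' - h0
  · have h0 := congrArg (aeval ![U, W]) (chain1 α β a b c f)
    have hd : pderiv 1 (X 0 ^ w * f1 : MvPolynomial (Fin 2) k) = X 0 ^ w * pderiv 1 f1 := by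
      rw [Derivation.leibniz, pderiv_pow, pderiv_X_of_ne (by decide), smul_eq_mul, smul_eq_mul]
      ring
    rw [hf1, hd] at h0
    simp only [map_add, map_mul, map_natCast, aeval_sb h, hX0, hX1, hx0, hx1, map_pow,
      aeval_C] at h0
    linear_combination -h0

theorem val_lt_shift {O : ValuationSubring F} {U x : F} (hU : U ≠ 0) {w M : ℕ}
    (h : O.valuation (U ^ w * x) < O.valuation U ^ (w + M)) :
    O.valuation x < O.valuation U ^ M := by
  rw [map_mul, map_pow, pow_add] at h
  exact lt_of_mul_lt_mul_left' h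

/-- the main estimate -/
theorem StepTo.bound {O : ValuationSubring F} (hO : ∀ c : k, algebraMap k F c ∈ O) {u v U W : F}
    {α β a b : ℕ} {c : k} (h : StepTo k O u v U W α β a b c) {f f1 : MvPolynomial (Fin 2) k}
    {w : ℕ} (hf1 : sb α β a b c f = X 0 ^ w * f1)
    (hfN : ∀ N : ℕ, O.valuation (aeval ![u, v] f) < O.valuation u ^ N) {M : ℕ}
    (h0 : O.valuation (U * aeval ![U, W] (pderiv 0 f1)) < O.valuation U ^ M)
    (h1 : O.valuation (aeval ![U, W] (pderiv 1 f1)) < O.valuation U ^ M) :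
    O.valuation (u * aeval ![u, v] (pderiv 0 f)) < O.valuation U ^ (w + M) ∧
      O.valuation (v * aeval ![u, v] (pderiv 1 f)) < O.valuation U ^ (w + M) := by
  obtain ⟨e1, e2⟩ := StepTo.eqs h hf1
  have hU0 : O.valuation U ≠ 0 := (Valuation.ne_zero_iff _).2 h.stg.u0
  have hUpos : 0 < O.valuation U := zero_lt_iff.2 hU0
  have hUle : O.valuation U ≤ 1 := h.stg.hu.le
  have hF : O.valuation (aeval ![u, v] f) < O.valuation U ^ (w + M) := by
    refine (hfN (w + M)).trans_le ?_
    rw [StepTo.Vu hO h, ← pow_mul]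
    refine pow_le_pow_right_of_le_one' hUle ?_
    have := h.hα
    nlinarith
  have r1 : O.valuation ((w : F) * aeval ![u, v] f + U ^ w * (U * aeval ![U, W] (pderiv 0 f1)))
      < O.valuation U ^ (w + M) := by
    refine O.valuation.map_add_lt ?_ ?_
    · rw [map_mul]
      exact (mul_le_of_le_one_left' (V_nat hO w)).trans_lt hF
    · rw [map_mul, map_pow, pow_add]
      exact mul_lt_mul_of_pos_left h0 (pow_pos hUpos w)
  have r2 : O.valuation ((W + algebraMap k F c) * (U ^ w * aeval ![U, W] (pderiv 1 f1)))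
      < O.valuation U ^ (w + M) := by
    rw [map_mul, V_Wc hO h.hc h.stg.hv, one_mul, map_mul, map_pow, pow_add]
    exact mul_lt_mul_of_pos_left h1 (pow_pos hUpos w)
  rw [← e1] at r1
  rw [← e2] at r2
  obtain ⟨P, hP⟩ : ∃ P, P = u * aeval ![u, v] (pderiv 0 f) := ⟨_, rfl⟩
  obtain ⟨Q, hQ⟩ : ∃ Q, Q = v * aeval ![u, v] (pderiv 1 f) := ⟨_, rfl⟩
  rw [← hP, ← hQ] at r1 r2 ⊢
  have hab : (α : F) * b = β * a + 1 := by exact_mod_cast congrArg (fun n : ℕ => (n : F)) h.hab
  have nl : ∀ (n : ℕ) (x : F), O.valuation x < O.valuation U ^ (w + M) →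
      O.valuation ((n : F) * x) < O.valuation U ^ (w + M) := by
    intro n x hx
    rw [map_mul]
    exact (mul_le_of_le_one_left' (V_nat hO n)).trans_lt hx
  constructor
  · have e : P = (b : F) * ((α : F) * P + (β : F) * Q) - (β : F) * ((a : F) * P + (b : F) * Q) := by
      linear_combination (-P) * hab
    rw [e]
    exact O.valuation.map_sub_lt (nl b _ r1) (nl β _ r2)
  · have e : Q = (α : F) * ((a : F) * P + (b : F) * Q) - (a : F) * ((α : F) * P + (β : F) * Q) := by
      linear_combination (-Q) * hab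
    rw [e]
    exact O.valuation.map_sub_lt (nl α _ r2) (nl a _ r1)

theorem sb_monomial (β : ℕ) (c : k) (m : Fin 2 →₀ ℕ) (r : k) :
    sb 1 β 0 1 c (monomial m r) = C r * (X 0 ^ (m 0 + β * m 1) * (X 1 + C c) ^ m 1) := by
  rw [sb, aeval_monomial, Finsupp.prod_fintype _ _ (fun i => pow_zero _), Fin.prod_univ_two]
  simp only [Matrix.cons_val_zero, Matrix.cons_val_one, pow_one, pow_zero, mul_one,
    MvPolynomial.algebraMap_eq]
  rw [mul_pow, ← pow_mul, pow_add]
  ring

theorem low_row {β : ℕ} (hβ : 0 < β) {c : k} {f : MvPolynomial (Fin 2) k}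
    (hf : ∀ m ∈ f.support, m 0 = 0 → 2 ≤ m 1) {m : Fin 2 →₀ ℕ} (hm : m 0 ≤ β)
    (hc : coeff m (sb 1 β 0 1 c f) ≠ 0) : m 1 = 0 := by
  by_contra h1
  apply hc
  rw [f.as_sum, map_sum, coeff_sum]
  refine Finset.sum_eq_zero fun m' hm' => ?_
  rw [sb_monomial, coeff_C_mul]
  rcases Nat.eq_zero_or_pos (m' 1) with h0 | h0
  · rw [h0, pow_zero, mul_one, mul_zero, add_zero, X_pow_eq_monomial, coeff_monomial, if_neg,
      mul_zero]
    intro he
    apply h1
    rw [← he]
    exact Finsupp.single_eq_of_ne (by decide)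
  · rw [X_pow_eq_monomial, coeff_monomial_mul', if_neg, mul_zero]
    intro hle
    have h2 := hle 0
    rw [Finsupp.single_eq_same] at h2
    rcases Nat.eq_zero_or_pos (m' 0) with h3 | h3
    · have := hf m' hm' h3
      nlinarith
    · nlinarith

end DRecC

end LS
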