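import Pool.Agent.helper90.LS.Face
import Pool.Agent.helper90.LS.Step
import Pool.Agent.helper90.LS.CaseR
import Pool.Agent.helper90.LS.CaseB
import Pool.Agent.helper90.LS.CaseA
import Pool.Agent.helper90.LS.DFin
import Pool.Agent.helper90.LS.DRecB
import Pool.Agent.helper90.LS.DRecC

/-! # LUS-DRec: a composite valuation -/

open MvPolynomial

namespace LS

open LU

universe u

variable {k : Type u} {F : Type u} [Field k] [IsAlgClosed k] [Field F] [Algebra k F]

namespace DRec

open DRecA DRecC

theorem main (p : ℕ) [Fact p.Prime] [CharP k p] {O : ValuationSubring F}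
    (hO : ∀ c : k, algebraMap k F c ∈ O) (htr : Algebra.trdeg k F = 2) (g : F) (H : Finset F) :
    ∀ (n N : ℕ) (u v : F) (f : MvPolynomial (Fin 2) k), Stg k O u v → f ≠ 0 →
      lo f.support = 0 → nu f.support = n →
      (∀ M : ℕ, O.valuation (aeval ![u, v] f) < O.valuation u ^ M) →
      (O.valuation u ^ N ≤ O.valuation (u * aeval ![u, v] (pderiv 0 f)) ∨
        O.valuation u ^ N ≤ O.valuation (aeval ![u, v] (pderiv 1 f))) →
      HasNF k p 2 O g H := by
  intro n
  induction n using Nat.strong_induction_on with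
  | _ n ihn =>
  intro N
  induction N using Nat.strong_induction_on with
  | _ N ihN =>
  intro u v f hs hf hlo hnu hfN hder
  have hS : f.support.Nonempty := by rwa [Finset.nonempty_iff_ne_empty, Ne, support_eq_empty]
  obtain ⟨m0, hm0, h00, h01⟩ := exists_nu hS
  rw [hlo] at h00
  rw [hnu] at h01
  have hcoef0 : ∀ f' : MvPolynomial (Fin 2) k, (∀ M : ℕ, O.valuation (aeval ![u, v] f') <
      O.valuation u ^ M) → coeff 0 f' = 0 := by
    intro f' hf'
    by_contra hne
    have h1 := val_const hO hs.hu hs.hv hne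
    have h2 := hf' 0
    rw [pow_zero, h1] at h2
    exact lt_irrefl _ h2
  rcases Nat.lt_or_ge n 2 with hn2 | hn2
  · rcases Nat.eq_zero_or_pos n with hn0 | hn0
    · exfalso
      have e : m0 = 0 := by
        ext i
        fin_cases i
        · exact h00
        · rw [hn0] at h01; exact h01
      rw [e, mem_support_iff] at hm0
      exact hm0 (hcoef0 f hfN)
    · have hn1 : n = 1 := by omega
      have e : m0 = Finsupp.single 1 1 := by
        ext i
        fin_cases i
        · exact h00.trans (Finsupp.single_eq_of_ne (by decide)).symm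
        · rw [hn1] at h01
          exact h01.trans (Finsupp.single_eq_same).symm
      rw [e, mem_support_iff] at hm0
      obtain ⟨f2, hirr, ⟨q, hq⟩, hf2N⟩ := DRecB.exists_factor hO hs hf hfN
      have hd : coeff 0 (pderiv 1 f2) ≠ 0 := by
        intro h0
        have h1 : coeff 0 (pderiv 1 f) = coeff (Finsupp.single 1 1) f := by
          rw [coeff_pderiv]; simp
        have h2 : coeff 0 (pderiv 1 f) = 0 := by
          have h3 : pderiv 1 f = f2 * pderiv 1 q + q * pderiv 1 f2 := by
            rw [hq, Derivation.leibniz, smul_eq_mul, smul_eq_mul]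
          have h4 := hcoef0 f2 hf2N
          rw [← constantCoeff_eq] at h0 h4 ⊢
          rw [h3, map_add, map_mul, map_mul, h0, h4]
          ring
        exact hm0 (h1 ▸ h2)
      exact d_fin p hO htr hs hirr hf2N hd g H
  rcases step_cases hO htr hs with hi | ⟨U, θ, hT⟩ | ⟨U, W, α, β, a, b, c, h⟩
  · exact case_r p hO htr hs hi g H
  · obtain ⟨hθ, hirr, hc⟩ := tr_center hO hT
    exact case_b p hO htr hT.gen ((O.valuation_le_one_iff _).1 hT.hU.le) hθ hirr hc g H
  obtain ⟨hg0, hface⟩ := face_f h.hα h.hβ h.hab h.hc hf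
  obtain ⟨f1, hf1, hf10, hlo1, hnu1⟩ := exists_div hg0
  obtain ⟨w, hw⟩ : ∃ w, w = lo (sb α β a b c f).support := ⟨_, rfl⟩
  rw [← hw] at hf1
  have hU0 : O.valuation U ≠ 0 := (Valuation.ne_zero_iff _).2 h.stg.u0
  have hUpos : 0 < O.valuation U := zero_lt_iff.2 hU0
  have hUle : O.valuation U ≤ 1 := h.stg.hu.le
  have hVu := StepTo.Vu hO h
  have hVv := StepTo.Vv hO h
  have hα := h.hα
  have hβ := h.hβ
  have hle : α * nu f1.support ≤ n := by rw [hnu1, ← hnu]; exact hface
  have hf1N : ∀ M : ℕ, O.valuation (aeval ![U, W] f1) < O.valuation U ^ M := by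
    intro M
    refine val_lt_shift h.stg.u0 (w := w) ?_
    have e : U ^ w * aeval ![U, W] f1 = aeval ![u, v] f := by
      rw [← aeval_sb h f, hf1, map_mul, map_pow]; simp
    rw [e]
    refine (hfN (w + M)).trans_le ?_
    rw [hVu, ← pow_mul]
    exact pow_le_pow_right_of_le_one' hUle (by nlinarith)
  by_cases hdrop : nu f1.support < n
  · refine ihn _ hdrop (β + α * N) U W f1 h.stg hf10 hlo1 rfl hf1N ?_
    by_contra hcon
    push Not at hcon
    obtain ⟨b1, b2⟩ := StepTo.bound hO h hf1 hfN hcon.1 hcon.2
    rcases hder with hd | hd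
    · have h1 := hd.trans_lt b1
      rw [hVu, ← pow_mul] at h1
      exact absurd h1 (not_lt.2 (pow_le_pow_right_of_le_one' hUle (by omega)))
    · rw [map_mul, hVv] at b2
      have h1 : O.valuation U ^ (β + α * N) ≤
          O.valuation U ^ β * O.valuation (aeval ![u, v] (pderiv 1 f)) := by
        rw [pow_add, pow_mul, ← hVu]
        exact mul_le_mul_right hd _
      exact absurd (h1.trans_lt b2) (not_lt.2 (pow_le_pow_right_of_le_one' hUle (by omega)))
  · have hα1 : α = 1 := by
      push Not at hdrop
      by_contra hne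
      have : 2 ≤ α := by omega
      nlinarith
    have hnu1' : nu f1.support = n := by
      push Not at hdrop
      rw [hα1, one_mul] at hle
      exact le_antisymm hle hdrop
    obtain ⟨ha, hb⟩ := h.one hα1
    subst hα1 ha hb
    have hwβ : β + 1 ≤ w := by
      by_contra hlt
      push Not at hlt
      have hS' : (sb 1 β 0 1 c f).support.Nonempty := by
        rwa [Finset.nonempty_iff_ne_empty, Ne, support_eq_empty]
      obtain ⟨m, hm, hm0', hm1⟩ := exists_nu hS'
      have h1 := low_row hβ (f := f) (c := c) (fun m hm h0 => by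
        have := nu_le hm (h0.trans hlo.symm)
        omega) (m := m) (by rw [hm0', ← hw]; omega) (mem_support_iff.1 hm)
      rw [hm1, ← hnu1, hnu1'] at h1
      omega
    rcases N with _ | N'
    · exfalso
      rcases hder with hd | hd
      · rw [pow_zero, map_mul] at hd
        have h1 := V_poly hO hs.hu.le hs.hv.le (pderiv 0 f)
        have h2 : O.valuation u * O.valuation (aeval ![u, v] (pderiv 0 f)) < 1 :=
          (mul_le_of_le_one_right' h1).trans_lt hs.hu
        exact absurd hd (not_le.2 h2)
      · obtain ⟨_, e2⟩ := StepTo.eqs h hf1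
        have e3 := congrArg O.valuation e2
        simp only [Nat.cast_zero, zero_mul, zero_add, Nat.cast_one, one_mul, map_mul, map_pow,
          V_Wc hO h.hc h.stg.hv, hVv] at e3
        have h1 := V_poly hO h.stg.hu.le h.stg.hv.le (pderiv 1 f1)
        have h2 : O.valuation U ^ w * O.valuation (aeval ![U, W] (pderiv 1 f1)) <
            O.valuation U ^ β := by
          refine (mul_le_of_le_one_right' h1).trans_lt ?_
          exact pow_lt_pow_right_of_lt_one₀ hUpos h.stg.hu (by omega)
        rw [← e3] at h2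
        rw [pow_zero] at hd
        have h3 : O.valuation U ^ β * 1 ≤
            O.valuation U ^ β * O.valuation (aeval ![u, v] (pderiv 1 f)) := mul_le_mul_right hd _
        rw [mul_one] at h3
        exact absurd h2 (not_lt.2 h3)
    · refine ihN N' (Nat.lt_succ_self _) U W f1 h.stg hf10 hlo1 hnu1' hf1N ?_
      by_contra hcon
      push Not at hcon
      obtain ⟨b1, b2⟩ := StepTo.bound hO h hf1 hfN hcon.1 hcon.2
      rw [pow_one] at hVu
      rcases hder with hd | hd
      · have h1 := hd.trans_lt b1
        rw [hVu] at h1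
        exact absurd h1 (not_lt.2 (pow_le_pow_right_of_le_one' hUle (by omega)))
      · rw [map_mul, hVv] at b2
        have h1 : O.valuation U ^ (β + (N' + 1)) ≤
            O.valuation U ^ β * O.valuation (aeval ![u, v] (pderiv 1 f)) := by
          rw [pow_add, ← hVu]
          exact mul_le_mul_right hd _
        exact absurd (h1.trans_lt b2) (not_lt.2 (pow_le_pow_right_of_le_one' hUle (by omega)))

end DRec

theorem case_d (p : ℕ) [Fact p.Prime] [CharP k p] {O : ValuationSubring F}
    (hO : ∀ c : k, algebraMap k F c ∈ O) (htr : Algebra.trdeg k F = 2) {u v : F}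
    (hs : Stg k O u v) {h : MvPolynomial (Fin 2) k} (hh : h ≠ 0)
    (hN : ∀ N : ℕ, O.valuation (aeval ![u, v] h) < O.valuation u ^ N) (g : F) (H : Finset F) :
    HasNF k p 2 O g H := by
  obtain ⟨f, hf, _, hfN⟩ := DRecB.exists_factor hO hs hh hN
  have hlo : lo f.support = 0 := by
    by_contra hne
    have hS : f.support.Nonempty := by
      rw [Finset.nonempty_iff_ne_empty, Ne, support_eq_empty]; exact hf.ne_zero
    obtain ⟨f1, hf1, _, _, _⟩ := DRecA.exists_div hf.ne_zero
    obtain ⟨w, hw⟩ := Nat.exists_eq_succ_of_ne_zero hne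
    have e : f = X 0 * (X 0 ^ w * f1) := by
      rw [← mul_assoc, ← pow_succ']; rw [hw] at hf1; exact hf1
    have hunit : ∀ q : MvPolynomial (Fin 2) k, IsUnit q → O.valuation (aeval ![u, v] q) = 1 := by
      intro q hq
      obtain ⟨r, hr⟩ := hq.exists_right_inv
      have h2 := congrArg (fun z => O.valuation (aeval ![u, v] z)) hr
      simp only [map_mul, map_one] at h2
      refine le_antisymm (DRecC.V_poly hO hs.hu.le hs.hv.le _) ?_
      rw [← h2]
      exact mul_le_of_le_one_right' (DRecC.V_poly hO hs.hu.le hs.hv.le _)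
    have h4 : aeval ![u, v] (X 0 : MvPolynomial (Fin 2) k) = u := by simp
    rcases hf.isUnit_or_isUnit e with h1 | h1
    · have h5 := hunit _ h1
      rw [h4] at h5
      exact absurd hs.hu (by rw [h5]; exact lt_irrefl _)
    · have h3 := hfN 1
      rw [e, map_mul, map_mul, pow_one, h4, hunit _ h1, mul_one] at h3
      exact lt_irrefl _ h3
  obtain ⟨N, hN⟩ : ∃ N : ℕ, (O.valuation u ^ N ≤ O.valuation (u * aeval ![u, v] (pderiv 0 f)) ∨
      O.valuation u ^ N ≤ O.valuation (aeval ![u, v] (pderiv 1 f))) := by
    have hnd := DRecB.not_dvd_both p hf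
    rw [not_and_or] at hnd
    rcases hnd with h1 | h1
    · obtain ⟨N, hN⟩ := DRecB.exists_le hO hs hf hfN h1
      refine ⟨N + 1, Or.inl ?_⟩
      rw [map_mul, pow_succ']
      exact mul_le_mul_right hN _
    · obtain ⟨N, hN⟩ := DRecB.exists_le hO hs hf hfN h1
      exact ⟨N, Or.inr hN⟩
  exact DRec.main p hO htr g H _ N u v f hs hf.ne_zero hlo rfl hfN hN

end LS
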