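import Pool.Agent.helper90.LS.Proc
import Pool.Agent.helper90.LS.ProcFin
import Pool.Agent.helper90.LS.DRec

/-! # LUS-Drive: normal forms on rational surfaces, along every valuation -/

open MvPolynomial

namespace LS

open LU

universe u

variable {k : Type u} {F : Type u} [Field k] [IsAlgClosed k] [Field F] [Algebra k F]

/-- the case of a center at a closed point -/
theorem Drive_stg (p : ℕ) [Fact p.Prime] [CharP k p] {O : ValuationSubring F}
    (hO : ∀ c : k, algebraMap k F c ∈ O) (htr : Algebra.trdeg k F = 2) {u v : F}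
    (hs : Stg k O u v) (g : F) (H : Finset F) : HasNF k p 2 O g H := by
  classical
  have hR : ∀ u v : F, Stg k O u v → Indep O u v → HasNF k p 2 O g H :=
    fun u v h hi => case_r p hO htr h hi g H
  have hB : ∀ U θ : F, Tr k O U θ → HasNF k p 2 O g H := by
    intro U θ h
    obtain ⟨h1, h2, h3⟩ := tr_center hO h
    exact case_b p hO htr h.gen ((O.valuation_le_one_iff U).1 h.hU.le) h1 h2 h3 g H
  have hD : ∀ u v : F, Stg k O u v → (∃ h : MvPolynomial (Fin 2) k, h ≠ 0 ∧
      ∀ N : ℕ, O.valuation (aeval ![u, v] h) < O.valuation u ^ N) → HasNF k p 2 O g H := by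
    rintro u v hs ⟨h, hh, hN⟩
    exact case_d p hO htr hs hh hN g H
  -- fractions
  obtain ⟨N, D, hD0, hg⟩ := exists_frac hs.gen g
  choose Nf Df hDf hf using fun h : F => exists_frac hs.gen h
  have hDne : D ≠ 0 := by
    rintro rfl
    exact hD0 (map_zero _)
  have hfne : D * ∏ h ∈ H.filter (· ≠ 0), (Nf h * Df h) ≠ 0 := by
    refine mul_ne_zero hDne (Finset.prod_ne_zero_iff.2 fun h hh => mul_ne_zero ?_ ?_)
    · intro h0
      have h1 := hf h
      rw [h0, map_zero, zero_div] at h1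
      exact (Finset.mem_filter.1 hh).2 h1
    · intro h0
      exact hDf h (by rw [h0, map_zero])
  rcases proc_g hO htr hR hB hD hs (N * D ^ (p - 1))
    (D * ∏ h ∈ H.filter (· ≠ 0), (Nf h * Df h)) hfne with
    hQ | ⟨u1, v1, G1, f1, hs1, hG1, hn1, hf1, hq1⟩
  · exact hQ
  rcases proc_f hO htr hR hB hD hs1 G1 f1 hn1 hf1 with
    hQ | ⟨u2, v2, G2, f2, hs2, hG2, hn2, hf2, hν2, hq2⟩
  · exact hQ
  have hdv : ∀ q, q ∣ D * ∏ h ∈ H.filter (· ≠ 0), (Nf h * Df h) →
      ∃ q', q' ∣ f2 ∧ aeval ![u2, v2] q' = aeval ![u, v] q := by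
    intro q hq
    obtain ⟨q', h1, h2⟩ := hq1 q hq
    obtain ⟨q'', h3, h4⟩ := hq2 q' h1
    exact ⟨q'', h3, h4.trans h2⟩
  obtain ⟨q, hq, hqe⟩ := hdv D (Dvd.intro _ rfl)
  refine proc_fin p hO htr hs2 G2 f2 hn2 hf2 hν2 g H q hq ?_ ?_
  · have hp1 : p - 1 + 1 = p := Nat.sub_add_cancel (Fact.out (p := p.Prime)).one_le
    have h1 : aeval ![u, v] D ^ p = aeval ![u, v] D ^ (p - 1) * aeval ![u, v] D := by
      rw [← pow_succ, hp1]
    rw [hqe, hG2, hG1, map_mul, map_pow, h1]
    conv_lhs => rw [hg]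
    field_simp
  · intro h hh h0
    have hdvd : Nf h * Df h ∣ D * ∏ h ∈ H.filter (· ≠ 0), (Nf h * Df h) :=
      Dvd.dvd.mul_left (Finset.dvd_prod_of_mem (fun h => Nf h * Df h)
        (Finset.mem_filter.2 ⟨hh, h0⟩)) _
    obtain ⟨N', h1, h2⟩ := hdv (Nf h) ((Dvd.intro _ rfl).trans hdvd)
    obtain ⟨D', h3, h4⟩ := hdv (Df h) ((Dvd.intro_left _ rfl).trans hdvd)
    exact ⟨N', D', h1, h3, by rw [h2, h4]; exact hf h⟩

omit [IsAlgClosed k] in
theorem Drive_gen {x y x' y' : F} (hgen : IntermediateField.adjoin k {x, y} = ⊤)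
    (hx : x ∈ IntermediateField.adjoin k {x', y'})
    (hy : y ∈ IntermediateField.adjoin k {x', y'}) :
    IntermediateField.adjoin k {x', y'} = ⊤ := by
  rw [eq_top_iff, ← hgen, IntermediateField.adjoin_le_iff]
  rintro z (rfl | rfl)
  · exact hx
  · exact hy

theorem Drive_chain {R : Type u} [CommRing R] [IsDomain R] (hdim : ringKrullDim R ≤ 2)
    {P1 P2 P3 : Ideal R} (i1 : P1.IsPrime) (i2 : P2.IsPrime) (i3 : P3.IsPrime)
    (h0 : P1 ≠ ⊥) (h12 : P1 < P2) (h23 : P2 < P3) : False := by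
  have hb : (⊥ : Ideal R).IsPrime := Ideal.isPrime_bot
  let q0 : PrimeSpectrum R := ⟨⊥, hb⟩
  let q1 : PrimeSpectrum R := ⟨P1, i1⟩
  let q2 : PrimeSpectrum R := ⟨P2, i2⟩
  let q3 : PrimeSpectrum R := ⟨P3, i3⟩
  have e1 : q0 < q1 := (bot_lt_iff_ne_bot.2 h0 : (⊥ : Ideal R) < P1)
  have e2 : q1 < q2 := h12
  have e3 : q2 < q3 := h23
  have h1 : ((3 : ℕ) : WithBot ℕ∞) ≤ ringKrullDim R := by
    have ext : ∀ (s : LTSeries (PrimeSpectrum R)) (x : PrimeSpectrum R), s.last < x →
        ∃ s' : LTSeries (PrimeSpectrum R), s'.length = s.length + 1 ∧ s'.last = x :=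
      fun s x h => ⟨s.snoc x h, rfl, RelSeries.last_snoc _ _ _⟩
    obtain ⟨s1, l1, t1⟩ := ext (RelSeries.singleton _ q0) q1 e1
    obtain ⟨s2, l2, t2⟩ := ext s1 q2 (by rw [t1]; exact e2)
    obtain ⟨s3, l3, t3⟩ := ext s2 q3 (by rw [t2]; exact e3)
    refine Order.le_krullDim_iff.2 ⟨s3, ?_⟩
    rw [l3, l2, l1]
    rfl
  have h2 : ((3 : ℕ) : WithBot ℕ∞) ≤ 2 := h1.trans hdim
  exact absurd h2 (by decide)

omit [IsAlgClosed k] in
/-- polynomials in elements of `O` -/
theorem Drive_mem {O : ValuationSubring F} (hO : ∀ c : k, algebraMap k F c ∈ O) {x y : F}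
    (hx : x ∈ O) (hy : y ∈ O) (h : MvPolynomial (Fin 2) k) : aeval ![x, y] h ∈ O := by
  induction h using MvPolynomial.induction_on with
  | C a =>
    rw [aeval_C]
    exact hO a
  | add a b ha hb =>
    rw [map_add]
    exact add_mem ha hb
  | mul_X a i ha =>
    rw [map_mul, aeval_X]
    refine mul_mem ha ?_
    fin_cases i
    · exact hx
    · exact hy

omit [IsAlgClosed k] in
/-- the center of `O` -/
theorem Drive_center {O : ValuationSubring F} (hO : ∀ c : k, algebraMap k F c ∈ O) {x y : F}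
    (hx : x ∈ O) (hy : y ∈ O) :
    ∃ P : Ideal (MvPolynomial (Fin 2) k), P.IsPrime ∧
      ∀ h, h ∈ P ↔ O.valuation (aeval ![x, y] h) < 1 := by
  let φ : MvPolynomial (Fin 2) k →+* O :=
    (aeval ![x, y] : MvPolynomial (Fin 2) k →ₐ[k] F).toRingHom.codRestrict O.toSubring
      (fun h => Drive_mem hO hx hy h)
  refine ⟨(IsLocalRing.maximalIdeal O).comap φ, inferInstance, fun h => ?_⟩
  rw [Ideal.mem_comap, ValuationSubring.valuation_lt_one_iff]
  rfl

theorem Drive_nf (p : ℕ) [Fact p.Prime] [CharP k p] {O : ValuationSubring F}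
    (hO : ∀ c : k, algebraMap k F c ∈ O) (htr : Algebra.trdeg k F = 2) {x y : F}
    (hgen : IntermediateField.adjoin k {x, y} = ⊤) (hx : x ∈ O) (hy : y ∈ O) (g : F)
    (H : Finset F) : HasNF k p 2 O g H := by
  obtain ⟨P, hP, hPm⟩ := Drive_center hO hx hy
  by_cases hbot : P = ⊥
  · refine case_a p hO htr hgen (fun h h0 => ?_) g H
    have h1 : ¬ O.valuation (aeval ![x, y] h) < 1 := by
      rw [← hPm, hbot]
      exact h0
    exact le_antisymm ((O.valuation_le_one_iff _).2 (Drive_mem hO hx hy h)) (not_lt.1 h1)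
  by_cases hmax : P.IsMaximal
  · -- a closed point
    obtain ⟨z, hz⟩ := eq_vanishingIdeal_singleton_of_isMaximal k hmax
    have hv : ∀ i, O.valuation (aeval ![x, y] (X i - C (z i))) < 1 := by
      intro i
      rw [← hPm, hz, mem_vanishingIdeal_singleton_iff]
      simp
    have hinj := aeval_inj hgen htr
    have hne : ∀ i, aeval ![x, y] (X i - C (z i) : MvPolynomial (Fin 2) k) ≠ 0 := by
      intro i h0
      rw [← map_zero (aeval ![x, y] : MvPolynomial (Fin 2) k →ₐ[k] F)] at h0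
      have h1 := hinj h0
      have h2 := congrArg (MvPolynomial.eval (fun j => z j + 1)) h1
      simp at h2
    have hu : O.valuation (x - algebraMap k F (z 0)) < 1 := by simpa using hv 0
    have hw : O.valuation (y - algebraMap k F (z 1)) < 1 := by simpa using hv 1
    have hu0 : x - algebraMap k F (z 0) ≠ 0 := by simpa using hne 0
    have hw0 : y - algebraMap k F (z 1) ≠ 0 := by simpa using hne 1
    have hgen' : IntermediateField.adjoin k
        {x - algebraMap k F (z 0), y - algebraMap k F (z 1)} = ⊤ := by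
      refine Drive_gen hgen ?_ ?_
      · have h1 := add_mem (IntermediateField.subset_adjoin k
          {x - algebraMap k F (z 0), y - algebraMap k F (z 1)} (Set.mem_insert _ _))
          ((IntermediateField.adjoin k
          {x - algebraMap k F (z 0), y - algebraMap k F (z 1)}).algebraMap_mem (z 0))
        rwa [sub_add_cancel] at h1
      · have h1 := add_mem (IntermediateField.subset_adjoin k
          {x - algebraMap k F (z 0), y - algebraMap k F (z 1)}
          (Set.mem_insert_of_mem _ (Set.mem_singleton _)))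
          ((IntermediateField.adjoin k
          {x - algebraMap k F (z 0), y - algebraMap k F (z 1)}).algebraMap_mem (z 1))
        rwa [sub_add_cancel] at h1
    exact Drive_stg p hO htr ⟨hgen', hu0, hw0, hu, hw⟩ g H
  · -- a curve
    obtain ⟨h, hhP, hh0⟩ := Submodule.exists_mem_ne_zero_of_ne_bot hbot
    have hnu : ¬ IsUnit h := fun hu => hP.ne_top (Ideal.eq_top_of_isUnit_mem _ hhP hu)
    obtain ⟨f, hf, hfP⟩ : ∃ f, Irreducible f ∧ f ∈ P := by
      obtain ⟨s, hs, hsh⟩ := UniqueFactorizationMonoid.exists_prime_factors h hh0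
      obtain ⟨w, hw⟩ := hsh
      have h1 : s.prod ∈ P := by
        have h2 : s.prod = h * ((w⁻¹ : (MvPolynomial (Fin 2) k)ˣ) : MvPolynomial (Fin 2) k) := by
          rw [← hw, mul_assoc, Units.mul_inv, mul_one]
        rw [h2]
        exact P.mul_mem_right _ hhP
      obtain ⟨f, hfs, hfP⟩ := (hP.multiset_prod_mem_iff_exists_mem s).1 h1
      exact ⟨f, (hs f hfs).irreducible, hfP⟩
    refine case_b p hO htr hgen hx hy hf (fun h => ?_) g H
    rw [← hPm, ← Ideal.mem_span_singleton]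
    have hfp : (Ideal.span {f}).IsPrime := (Ideal.span_singleton_prime hf.ne_zero).2 hf.prime
    have hle : Ideal.span {f} ≤ P := (Ideal.span_singleton_le_iff_mem _).2 hfP
    rcases hle.eq_or_lt with he | hlt
    · rw [he]
    · exfalso
      obtain ⟨M, hM, hPM⟩ := P.exists_le_maximal hP.ne_top
      have hPM' : P < M := lt_of_le_of_ne hPM (fun he => hmax (he ▸ hM))
      have hdim : ringKrullDim (MvPolynomial (Fin 2) k) ≤ 2 := by
        rw [MvPolynomial.ringKrullDim_of_isNoetherianRing, ringKrullDim_eq_zero_of_field]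
        simp
      refine Drive_chain hdim hfp hP hM.isPrime ?_ hlt hPM'
      rw [Ne, Ideal.span_singleton_eq_bot]
      exact hf.ne_zero

theorem surf_nf (p : ℕ) [Fact p.Prime] [CharP k p] {O : ValuationSubring F}
    (hO : ∀ c : k, algebraMap k F c ∈ O) (htr : Algebra.trdeg k F = 2) {x y : F}
    (hgen : IntermediateField.adjoin k {x, y} = ⊤) (g : F) (H : Finset F) :
    HasNF k p 2 O g H := by
  -- replace `x` and `y` by their inverses if necessary
  obtain ⟨x', hx', hxx⟩ : ∃ x' : F, x' ∈ O ∧ (x' = x ∨ x' = x⁻¹) := by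
    rcases O.mem_or_inv_mem x with h | h
    · exact ⟨x, h, Or.inl rfl⟩
    · exact ⟨x⁻¹, h, Or.inr rfl⟩
  obtain ⟨y', hy', hyy⟩ : ∃ y' : F, y' ∈ O ∧ (y' = y ∨ y' = y⁻¹) := by
    rcases O.mem_or_inv_mem y with h | h
    · exact ⟨y, h, Or.inl rfl⟩
    · exact ⟨y⁻¹, h, Or.inr rfl⟩
  have hx1 : x' ∈ IntermediateField.adjoin k {x', y'} :=
    IntermediateField.subset_adjoin k _ (Set.mem_insert _ _)
  have hy1 : y' ∈ IntermediateField.adjoin k {x', y'} :=
    IntermediateField.subset_adjoin k _ (Set.mem_insert_of_mem _ (Set.mem_singleton _))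
  refine Drive_nf p hO htr (Drive_gen hgen ?_ ?_) hx' hy' g H
  · rcases hxx with h | h
    · rw [← h]
      exact hx1
    · have h2 : x = x'⁻¹ := by rw [h, inv_inv]
      rw [h2]
      exact inv_mem hx1
  · rcases hyy with h | h
    · rw [← h]
      exact hy1
    · have h2 : y = y'⁻¹ := by rw [h, inv_inv]
      rw [h2]
      exact inv_mem hy1

end LS
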