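import Pool.Agent.helper90.LS.Face
import Pool.Agent.helper90.LS.Step

/-! # LUS-Proc: the process -/

open MvPolynomial

namespace LS

open LU

universe u

variable {k : Type u} {F : Type u} [Field k] [IsAlgClosed k] [Field F] [Algebra k F]

/-- a polynomial divisible by `X 0 ^ L` has value at most the value of `u ^ L` -/
private theorem val_le_of_supp {k : Type u} {F : Type u} [Field k] [Field F] [Algebra k F]
    {O : ValuationSubring F}
    (hO : ∀ c : k, algebraMap k F c ∈ O) {u v : F} (hu : O.valuation u < 1)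
    (hv : O.valuation v < 1) {h : MvPolynomial (Fin 2) k} {L : ℕ}
    (hL : ∀ m ∈ h.support, L ≤ m 0) :
    O.valuation (aeval ![u, v] h) ≤ O.valuation u ^ L := by
  rw [aeval_def, eval₂_eq']
  refine Valuation.map_sum_le _ ?_
  intro m hm
  rw [Fin.prod_univ_two, map_mul, map_mul, map_pow, map_pow]
  have h1 : O.valuation (algebraMap k F (h.coeff m)) ≤ 1 :=
    (O.valuation_le_one_iff _).mpr (hO _)
  have h2 : O.valuation ((![u, v] : Fin 2 → F) 0) ^ m 0 ≤ O.valuation u ^ L := by
    simpa using pow_le_pow_right_of_le_one' hu.le (hL m hm)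
  have h3 : O.valuation ((![u, v] : Fin 2 → F) 1) ^ m 1 ≤ 1 := by
    simpa using pow_le_one' hv.le (m 1)
  calc _ ≤ 1 * (O.valuation u ^ L * 1) := mul_le_mul' h1 (mul_le_mul' h2 h3)
    _ = O.valuation u ^ L := by rw [one_mul, mul_one]

private theorem lo_le {S : Finset (Fin 2 →₀ ℕ)} {m : Fin 2 →₀ ℕ} (hm : m ∈ S) : lo S ≤ m 0 :=
  Nat.sInf_le ⟨m, hm, rfl⟩

private theorem nu_empty : nu (∅ : Finset (Fin 2 →₀ ℕ)) = 0 := by
  simp [nu]

private theorem pow_lt_of_lt {O : ValuationSubring F} {u : F} (hu0 : u ≠ 0)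
    (hu : O.valuation u < 1) {m n : ℕ} (h : m < n) :
    O.valuation u ^ n < O.valuation u ^ m := by
  have h0 : 0 < O.valuation u := by
    rw [zero_lt_iff]
    exact (Valuation.ne_zero_iff _).mpr hu0
  exact pow_lt_pow_right_of_lt_one₀ h0 hu h

omit [IsAlgClosed k] in
/-- the polynomial measuring the inner induction -/
private theorem hpoly_lo {G h : MvPolynomial (Fin 2) k}
    (hh : h = pderiv 1 G ∨ h = X 0 * pderiv 0 G) :
    ∀ m ∈ h.support, lo (SD G) ≤ m 0 := by
  classical
  intro m hm
  refine lo_le ?_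
  unfold SD
  rcases hh with rfl | rfl
  · exact Finset.mem_union_right _ hm
  · exact Finset.mem_union_left _ hm

private theorem proc_g_aux {Q : Prop} {O : ValuationSubring F}
    (hO : ∀ c : k, algebraMap k F c ∈ O)
    (htr : Algebra.trdeg k F = 2)
    (hR : ∀ u v : F, Stg k O u v → Indep O u v → Q)
    (hB : ∀ U θ : F, Tr k O U θ → Q)
    (hD : ∀ u v : F, Stg k O u v → (∃ h : MvPolynomial (Fin 2) k, h ≠ 0 ∧
      ∀ N : ℕ, O.valuation (aeval ![u, v] h) < O.valuation u ^ N) → Q) (μ : ℕ) :
    ∀ (u v : F) (G f : MvPolynomial (Fin 2) k), Stg k O u v → f ≠ 0 → nu (SD G) = μ →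
    Q ∨ ∃ (u' v' : F) (G' f' : MvPolynomial (Fin 2) k), Stg k O u' v' ∧
      aeval ![u', v'] G' = aeval ![u, v] G ∧ nu (SD G') = 0 ∧ f' ≠ 0 ∧
      ∀ q : MvPolynomial (Fin 2) k, q ∣ f → ∃ q', q' ∣ f' ∧
        aeval ![u', v'] q' = aeval ![u, v] q := by
  classical
  induction μ using Nat.strong_induction_on with
  | _ μ ihμ =>
  -- composition with a step
  have hcomp : ∀ {u v U W : F} {α β a b : ℕ} {c : k} {G f : MvPolynomial (Fin 2) k},
      StepTo k O u v U W α β a b c →
      (Q ∨ ∃ (u' v' : F) (G' f' : MvPolynomial (Fin 2) k), Stg k O u' v' ∧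
        aeval ![u', v'] G' = aeval ![U, W] (sb α β a b c G) ∧ nu (SD G') = 0 ∧ f' ≠ 0 ∧
        ∀ q : MvPolynomial (Fin 2) k, q ∣ sb α β a b c f → ∃ q', q' ∣ f' ∧
          aeval ![u', v'] q' = aeval ![U, W] q) →
      (Q ∨ ∃ (u' v' : F) (G' f' : MvPolynomial (Fin 2) k), Stg k O u' v' ∧
        aeval ![u', v'] G' = aeval ![u, v] G ∧ nu (SD G') = 0 ∧ f' ≠ 0 ∧
        ∀ q : MvPolynomial (Fin 2) k, q ∣ f → ∃ q', q' ∣ f' ∧
          aeval ![u', v'] q' = aeval ![u, v] q) := by
    intro u v U W α β a b c G f hst h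
    rcases h with h | ⟨u', v', G', f', h1, h2, h3, h4, h5⟩
    · exact Or.inl h
    · refine Or.inr ⟨u', v', G', f', h1, ?_, h3, h4, ?_⟩
      · rw [h2, aeval_sb hst]
      · intro q hq
        obtain ⟨q', hq', hq''⟩ := h5 (sb α β a b c q) (map_dvd _ hq)
        exact ⟨q', hq', by rw [hq'', aeval_sb hst]⟩
  -- inner induction
  have inner : ∀ (N : ℕ) (u v : F) (G f h : MvPolynomial (Fin 2) k), Stg k O u v → f ≠ 0 →
      nu (SD G) = μ → 1 ≤ μ → h ≠ 0 →
      (h = pderiv 1 G ∨ (pderiv 1 G = 0 ∧ h = X 0 * pderiv 0 G)) →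
      O.valuation u ^ (lo (SD G) + N) ≤ O.valuation (aeval ![u, v] h) →
      Q ∨ ∃ (u' v' : F) (G' f' : MvPolynomial (Fin 2) k), Stg k O u' v' ∧
        aeval ![u', v'] G' = aeval ![u, v] G ∧ nu (SD G') = 0 ∧ f' ≠ 0 ∧
        ∀ q : MvPolynomial (Fin 2) k, q ∣ f → ∃ q', q' ∣ f' ∧
          aeval ![u', v'] q' = aeval ![u, v] q := by
    intro N
    induction N with
    | zero =>
      intro u v G f h hs hf hG hμ hh0 hh hval
      rcases step_cases hO htr hs with hi | ⟨U, θ, hT⟩ | ⟨U, W, α, β, a, b, c, hst⟩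
      · exact Or.inl (hR u v hs hi)
      · exact Or.inl (hB U θ hT)
      · have hne : (SD G).Nonempty := by
          rw [Finset.nonempty_iff_ne_empty]
          intro he
          rw [he, nu_empty] at hG
          omega
        obtain ⟨hg1, hg2⟩ := face_g (a := a) (b := b) hst.hα hst.hβ hst.hab hst.hc hne
        have hf1 : sb α β a b c f ≠ 0 := (face_f hst.hα hst.hβ hst.hab hst.hc hf).1
        by_cases hlt : nu (SD (sb α β a b c G)) < μ
        · exact hcomp hst (ihμ _ hlt U W _ _ hst.stg hf1 rfl)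
        · exfalso
          have hle : μ ≤ nu (SD (sb α β a b c G)) := not_lt.mp hlt
          have hα1 : α = 1 := by
            have hα := hst.hα
            rw [hG] at hg2
            by_contra hne1
            have h2 : 2 ≤ α := by omega
            have : 2 * μ ≤ α * nu (SD (sb α β a b c G)) := Nat.mul_le_mul h2 hle
            omega
          subst hα1
          obtain ⟨ha, hb⟩ := hst.one rfl
          subst ha hb
          have hU : u = U := by simpa using hst.hu
          subst hU
          have he : nu (SD (sb 1 β 0 1 c G)) = nu (SD G) := by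
            rw [one_mul] at hg2
            omega
          obtain ⟨hp1, hp2⟩ := pderiv_sb1 β c G
          have hF := face_g1 hst.hβ hst.hc hne (by omega) he
          rcases hh with hh | ⟨hd, hh⟩
          · have hlo : lo (SD G) + β + 1 ≤ lo (SD (sb 1 β 0 1 c G)) := by
              rcases hF with hF | hF
              · exact hF
              · exact absurd (hh.trans hF.1) hh0
            have e1 : O.valuation (aeval ![u, W] (pderiv 1 (sb 1 β 0 1 c G))) =
                O.valuation u ^ β * O.valuation (aeval ![u, v] h) := by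
              rw [hp1, map_mul, map_pow, aeval_X, aeval_sb hst, map_mul, map_pow, hh]
              simp
            have e2 := val_le_of_supp hO hs.hu hst.stg.hv
              (hpoly_lo (G := sb 1 β 0 1 c G) (Or.inl rfl))
            rw [e1] at e2
            have e3 : O.valuation u ^ β * O.valuation u ^ (lo (SD G) + 0) ≤
                O.valuation u ^ lo (SD (sb 1 β 0 1 c G)) :=
              (mul_le_mul_right hval _).trans e2
            rw [← pow_add] at e3
            exact absurd e3 (not_le.mpr (pow_lt_of_lt hs.u0 hs.hu (by omega)))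
          · have hlo : lo (SD G) + 1 ≤ lo (SD (sb 1 β 0 1 c G)) := by
              rcases hF with hF | hF
              · omega
              · exact hF.2
            have e1 : O.valuation (aeval ![u, W] (X 0 * pderiv 0 (sb 1 β 0 1 c G))) =
                O.valuation (aeval ![u, v] h) := by
              rw [hp2, hd, mul_zero, mul_zero, add_zero, aeval_sb hst, hh]
            have e2 := val_le_of_supp hO hs.hu hst.stg.hv
              (hpoly_lo (G := sb 1 β 0 1 c G) (Or.inr rfl))
            rw [e1] at e2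
            have e3 := hval.trans e2
            exact absurd e3 (not_le.mpr (pow_lt_of_lt hs.u0 hs.hu (by omega)))
    | succ N ihN =>
      intro u v G f h hs hf hG hμ hh0 hh hval
      rcases step_cases hO htr hs with hi | ⟨U, θ, hT⟩ | ⟨U, W, α, β, a, b, c, hst⟩
      · exact Or.inl (hR u v hs hi)
      · exact Or.inl (hB U θ hT)
      · have hne : (SD G).Nonempty := by
          rw [Finset.nonempty_iff_ne_empty]
          intro he
          rw [he, nu_empty] at hG
          omega
        obtain ⟨hg1, hg2⟩ := face_g (a := a) (b := b) hst.hα hst.hβ hst.hab hst.hc hne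
        have hf1 : sb α β a b c f ≠ 0 := (face_f hst.hα hst.hβ hst.hab hst.hc hf).1
        by_cases hlt : nu (SD (sb α β a b c G)) < μ
        · exact hcomp hst (ihμ _ hlt U W _ _ hst.stg hf1 rfl)
        · have hle : μ ≤ nu (SD (sb α β a b c G)) := not_lt.mp hlt
          have hα1 : α = 1 := by
            have hα := hst.hα
            rw [hG] at hg2
            by_contra hne1
            have h2 : 2 ≤ α := by omega
            have : 2 * μ ≤ α * nu (SD (sb α β a b c G)) := Nat.mul_le_mul h2 hle
            omega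
          subst hα1
          obtain ⟨ha, hb⟩ := hst.one rfl
          subst ha hb
          have hU : u = U := by simpa using hst.hu
          subst hU
          have he : nu (SD (sb 1 β 0 1 c G)) = nu (SD G) := by
            rw [one_mul] at hg2
            omega
          obtain ⟨hp1, hp2⟩ := pderiv_sb1 β c G
          have hF := face_g1 hst.hβ hst.hc hne (by omega) he
          rcases hh with hh | ⟨hd, hh⟩
          · have hlo : lo (SD G) + β + 1 ≤ lo (SD (sb 1 β 0 1 c G)) := by
              rcases hF with hF | hF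
              · exact hF
              · exact absurd (hh.trans hF.1) hh0
            have e1 : O.valuation (aeval ![u, W] (pderiv 1 (sb 1 β 0 1 c G))) =
                O.valuation u ^ β * O.valuation (aeval ![u, v] h) := by
              rw [hp1, map_mul, map_pow, aeval_X, aeval_sb hst, map_mul, map_pow, hh]
              simp
            have hn0 : pderiv 1 (sb 1 β 0 1 c G) ≠ 0 := by
              rw [hp1]
              refine mul_ne_zero (pow_ne_zero _ (X_ne_zero _)) ?_
              rw [← hh]
              exact (face_f hst.hα hst.hβ hst.hab hst.hc hh0).1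
            refine hcomp hst (ihN u W _ _ _ hst.stg hf1 (he.trans hG) hμ hn0 (Or.inl rfl) ?_)
            rw [e1]
            refine le_trans ?_ (mul_le_mul_right hval (O.valuation u ^ β))
            rw [← pow_add]
            exact pow_le_pow_right_of_le_one' hs.hu.le (by omega)
          · have hlo : lo (SD G) + 1 ≤ lo (SD (sb 1 β 0 1 c G)) := by
              rcases hF with hF | hF
              · omega
              · exact hF.2
            have e0 : X 0 * pderiv 0 (sb 1 β 0 1 c G) = sb 1 β 0 1 c h := by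
              rw [hp2, hd, mul_zero, mul_zero, add_zero, hh]
            have hn0 : X 0 * pderiv 0 (sb 1 β 0 1 c G) ≠ 0 := by
              rw [e0]
              exact (face_f hst.hα hst.hβ hst.hab hst.hc hh0).1
            have hd1 : pderiv 1 (sb 1 β 0 1 c G) = 0 := by
              rw [hp1, hd, map_zero, mul_zero]
            refine hcomp hst (ihN u W _ _ _ hst.stg hf1 (he.trans hG) hμ hn0
              (Or.inr ⟨hd1, rfl⟩) ?_)
            rw [e0, aeval_sb hst]
            refine le_trans ?_ hval
            exact pow_le_pow_right_of_le_one' hs.hu.le (by omega)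
  intro u v G f hs hf hG
  rcases Nat.eq_zero_or_pos μ with h0 | hpos
  · subst h0
    exact Or.inr ⟨u, v, G, f, hs, rfl, hG, hf, fun q hq => ⟨q, hq, rfl⟩⟩
  · have hne : (SD G).Nonempty := by
      rw [Finset.nonempty_iff_ne_empty]
      intro he
      rw [he, nu_empty] at hG
      omega
    obtain ⟨h, hh0, hh⟩ : ∃ h : MvPolynomial (Fin 2) k, h ≠ 0 ∧
        (h = pderiv 1 G ∨ (pderiv 1 G = 0 ∧ h = X 0 * pderiv 0 G)) := by
      by_cases hd : pderiv 1 G = 0
      · refine ⟨X 0 * pderiv 0 G, ?_, Or.inr ⟨hd, rfl⟩⟩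
        intro hz
        obtain ⟨m, hm⟩ := hne
        unfold SD at hm
        rw [hz, hd] at hm
        simp at hm
      · exact ⟨_, hd, Or.inl rfl⟩
    by_cases hN : ∀ N : ℕ, O.valuation (aeval ![u, v] h) < O.valuation u ^ N
    · exact Or.inl (hD u v hs ⟨h, hh0, hN⟩)
    · push Not at hN
      obtain ⟨N, hN⟩ := hN
      refine inner N u v G f h hs hf hG hpos hh0 hh (le_trans ?_ hN)
      exact pow_le_pow_right_of_le_one' hs.hu.le (by omega)

theorem proc_g {Q : Prop} {O : ValuationSubring F} (hO : ∀ c : k, algebraMap k F c ∈ O)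
    (htr : Algebra.trdeg k F = 2)
    (hR : ∀ u v : F, Stg k O u v → Indep O u v → Q)
    (hB : ∀ U θ : F, Tr k O U θ → Q)
    (hD : ∀ u v : F, Stg k O u v → (∃ h : MvPolynomial (Fin 2) k, h ≠ 0 ∧
      ∀ N : ℕ, O.valuation (aeval ![u, v] h) < O.valuation u ^ N) → Q)
    {u v : F} (hs : Stg k O u v) (G f : MvPolynomial (Fin 2) k) (hf : f ≠ 0) :
    Q ∨ ∃ (u' v' : F) (G' f' : MvPolynomial (Fin 2) k), Stg k O u' v' ∧
      aeval ![u', v'] G' = aeval ![u, v] G ∧ nu (SD G') = 0 ∧ f' ≠ 0 ∧
      ∀ q : MvPolynomial (Fin 2) k, q ∣ f → ∃ q', q' ∣ f' ∧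
        aeval ![u', v'] q' = aeval ![u, v] q :=
  proc_g_aux hO htr hR hB hD _ u v G f hs hf rfl

omit [IsAlgClosed k] in
private theorem nu_sb_zero {α β a b : ℕ} (hα : 0 < α) (hβ : 0 < β) (hab : α * b = β * a + 1)
    {c : k} (hc : c ≠ 0) {G : MvPolynomial (Fin 2) k} (hG : nu (SD G) = 0) :
    nu (SD (sb α β a b c G)) = 0 := by
  by_cases he : SD G = ∅
  · rw [SD_empty_sb c he, nu_empty]
  · have h := (face_g hα hβ hab hc (Finset.nonempty_iff_ne_empty.mpr he)).2
    rw [hG] at h
    rcases Nat.eq_zero_or_pos (nu (SD (sb α β a b c G))) with h0 | h0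
    · exact h0
    · have := Nat.mul_pos hα h0
      omega

private theorem proc_f_aux {Q : Prop} {O : ValuationSubring F}
    (hO : ∀ c : k, algebraMap k F c ∈ O)
    (htr : Algebra.trdeg k F = 2)
    (hR : ∀ u v : F, Stg k O u v → Indep O u v → Q)
    (hB : ∀ U θ : F, Tr k O U θ → Q)
    (hD : ∀ u v : F, Stg k O u v → (∃ h : MvPolynomial (Fin 2) k, h ≠ 0 ∧
      ∀ N : ℕ, O.valuation (aeval ![u, v] h) < O.valuation u ^ N) → Q) (μ : ℕ) :
    ∀ (u v : F) (G f : MvPolynomial (Fin 2) k), Stg k O u v → f ≠ 0 → nu (SD G) = 0 →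
      nu f.support = μ →
    Q ∨ ∃ (u' v' : F) (G' f' : MvPolynomial (Fin 2) k), Stg k O u' v' ∧
      aeval ![u', v'] G' = aeval ![u, v] G ∧ nu (SD G') = 0 ∧ f' ≠ 0 ∧ nu f'.support = 0 ∧
      ∀ q : MvPolynomial (Fin 2) k, q ∣ f → ∃ q', q' ∣ f' ∧
        aeval ![u', v'] q' = aeval ![u, v] q := by
  classical
  induction μ using Nat.strong_induction_on with
  | _ μ ihμ =>
  have hcomp : ∀ {u v U W : F} {α β a b : ℕ} {c : k} {G f : MvPolynomial (Fin 2) k},
      StepTo k O u v U W α β a b c →
      (Q ∨ ∃ (u' v' : F) (G' f' : MvPolynomial (Fin 2) k), Stg k O u' v' ∧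
        aeval ![u', v'] G' = aeval ![U, W] (sb α β a b c G) ∧ nu (SD G') = 0 ∧ f' ≠ 0 ∧
        nu f'.support = 0 ∧
        ∀ q : MvPolynomial (Fin 2) k, q ∣ sb α β a b c f → ∃ q', q' ∣ f' ∧
          aeval ![u', v'] q' = aeval ![U, W] q) →
      (Q ∨ ∃ (u' v' : F) (G' f' : MvPolynomial (Fin 2) k), Stg k O u' v' ∧
        aeval ![u', v'] G' = aeval ![u, v] G ∧ nu (SD G') = 0 ∧ f' ≠ 0 ∧
        nu f'.support = 0 ∧
        ∀ q : MvPolynomial (Fin 2) k, q ∣ f → ∃ q', q' ∣ f' ∧
          aeval ![u', v'] q' = aeval ![u, v] q) := by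
    intro u v U W α β a b c G f hst h
    rcases h with h | ⟨u', v', G', f', h1, h2, h3, h4, h6, h5⟩
    · exact Or.inl h
    · refine Or.inr ⟨u', v', G', f', h1, ?_, h3, h4, h6, ?_⟩
      · rw [h2, aeval_sb hst]
      · intro q hq
        obtain ⟨q', hq', hq''⟩ := h5 (sb α β a b c q) (map_dvd _ hq)
        exact ⟨q', hq', by rw [hq'', aeval_sb hst]⟩
  have inner : ∀ (N : ℕ) (u v : F) (G f : MvPolynomial (Fin 2) k), Stg k O u v → f ≠ 0 →
      nu (SD G) = 0 → nu f.support = μ → 1 ≤ μ →
      O.valuation u ^ (lo f.support + N) ≤ O.valuation (aeval ![u, v] f) →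
      Q ∨ ∃ (u' v' : F) (G' f' : MvPolynomial (Fin 2) k), Stg k O u' v' ∧
        aeval ![u', v'] G' = aeval ![u, v] G ∧ nu (SD G') = 0 ∧ f' ≠ 0 ∧
        nu f'.support = 0 ∧
        ∀ q : MvPolynomial (Fin 2) k, q ∣ f → ∃ q', q' ∣ f' ∧
          aeval ![u', v'] q' = aeval ![u, v] q := by
    intro N
    induction N with
    | zero =>
      intro u v G f hs hf hG hnu hμ hval
      rcases step_cases hO htr hs with hi | ⟨U, θ, hT⟩ | ⟨U, W, α, β, a, b, c, hst⟩
      · exact Or.inl (hR u v hs hi)
      · exact Or.inl (hB U θ hT)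
      · obtain ⟨hf1, hf2⟩ := face_f (a := a) (b := b) hst.hα hst.hβ hst.hab hst.hc hf
        have hG1 := nu_sb_zero (a := a) (b := b) hst.hα hst.hβ hst.hab hst.hc hG
        by_cases hlt : nu (sb α β a b c f).support < μ
        · exact hcomp hst (ihμ _ hlt U W _ _ hst.stg hf1 hG1 rfl)
        · exfalso
          have hle : μ ≤ nu (sb α β a b c f).support := not_lt.mp hlt
          have hα1 : α = 1 := by
            have hα := hst.hα
            rw [hnu] at hf2
            by_contra hne1
            have h2 : 2 ≤ α := by omega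
            have : 2 * μ ≤ α * nu (sb α β a b c f).support := Nat.mul_le_mul h2 hle
            omega
          subst hα1
          obtain ⟨ha, hb⟩ := hst.one rfl
          subst ha hb
          have hU : u = U := by simpa using hst.hu
          subst hU
          have hlo := face_f1 hst.hβ hst.hc hf (by omega)
          have e2 := val_le_of_supp hO hs.hu hst.stg.hv (h := sb 1 β 0 1 c f)
            (fun m hm => lo_le hm)
          rw [aeval_sb hst] at e2
          exact absurd (hval.trans e2) (not_le.mpr (pow_lt_of_lt hs.u0 hs.hu (by omega)))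
    | succ N ihN =>
      intro u v G f hs hf hG hnu hμ hval
      rcases step_cases hO htr hs with hi | ⟨U, θ, hT⟩ | ⟨U, W, α, β, a, b, c, hst⟩
      · exact Or.inl (hR u v hs hi)
      · exact Or.inl (hB U θ hT)
      · obtain ⟨hf1, hf2⟩ := face_f (a := a) (b := b) hst.hα hst.hβ hst.hab hst.hc hf
        have hG1 := nu_sb_zero (a := a) (b := b) hst.hα hst.hβ hst.hab hst.hc hG
        by_cases hlt : nu (sb α β a b c f).support < μ
        · exact hcomp hst (ihμ _ hlt U W _ _ hst.stg hf1 hG1 rfl)
        · have hle : μ ≤ nu (sb α β a b c f).support := not_lt.mp hlt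
          have hα1 : α = 1 := by
            have hα := hst.hα
            rw [hnu] at hf2
            by_contra hne1
            have h2 : 2 ≤ α := by omega
            have : 2 * μ ≤ α * nu (sb α β a b c f).support := Nat.mul_le_mul h2 hle
            omega
          subst hα1
          obtain ⟨ha, hb⟩ := hst.one rfl
          subst ha hb
          have hU : u = U := by simpa using hst.hu
          subst hU
          have hlo := face_f1 hst.hβ hst.hc hf (by omega)
          have he : nu (sb 1 β 0 1 c f).support = μ := by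
            rw [one_mul] at hf2
            omega
          refine hcomp hst (ihN u W _ _ hst.stg hf1 hG1 he hμ ?_)
          rw [aeval_sb hst]
          refine le_trans ?_ hval
          exact pow_le_pow_right_of_le_one' hs.hu.le (by omega)
  intro u v G f hs hf hG hnu
  rcases Nat.eq_zero_or_pos μ with h0 | hpos
  · subst h0
    exact Or.inr ⟨u, v, G, f, hs, rfl, hG, hf, hnu, fun q hq => ⟨q, hq, rfl⟩⟩
  · by_cases hN : ∀ N : ℕ, O.valuation (aeval ![u, v] f) < O.valuation u ^ N
    · exact Or.inl (hD u v hs ⟨f, hf, hN⟩)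
    · push Not at hN
      obtain ⟨N, hN⟩ := hN
      refine inner N u v G f hs hf hG hnu hpos (le_trans ?_ hN)
      exact pow_le_pow_right_of_le_one' hs.hu.le (by omega)

theorem proc_f {Q : Prop} {O : ValuationSubring F} (hO : ∀ c : k, algebraMap k F c ∈ O)
    (htr : Algebra.trdeg k F = 2)
    (hR : ∀ u v : F, Stg k O u v → Indep O u v → Q)
    (hB : ∀ U θ : F, Tr k O U θ → Q)
    (hD : ∀ u v : F, Stg k O u v → (∃ h : MvPolynomial (Fin 2) k, h ≠ 0 ∧
      ∀ N : ℕ, O.valuation (aeval ![u, v] h) < O.valuation u ^ N) → Q)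
    {u v : F} (hs : Stg k O u v) (G f : MvPolynomial (Fin 2) k) (hG : nu (SD G) = 0)
    (hf : f ≠ 0) :
    Q ∨ ∃ (u' v' : F) (G' f' : MvPolynomial (Fin 2) k), Stg k O u' v' ∧
      aeval ![u', v'] G' = aeval ![u, v] G ∧ nu (SD G') = 0 ∧ f' ≠ 0 ∧ nu f'.support = 0 ∧
      ∀ q : MvPolynomial (Fin 2) k, q ∣ f → ∃ q', q' ∣ f' ∧
        aeval ![u', v'] q' = aeval ![u, v] q :=
  proc_f_aux hO htr hR hB hD _ u v G f hs hf hG rfl

end LS
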