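import Pool.Agent.helper90.LS.ACaseA
import Pool.Agent.helper90.LS.ACaseB
import Pool.Agent.helper90.LS.ACaseR
import Pool.Agent.helper90.LS.AProc
import Pool.Agent.helper90.LS.AFin
import Pool.Agent.helper90.LS.ADFin
import Pool.Agent.helper90.LS.DRecQ
import Pool.Agent.helper90.LS.CaseA
import Pool.Agent.helper90.LS.Proc
import Pool.Agent.helper90.LS.Drive

/-! # LUS-ADrive: Artin-Schreier normal forms on rational surfaces, along every valuation -/

open MvPolynomial

namespace LS

open LU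

universe u

variable {k : Type u} {F : Type u} [Field k] [IsAlgClosed k] [Field F] [Algebra k F]

/-- the case of a center at a closed point -/
theorem ADrive_stg (p : ℕ) [Fact p.Prime] [CharP k p] {O : ValuationSubring F}
    (hO : ∀ c : k, algebraMap k F c ∈ O) (htr : Algebra.trdeg k F = 2) {u v : F}
    (hs : Stg k O u v) (g : F) (H : Finset F) : HasAS k p 2 O g H := by
  classical
  have hR : ∀ u v : F, Stg k O u v → Indep O u v → HasAS k p 2 O g H :=
    fun u v h hi => as_case_r p hO htr h hi g H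
  have hB : ∀ U θ : F, Tr k O U θ → HasAS k p 2 O g H := by
    intro U θ h
    obtain ⟨h1, h2, h3⟩ := tr_center hO h
    exact as_case_b p hO htr h.gen ((O.valuation_le_one_iff U).1 h.hU.le) h1 h2 h3 g H
  have hF : ∀ (u v : F) (f : MvPolynomial (Fin 2) k), Stg k O u v → Irreducible f →
      (∀ N : ℕ, O.valuation (aeval ![u, v] f) < O.valuation u ^ N) →
      coeff 0 (pderiv 1 f) ≠ 0 → HasAS k p 2 O g H :=
    fun u v f hs hf hN hfd => as_d_fin p hO htr hs hf hN hfd g H
  have hD : ∀ u v : F, Stg k O u v → (∃ h : MvPolynomial (Fin 2) k, h ≠ 0 ∧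
      ∀ N : ℕ, O.valuation (aeval ![u, v] h) < O.valuation u ^ N) → HasAS k p 2 O g H := by
    rintro u v hs ⟨h, hh, hN⟩
    exact d_rec p hO htr hR hB hF hs hh hN
  -- fractions
  choose Nf Df hDf hf using fun h : F => exists_frac hs.gen h
  set H' : Finset F := insert g H with hH'
  have hfne : ∏ h ∈ H'.filter (· ≠ 0), (Nf h * Df h) ≠ 0 := by
    refine Finset.prod_ne_zero_iff.2 fun h hh => mul_ne_zero ?_ ?_
    · intro h0
      have h1 := hf h
      rw [h0, map_zero, zero_div] at h1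
      exact (Finset.mem_filter.1 hh).2 h1
    · intro h0
      exact hDf h (by rw [h0, map_zero])
  have hnu0 : nu (SD (0 : MvPolynomial (Fin 2) k)) = 0 := by
    have h1 : SD (0 : MvPolynomial (Fin 2) k) = ∅ := by
      simp [SD]
    rw [h1]
    simp [nu]
  rcases proc_f hO htr hR hB hD hs 0 (∏ h ∈ H'.filter (· ≠ 0), (Nf h * Df h)) hnu0 hfne with
    hQ | ⟨u1, v1, G1, f1, hs1, -, -, hf1, hν1, hq1⟩
  · exact hQ
  have hfr : ∀ h ∈ H', h ≠ 0 → ∃ N D : MvPolynomial (Fin 2) k, N ∣ f1 ∧ D ∣ f1 ∧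
      aeval ![u1, v1] D ≠ 0 ∧ h = aeval ![u1, v1] N / aeval ![u1, v1] D := by
    intro h hh h0
    have hdvd : Nf h * Df h ∣ ∏ h ∈ H'.filter (· ≠ 0), (Nf h * Df h) :=
      Finset.dvd_prod_of_mem (fun h => Nf h * Df h) (Finset.mem_filter.2 ⟨hh, h0⟩)
    obtain ⟨N', h1, h2⟩ := hq1 (Nf h) ((Dvd.intro _ rfl).trans hdvd)
    obtain ⟨D', h3, h4⟩ := hq1 (Df h) ((Dvd.intro_left _ rfl).trans hdvd)
    exact ⟨N', D', h1, h3, by rw [h4]; exact hDf h, by rw [h2, h4]; exact hf h⟩
  -- the denominator of `g`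
  obtain ⟨m0, hm0, hm1, hm2⟩ := Face_nu_mem (support_nonempty.2 hf1)
  obtain ⟨f2, hff, hfc⟩ := PF.exists_X_pow f1 (lo f1.support)
    (fun m hm => Face_lo_le (mem_support_iff.2 hm))
  have hf2c : coeff 0 f2 ≠ 0 := by
    rw [hfc, add_zero]
    have hm : m0 = Finsupp.single 0 (lo f1.support) := by
      refine Finsupp.ext fun i => ?_
      fin_cases i
      · simpa using hm1
      · rw [hν1] at hm2
        simpa using hm2
    rw [← hm]
    exact mem_support_iff.1 hm0
  obtain ⟨M, h, G, hh, hg⟩ : ∃ (M : ℕ) (h G : MvPolynomial (Fin 2) k), coeff 0 h ≠ 0 ∧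
      g * (u1 ^ M * aeval ![u1, v1] h) ^ p = aeval ![u1, v1] G := by
    by_cases hg0 : g = 0
    · refine ⟨0, 1, 0, ?_, ?_⟩
      · simp
      · rw [hg0, zero_mul, map_zero]
    · obtain ⟨N, D, hN, hD, hD0, hgN⟩ := hfr g (Finset.mem_insert_self _ _) hg0
      obtain ⟨M, h, hDe, hh⟩ := PF.div_of_dvd hff hf2c hD
      refine ⟨M, h, N * D ^ (p - 1), hh, ?_⟩
      have h1 : u1 ^ M * aeval ![u1, v1] h = aeval ![u1, v1] D := by
        rw [hDe, map_mul, map_pow, aeval_X]
        rfl
      have hp1 : p - 1 + 1 = p := Nat.sub_add_cancel (Fact.out (p := p.Prime)).one_le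
      have h2 : aeval ![u1, v1] D ^ p = aeval ![u1, v1] D ^ (p - 1) * aeval ![u1, v1] D := by
        rw [← pow_succ, hp1]
      rw [h1, map_mul, map_pow, h2, hgN]
      field_simp
  rcases as_proc p hO htr hR hB hs1 g M h G f1 hh hg hf1 hν1 with
    hQ | ⟨u2, v2, g', A, M', h', G', f', hs2, hgg, hh', hg', hred, hG', hf', hν', hq2⟩
  · exact hQ
  refine HasAS.add (as_fin p hO htr hs2 g' M' h' G' f' hh' hg' hred hG' hf' hν' H ?_) hgg
  intro x hx hx0
  obtain ⟨N, D, hN, hD, -, hxN⟩ := hfr x (Finset.mem_insert_of_mem hx) hx0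
  obtain ⟨N', h1, h2⟩ := hq2 N hN
  obtain ⟨D', h3, h4⟩ := hq2 D hD
  exact ⟨N', D', h1, h3, by rw [h2, h4]; exact hxN⟩

theorem ADrive_as (p : ℕ) [Fact p.Prime] [CharP k p] {O : ValuationSubring F}
    (hO : ∀ c : k, algebraMap k F c ∈ O) (htr : Algebra.trdeg k F = 2) {x y : F}
    (hgen : IntermediateField.adjoin k {x, y} = ⊤) (hx : x ∈ O) (hy : y ∈ O) (g : F)
    (H : Finset F) : HasAS k p 2 O g H := by
  obtain ⟨P, hP, hPm⟩ := Drive_center hO hx hy
  by_cases hbot : P = ⊥
  · refine as_case_a p hO htr hgen (fun h h0 => ?_) g H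
    have h1 : ¬ O.valuation (aeval ![x, y] h) < 1 := by
      rw [← hPm, hbot]
      exact h0
    exact le_antisymm ((O.valuation_le_one_iff _).2 (Drive_mem hO hx hy h)) (not_lt.1 h1)
  by_cases hmax : P.IsMaximal
  · -- a closed point
    obtain ⟨z, hz⟩ := eq_vanishingIdeal_singleton_of_isMaximal k hmax
    have hv : ∀ i, O.valuation (aeval ![x, y] (X i - C (z i))) < 1 := by
      intro i
      rw [← hPm, hz, mem_vanishingIdeal_singleton_iff]
      simp
    have hinj := aeval_inj hgen htr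
    have hne : ∀ i, aeval ![x, y] (X i - C (z i) : MvPolynomial (Fin 2) k) ≠ 0 := by
      intro i h0
      rw [← map_zero (aeval ![x, y] : MvPolynomial (Fin 2) k →ₐ[k] F)] at h0
      have h1 := hinj h0
      have h2 := congrArg (MvPolynomial.eval (fun j => z j + 1)) h1
      simp at h2
    have hu : O.valuation (x - algebraMap k F (z 0)) < 1 := by simpa using hv 0
    have hw : O.valuation (y - algebraMap k F (z 1)) < 1 := by simpa using hv 1
    have hu0 : x - algebraMap k F (z 0) ≠ 0 := by simpa using hne 0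
    have hw0 : y - algebraMap k F (z 1) ≠ 0 := by simpa using hne 1
    have hgen' : IntermediateField.adjoin k
        {x - algebraMap k F (z 0), y - algebraMap k F (z 1)} = ⊤ := by
      refine Drive_gen hgen ?_ ?_
      · have h1 := add_mem (IntermediateField.subset_adjoin k
          {x - algebraMap k F (z 0), y - algebraMap k F (z 1)} (Set.mem_insert _ _))
          ((IntermediateField.adjoin k
          {x - algebraMap k F (z 0), y - algebraMap k F (z 1)}).algebraMap_mem (z 0))
        rwa [sub_add_cancel] at h1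
      · have h1 := add_mem (IntermediateField.subset_adjoin k
          {x - algebraMap k F (z 0), y - algebraMap k F (z 1)}
          (Set.mem_insert_of_mem _ (Set.mem_singleton _)))
          ((IntermediateField.adjoin k
          {x - algebraMap k F (z 0), y - algebraMap k F (z 1)}).algebraMap_mem (z 1))
        rwa [sub_add_cancel] at h1
    exact ADrive_stg p hO htr ⟨hgen', hu0, hw0, hu, hw⟩ g H
  · -- a curve
    obtain ⟨h, hhP, hh0⟩ := Submodule.exists_mem_ne_zero_of_ne_bot hbot
    have hnu : ¬ IsUnit h := fun hu => hP.ne_top (Ideal.eq_top_of_isUnit_mem _ hhP hu)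
    obtain ⟨f, hf, hfP⟩ : ∃ f, Irreducible f ∧ f ∈ P := by
      obtain ⟨s, hs, hsh⟩ := UniqueFactorizationMonoid.exists_prime_factors h hh0
      obtain ⟨w, hw⟩ := hsh
      have h1 : s.prod ∈ P := by
        have h2 : s.prod = h * ((w⁻¹ : (MvPolynomial (Fin 2) k)ˣ) : MvPolynomial (Fin 2) k) := by
          rw [← hw, mul_assoc, Units.mul_inv, mul_one]
        rw [h2]
        exact P.mul_mem_right _ hhP
      obtain ⟨f, hfs, hfP⟩ := (hP.multiset_prod_mem_iff_exists_mem s).1 h1
      exact ⟨f, (hs f hfs).irreducible, hfP⟩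
    refine as_case_b p hO htr hgen hx hy hf (fun h => ?_) g H
    rw [← hPm, ← Ideal.mem_span_singleton]
    have hfp : (Ideal.span {f}).IsPrime := (Ideal.span_singleton_prime hf.ne_zero).2 hf.prime
    have hle : Ideal.span {f} ≤ P := (Ideal.span_singleton_le_iff_mem _).2 hfP
    rcases hle.eq_or_lt with he | hlt
    · rw [he]
    · exfalso
      obtain ⟨M, hM, hPM⟩ := P.exists_le_maximal hP.ne_top
      have hPM' : P < M := lt_of_le_of_ne hPM (fun he => hmax (he ▸ hM))
      have hdim : ringKrullDim (MvPolynomial (Fin 2) k) ≤ 2 := by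
        rw [MvPolynomial.ringKrullDim_of_isNoetherianRing, ringKrullDim_eq_zero_of_field]
        simp
      refine Drive_chain hdim hfp hP hM.isPrime ?_ hlt hPM'
      rw [Ne, Ideal.span_singleton_eq_bot]
      exact hf.ne_zero

theorem surf_as (p : ℕ) [Fact p.Prime] [CharP k p] {O : ValuationSubring F}
    (hO : ∀ c : k, algebraMap k F c ∈ O) (htr : Algebra.trdeg k F = 2) {x y : F}
    (hgen : IntermediateField.adjoin k {x, y} = ⊤) (g : F) (H : Finset F) :
    HasAS k p 2 O g H := by
  -- replace `x` and `y` by their inverses if necessary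
  obtain ⟨x', hx', hxx⟩ : ∃ x' : F, x' ∈ O ∧ (x' = x ∨ x' = x⁻¹) := by
    rcases O.mem_or_inv_mem x with h | h
    · exact ⟨x, h, Or.inl rfl⟩
    · exact ⟨x⁻¹, h, Or.inr rfl⟩
  obtain ⟨y', hy', hyy⟩ : ∃ y' : F, y' ∈ O ∧ (y' = y ∨ y' = y⁻¹) := by
    rcases O.mem_or_inv_mem y with h | h
    · exact ⟨y, h, Or.inl rfl⟩
    · exact ⟨y⁻¹, h, Or.inr rfl⟩
  have hx1 : x' ∈ IntermediateField.adjoin k {x', y'} :=
    IntermediateField.subset_adjoin k _ (Set.mem_insert _ _)
  have hy1 : y' ∈ IntermediateField.adjoin k {x', y'} :=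
    IntermediateField.subset_adjoin k _ (Set.mem_insert_of_mem _ (Set.mem_singleton _))
  refine ADrive_as p hO htr (Drive_gen hgen ?_ ?_) hx' hy' g H
  · rcases hxx with h | h
    · rw [← h]
      exact hx1
    · have h2 : x = x'⁻¹ := by rw [h, inv_inv]
      rw [h2]
      exact inv_mem hx1
  · rcases hyy with h | h
    · rw [← h]
      exact hy1
    · have h2 : y = y'⁻¹ := by rw [h, inv_inv]
      rw [h2]
      exact inv_mem hy1

end LS
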