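import Pool.Agent.helper90.LS.ADefs

/-! # LUS-ARed: Artin-Schreier reduction of a polynomial with the denominator `(X 0 ^ M * h) ^ p` -/

open MvPolynomial

namespace LS

universe u

/-- a `p`-th power monomial with a pole -/
def ARed_bad (p M : ℕ) (m : Fin 2 →₀ ℕ) : Prop := p ∣ m 0 ∧ p ∣ m 1 ∧ m 0 < p * M

/-- the exponent divided by `p` -/
noncomputable def ARed_div (p : ℕ) (m : Fin 2 →₀ ℕ) : Fin 2 →₀ ℕ := m.mapRange (fun i => i / p) (Nat.zero_div p)

lemma ARed_smul_div {p M : ℕ} {m : Fin 2 →₀ ℕ} (hm : ARed_bad p M m) :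
    p • ARed_div p m = m := by
  ext i
  simp only [ARed_div, Finsupp.smul_apply, Finsupp.mapRange_apply, smul_eq_mul]
  fin_cases i
  · exact Nat.mul_div_cancel' hm.1
  · exact Nat.mul_div_cancel' hm.2.1

lemma ARed_exists_root {k : Type u} [Field k] [IsAlgClosed k] (p : ℕ) [Fact p.Prime] [CharP k p]
    (M : ℕ) (G : MvPolynomial (Fin 2) k) :
    ∃ A : MvPolynomial (Fin 2) k,
      (∀ m : Fin 2 →₀ ℕ, ARed_bad p M m → coeff m (A ^ p) = coeff m G) ∧
      (∀ m : Fin 2 →₀ ℕ, ¬ ARed_bad p M m → coeff m (A ^ p) = 0) ∧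
      ∀ n ∈ A.support, ∃ m ∈ G.support, ARed_bad p M m ∧ p * n 0 = m 0 := by
  classical
  have hp : 0 < p := (Fact.out : p.Prime).pos
  have hr : ∀ c : k, ∃ z : k, z ^ p = c := fun c => IsAlgClosed.exists_pow_nat_eq c hp
  choose r hr using hr
  refine ⟨∑ m ∈ G.support.filter (ARed_bad p M), monomial (ARed_div p m) (r (coeff m G)), ?_⟩
  have hA : (∑ m ∈ G.support.filter (ARed_bad p M), monomial (ARed_div p m) (r (coeff m G))) ^ p
      = ∑ m ∈ G.support.filter (ARed_bad p M), monomial m (coeff m G) := by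
    rw [sum_pow_char p]
    refine Finset.sum_congr rfl fun m hm => ?_
    rw [monomial_pow, ARed_smul_div (Finset.mem_filter.1 hm).2, hr]
  rw [hA]
  refine ⟨fun m hm => ?_, fun m hm => ?_, fun n hn => ?_⟩
  · rw [coeff_sum]
    simp only [coeff_monomial, Finset.sum_ite_eq', Finset.mem_filter, mem_support_iff, ne_eq]
    by_cases h0 : coeff m G = 0
    · rw [if_neg (fun h => h.1 h0), h0]
    · rw [if_pos ⟨h0, hm⟩]
  · rw [coeff_sum]
    simp only [coeff_monomial, Finset.sum_ite_eq', Finset.mem_filter, mem_support_iff, ne_eq]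
    rw [if_neg (fun h => hm h.2)]
  · have h1 := support_sum hn
    obtain ⟨m, hm, hn1⟩ := Finset.mem_biUnion.1 h1
    have h2 := Finset.mem_filter.1 hm
    have h3 : n = ARed_div p m := by
      have h4 := support_monomial_subset hn1
      exact Finset.mem_singleton.1 h4
    refine ⟨m, h2.1, h2.2, ?_⟩
    rw [h3]
    simp only [ARed_div, Finsupp.mapRange_apply]
    exact Nat.mul_div_cancel' h2.2.1

lemma ARed_den {k : Type u} [Field k] (M n : ℕ) (h : MvPolynomial (Fin 2) k) (m : Fin 2 →₀ ℕ)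
    (hm : m ∈ ((X 0 ^ M * h) ^ n).support) : M * n ≤ m 0 := by
  rw [mul_pow, ← pow_mul, X_pow_eq_monomial, mem_support_iff, coeff_monomial_mul'] at hm
  by_cases h1 : Finsupp.single (0 : Fin 2) (M * n) ≤ m
  · have h2 := h1 0
    rwa [Finsupp.single_eq_same] at h2
  · rw [if_neg h1] at hm
    exact absurd rfl hm

lemma ARed_step {k : Type u} [Field k] [IsAlgClosed k] (p : ℕ) [Fact p.Prime] [CharP k p]
    (M ω : ℕ) (h G : MvPolynomial (Fin 2) k) (hG : ∀ m ∈ G.support, m 0 < p * M → ω ≤ m 0) :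
    ∃ A G' : MvPolynomial (Fin 2) k, G = A ^ p - A * (X 0 ^ M * h) ^ (p - 1) + G' ∧
      (∀ m ∈ G'.support, ARed_bad p M m → ∃ m' ∈ G.support, ARed_bad p M m' ∧ m' 0 < m 0) ∧
      (∀ m ∈ G'.support, m 0 < p * M → ω ≤ m 0) ∧
      ∀ m : Fin 2 →₀ ℕ, m 0 ≤ ω → m 0 < p * M → ¬ (p ∣ m 0 ∧ p ∣ m 1) →
        coeff m G' = coeff m G := by
  classical
  obtain ⟨A, h1, h2, h3⟩ := ARed_exists_root p M G
  have hp : 1 < p := (Fact.out : p.Prime).one_lt
  have key : ∀ m : Fin 2 →₀ ℕ, coeff m (A * (X 0 ^ M * h) ^ (p - 1)) ≠ 0 →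
      ∃ m' ∈ G.support, ARed_bad p M m' ∧ m' 0 < m 0 := by
    intro m hm
    obtain ⟨a, ha, b, hb, hab⟩ := Finset.mem_add.1 (support_mul _ _ (mem_support_iff.2 hm))
    obtain ⟨m', hm', hbad, h4⟩ := h3 a ha
    refine ⟨m', hm', hbad, ?_⟩
    have h5 := ARed_den M (p - 1) h b hb
    have h6 := hbad.2.2
    rw [← h4] at h6 ⊢
    have h7 : a 0 < M := lt_of_mul_lt_mul_left h6 (Nat.zero_le p)
    rw [← hab, Finsupp.add_apply]
    obtain ⟨q, rfl⟩ : ∃ q, p = q + 2 := ⟨p - 2, by omega⟩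
    have h8 : q + 2 - 1 = q + 1 := by omega
    rw [h8] at h5
    nlinarith
  refine ⟨A, G - A ^ p + A * (X 0 ^ M * h) ^ (p - 1), by ring, ?_, ?_, ?_⟩
  · intro m hm hbad
    rw [mem_support_iff, coeff_add, coeff_sub, h1 m hbad, sub_self, zero_add] at hm
    exact key m hm
  · intro m hm hlt
    by_cases h4 : coeff m (A * (X 0 ^ M * h) ^ (p - 1)) = 0
    · by_cases h5 : coeff m G = 0
      · rw [mem_support_iff, coeff_add, coeff_sub, h4, h5, add_zero, zero_sub] at hm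
        by_cases h6 : ARed_bad p M m
        · rw [h1 m h6, h5, neg_zero] at hm
          exact absurd rfl hm
        · rw [h2 m h6, neg_zero] at hm
          exact absurd rfl hm
      · exact hG m (mem_support_iff.2 h5) hlt
    · obtain ⟨m', hm', hbad, h5⟩ := key m h4
      exact (hG m' hm' hbad.2.2).trans h5.le
  · intro m hm hlt hnd
    have h4 : coeff m (A * (X 0 ^ M * h) ^ (p - 1)) = 0 := by
      by_contra h4
      obtain ⟨m', hm', hbad, h5⟩ := key m h4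
      have h6 := hG m' hm' hbad.2.2
      omega
    have h5 : ¬ ARed_bad p M m := fun h5 => hnd ⟨h5.1, h5.2.1⟩
    rw [coeff_add, coeff_sub, h2 m h5, h4, sub_zero, add_zero]

lemma ARed_ind {k : Type u} [Field k] [IsAlgClosed k] (p : ℕ) [Fact p.Prime] [CharP k p]
    (M ω : ℕ) (h : MvPolynomial (Fin 2) k) : ∀ (N : ℕ) (G : MvPolynomial (Fin 2) k),
    (∀ m ∈ G.support, m 0 < p * M → ω ≤ m 0) →
    (∀ m ∈ G.support, ARed_bad p M m → p * M ≤ m 0 + N) →
    ∃ A G' : MvPolynomial (Fin 2) k, G = A ^ p - A * (X 0 ^ M * h) ^ (p - 1) + G' ∧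
      Red p M G' ∧ (∀ m ∈ G'.support, m 0 < p * M → ω ≤ m 0) ∧
      ∀ m : Fin 2 →₀ ℕ, m 0 ≤ ω → m 0 < p * M → ¬ (p ∣ m 0 ∧ p ∣ m 1) →
        coeff m G' = coeff m G := by
  intro N
  induction N with
  | zero =>
    intro G hG hN
    have hp : p ≠ 0 := (Fact.out : p.Prime).ne_zero
    refine ⟨0, G, by rw [zero_pow hp]; ring, ?_, hG, fun m _ _ _ => rfl⟩
    intro m hm h0 h1
    by_contra hlt
    have h2 := hN m hm ⟨h0, h1, not_le.1 hlt⟩
    omega
  | succ N ih =>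
    intro G hG hN
    obtain ⟨A, G1, hA, hb, hG1, hc⟩ := ARed_step p M ω h G hG
    obtain ⟨A', G', hA', hR, hG', hc'⟩ := ih G1 hG1 (by
      intro m hm hbad
      obtain ⟨m', hm', hbad', hlt⟩ := hb m hm hbad
      have := hN m' hm' hbad'
      omega)
    refine ⟨A + A', G', ?_, hR, hG', fun m h1 h2 h3 => (hc' m h1 h2 h3).trans (hc m h1 h2 h3)⟩
    rw [hA, hA']
    rw [add_pow_char]
    ring

theorem a_red {k : Type u} [Field k] [IsAlgClosed k] (p : ℕ) [Fact p.Prime] [CharP k p] (M ω : ℕ)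
    (h G : MvPolynomial (Fin 2) k) (hG : ∀ m ∈ G.support, m 0 < p * M → ω ≤ m 0) :
    ∃ A G' : MvPolynomial (Fin 2) k, G = A ^ p - A * (X 0 ^ M * h) ^ (p - 1) + G' ∧
      Red p M G' ∧ (∀ m ∈ G'.support, m 0 < p * M → ω ≤ m 0) ∧
      ∀ m : Fin 2 →₀ ℕ, m 0 ≤ ω → m 0 < p * M → ¬ (p ∣ m 0 ∧ p ∣ m 1) →
        coeff m G' = coeff m G := by
  exact ARed_ind p M ω h (p * M) G hG (fun m _ _ => by omega)

end LS
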