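import Pool.Agent.helper90.LS.Blocks
import Pool.Agent.helper90.LS.CurveNF
import Pool.Agent.helper90.LS.Drive
import Pool.Agent.helper90.LP.PSet

/-!
# Project LUS: the theorem for finite sets
-/

namespace LS

open LU LT LP

universe u

variable {k K : Type u} [Field k] [Field K] [Algebra k K]

/-- generators inside the block -/
lemma gen_two {F : IntermediateField k K} {x y : K}
    (h : F = IntermediateField.adjoin k {x, y}) :
    ∃ x' y' : F, IntermediateField.adjoin k {x', y'} = ⊤ := by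
  have hx : x ∈ F := by
    rw [h]
    exact IntermediateField.subset_adjoin _ _ (by simp)
  have hy : y ∈ F := by
    rw [h]
    exact IntermediateField.subset_adjoin _ _ (by simp)
  refine ⟨⟨x, hx⟩, ⟨y, hy⟩, ?_⟩
  have h1 : (IntermediateField.adjoin k {(⟨x, hx⟩ : F), ⟨y, hy⟩}).map F.val =
      (⊤ : IntermediateField k F).map F.val := by
    rw [IntermediateField.adjoin_map]
    have h2 : F.val '' {(⟨x, hx⟩ : F), ⟨y, hy⟩} = {x, y} := by
      ext z
      simp [Set.mem_image]
      constructor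
      · rintro (rfl | rfl)
        · exact Or.inl rfl
        · exact Or.inr rfl
      · rintro (rfl | rfl)
        · exact Or.inl rfl
        · exact Or.inr rfl
    rw [h2, ← h, ← AlgHom.fieldRange_eq_map]
    exact (IntermediateField.fieldRange_val F).symm
  exact IntermediateField.map_injective F.val h1

theorem lus_set [IsAlgClosed k] (p : ℕ) [hp : Fact p.Prime] [CharP k p] {r : ℕ}
    (F : Fin r → IntermediateField k K)
    (hF : ∀ b, ((F b).FG ∧ Algebra.trdeg k (F b) = 1) ∨
      ((∃ x y : K, F b = IntermediateField.adjoin k {x, y}) ∧ Algebra.trdeg k (F b) = 2))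
    (g : ∀ b, F b) (Y Z : Finset K)
    (hY : ∀ y ∈ Y, y ^ p ∈ Submodule.span k (insert 1 (Set.range fun i => (g i : K))))
    (hZ : ∀ x ∈ Z, ∃ (m : ℕ) (h : ∀ i, F i), (m : k) ≠ 0 ∧ x ^ m = ∏ i, (h i : K))
    (hgen : (⨆ i, F i) ⊔ IntermediateField.adjoin k ((Y : Set K) ∪ Z) = ⊤)
    (hn : Algebra.trdeg k K = ∑ b, Algebra.trdeg k (F b)) (V : ValuationSubring K)
    (hV : ∀ c : k, algebraMap k K c ∈ V) : Uniformizable k V := by
  classical
  obtain ⟨L, ζ, m, h1, h2, h3, h4⟩ := enum_kummer F Z hZ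
  obtain ⟨S, y, h5, h6, h7⟩ := enum_ne (k := k) Y
  have hgen' : (⨆ i, F i) ⊔ IntermediateField.adjoin k (Set.range y ∪ Set.range ζ) = ⊤ := by
    rw [← hgen, IntermediateField.adjoin_union, IntermediateField.adjoin_union, h4, h7]
  have key : ∀ b, ∃ nb : ℕ, 0 < nb ∧ Algebra.trdeg k (F b) = (nb : Cardinal.{u}) ∧
      ∀ (V : ValuationSubring K), (∀ c : k, algebraMap k K c ∈ V) →
      ∀ (g : F b) (H : Finset (F b)), HasNF k p nb (trc V (F b)) g H := by
    intro b
    rcases hF b with ⟨hfg, ht⟩ | ⟨⟨x, y, hxy⟩, ht⟩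
    · refine ⟨1, one_pos, by rw [ht]; simp, fun V hV g H => ?_⟩
      exact curve_nf p (O := trc V (F b)) (fun c => hV c) (IntermediateField.essFiniteType_iff.2 hfg)
        ht g H
    · refine ⟨2, two_pos, by rw [ht]; simp, fun V hV g H => ?_⟩
      obtain ⟨x', y', hg'⟩ := gen_two hxy
      exact surf_nf p (O := trc V (F b)) (fun c => hV c) ht hg' g H
  choose nb hnb htr hNF using key
  exact lu_blocks p F nb hnb htr hNF g y (fun s => hY _ (h5 s)) ζ m h1 h2 h3 hgen'
    (by rw [hn]; simp only [htr]; push_cast; rfl) V hV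

end LS
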