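import Pool.Agent.helper90.LS.Defs2

/-! # LUS-Basic: fractions, injectivity, closure properties of `ULoc` and `LLoc` -/

open MvPolynomial

namespace LS

open LU

universe u

variable {k : Type u} {F : Type u} [Field k] [Field F] [Algebra k F]

theorem range_pair (u v : F) : Set.range ![u, v] = {u, v} := by
  ext x
  simp only [Set.mem_range, Fin.exists_fin_two, Matrix.cons_val_zero, Matrix.cons_val_one,
    Set.mem_insert_iff, Set.mem_singleton_iff]
  exact or_congr eq_comm eq_comm

theorem exists_frac {u v : F} (hgen : IntermediateField.adjoin k {u, v} = ⊤) (x : F) :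
    ∃ N D : MvPolynomial (Fin 2) k, aeval ![u, v] D ≠ 0 ∧
      x = aeval ![u, v] N / aeval ![u, v] D := by
  have hx : x ∈ IntermediateField.adjoin k (Set.range ![u, v]) := by
    rw [range_pair, hgen]
    exact IntermediateField.mem_top
  obtain ⟨r, s, h⟩ := (IntermediateField.mem_adjoin_range_iff k ![u, v] x).1 hx
  by_cases hs : aeval ![u, v] s = 0
  · refine ⟨0, 1, ?_, ?_⟩
    · rw [map_one]
      exact one_ne_zero
    · rw [h, hs, div_zero, map_zero, zero_div]
  · exact ⟨r, s, hs, h⟩

theorem aeval_inj {u v : F} (hgen : IntermediateField.adjoin k {u, v} = ⊤)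
    (htr : Algebra.trdeg k F = 2) :
    Function.Injective (aeval ![u, v] : MvPolynomial (Fin 2) k →ₐ[k] F) := by
  have hfr : IsFractionRing (Algebra.adjoin k (Set.range ![u, v])) F := by
    refine .of_field _ _ fun x => ?_
    obtain ⟨N, D, hD, hx⟩ := exists_frac hgen x
    have hN' : aeval ![u, v] N ∈ Algebra.adjoin k (Set.range ![u, v]) := by
      rw [Algebra.adjoin_range_eq_range_aeval]
      exact ⟨N, rfl⟩
    have hD' : aeval ![u, v] D ∈ Algebra.adjoin k (Set.range ![u, v]) := by
      rw [Algebra.adjoin_range_eq_range_aeval]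
      exact ⟨D, rfl⟩
    exact ⟨⟨_, hN'⟩, ⟨_, hD'⟩, hx⟩
  have halg : Algebra.IsAlgebraic (Algebra.adjoin k (Set.range ![u, v])) F :=
    IsLocalization.isAlgebraic _ (nonZeroDivisors (Algebra.adjoin k (Set.range ![u, v])))
  have hb : IsTranscendenceBasis k ![u, v] := by
    refine Algebra.IsAlgebraic.isTranscendenceBasis_of_lift_le_trdeg_of_finite k ![u, v] ?_
    rw [htr]
    simp
  exact hb.1

/-- evaluation after a step -/
theorem aeval_sb {O : ValuationSubring F} {u v U W : F} {α β a b : ℕ} {c : k}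
    (h : StepTo k O u v U W α β a b c) (f : MvPolynomial (Fin 2) k) :
    aeval ![U, W] (sb α β a b c f) = aeval ![u, v] f := by
  have key : (aeval ![U, W] : MvPolynomial (Fin 2) k →ₐ[k] F).comp (sb α β a b c) =
      aeval ![u, v] := by
    refine MvPolynomial.algHom_ext fun i => ?_
    fin_cases i
    · simp [sb, h.hu, algHom_C]
    · simp [sb, h.hv, algHom_C]
  exact DFunLike.congr_fun key f

theorem residue_cases [IsAlgClosed k] {O : ValuationSubring F}
    (hO : ∀ c : k, algebraMap k F c ∈ O) {θ : F} (hθ : θ ∈ O) :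
    (∀ q : Polynomial k, q ≠ 0 → O.valuation (Polynomial.aeval θ q) = 1) ∨
      ∃ c : k, O.valuation (θ - algebraMap k F c) < 1 := by
  by_cases hc : ∃ c : k, O.valuation (θ - algebraMap k F c) < 1
  · exact Or.inr hc
  left
  intro q hq
  push Not at hc
  have hone : ∀ c : k, O.valuation (θ - algebraMap k F c) = 1 := fun c =>
    le_antisymm ((O.valuation_le_one_iff _).2 (O.sub_mem hθ (hO c))) (hc c)
  have hcc : ∀ c : k, c ≠ 0 → O.valuation (algebraMap k F c) = 1 := by
    intro c hc0
    refine le_antisymm ((O.valuation_le_one_iff _).2 (hO c)) ?_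
    have h1 : O.valuation (algebraMap k F c⁻¹) ≤ 1 := (O.valuation_le_one_iff _).2 (hO c⁻¹)
    rw [map_inv₀, map_inv₀] at h1
    have h0 : O.valuation (algebraMap k F c) ≠ 0 := by
      rw [Ne, map_eq_zero, map_eq_zero]
      exact hc0
    exact (inv_le_one₀ (zero_lt_iff.2 h0)).1 h1
  have hsp := (IsAlgClosed.splits q).eq_prod_roots
  rw [hsp, map_mul, Polynomial.aeval_C, map_mul, hcc _ (Polynomial.leadingCoeff_ne_zero.2 hq),
    one_mul]
  generalize q.roots = R
  induction R using Multiset.induction_on with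
  | empty => simp
  | cons c R ih =>
    rw [Multiset.map_cons, Multiset.prod_cons, map_mul, map_mul, ih, mul_one]
    simpa using hone c

variable {O : ValuationSubring F} (hO : ∀ c : k, algebraMap k F c ∈ O) {σ : Type} {z : σ → F}

theorem ULoc.one : ULoc k O z 1 :=
  ⟨1, 1, by simp, by simp, by simp⟩

theorem ULoc.mul {x y : F} (hx : ULoc k O z x) (hy : ULoc k O z y) : ULoc k O z (x * y) := by
  obtain ⟨N, D, hN, hD, rfl⟩ := hx
  obtain ⟨N', D', hN', hD', rfl⟩ := hy
  refine ⟨N * N', D * D', ?_, ?_, ?_⟩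
  · rw [map_mul, map_mul, hN, hN', one_mul]
  · rw [map_mul, map_mul, hD, hD', one_mul]
  · rw [map_mul, map_mul, div_mul_div_comm]

theorem ULoc.inv {x : F} (hx : ULoc k O z x) : ULoc k O z x⁻¹ := by
  obtain ⟨N, D, hN, hD, rfl⟩ := hx
  exact ⟨D, N, hD, hN, by rw [inv_div]⟩

theorem ULoc.pow {x : F} (hx : ULoc k O z x) (n : ℕ) : ULoc k O z (x ^ n) := by
  induction n with
  | zero => rw [pow_zero]; exact ULoc.one
  | succ n ih => rw [pow_succ]; exact ih.mul hx

theorem ULoc.val {x : F} (hx : ULoc k O z x) : O.valuation x = 1 := by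
  obtain ⟨N, D, hN, hD, rfl⟩ := hx
  rw [map_div₀, hN, hD, div_one]

theorem ULoc.of_poly {N : MvPolynomial σ k} (hN : O.valuation (aeval z N) = 1) :
    ULoc k O z (aeval z N) :=
  ⟨N, 1, hN, by simp, by simp⟩

theorem ULoc.toLLoc {x : F} (hx : ULoc k O z x) : LLoc k O z x := by
  obtain ⟨N, D, _, hD, rfl⟩ := hx
  exact ⟨N, D, hD, rfl⟩

theorem LLoc.uloc {x : F} (hx : LLoc k O z x) (h : O.valuation x = 1) : ULoc k O z x := by
  obtain ⟨N, D, hD, rfl⟩ := hx
  refine ⟨N, D, ?_, hD, rfl⟩
  rw [map_div₀, hD, div_one] at h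
  exact h

theorem LLoc.of_poly (N : MvPolynomial σ k) : LLoc k O z (aeval z N) :=
  ⟨N, 1, by simp, by simp⟩

theorem ne_zero_of_val_one {x : F} (h : O.valuation x = 1) : x ≠ 0 := by
  rintro rfl
  rw [map_zero] at h
  exact zero_ne_one h

theorem LLoc.add {x y : F} (hx : LLoc k O z x) (hy : LLoc k O z y) : LLoc k O z (x + y) := by
  obtain ⟨N, D, hD, rfl⟩ := hx
  obtain ⟨N', D', hD', rfl⟩ := hy
  refine ⟨N * D' + D * N', D * D', ?_, ?_⟩
  · rw [map_mul, map_mul, hD, hD', one_mul]
  · rw [map_add, map_mul, map_mul, map_mul,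
      div_add_div _ _ (ne_zero_of_val_one hD) (ne_zero_of_val_one hD')]

theorem LLoc.mul {x y : F} (hx : LLoc k O z x) (hy : LLoc k O z y) : LLoc k O z (x * y) := by
  obtain ⟨N, D, hD, rfl⟩ := hx
  obtain ⟨N', D', hD', rfl⟩ := hy
  refine ⟨N * N', D * D', ?_, ?_⟩
  · rw [map_mul, map_mul, hD, hD', one_mul]
  · rw [map_mul, map_mul, div_mul_div_comm]

theorem LLoc.sum {ι : Type*} (s : Finset ι) {x : ι → F} (hx : ∀ i ∈ s, LLoc k O z (x i)) :
    LLoc k O z (∑ i ∈ s, x i) := by
  classical
  induction s using Finset.induction_on with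
  | empty => rw [Finset.sum_empty]; exact ⟨0, 1, by simp, by simp⟩
  | insert a s ha ih =>
    rw [Finset.sum_insert ha]
    exact (hx a (Finset.mem_insert_self a s)).add
      (ih fun i hi => hx i (Finset.mem_insert_of_mem hi))

theorem aeval_rename_comp {τ : Type} {z' : τ → F} (φ : τ → σ) (h : ∀ t, z' t = z (φ t))
    (N : MvPolynomial τ k) : aeval z (rename φ N) = aeval z' N := by
  rw [aeval_rename, show z ∘ φ = z' from funext fun t => (h t).symm]

/-- polynomials in some of the coordinates -/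
theorem ULoc.comp {τ : Type} {z' : τ → F} (φ : τ → σ) (h : ∀ t, z' t = z (φ t)) {x : F}
    (hx : ULoc k O z' x) : ULoc k O z x := by
  obtain ⟨N, D, hN, hD, rfl⟩ := hx
  refine ⟨rename φ N, rename φ D, ?_, ?_, ?_⟩ <;>
    simp only [aeval_rename_comp φ h] <;> assumption

theorem LLoc.comp {τ : Type} {z' : τ → F} (φ : τ → σ) (h : ∀ t, z' t = z (φ t)) {x : F}
    (hx : LLoc k O z' x) : LLoc k O z x := by
  obtain ⟨N, D, hD, rfl⟩ := hx
  refine ⟨rename φ N, rename φ D, ?_, ?_⟩ <;>
    simp only [aeval_rename_comp φ h] ; assumption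

include hO in
/-- a polynomial at a point of the maximal ideal is a unit if its constant coefficient is not
zero -/
theorem val_const {u v : F} (hu : O.valuation u < 1) (hv : O.valuation v < 1)
    {N : MvPolynomial (Fin 2) k} (hN : coeff 0 N ≠ 0) : O.valuation (aeval ![u, v] N) = 1 := by
  have hc1 : O.valuation (algebraMap k F (coeff 0 N)) = 1 := by
    refine le_antisymm ((O.valuation_le_one_iff _).2 (hO _)) ?_
    have h1 : O.valuation (algebraMap k F (coeff 0 N)⁻¹) ≤ 1 :=
      (O.valuation_le_one_iff _).2 (hO _)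
    rw [map_inv₀, map_inv₀] at h1
    have h0 : O.valuation (algebraMap k F (coeff 0 N)) ≠ 0 := by
      rw [Ne, map_eq_zero, map_eq_zero]
      exact hN
    exact (inv_le_one₀ (zero_lt_iff.2 h0)).1 h1
  have hsum : aeval ![u, v] N = algebraMap k F (coeff 0 N) +
      ∑ m ∈ N.support.erase 0, aeval ![u, v] (monomial m (coeff m N)) := by
    conv_lhs => rw [← support_sum_monomial_coeff N, map_sum]
    rw [← Finset.add_sum_erase N.support _ (mem_support_iff.2 hN)]
    congr 1
    rw [monomial_zero', aeval_C]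
  have hsmall : O.valuation (∑ m ∈ N.support.erase 0,
      aeval ![u, v] (monomial m (coeff m N))) < 1 := by
    refine Valuation.map_sum_lt _ one_ne_zero fun m hm => ?_
    have hm0 : m ≠ 0 := (Finset.mem_erase.1 hm).1
    rw [aeval_monomial, map_mul]
    have hc : O.valuation (algebraMap k F (coeff m N)) ≤ 1 :=
      (O.valuation_le_one_iff _).2 (hO _)
    have hp : O.valuation (m.prod fun i e => (![u, v] : Fin 2 → F) i ^ e) < 1 := by
      rw [Finsupp.prod_fintype _ _ (by intro i; exact pow_zero _), Fin.prod_univ_two]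
      simp only [Matrix.cons_val_zero, Matrix.cons_val_one, map_mul, map_pow]
      by_cases h0 : m 0 = 0
      · have h1 : m 1 ≠ 0 := by
          intro h1
          apply hm0
          ext i
          fin_cases i
          · exact h0
          · exact h1
        rw [h0, pow_zero, one_mul]
        exact pow_lt_one₀ zero_le hv h1
      · exact mul_lt_one_of_lt_of_le (pow_lt_one₀ zero_le hu h0) (pow_le_one₀ zero_le hv.le)
    exact (mul_le_of_le_one_left' hc).trans_lt hp
  rw [hsum, ← hc1]
  exact Valuation.map_add_eq_of_lt_left _ (by rw [hc1]; exact hsmall)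

end LS
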