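import Pool.Agent.helper90.LP.AddP

/-! # LUS-BlockInd: elements of independent blocks are independent -/

namespace LS

open LU

universe u

lemma indep_of_trdeg' {k K : Type u} [Field k] [Field K] [Algebra k K] {ι : Type*} [Fintype ι]
    (v : ι → K) (halg : Algebra.IsAlgebraic (IntermediateField.adjoin k (Set.range v)) K)
    (htr : Algebra.trdeg k K = (Fintype.card ι : Cardinal.{u})) : AlgebraicIndependent k v := by
  classical
  let e : ι ≃ Fin (Fintype.card ι) := Fintype.equivFin ι
  have hr : Set.range (v ∘ e.symm) = Set.range v := by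
    rw [Set.range_comp, Equiv.range_eq_univ, Set.image_univ]
  have h1 : AlgebraicIndependent k (v ∘ e.symm) := by
    refine indep_of_trdeg (v ∘ e.symm) ?_ htr
    rw [hr]
    exact halg
  exact (algebraicIndependent_equiv e.symm).1 h1

/-- transcendence basis of a block containing a given transcendental element -/
lemma exists_block_basis {k E : Type u} [Field k] [Field E] [Algebra k E] (x : E) (P : Prop)
    (hx : P → Transcendental k x) :
    ∃ T : Set E, IsTranscendenceBasis k (Subtype.val : T → E) ∧ (P → x ∈ T) := by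
  classical
  have hua : Algebra.IsAlgebraic (Algebra.adjoin k (Set.univ : Set E)) E :=
    ⟨fun y => isAlgebraic_algebraMap
      (⟨y, Algebra.subset_adjoin (Set.mem_univ y)⟩ : Algebra.adjoin k (Set.univ : Set E))⟩
  by_cases hP : P
  · have h1 : AlgebraicIndepOn k id ({x} : Set E) := by
      have : AlgebraicIndependent k (fun y : ({x} : Set E) => (y : E)) := by
        have h2 : AlgebraicIndependent k (fun _ : Unit => x) :=
          (algebraicIndependent_unique_type_iff).2 (hx hP)
        have h3 : (fun y : ({x} : Set E) => (y : E)) =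
            (fun _ : Unit => x) ∘ (fun _ => ()) := by
          funext y
          exact y.2
        rw [h3]
        refine h2.comp _ ?_
        intro a b _
        exact Subsingleton.elim a b
      exact this
    obtain ⟨T, h2, -, h3⟩ := exists_isTranscendenceBasis_between (R := k) ({x} : Set E)
      Set.univ (Set.subset_univ _) h1
    exact ⟨T, h3, fun _ => h2 rfl⟩
  · obtain ⟨T, -, -, h3⟩ := exists_isTranscendenceBasis_between (R := k) (∅ : Set E)
      Set.univ (Set.subset_univ _) (by
        rw [AlgebraicIndepOn]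
        exact algebraicIndependent_empty_type_iff.2 (algebraMap k E).injective)
    exact ⟨T, h3, fun h => absurd h hP⟩

/-- `K` is algebraic over the field generated by transcendence bases of the blocks -/
lemma algebraic_of_blocks {k K : Type u} [Field k] [Field K] [Algebra k K] {r : ℕ}
    (F : Fin r → IntermediateField k K) (T : ∀ b, Set (F b))
    (hT : ∀ b, IsTranscendenceBasis k (Subtype.val : T b → F b))
    {Z : Set K} (hZ : ∀ x ∈ Z, ∃ m : ℕ, 0 < m ∧ x ^ m ∈ ⨆ i, F i)
    (hgen : (⨆ i, F i) ⊔ IntermediateField.adjoin k Z = ⊤) :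
    Algebra.IsAlgebraic (IntermediateField.adjoin k
      (Set.range fun x : (Σ b, T b) => ((x.2 : F x.1) : K))) K := by
  set L := IntermediateField.adjoin k (Set.range fun x : (Σ b, T b) => ((x.2 : F x.1) : K)) with hL
  let Ac : IntermediateField k K := (algebraicClosure L K).restrictScalars k
  have hmem : ∀ x : K, x ∈ Ac ↔ IsAlgebraic L x := fun x => mem_algebraicClosure_iff
  have hF : ∀ i, F i ≤ Ac := by
    intro i x hx
    rw [hmem]
    have hiA : Algebra.IsAlgebraic (Algebra.adjoin k (Set.range (Subtype.val : T i → F i))) (F i) :=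
      (hT i).isAlgebraic
    obtain ⟨q, hq0, hq⟩ := hiA.isAlgebraic (⟨x, hx⟩ : F i)
    have hle : ∀ y : Algebra.adjoin k (Set.range (Subtype.val : T i → F i)), ((y : F i) : K) ∈ L := by
      intro y
      have h2 : (F i).val (y : F i) ∈ (Algebra.adjoin k
          (Set.range (Subtype.val : T i → F i))).map (F i).val := ⟨_, y.2, rfl⟩
      rw [AlgHom.map_adjoin] at h2
      have h3 : Algebra.adjoin k ((F i).val '' (Set.range (Subtype.val : T i → F i))) ≤
          L.toSubalgebra := by
        rw [Algebra.adjoin_le_iff]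
        rintro _ ⟨_, ⟨t, rfl⟩, rfl⟩
        exact IntermediateField.subset_adjoin _ _ ⟨⟨i, t⟩, rfl⟩
      exact h3 h2
    let f : Algebra.adjoin k (Set.range (Subtype.val : T i → F i)) →+* L :=
      { toFun := fun z => ⟨((z : F i) : K), hle z⟩
        map_one' := rfl
        map_mul' := fun _ _ => rfl
        map_zero' := rfl
        map_add' := fun _ _ => rfl }
    have hf : Function.Injective f := by
      intro a b hab
      have h1 : ((a : F i) : K) = ((b : F i) : K) := congrArg (Subtype.val : L → K) hab
      exact Subtype.ext (Subtype.ext h1)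
    refine ⟨q.map f, (Polynomial.map_ne_zero_iff hf).2 hq0, ?_⟩
    rw [Polynomial.aeval_def, Polynomial.eval₂_map]
    rw [Polynomial.aeval_def] at hq
    have h4 := Polynomial.hom_eval₂ q
      (algebraMap (Algebra.adjoin k (Set.range (Subtype.val : T i → F i))) (F i))
      (algebraMap (F i) K) (⟨x, hx⟩ : F i)
    rw [hq, map_zero] at h4
    exact h4.symm
  have h0 : (⨆ i, F i) ≤ Ac := iSup_le hF
  have htop : Ac = ⊤ := by
    rw [eq_top_iff, ← hgen]
    refine sup_le h0 ?_
    rw [IntermediateField.adjoin_le_iff]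
    intro x hx
    obtain ⟨m, hm, hxm⟩ := hZ x hx
    have h1 := h0 hxm
    rw [hmem] at h1
    exact (hmem x).2 (IsAlgebraic.of_pow hm h1)
  refine ⟨fun x => ?_⟩
  rw [← hmem, htop]
  trivial

theorem indep_blocks {k K : Type u} [Field k] [Field K] [Algebra k K] {r : ℕ}
    (F : Fin r → IntermediateField k K) (nb : Fin r → ℕ)
    (htr : ∀ b, Algebra.trdeg k (F b) = (nb b : Cardinal.{u}))
    {Z : Set K} (hZ : ∀ x ∈ Z, ∃ m : ℕ, 0 < m ∧ x ^ m ∈ ⨆ i, F i)
    (hgen : (⨆ i, F i) ⊔ IntermediateField.adjoin k Z = ⊤)
    (hn : Algebra.trdeg k K = ((∑ b, nb b : ℕ) : Cardinal.{u})) (B : ∀ b, F b)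
    (S : Finset (Fin r)) (hB : ∀ b ∈ S, Transcendental k (B b)) :
    AlgebraicIndependent k (fun b : {b // b ∈ S} => (B b : K)) := by
  classical
  choose T hT hBT using fun b => exists_block_basis (k := k) (B b) (b ∈ S) (hB b)
  have hcard : ∀ b, Cardinal.mk (T b) = (nb b : Cardinal.{u}) := fun b =>
    ((hT b).cardinalMk_eq_trdeg).trans (htr b)
  have hfin : ∀ b, Finite (T b) := fun b => by
    rw [← Cardinal.lt_aleph0_iff_finite, hcard b]
    exact Cardinal.natCast_lt_aleph0
  have hft : ∀ b, Fintype (T b) := fun b => Fintype.ofFinite _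
  have hfc : ∀ b, Fintype.card (T b) = nb b := fun b => by
    have := hcard b
    rw [Cardinal.mk_fintype] at this
    exact_mod_cast this
  have hind : AlgebraicIndependent k (fun x : (Σ b, T b) => ((x.2 : F x.1) : K)) := by
    refine indep_of_trdeg' _ (algebraic_of_blocks F T hT hZ hgen) ?_
    rw [hn, Fintype.card_sigma]
    simp only [hfc]
  let j : {b // b ∈ S} → (Σ b, T b) := fun b => ⟨b.1, ⟨B b.1, hBT b.1 b.2⟩⟩
  have hj : Function.Injective j := by
    intro a b hab
    exact Subtype.ext (congrArg Sigma.fst hab)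
  exact hind.comp j hj

end LS
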