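import Pool.Agent.helper90.LS.HDat
import Pool.Agent.helper90.LS.Basic
import Pool.Agent.helper90.LT.KGerm

/-! # LUS-NFK: the normal form of a block, inside `K` -/

open MvPolynomial

namespace LS

open LU LT

universe u

variable {k K : Type u} [Field k] [Field K] [Algebra k K]

/-- normal form of an element `g` of a block `F` of `K` (`ε` is `0` if `g` is a `p`-th power) -/
structure NFK (V : ValuationSubring K) (p n : ℕ) (F : IntermediateField k K) (g : F)
    (u : Fin n → K) (w : Fin 2 → K) (Φ : Fin 2 → MvPolynomial (Fin n ⊕ Fin 2) k)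
    (G : Fin 2 → Fin 2 → K) (A B : F) (e : Fin n → ℤ) (N D : MvPolynomial (Fin n ⊕ Fin 2) k)
    (ε : k) (pv : Fin n) : Prop where
  uF : ∀ i, u i ∈ F
  wF : ∀ l, w l ∈ F
  gen : F ≤ IntermediateField.adjoin k (Set.range u ∪ Set.range w)
  u0 : ∀ i, u i ≠ 0
  uV : ∀ i, u i ∈ V
  wV : ∀ l, w l ∈ V
  rel : ∀ l, aeval (Sum.elim u w) (Φ l) = 0
  GV : ∀ l l', G l l' ∈ V
  G1 : ∀ l l', ∑ m, aeval (Sum.elim u w) (pderiv (Sum.inr m) (Φ l)) * G m l' =
    if l = l' then 1 else 0
  hg : g = A ^ p + algebraMap k F ε * B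
  hB : (B : K) = mon u e * (aeval (Sum.elim u w) N / aeval (Sum.elim u w) D)
  hN0 : aeval (Sum.elim u w) N ≠ 0
  hNV : (aeval (Sum.elim u w) N)⁻¹ ∈ V
  hD0 : aeval (Sum.elim u w) D ≠ 0
  hDV : (aeval (Sum.elim u w) D)⁻¹ ∈ V
  piv : ε ≠ 0 → (e pv : k) ≠ 0
  tr : ε ≠ 0 → Transcendental k B
  dir : ε ≠ 0 → V.valuation (ddw u w pv (dl u w Φ G pv) N * aeval (Sum.elim u w) D -
    aeval (Sum.elim u w) N * ddw u w pv (dl u w Φ G pv) D) < 1

/-- the elements of `H` are monomials times units -/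
def MonK (V : ValuationSubring K) {n : ℕ} (u : Fin n → K) (w : Fin 2 → K) (h : K)
    (E : Fin n → ℤ) (N D : MvPolynomial (Fin n ⊕ Fin 2) k) : Prop :=
  h = mon u E * (aeval (Sum.elim u w) N / aeval (Sum.elim u w) D) ∧
    aeval (Sum.elim u w) N ≠ 0 ∧ (aeval (Sum.elim u w) N)⁻¹ ∈ V ∧
    aeval (Sum.elim u w) D ≠ 0 ∧ (aeval (Sum.elim u w) D)⁻¹ ∈ V

section aux

variable {V : ValuationSubring K} {F : IntermediateField k K} {n : ℕ}

lemma coe_elim (u : Fin n → F) (w : Fin 2 → F) (q : MvPolynomial (Fin n ⊕ Fin 2) k) :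
    ((aeval (Sum.elim u w) q : F) : K) =
      aeval (Sum.elim (fun i => (u i : K)) (fun l => (w l : K))) q := by
  have : F.val.comp (aeval (Sum.elim u w)) =
      aeval (Sum.elim (fun i => (u i : K)) (fun l => (w l : K))) := by
    apply MvPolynomial.algHom_ext
    rintro (i | l)
    · simp
    · simp
  rw [← this]
  rfl

lemma coe_mon (u : Fin n → F) (e : Fin n → ℤ) :
    ((mon u e : F) : K) = mon (fun i => (u i : K)) e := by
  unfold mon
  change algebraMap F K _ = _
  rw [map_prod]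
  exact Finset.prod_congr rfl fun i _ => map_zpow₀ (algebraMap F K) (u i) (e i)

lemma inv_mem_of_val {x : F} (hx : (trc V F).valuation x = 1) :
    (x : K) ≠ 0 ∧ (x : K)⁻¹ ∈ V := by
  have h0 : x ≠ 0 := ne_zero_of_val_one hx
  refine ⟨fun h => h0 (Subtype.ext h), ?_⟩
  have h1 : x⁻¹ ∈ trc V F := by
    rw [← ValuationSubring.valuation_le_one_iff, map_inv₀, hx, inv_one]
  exact h1

lemma monK_of {u : Fin n → F} {w : Fin 2 → F} {h : F} {e : Fin n → ℤ}
    {N D : MvPolynomial (Fin n ⊕ Fin 2) k}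
    (hN : (trc V F).valuation (aeval (Sum.elim u w) N) = 1)
    (hD : (trc V F).valuation (aeval (Sum.elim u w) D) = 1)
    (hh : h = mon u e * (aeval (Sum.elim u w) N / aeval (Sum.elim u w) D)) :
    MonK V (fun i => (u i : K)) (fun l => (w l : K)) (h : K) e N D := by
  obtain ⟨h1, h2⟩ := inv_mem_of_val hN
  obtain ⟨h3, h4⟩ := inv_mem_of_val hD
  rw [coe_elim] at h1 h2 h3 h4
  refine ⟨?_, h1, h2, h3, h4⟩
  rw [hh, ← coe_elim, ← coe_elim, ← coe_mon]
  rfl

lemma inv_jac {E : Type*} [Field E] {O : ValuationSubring E} (J : Matrix (Fin 2) (Fin 2) E)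
    (hJ : ∀ l l', J l l' ∈ O) (hdet : O.valuation J.det = 1) :
    (∀ l l', J⁻¹ l l' ∈ O) ∧
      ∀ l l', ∑ m, J l m * J⁻¹ m l' = if l = l' then 1 else 0 := by
  have h0 : J.det ≠ 0 := by
    intro h
    rw [h, map_zero] at hdet
    exact zero_ne_one hdet
  have hinv : J.det⁻¹ ∈ O := by
    rw [← ValuationSubring.valuation_le_one_iff, map_inv₀, hdet, inv_one]
  constructor
  · intro l l'
    rw [Matrix.inv_def, Matrix.smul_apply, Ring.inverse_eq_inv', smul_eq_mul,
      Matrix.adjugate_fin_two]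
    refine mul_mem hinv ?_
    fin_cases l <;> fin_cases l'
    · exact hJ 1 1
    · exact neg_mem (hJ 0 1)
    · exact neg_mem (hJ 1 0)
    · exact hJ 0 0
  · intro l l'
    have h1 : J * J⁻¹ = 1 := Matrix.mul_nonsing_inv J (isUnit_iff_ne_zero.2 h0)
    rw [← Matrix.mul_apply, h1, Matrix.one_apply]

lemma ddw_eq (hV : ∀ c : k, algebraMap k K c ∈ V) {u : Fin n → K} {w : Fin 2 → K}
    (huV : ∀ i, u i ∈ V) (hwV : ∀ l, w l ∈ V) (Φ : Fin 2 → MvPolynomial (Fin n ⊕ Fin 2) k)
    {G : Fin 2 → Fin 2 → K} (hG : ∀ l l', G l l' ∈ V) (i : Fin n)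
    (q : MvPolynomial (Fin n ⊕ Fin 2) k) :
    ∃ x ∈ V, ddw u w i (dl u w Φ G i) q = u i * x := by
  have hev : ∀ f : MvPolynomial (Fin n ⊕ Fin 2) k, aeval (Sum.elim u w) f ∈ V := by
    intro f
    apply aeval_mem hV
    rintro (i | l)
    · exact huV i
    · exact hwV l
  refine ⟨aeval (Sum.elim u w) (pderiv (Sum.inl i) q) +
    ∑ l, (-∑ m, G l m * aeval (Sum.elim u w) (pderiv (Sum.inl i) (Φ m))) *
      aeval (Sum.elim u w) (pderiv (Sum.inr l) q), ?_, ?_⟩
  · refine add_mem (hev _) (sum_mem fun l _ => mul_mem (neg_mem (sum_mem fun m _ => ?_)) (hev _))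
    exact mul_mem (hG l m) (hev _)
  · unfold ddw dl
    rw [mul_add, Finset.mul_sum]
    congr 1
    refine Finset.sum_congr rfl fun l _ => ?_
    ring

lemma ddw_one (u : Fin n → K) (w : Fin 2 → K) (i : Fin n) (d : Fin 2 → K) :
    ddw u w i d (1 : MvPolynomial (Fin n ⊕ Fin 2) k) = 0 := by
  unfold ddw
  simp

end aux

theorem nf_toK (p : ℕ) [Fact p.Prime] [CharP k p] [IsAlgClosed k] {V : ValuationSubring K}
    (hV : ∀ c : k, algebraMap k K c ∈ V) {n : ℕ} (hn : 0 < n) (F : IntermediateField k K) (g : F)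
    (H : Finset F) (h : HasNF k p n (trc V F) g H) :
    ∃ (u : Fin n → K) (w : Fin 2 → K) (Φ : Fin 2 → MvPolynomial (Fin n ⊕ Fin 2) k)
      (G : Fin 2 → Fin 2 → K) (A B : F) (e : Fin n → ℤ) (N D : MvPolynomial (Fin n ⊕ Fin 2) k)
      (ε : k) (pv : Fin n), NFK V p n F g u w Φ G A B e N D ε pv ∧
      ∀ x ∈ H, x ≠ 0 → ∃ (E : Fin n → ℤ) (N' D' : MvPolynomial (Fin n ⊕ Fin 2) k),
        MonK V u w (x : K) E N' D' := by
  classical
  obtain ⟨u, w, Φ, hc, hH, A, B, hg, hB⟩ := h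
  have hO : ∀ c : k, algebraMap k F c ∈ trc V F := fun c => hV c
  have hp : p.Prime := Fact.out
  have huV : ∀ i, (u i : K) ∈ V := hc.uO
  have hwV : ∀ l, (w l : K) ∈ V := hc.wO
  have hev : ∀ f : MvPolynomial (Fin n ⊕ Fin 2) k, aeval (Sum.elim u w) f ∈ trc V F := by
    intro f
    apply aeval_mem hO
    rintro (i | l)
    · exact hc.uO i
    · exact hc.wO l
  let J : Matrix (Fin 2) (Fin 2) F :=
    Matrix.of fun l l' => aeval (Sum.elim u w) (pderiv (Sum.inr l') (Φ l))
  obtain ⟨hG, hG1⟩ := inv_jac (O := trc V F) J (fun l l' => hev _) hc.jac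
  let G : Fin 2 → Fin 2 → K := fun l l' => ((J⁻¹ l l' : F) : K)
  have hGV : ∀ l l', G l l' ∈ V := fun l l' => hG l l'
  let u' : Fin n → K := fun i => (u i : K)
  let w' : Fin 2 → K := fun l => (w l : K)
  have common : ∀ (A B : F) (e : Fin n → ℤ) (N D : MvPolynomial (Fin n ⊕ Fin 2) k)
      (ε : k) (pv : Fin n), g = A ^ p + algebraMap k F ε * B →
      (trc V F).valuation (aeval (Sum.elim u w) N) = 1 →
      (trc V F).valuation (aeval (Sum.elim u w) D) = 1 →
      B = mon u e * (aeval (Sum.elim u w) N / aeval (Sum.elim u w) D) →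
      (ε ≠ 0 → (e pv : k) ≠ 0) → (ε ≠ 0 → Transcendental k B) →
      (ε ≠ 0 → ((u pv)⁻¹ ∉ trc V F ∨ (N = 1 ∧ D = 1))) →
      NFK V p n F g u' w' Φ G A B e N D ε pv := by
    intro A B e N D ε pv h1 h2 h3 h4 h5 h6 h7
    obtain ⟨m1, m2, m3, m4, m5⟩ := monK_of h2 h3 h4
    refine ⟨fun i => (u i).2, fun l => (w l).2, ?_, fun i h0 => hc.u0 i (Subtype.ext h0), huV,
      hwV, ?_, hGV, ?_, h1, m1, m2, m3, m4, m5, h5, h6, ?_⟩
    · have e1 : (IntermediateField.adjoin k (Set.range u ∪ Set.range w)).map F.val =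
          IntermediateField.adjoin k (F.val '' (Set.range u ∪ Set.range w)) :=
        IntermediateField.adjoin_map _ _ _
      rw [hc.gen] at e1
      have e2 : F.val '' (Set.range u ∪ Set.range w) = Set.range u' ∪ Set.range w' := by
        rw [Set.image_union, ← Set.range_comp, ← Set.range_comp]
        rfl
      rw [e2] at e1
      rw [← e1]
      intro x hx
      exact ⟨⟨x, hx⟩, trivial, rfl⟩
    · intro l
      change aeval (Sum.elim (fun i => (u i : K)) (fun l => (w l : K))) (Φ l) = 0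
      rw [← coe_elim, hc.rel]
      rfl
    · intro l l'
      have h8 := congrArg (fun x : F => (x : K)) (hG1 l l')
      have h9 : ((∑ m, J l m * J⁻¹ m l' : F) : K) =
          ∑ m, aeval (Sum.elim u' w') (pderiv (Sum.inr m) (Φ l)) * G m l' := by
        rw [IntermediateField.coe_sum]
        refine Finset.sum_congr rfl fun m _ => ?_
        rw [← coe_elim]
        rfl
      rw [← h9]
      refine h8.trans ?_
      split_ifs <;> rfl
    · intro hε
      rcases h7 hε with h8 | ⟨rfl, rfl⟩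
      · obtain ⟨x, hx, hx'⟩ := ddw_eq hV huV hwV Φ hGV pv N
        obtain ⟨y, hy, hy'⟩ := ddw_eq hV huV hwV Φ hGV pv D
        have h9 : V.valuation (u' pv) < 1 := by
          by_contra hlt
          apply h8
          have h10 : V.valuation (u' pv)⁻¹ ≤ 1 := by
            rw [map_inv₀]
            exact inv_le_one_of_one_le₀ (not_lt.1 hlt)
          exact (V.valuation_le_one_iff _).1 h10
        have hevK : ∀ f : MvPolynomial (Fin n ⊕ Fin 2) k, aeval (Sum.elim u' w') f ∈ V := by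
          intro f
          rw [← coe_elim]
          exact hev f
        have h11 : ddw u' w' pv (dl u' w' Φ G pv) N * aeval (Sum.elim u' w') D -
            aeval (Sum.elim u' w') N * ddw u' w' pv (dl u' w' Φ G pv) D =
            u' pv * (x * aeval (Sum.elim u' w') D - aeval (Sum.elim u' w') N * y) := by
          rw [hx', hy']
          ring
        rw [h11, map_mul]
        refine mul_lt_one_of_lt_of_le h9 ((V.valuation_le_one_iff _).2 ?_)
        exact sub_mem (mul_mem hx (hevK D)) (mul_mem (hevK N) hy)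
      · rw [ddw_one, zero_mul, mul_zero, sub_zero, map_zero]
        exact zero_lt_one
  have hzero : ∀ A' : F, g = A' ^ p →
      NFK V p n F g u' w' Φ G A' 1 0 1 1 0 ⟨0, hn⟩ := by
    intro A' hA
    refine common A' 1 0 1 1 0 ⟨0, hn⟩ ?_ (by simp) (by simp) ?_ (fun h => (h rfl).elim)
      (fun h => (h rfl).elim) (fun h => (h rfl).elim)
    · rw [hA, map_zero, zero_mul, add_zero]
    · rw [map_one, div_one, mul_one]
      simp [mon]
  have hMon : ∀ x ∈ H, x ≠ 0 → ∃ (E : Fin n → ℤ) (N' D' : MvPolynomial (Fin n ⊕ Fin 2) k),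
      MonK V u' w' (x : K) E N' D' := by
    intro x hx hx0
    obtain ⟨e, ρ, h1, N, D, h2, h3, rfl⟩ := hH x hx hx0
    exact ⟨e, N, D, monK_of h2 h3 h1⟩
  rcases hB with rfl | ⟨e, ρ, hBe, ⟨N, D, hN, hD, hρ⟩, i, hi, hdir⟩
  · exact ⟨u', w', Φ, G, A, 1, 0, 1, 1, 0, ⟨0, hn⟩, hzero A (by rw [hg, add_zero]), hMon⟩
  · by_cases hBt : Transcendental k B
    · rcases hdir with hdir | hdir
      · refine ⟨u', w', Φ, G, A, B, e, N, D, 1, i, common A B e N D 1 i ?_ hN hD ?_
          (fun _ => hi) (fun _ => hBt) (fun _ => Or.inl hdir), hMon⟩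
        · rw [map_one, one_mul, hg]
        · rw [hBe, hρ]
      · refine ⟨u', w', Φ, G, A, B, e, 1, 1, 1, i, common A B e 1 1 1 i ?_ (by simp) (by simp) ?_
          (fun _ => hi) (fun _ => hBt) (fun _ => Or.inr ⟨rfl, rfl⟩), hMon⟩
        · rw [map_one, one_mul, hg]
        · rw [hBe, hdir, map_one, div_one]
    · have halg : IsAlgebraic k B := by
        by_contra hne
        exact hBt hne
      have hmem : B ∈ (algebraMap k F).range :=
        minpoly.mem_range_of_degree_eq_one k B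
          (IsAlgClosed.degree_eq_one_of_irreducible k (minpoly.irreducible halg.isIntegral))
      obtain ⟨c, hcB⟩ := hmem
      obtain ⟨c', hc'⟩ := IsAlgClosed.exists_pow_nat_eq c hp.pos
      have : CharP F p := charP_of_injective_algebraMap (algebraMap k F).injective p
      refine ⟨u', w', Φ, G, A + algebraMap k F c', 1, 0, 1, 1, 0, ⟨0, hn⟩, hzero _ ?_, hMon⟩
      rw [add_pow_char, ← map_pow, hc', hcB, hg]

end LS
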