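import Pool.Agent.helper90.LS.SDat
import Pool.Agent.helper90.LS.Glue
import Pool.Agent.helper90.LS.NFK
import Pool.Agent.helper90.LS.BlockInd

/-!
# Project LUS: local uniformization over independent blocks with normal forms
-/

open Matrix

namespace LS

open LU LT LG LP

universe u

theorem lu_blocks {k K : Type u} [Field k] [IsAlgClosed k] [Field K] [Algebra k K] (p : ℕ)
    [hp : Fact p.Prime] [CharP k p] {r S L : ℕ} (F : Fin r → IntermediateField k K)
    (nb : Fin r → ℕ) (hnb : ∀ b, 0 < nb b)
    (htr : ∀ b, Algebra.trdeg k (F b) = (nb b : Cardinal.{u}))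
    (hNF : ∀ b (V : ValuationSubring K), (∀ c : k, algebraMap k K c ∈ V) →
      ∀ (g : F b) (H : Finset (F b)), HasNF k p (nb b) (trc V (F b)) g H)
    (g : ∀ b, F b) (y : Fin S → K)
    (hy : ∀ s, y s ^ p ∈ Submodule.span k (insert 1 (Set.range fun i => (g i : K))))
    (ζ : Fin L → K) (mζ : Fin L → ℕ) (hζ : ∀ l, ζ l ≠ 0) (hmζ : ∀ l, (mζ l : k) ≠ 0)
    (hk : ∀ l, ∃ h : ∀ i, F i, ζ l ^ mζ l = ∏ i, (h i : K))
    (hgen : (⨆ i, F i) ⊔ IntermediateField.adjoin k (Set.range y ∪ Set.range ζ) = ⊤)
    (hn : Algebra.trdeg k K = ((∑ b, nb b : ℕ) : Cardinal.{u})) (V : ValuationSubring K)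
    (hV : ∀ c : k, algebraMap k K c ∈ V) : Uniformizable k V := by
  classical
  have hp0 : p ≠ 0 := hp.out.ne_zero
  have hCK : CharP K p := charP_of_injective_algebraMap (algebraMap k K).injective p
  have hEK : ExpChar K p := ExpChar.prime hp.out
  have hroot : ∀ c : k, ∃ d, d ^ p = c := root_of_perfect (k := k) p
  choose rt hrt using hroot
  choose h hh using hk
  -- the charts
  choose u w Φ G A B e N' D ε pv hT hmon using fun b => nf_toK p hV (hnb b) (F b) (g b)
    (Finset.univ.image fun l => h l b) (hNF b V hV (g b) (Finset.univ.image fun l => h l b))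
  have hhne : ∀ l b, h l b ≠ 0 := by
    intro l b h0
    have h1 : ∏ i, (h l i : K) ≠ 0 := by
      rw [← hh l]
      exact pow_ne_zero _ (hζ l)
    rw [Finset.prod_ne_zero_iff] at h1
    apply h1 b (Finset.mem_univ _)
    rw [h0]
    rfl
  choose E N2 D2 hE using fun l b => hmon b (h l b)
    (Finset.mem_image.2 ⟨l, Finset.mem_univ _, rfl⟩) (hhne l b)
  -- independence
  have hF : ∀ i, F i ≤ ⨆ i, F i := le_iSup F
  have hZ : ∀ x ∈ Set.range y ∪ Set.range ζ, ∃ m : ℕ, 0 < m ∧ x ^ m ∈ ⨆ i, F i := by
    rintro _ (⟨s, rfl⟩ | ⟨l, rfl⟩)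
    · refine ⟨p, hp.out.pos, ?_⟩
      have h1 : Submodule.span k (insert 1 (Set.range fun i => (g i : K))) ≤
          (⨆ i, F i).toSubalgebra.toSubmodule := by
        rw [Submodule.span_le]
        rintro x (rfl | ⟨i, rfl⟩)
        · exact one_mem (⨆ i, F i)
        · exact hF i (g i).2
      exact h1 (hy s)
    · refine ⟨mζ l, Nat.pos_of_ne_zero fun h0 => hmζ l (by rw [h0]; simp), ?_⟩
      rw [hh]
      exact prod_mem fun i _ => hF i (h l i).2
  have hindB := indep_blocks F nb htr hZ hgen hn B (Finset.univ.filter fun b => ε b ≠ 0)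
    (fun b hb => (hT b).tr (Finset.mem_filter.1 hb).2)
  -- coefficients
  have hco : ∀ s, ∃ (c : k) (a : Fin r → k), y s ^ p =
      algebraMap k K c + ∑ i, algebraMap k K (a i) * (g i : K) := by
    intro s
    have h1 := hy s
    rw [Submodule.mem_span_insert] at h1
    obtain ⟨c, x, hx, h2⟩ := h1
    obtain ⟨a, rfl⟩ := (Submodule.mem_span_range_iff_exists_fun k).1 hx
    refine ⟨c, a, ?_⟩
    rw [h2]
    simp [Algebra.smul_def]
  choose c a hca using hco
  let κ := algebraMap k K
  let y' : Fin S → K := fun s => y s - κ (rt (c s)) - ∑ i, κ (rt (a s i)) * (A i : K)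
  let α : Matrix (Fin S) (Fin r) k := fun s i => a s i * ε i
  have hgK : ∀ i, (g i : K) = (A i : K) ^ p + κ (ε i) * (B i : K) := by
    intro i
    have := congrArg (Subtype.val : F i → K) (hT i).hg
    exact this
  have hy' : ∀ s, y' s ^ p = ∑ i, κ (α s i) * (B i : K) := by
    intro s
    simp only [y']
    rw [sub_pow_expChar, sub_pow_expChar, ← map_pow, hrt, sum_pow_char, hca]
    simp only [hgK, mul_pow]
    have : ∀ i, κ (rt (a s i)) ^ p = κ (a s i) := fun i => by rw [← map_pow, hrt]
    simp only [this, mul_add, Finset.sum_add_distrib]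
    have h2 : ∀ i, κ (α s i) * (B i : K) = κ (a s i) * (κ (ε i) * (B i : K)) := by
      intro i
      simp only [α]
      rw [map_mul, mul_assoc]
    simp only [h2]
    ring
  have hyy : ∀ s, y s = y' s + κ (rt (c s)) + ∑ i, κ (rt (a s i)) * (A i : K) := by
    intro s
    simp only [y']
    ring
  have hα0 : ∀ s i, ε i = 0 → α s i = 0 := by
    intro s i hi
    simp only [α, hi, mul_zero]
  clear_value α y'
  -- echelon form
  obtain ⟨P, Q, W, π, hQP, hπ, hW⟩ := ech_gen α (fun i i' =>
    V.valuation (mon (u i) (e i)) ≤ V.valuation (mon (u i') (e i'))) (by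
      intro T hT
      obtain ⟨i, hi, him⟩ := Finset.exists_max_image T (fun i => V.valuation (mon (u i) (e i))) hT
      exact ⟨i, hi, fun i' hi' => him i' hi'⟩)
  have hPα : ∀ l i, ε i = 0 → (P * α) l i = 0 := by
    intro l i hi
    rw [Matrix.mul_apply]
    exact Finset.sum_eq_zero fun s _ => by rw [hα0 s i hi, mul_zero]
  have hεπ : ∀ j, ε (π j) ≠ 0 := fun j h0 => (hπ j).1 (hPα _ _ h0)
  let η : Fin S → K := fun l => ∑ s, κ (rt (P l s)) * y' s
  have hη : ∀ l, η l ^ p = ∑ i, κ ((P * α) l i) * (B i : K) := by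
    intro l
    simp only [η]
    rw [sum_pow_char]
    simp only [mul_pow, hy', Finset.mul_sum]
    rw [Finset.sum_comm]
    refine Finset.sum_congr rfl fun i _ => ?_
    rw [Matrix.mul_apply, map_sum, Finset.sum_mul]
    refine Finset.sum_congr rfl fun s _ => ?_
    rw [← map_pow, hrt, map_mul, mul_assoc]
  have hηW : ∀ l ∉ W, η l = 0 := by
    intro l hl
    have h1 := hη l
    simp only [hW l hl, map_zero, zero_mul, Finset.sum_const_zero] at h1
    exact pow_eq_zero_iff hp0 |>.1 h1
  have hηne : ∀ l : {l // l ∈ W}, η l ≠ 0 := by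
    intro l h0
    have h1 := hη l
    rw [h0, zero_pow hp0] at h1
    have h2 := hindB.linearIndependent
    rw [Fintype.linearIndependent_iff] at h2
    have h3 := h2 (fun i => (P * α) l i) (by
      rw [h1, ← Finset.sum_filter_add_sum_filter_not Finset.univ (fun b => ε b ≠ 0)]
      have h4 : ∑ i ∈ Finset.univ.filter (fun b => ¬ ε b ≠ 0), κ ((P * α) l i) * (B i : K) = 0 := by
        refine Finset.sum_eq_zero fun i hi => ?_
        rw [hPα _ _ (not_not.1 (Finset.mem_filter.1 hi).2), map_zero, zero_mul]
      rw [h4, add_zero, ← Finset.sum_coe_sort (Finset.univ.filter fun b => ε b ≠ 0)]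
      refine Finset.sum_congr rfl fun i _ => ?_
      rw [Algebra.smul_def])
    exact (hπ l).1 (h3 ⟨π l, Finset.mem_filter.2 ⟨Finset.mem_univ _, hεπ l⟩⟩)
  have hback : ∀ s, y' s = ∑ l, κ (rt (Q s l)) * η l := by
    intro s
    have h1 : y' s ^ p = (∑ l, κ (rt (Q s l)) * η l) ^ p := by
      rw [sum_pow_char]
      simp only [mul_pow, hη, hy']
      have : ∀ l, κ (rt (Q s l)) ^ p = κ (Q s l) := fun l => by rw [← map_pow, hrt]
      simp only [this, Finset.mul_sum]
      rw [Finset.sum_comm]
      refine Finset.sum_congr rfl fun i _ => ?_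
      have h2 : α s i = ∑ l, Q s l * (P * α) l i := by
        have h3 : (Q * (P * α)) s i = α s i := by rw [← Matrix.mul_assoc, hQP, Matrix.one_mul]
        rw [← h3, Matrix.mul_apply]
      rw [h2, map_sum, Finset.sum_mul]
      refine Finset.sum_congr rfl fun l _ => ?_
      rw [map_mul, mul_assoc]
    exact frobenius_inj K p h1
  clear_value η
  have hmo : ∀ b, (B b : K) = mon (gu u) (ge b (e b)) *
      (MvPolynomial.aeval (Sum.elim (gu u) (gw w)) (MvPolynomial.rename (emb nb b) (N' b)) /
      MvPolynomial.aeval (Sum.elim (gu u) (gw w)) (MvPolynomial.rename (emb nb b) (D b))) := by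
    intro b
    rw [mon_ge, aeval_emb, aeval_emb]
    exact (hT b).hB
  let s : SDat (k := k) V p (Σ b, Fin (nb b)) (Fin r × Fin 2) (Fin r) {l // l ∈ W} (Fin L) :=
    { u := gu u
      w := gw w
      Φ := gΦ Φ
      G := gG G
      e := fun b => ge b (e b)
      N := fun b => MvPolynomial.rename (emb nb b) (N' b)
      D := fun b => MvPolynomial.rename (emb nb b) (D b)
      η := fun l => η l
      a := fun l b => (P * α) l b
      π := π
      pv := fun l => ⟨π l, pv (π l)⟩
      ζ := ζ
      m := mζ
      E := fun l x => E l x.1 x.2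
      N2 := fun l => ∏ b, MvPolynomial.rename (emb nb b) (N2 l b)
      D2 := fun l => ∏ b, MvPolynomial.rename (emb nb b) (D2 l b)
      hu0 := fun x => (hT x.1).u0 x.2
      huV := fun x => (hT x.1).uV x.2
      hwV := fun x => (hT x.1).wV x.2
      hΦ := rel_glue u w Φ fun b => (hT b).rel
      hGV := by
        rintro ⟨b, l⟩ ⟨b', l'⟩
        unfold gG
        split_ifs
        · exact (hT b).GV _ _
        · exact zero_mem _
      hG1 := G1_glue u w Φ G fun b => (hT b).G1
      hη := hηne
      hζ := hζ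
      hm := hmζ
      hN0 := fun b => by rw [aeval_emb]; exact (hT b).hN0
      hNV := fun b => by rw [aeval_emb]; exact (hT b).hNV
      hD0 := fun b => by rw [aeval_emb]; exact (hT b).hD0
      hDV := fun b => by rw [aeval_emb]; exact (hT b).hDV
      hN20 := fun l => by
        rw [map_prod, Finset.prod_ne_zero_iff]
        intro b _
        rw [aeval_emb]
        exact (hE l b).2.1
      hN2V := fun l => by
        rw [map_prod, ← Finset.prod_inv_distrib]
        refine prod_mem fun b _ => ?_
        rw [aeval_emb]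
        exact (hE l b).2.2.1
      hD20 := fun l => by
        rw [map_prod, Finset.prod_ne_zero_iff]
        intro b _
        rw [aeval_emb]
        exact (hE l b).2.2.2.1
      hD2V := fun l => by
        rw [map_prod, ← Finset.prod_inv_distrib]
        refine prod_mem fun b _ => ?_
        rw [aeval_emb]
        exact (hE l b).2.2.2.2
      relA := by
        intro l
        rw [hη l]
        refine Finset.sum_congr rfl fun i _ => ?_
        rw [← hmo i]
      relB := by
        intro l
        rw [hh l, mon_all u (E l), map_prod, map_prod, ← Finset.prod_div_distrib,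
          ← Finset.prod_mul_distrib]
        refine Finset.prod_congr rfl fun b _ => ?_
        rw [aeval_emb, aeval_emb]
        exact (hE l b).1
      ha1 := fun l => (hπ l).1
      ha2 := fun l l' h => (hπ l).2.1 l' (fun h' => h (Subtype.ext h'))
      ha3 := fun l i h => by
        rw [mon_ge, mon_ge]
        exact (hπ l).2.2 i h
      he1 := fun l => by
        rw [ge_same]
        exact (hT (π l)).piv (hεπ l)
      he2 := fun l b hb => ge_ne hb _ _
      hdir := by
        intro l b
        by_cases hb : b = π l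
        · subst hb
          rw [ddw_same, ddw_same, aeval_emb, aeval_emb]
          exact (hT (π l)).dir (hεπ l)
        · rw [ddw_ne u w Φ G hb, ddw_ne u w Φ G hb, zero_mul, mul_zero, sub_zero, map_zero]
          exact zero_lt_one }
  refine s.uniformizable hV ?_ ?_
  · rw [hn]
    congr 1
    rw [Fintype.card_sigma]
    simp
  · set M := IntermediateField.adjoin k (Set.range s.u ∪ Set.range s.w ∪
      (Set.range s.η ∪ Set.range s.ζ)) with hM
    have hu : ∀ b i, u b i ∈ M := fun b i =>
      IntermediateField.subset_adjoin _ _ (Or.inl (Or.inl ⟨⟨b, i⟩, rfl⟩))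
    have hw : ∀ b i, w b i ∈ M := fun b i =>
      IntermediateField.subset_adjoin _ _ (Or.inl (Or.inr ⟨(b, i), rfl⟩))
    have hxx : ∀ l : {l // l ∈ W}, η l ∈ M := fun l =>
      IntermediateField.subset_adjoin _ _ (Or.inr (Or.inl ⟨l, rfl⟩))
    have hζM : ∀ l, ζ l ∈ M := fun l =>
      IntermediateField.subset_adjoin _ _ (Or.inr (Or.inr ⟨l, rfl⟩))
    have hFM : ∀ b, F b ≤ M := by
      intro b
      refine (hT b).gen.trans ?_
      rw [IntermediateField.adjoin_le_iff]
      rintro _ (⟨i, rfl⟩ | ⟨i, rfl⟩)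
      · exact hu b i
      · exact hw b i
    have hηM : ∀ l, η l ∈ M := by
      intro l
      by_cases hl : l ∈ W
      · exact hxx ⟨l, hl⟩
      · rw [hηW l hl]
        exact zero_mem M
    rw [eq_top_iff, ← hgen]
    refine sup_le (iSup_le hFM) ?_
    rw [IntermediateField.adjoin_le_iff]
    rintro _ (⟨s, rfl⟩ | ⟨l, rfl⟩)
    · rw [hyy s]
      refine add_mem (add_mem ?_ (M.algebraMap_mem _)) ?_
      · rw [hback s]
        exact sum_mem fun l _ => mul_mem (M.algebraMap_mem _) (hηM l)
      · exact sum_mem fun i _ => mul_mem (M.algebraMap_mem _) (hFM i (A i).2)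
    · exact hζM l

end LS
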