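import Pool.Agent.helper90.LU.Asm
import Pool.Agent.helper90.LU.Indep

/-! # LUS-Count: the Jacobian criterion, with a count instead of algebraicity conditions -/

open IsLocalRing

namespace LS

open LU

universe u

section jac

variable {k E : Type*} [Field k] [Field E] [Algebra k E]

/-- chain rule for a derivation -/
lemma deriv_aeval {A N ι : Type*} [CommRing A] [Algebra k A] [Fintype ι] [AddCommGroup N]
    [Module A N] [Module k N] [IsScalarTower k A N] (D : Derivation k A N) (x : ι → A)
    (f : MvPolynomial ι k) :
    D (MvPolynomial.aeval x f) = ∑ i, MvPolynomial.aeval x (MvPolynomial.pderiv i f) • D (x i) := by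
  classical
  induction f using MvPolynomial.induction_on with
  | C c => simp
  | add p q hp hq =>
    simp only [map_add, hp, hq, add_smul, Finset.sum_add_distrib]
  | mul_X p i hp =>
    rw [map_mul, MvPolynomial.aeval_X, Derivation.leibniz, hp, Finset.smul_sum]
    simp only [Derivation.leibniz, smul_eq_mul, map_add, map_mul, MvPolynomial.aeval_X, add_smul,
      Finset.sum_add_distrib, MvPolynomial.pderiv_X]
    congr 1
    · rw [Finset.sum_eq_single i]
      · simp
      · intro j _ hj
        simp [Pi.single_eq_of_ne (Ne.symm hj)]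
      · simp
    · refine Finset.sum_congr rfl fun j _ => ?_
      rw [smul_smul]

lemma alg_of_D {L M : Type*} [Field L] [Field M] [Algebra L M] [Algebra.EssFiniteType L M]
    (hD : ∀ y : M, KaehlerDifferential.D L M y = 0) (x : M) : IsAlgebraic L x := by
  have hsub : Subsingleton (Ω[M⁄L]) := by
    have h1 := KaehlerDifferential.span_range_derivation L M
    have h2 : Set.range (KaehlerDifferential.D L M) = {0} := by
      ext w
      constructor
      · rintro ⟨y, rfl⟩
        exact hD y
      · rintro rfl
        exact ⟨0, map_zero _⟩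
    rw [h2, Submodule.span_zero_singleton] at h1
    exact (Submodule.subsingleton_iff M).1 (subsingleton_of_bot_eq_top h1)
  have hfu : Algebra.FormallyUnramified L M := ⟨hsub⟩
  have hsep : Algebra.IsSeparable L M := Algebra.FormallyUnramified.isSeparable L M
  exact (hsep.isAlgebraic).isAlgebraic _

/-- Jacobian criterion for algebraicity -/
theorem alg_of_jac {ι J : Type*} [Fintype ι] [Fintype J] [DecidableEq J] (x : ι → E)
    (f : J → MvPolynomial ι k) (hf : ∀ j, MvPolynomial.aeval x (f j) = 0) (i0 : J → ι)
    (hi0 : Function.Injective i0)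
    (hdet : (Matrix.of fun j j' => MvPolynomial.aeval x (MvPolynomial.pderiv (i0 j') (f j))).det
      ≠ 0) (i : ι) :
    IsAlgebraic (IntermediateField.adjoin k (x '' (Set.range i0)ᶜ)) (x i) := by
  classical
  set L := IntermediateField.adjoin k (x '' (Set.range i0)ᶜ) with hL
  set M := IntermediateField.adjoin L (Set.range x) with hM
  have hfg : M.FG := IntermediateField.fg_adjoin_of_finite (Set.finite_range x)
  have hess : Algebra.EssFiniteType L M := IntermediateField.essFiniteType_iff.2 hfg
  have hxM : ∀ i, x i ∈ M := fun i => IntermediateField.subset_adjoin _ _ ⟨i, rfl⟩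
  let x' : ι → M := fun i => ⟨x i, hxM i⟩
  have hcoe : ∀ q : MvPolynomial ι k, ((MvPolynomial.aeval x' q : M) : E) =
      MvPolynomial.aeval x q := by
    intro q
    induction q using MvPolynomial.induction_on with
    | C c => simp; rfl
    | add p q hp hq => simp [hp, hq]
    | mul_X p i hp => simp [hp, x']
  let D : Derivation L M (Ω[M⁄L]) := KaehlerDifferential.D L M
  have hDf : ∀ q : MvPolynomial ι k,
      D (MvPolynomial.aeval x' q) =
        ∑ i, MvPolynomial.aeval x' (MvPolynomial.pderiv i q) • D (x' i) := by
    intro q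
    exact deriv_aeval (D.restrictScalars k) x' q
  have hD0 : ∀ i, i ∉ Set.range i0 → D (x' i) = 0 := by
    intro i hi
    have hxL : x i ∈ L := IntermediateField.subset_adjoin _ _ ⟨i, hi, rfl⟩
    have : x' i = algebraMap L M ⟨x i, hxL⟩ := by
      apply Subtype.ext
      rfl
    rw [this, D.map_algebraMap]
  let A : Matrix J J M := Matrix.of fun j j' =>
    MvPolynomial.aeval x' (MvPolynomial.pderiv (i0 j') (f j))
  have hAdet : A.det ≠ 0 := by
    intro h
    apply hdet
    have h1 := congrArg (algebraMap M E) h
    rw [map_zero, RingHom.map_det] at h1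
    rw [← h1]
    congr 1
    ext j j'
    simp only [Matrix.of_apply, RingHom.mapMatrix_apply, Matrix.map_apply, A]
    exact (hcoe _).symm
  have hsum : ∀ j, ∑ j', A j j' • D (x' (i0 j')) = 0 := by
    intro j
    have h1 := hDf (f j)
    have h2 : (MvPolynomial.aeval x' (f j) : M) = 0 := by
      apply Subtype.ext
      rw [hcoe, hf]
      rfl
    rw [h2, map_zero] at h1
    rw [h1]
    rw [← Finset.sum_subset (Finset.subset_univ (Finset.univ.image i0))]
    · rw [Finset.sum_image (fun a _ b _ h => hi0 h)]
      rfl
    · intro i _ hi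
      rw [hD0 i, smul_zero]
      rintro ⟨j, rfl⟩
      exact hi (Finset.mem_image_of_mem _ (Finset.mem_univ j))
  have hDx0 : ∀ j, D (x' (i0 j)) = 0 := by
    intro j
    have h1 : A.adjugate * A = A.det • (1 : Matrix J J M) := Matrix.adjugate_mul A
    have h2 : ∑ j', (A.adjugate * A) j j' • D (x' (i0 j')) = 0 := by
      simp only [Matrix.mul_apply, Finset.sum_smul]
      rw [Finset.sum_comm]
      apply Finset.sum_eq_zero
      intro l _
      have := congrArg (fun w => A.adjugate j l • w) (hsum l)
      simp only [smul_zero, Finset.smul_sum, smul_smul] at this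
      exact this
    rw [h1] at h2
    rw [Finset.sum_eq_single j] at h2
    · simp only [Matrix.smul_apply, Matrix.one_apply_eq, smul_eq_mul, mul_one] at h2
      exact (smul_eq_zero.1 h2).resolve_left hAdet
    · intro l _ hl
      simp [Matrix.one_apply_ne (Ne.symm hl)]
    · simp
  have hDx : ∀ i, D (x' i) = 0 := by
    intro i
    by_cases hi : i ∈ Set.range i0
    · obtain ⟨j, rfl⟩ := hi
      exact hDx0 j
    · exact hD0 i hi
  -- the kernel of `D` is an intermediate field
  have hDall : ∀ y : M, D y = 0 := by
    rintro ⟨y, hy⟩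
    refine IntermediateField.adjoin_induction (F := L) (s := Set.range x)
      (p := fun y hy => D (⟨y, hy⟩ : M) = 0) ?_ ?_ ?_ ?_ ?_ hy
    · rintro _ ⟨i, rfl⟩
      exact hDx i
    · intro c
      have h := D.map_algebraMap c
      exact h
    · intro a b ha hb h1 h2
      have h := D.map_add (⟨a, ha⟩ : M) ⟨b, hb⟩
      rw [h1, h2, add_zero] at h
      exact h
    · intro a ha h1
      have h := D.leibniz_inv (⟨a, ha⟩ : M)
      rw [h1, smul_zero] at h
      exact h
    · intro a b ha hb h1 h2
      have h := D.leibniz (⟨a, ha⟩ : M) ⟨b, hb⟩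
      rw [h1, h2, smul_zero, smul_zero, add_zero] at h
      exact h
  have hal : IsAlgebraic L (x' i) := alg_of_D hDall (x' i)
  have h2 := (isAlgebraic_algebraMap_iff (R := L) (S := M) (A := E) (a := x' i)
    (FaithfulSMul.algebraMap_injective M E)).2 hal
  exact h2

open IntermediateField.algebraAdjoinAdjoin in
/-- algebraicity over the polynomial ring -/
lemma algOver_of_adjoin {k E : Type*} [Field k] [Field E] [Algebra k E] {σ : Type*} {y : σ → E}
    {S : Set E} (hS : S ⊆ Set.range y) {x : E}
    (h : IsAlgebraic (IntermediateField.adjoin k S) x) (θ : MvPolynomial σ k →+* E)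
    (hθ : ∀ q, θ q = MvPolynomial.aeval y q) : AlgOver θ x := by
  have h1 : IsAlgebraic (IntermediateField.adjoin k (Set.range y)) x := by
    have hle : IntermediateField.adjoin k S ≤ IntermediateField.adjoin k (Set.range y) :=
      IntermediateField.adjoin.mono _ _ _ hS
    obtain ⟨q, hq0, hq⟩ := h
    let g : IntermediateField.adjoin k S →+* IntermediateField.adjoin k (Set.range y) :=
      (IntermediateField.inclusion hle).toRingHom
    refine ⟨q.map g, (Polynomial.map_ne_zero_iff g.injective).2 hq0, ?_⟩
    rw [Polynomial.aeval_def, Polynomial.eval₂_map]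
    exact hq
  have h2 : IsAlgebraic (Algebra.adjoin k (Set.range y)) x := by
    have : Algebra.IsAlgebraic (Algebra.adjoin k (Set.range y))
      (IntermediateField.adjoin k (Set.range y)) := inferInstance
    exact IsAlgebraic.restrictScalars (Algebra.adjoin k (Set.range y)) h1
  unfold AlgOver
  let _ := θ.toAlgebra
  have hmem : ∀ q : MvPolynomial σ k, MvPolynomial.aeval y q ∈ Algebra.adjoin k (Set.range y) := by
    intro q
    rw [Algebra.adjoin_range_eq_range_aeval]
    exact ⟨q, rfl⟩
  let f : MvPolynomial σ k →+* Algebra.adjoin k (Set.range y) :=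
    ((MvPolynomial.aeval y : MvPolynomial σ k →ₐ[k] E).codRestrict _ hmem).toRingHom
  have hf : Function.Surjective f := by
    rintro ⟨a, ha⟩
    have ha' := ha
    rw [Algebra.adjoin_range_eq_range_aeval] at ha'
    obtain ⟨q, hq⟩ := ha'
    exact ⟨q, Subtype.ext hq⟩
  refine IsAlgebraic.of_ringHom_of_comp_eq (R := MvPolynomial σ k)
    (S := Algebra.adjoin k (Set.range y)) (A := E) (B := E) (f := f) (g := RingHom.id E) (a := x)
    h2 hf Function.injective_id ?_
  apply RingHom.ext
  intro q
  exact (hθ q).symm

end jac

section linalg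

/-- a matrix with independent rows has a nonzero maximal minor -/
lemma exists_minor {κ : Type*} [Field κ] {J ι : Type*} [Fintype J] [DecidableEq J] [Fintype ι]
    (N : Matrix J ι κ) (hN : LinearIndependent κ N.row) :
    ∃ i0 : J → ι, Function.Injective i0 ∧ (Matrix.of fun j j' => N j (i0 j')).det ≠ 0 := by
  classical
  have hr : N.rank = Fintype.card J := LinearIndependent.rank_matrix hN
  rw [Matrix.rank_eq_finrank_span_cols] at hr
  have hspan : Submodule.span κ (Set.range N.col) = ⊤ := by
    apply Submodule.eq_top_of_finrank_eq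
    rw [hr]
    simp
  obtain ⟨κ', a, ha, hsp, hli⟩ := exists_linearIndependent' κ N.col
  rw [hspan] at hsp
  let b : Module.Basis κ' κ (J → κ) := Module.Basis.mk hli hsp.ge
  let e : J ≃ κ' := (Pi.basisFun κ J).indexEquiv b
  refine ⟨a ∘ e, ha.comp e.injective, ?_⟩
  have h1 : LinearIndependent κ ((Matrix.of fun j j' => N j ((a ∘ e) j')) : Matrix J J κ).col := by
    have := hli.comp e e.injective
    exact this
  have h2 := Matrix.linearIndependent_cols_iff_isUnit.1 h1
  rw [Matrix.isUnit_iff_isUnit_det] at h2
  exact h2.ne_zero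

/-- triangular matrices have independent rows -/
lemma row_indep {κ : Type*} [Field κ] {J ι : Type*} [Fintype J] [Fintype ι]
    (N : Matrix J ι κ) (v : J → ι → κ) (rk : J → ℕ)
    (h0 : ∀ j j', j ≠ j' → rk j' ≤ rk j → ∑ i, v j i * N j' i = 0)
    (h1 : ∀ j, ∑ i, v j i * N j i ≠ 0) : LinearIndependent κ N.row := by
  classical
  rw [Fintype.linearIndependent_iff]
  intro c hc
  by_contra hne
  push Not at hne
  obtain ⟨j0, hj0⟩ := hne
  have hsne : (Finset.univ.filter fun j => c j ≠ 0).Nonempty := ⟨j0, by simp [hj0]⟩
  obtain ⟨j, hj, hmax⟩ := Finset.exists_max_image _ rk hsne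
  rw [Finset.mem_filter] at hj
  have h2 : ∀ i, ∑ j, c j * N j i = 0 := by
    intro i
    have := congrFun hc i
    rw [Finset.sum_apply] at this
    exact this
  have h3 : ∑ j', c j' * ∑ i, v j i * N j' i = 0 := by
    have : ∑ i, v j i * ∑ j', c j' * N j' i = 0 := by
      apply Finset.sum_eq_zero
      intro i _
      rw [h2, mul_zero]
    rw [← this]
    simp only [Finset.mul_sum]
    rw [Finset.sum_comm]
    refine Finset.sum_congr rfl fun i _ => Finset.sum_congr rfl fun j' _ => ?_
    ring
  rw [Finset.sum_eq_single j] at h3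
  · exact mul_ne_zero hj.2 (h1 j) h3
  · intro j' _ hj'
    by_cases hc' : c j' = 0
    · rw [hc', zero_mul]
    · rw [h0 j j' (Ne.symm hj') (hmax j' (by simp [hc'])), mul_zero]
  · simp

end linalg

section main

variable {k K : Type u} [Field k] [Field K] [Algebra k K] (V : ValuationSubring K)
  (hV : ∀ c : k, algebraMap k K c ∈ V) {ι : Type} [Fintype ι] (z : ι → K) (hz : ∀ i, z i ∈ V)

lemma snd_psi0_sum (v : ι → ResidueField V) (f : MvPolynomial ι k) :
    (psi0 V hV z hz v f).snd =
      ∑ i, v i * residue V (evV V hV z hz (MvPolynomial.pderiv i f)) := by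
  classical
  induction f using MvPolynomial.induction_on with
  | C c => simp [psi0]
  | add p q hp hq =>
    simp only [map_add, TrivSqZeroExt.snd_add, hp, hq, mul_add, Finset.sum_add_distrib]
  | mul_X p i hp =>
    have hX : psi0 V hV z hz v (MvPolynomial.X i) =
      TrivSqZeroExt.inl (residue V ⟨z i, hz i⟩) + TrivSqZeroExt.inr (v i) := by simp [psi0]
    rw [map_mul, TrivSqZeroExt.snd_mul, fst_psi0, hp, hX]
    simp only [TrivSqZeroExt.snd_add, TrivSqZeroExt.snd_inl, TrivSqZeroExt.snd_inr, zero_add,
      TrivSqZeroExt.fst_add, TrivSqZeroExt.fst_inl, TrivSqZeroExt.fst_inr, add_zero,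
      smul_eq_mul, MulOpposite.smul_eq_mul_unop, MulOpposite.unop_op]
    have hXe : evV V hV z hz (MvPolynomial.X i) = ⟨z i, hz i⟩ := by simp [evV]
    simp only [Derivation.leibniz, smul_eq_mul, map_add, map_mul, hXe, mul_add,
      Finset.sum_add_distrib, MvPolynomial.pderiv_X]
    have hs : ∑ x, v x * (residue V (evV V hV z hz p) *
        residue V (evV V hV z hz
          ((Pi.single x (1 : MvPolynomial ι k) : ι → MvPolynomial ι k) i))) =
        residue V (evV V hV z hz p) * v i := by
      rw [Finset.sum_eq_single i]
      · rw [Pi.single_eq_same, map_one, map_one]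
        ring
      · intro j _ hj
        rw [Pi.single_eq_of_ne (Ne.symm hj), map_zero, map_zero, mul_zero, mul_zero]
      · simp
    rw [hs, Finset.sum_mul]
    congr 1
    refine Finset.sum_congr rfl fun j _ => ?_
    ring

end main

theorem crit_count {k K : Type u} [Field k] [Field K] [Algebra k K] (V : ValuationSubring K)
    (hV : ∀ c : k, algebraMap k K c ∈ V) {ι : Type} [Fintype ι] (z : ι → K) (hz : ∀ i, z i ∈ V)
    (hgen : IntermediateField.adjoin k (Set.range z) = ⊤)
    {J : Type} [Fintype J] (rk : J → ℕ) (F : J → SS V hV z hz)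
    (hF : ∀ j, evS V hV z hz (F j) = 0) (v : J → ι → ResidueField V)
    (h0 : ∀ j j', j ≠ j' → rk j' ≤ rk j → (psi V hV z hz (v j) (F j')).snd = 0)
    (h1 : ∀ j, (psi V hV z hz (v j) (F j)).snd ≠ 0)
    (hcount : Algebra.trdeg k K + (Fintype.card J : Cardinal.{u}) = (Fintype.card ι : Cardinal.{u})) :
    Uniformizable k V := by
  classical
  -- write the relations as fractions
  have hfr : ∀ j, ∃ f : MvPolynomial ι k, ∃ g : (PP V hV z hz).primeCompl,
      F j * algebraMap _ (SS V hV z hz) (g : MvPolynomial ι k) = algebraMap _ _ f := by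
    intro j
    obtain ⟨f, g, h⟩ := IsLocalization.exists_mk'_eq (PP V hV z hz).primeCompl (F j)
    refine ⟨f, g, ?_⟩
    rw [← h]
    exact IsLocalization.mk'_spec _ _ _
  choose f g hfg using hfr
  have hg : ∀ j, residue V (evV V hV z hz (g j : MvPolynomial ι k)) ≠ 0 := by
    intro j h
    rw [residue_eq_zero_iff] at h
    exact (g j).2 h
  let N : Matrix J ι (ResidueField V) := Matrix.of fun j i =>
    residue V (evV V hV z hz (MvPolynomial.pderiv i (f j)))
  have hT : ∀ j j', ∑ i, v j i * N j' i =
      (psi V hV z hz (v j) (F j')).snd * residue V (evV V hV z hz (g j' : MvPolynomial ι k)) := by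
    intro j j'
    have h2 := congrArg (fun s => (psi V hV z hz (v j) s).snd) (hfg j')
    change (psi V hV z hz (v j) (F j' * algebraMap _ (SS V hV z hz)
      (g j' : MvPolynomial ι k))).snd = (psi V hV z hz (v j) (algebraMap _ _ (f j'))).snd at h2
    rw [map_mul, TrivSqZeroExt.snd_mul, fst_psi, hF, map_zero, zero_smul, zero_add,
      psi_algebraMap, fst_psi0, psi_algebraMap, snd_psi0_sum V hV z hz (v j) (f j')] at h2
    simp only [MulOpposite.smul_eq_mul_unop, MulOpposite.unop_op] at h2
    exact h2.symm
  have hNind : LinearIndependent (ResidueField V) N.row := by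
    refine row_indep N v rk ?_ ?_
    · intro j j' hne hrk
      rw [hT, h0 j j' hne hrk, zero_mul]
    · intro j
      rw [hT]
      exact mul_ne_zero (h1 j) (hg j)
  obtain ⟨i0, hi0, hdet⟩ := exists_minor N hNind
  let Q : MvPolynomial ι k := (Matrix.of fun j j' => MvPolynomial.pderiv (i0 j') (f j)).det
  have hQ : residue V (evV V hV z hz Q) ≠ 0 := by
    have : residue V (evV V hV z hz Q) = (Matrix.of fun j j' => N j (i0 j')).det := by
      change ((residue V).comp (evV V hV z hz)) Q = _
      rw [RingHom.map_det]
      rfl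
    rw [this]
    exact hdet
  have hQP : Q ∈ (PP V hV z hz).primeCompl := by
    intro h
    apply hQ
    rw [residue_eq_zero_iff]
    exact h
  -- algebraicity in an arbitrary target
  let σ : Type := {i : ι // i ∉ Set.range i0}
  have hgenalg : ∀ {E : Type u} [Field E] [Algebra k E] (x : ι → E),
      (∀ j, MvPolynomial.aeval x (f j) = 0) → MvPolynomial.aeval x Q ≠ 0 →
      ∀ i, IsAlgebraic (IntermediateField.adjoin k (x '' (Set.range i0)ᶜ)) (x i) := by
    intro E _ _ x hx hxQ i
    refine alg_of_jac x f hx i0 hi0 ?_ i
    intro h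
    apply hxQ
    change (MvPolynomial.aeval x : MvPolynomial ι k →ₐ[k] E) Q = 0
    rw [AlgHom.map_det]
    exact h
  have hK := hgenalg z (by
      intro j
      have h2 : evV V hV z hz (f j) = 0 := by
        rw [← evS_algebraMap, ← hfg, map_mul, hF, zero_mul]
      rw [← coe_evV V hV z hz, h2]
      rfl) (by
      intro h
      apply hQ
      rw [← coe_evV V hV z hz] at h
      have h2 : evV V hV z hz Q = 0 := Subtype.ext h
      rw [h2, map_zero])
  have hcσ : Fintype.card σ + Fintype.card J = Fintype.card ι := by
    have h2 : Fintype.card σ = Fintype.card ι - Fintype.card (Set.range i0) :=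
      Fintype.card_compl_set (Set.range i0)
    have h3 : Fintype.card (Set.range i0) = Fintype.card J :=
      Set.card_range_of_injective hi0
    have h4 : Fintype.card J ≤ Fintype.card ι := Fintype.card_le_of_injective i0 hi0
    omega
  have htr : Algebra.trdeg k K = (Fintype.card σ : Cardinal.{u}) := by
    have h2 : Algebra.trdeg k K + (Fintype.card J : Cardinal.{u}) =
        (Fintype.card σ : Cardinal.{u}) + (Fintype.card J : Cardinal.{u}) := by
      rw [hcount, ← hcσ]
      push_cast
      rfl
    exact Cardinal.add_nat_inj _ |>.1 h2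
  let e : Fin (Fintype.card σ) ≃ σ := (Fintype.equivFin σ).symm
  have hind : AlgebraicIndependent k (fun i : σ => z i) := by
    have h2 : AlgebraicIndependent k (fun a : Fin (Fintype.card σ) => z (e a)) := by
      refine indep_of_trdeg _ ?_ htr
      have hr : Set.range (fun a : Fin (Fintype.card σ) => z (e a)) = z '' (Set.range i0)ᶜ := by
        ext x
        constructor
        · rintro ⟨a, rfl⟩
          exact ⟨_, (e a).2, rfl⟩
        · rintro ⟨i, hi, rfl⟩
          exact ⟨e.symm ⟨i, hi⟩, by simp⟩
      rw [hr]
      set L := IntermediateField.adjoin k (z '' (Set.range i0)ᶜ) with hL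
      let Ac : IntermediateField k K := (algebraicClosure L K).restrictScalars k
      have hmem : ∀ x : K, x ∈ Ac ↔ IsAlgebraic L x := fun x => mem_algebraicClosure_iff
      have htop : (⊤ : IntermediateField k K) ≤ Ac := by
        rw [← hgen, IntermediateField.adjoin_le_iff]
        rintro _ ⟨i, rfl⟩
        exact (hmem _).2 (hK i)
      exact ⟨fun x => (hmem x).1 (htop trivial)⟩
    have h3 := h2.comp e.symm e.symm.injective
    have h4 : (fun a : Fin (Fintype.card σ) => z (e a)) ∘ e.symm = fun i : σ => z i := by
      funext i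
      simp
    rw [h4] at h3
    exact h3
  refine crit_blocks V hV z hz hgen (σ := σ) (fun i => MvPolynomial.X i) ?_ rk F hF v h0 h1 ?_
  · have : (fun i : σ => MvPolynomial.aeval z (MvPolynomial.X (i : ι) : MvPolynomial ι k)) =
        fun i : σ => z i := by
      funext i
      simp
    rw [this]
    exact hind
  · intro E _ φ hφF _ i
    let α : k →+* E := (φ.comp (algebraMap (MvPolynomial ι k) (SS V hV z hz))).comp MvPolynomial.C
    let _ : Algebra k E := α.toAlgebra
    let x : ι → E := fun i => φ (algebraMap (MvPolynomial ι k) (SS V hV z hz) (MvPolynomial.X i))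
    have hx : ∀ q : MvPolynomial ι k,
        MvPolynomial.aeval x q = φ (algebraMap (MvPolynomial ι k) (SS V hV z hz) q) := by
      intro q
      induction q using MvPolynomial.induction_on with
      | C c => simp; rfl
      | add p q hp hq => simp only [map_add, hp, hq]
      | mul_X p i hp => simp only [map_mul, hp, MvPolynomial.aeval_X]; rfl
    have h2 := hgenalg x (by
      intro j
      rw [hx, ← hfg, map_mul, hφF, zero_mul]) (by
      rw [hx]
      exact ((IsLocalization.map_units (SS V hV z hz) ⟨Q, hQP⟩).map φ).ne_zero) i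
    refine algOver_of_adjoin (y := fun i : σ => x i) ?_ h2 _ ?_
    · rintro _ ⟨i, hi, rfl⟩
      exact ⟨⟨i, hi⟩, rfl⟩
    · intro q
      induction q using MvPolynomial.induction_on with
      | C c => simp; rfl
      | add p q hp hq => simp only [map_add, hp, hq]
      | mul_X p i hp =>
        rw [map_mul, map_mul, hp, MvPolynomial.aeval_X]
        congr 1
        simp [x]

end LS
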