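import Pool.Agent.helper90.LS.Defs2
import Pool.Agent.helper90.LS.Basic

/-! # LUS-DRec, auxiliary lemmas: orders, chain rule, valuations -/

open MvPolynomial

namespace LS

open LU

universe u

namespace DRecA

section lonu

theorem lo_le {S : Finset (Fin 2 →₀ ℕ)} {m : Fin 2 →₀ ℕ} (hm : m ∈ S) : lo S ≤ m 0 :=
  Nat.sInf_le ⟨m, hm, rfl⟩

theorem exists_lo {S : Finset (Fin 2 →₀ ℕ)} (hS : S.Nonempty) : ∃ m ∈ S, m 0 = lo S := by
  obtain ⟨m, hm⟩ := hS
  exact Nat.sInf_mem (s := {i | ∃ m ∈ S, m 0 = i}) ⟨m 0, m, hm, rfl⟩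

theorem nu_le {S : Finset (Fin 2 →₀ ℕ)} {m : Fin 2 →₀ ℕ} (hm : m ∈ S) (h0 : m 0 = lo S) :
    nu S ≤ m 1 :=
  Nat.sInf_le ⟨m, hm, h0, rfl⟩

theorem exists_nu {S : Finset (Fin 2 →₀ ℕ)} (hS : S.Nonempty) :
    ∃ m ∈ S, m 0 = lo S ∧ m 1 = nu S := by
  obtain ⟨m, hm, h0⟩ := exists_lo hS
  exact Nat.sInf_mem (s := {j | ∃ m ∈ S, m 0 = lo S ∧ m 1 = j}) ⟨m 1, m, hm, h0, rfl⟩

theorem lo_eq {S : Finset (Fin 2 →₀ ℕ)} {w : ℕ} (h1 : ∀ m ∈ S, w ≤ m 0)
    (h2 : ∃ m ∈ S, m 0 = w) : lo S = w := by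
  obtain ⟨m, hm, hw⟩ := h2
  refine le_antisymm (hw ▸ lo_le hm) ?_
  obtain ⟨m', hm', h'⟩ := exists_lo ⟨m, hm⟩
  rw [← h']; exact h1 m' hm'

theorem nu_eq {S : Finset (Fin 2 →₀ ℕ)} {w : ℕ} (h1 : ∀ m ∈ S, m 0 = lo S → w ≤ m 1)
    (h2 : ∃ m ∈ S, m 0 = lo S ∧ m 1 = w) : nu S = w := by
  obtain ⟨m, hm, h0, hw⟩ := h2
  refine le_antisymm (hw ▸ nu_le hm h0) ?_
  obtain ⟨m', hm', h0', h'⟩ := exists_nu ⟨m, hm⟩
  rw [← h']; exact h1 m' hm' h0'

end lonu

section poly

variable {k : Type u} [Field k]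

/-- divide by the power of `X 0` -/
theorem exists_div {g : MvPolynomial (Fin 2) k} (hg : g ≠ 0) :
    ∃ g1 : MvPolynomial (Fin 2) k, g = X 0 ^ lo g.support * g1 ∧ g1 ≠ 0 ∧
      lo g1.support = 0 ∧ nu g1.support = nu g.support := by
  classical
  set w := lo g.support with hw
  let g1 : MvPolynomial (Fin 2) k := g.divMonomial (Finsupp.single 0 w)
  have hc : ∀ m, coeff m g1 = coeff (Finsupp.single 0 w + m) g := fun m => coeff_divMonomial _ _ _
  have hS : g.support.Nonempty := by rwa [Finset.nonempty_iff_ne_empty, Ne, support_eq_empty]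
  have hge : ∀ m, coeff m g ≠ 0 → w ≤ m 0 := fun m hm => lo_le (mem_support_iff.2 hm)
  have hsub : ∀ m : Fin 2 →₀ ℕ, w ≤ m 0 → Finsupp.single 0 w + (m - Finsupp.single 0 w) = m := by
    intro m hm
    ext i
    by_cases hi : i = 0
    · subst hi; simp; omega
    · have : (Finsupp.single (0 : Fin 2) w) i = 0 := Finsupp.single_eq_of_ne hi
      simp [this]
  have hmul : g = X 0 ^ w * g1 := by
    have : (X 0 : MvPolynomial (Fin 2) k) ^ w = monomial (Finsupp.single 0 w) 1 := X_pow_eq_monomial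
    rw [this]
    ext m
    rw [coeff_monomial_mul']
    split_ifs with h
    · rw [one_mul, hc, hsub m (by simpa using h 0)]
    · by_contra hne
      apply h
      have := hge m hne
      intro i
      by_cases hi : i = 0
      · subst hi; simpa using this
      · rw [Finsupp.single_eq_of_ne hi]; exact Nat.zero_le _
  have hg1 : g1 ≠ 0 := by
    rintro h0
    rw [h0, mul_zero] at hmul
    exact hg hmul
  obtain ⟨m0, hm0, h00, h01⟩ := exists_nu hS
  have hmem : (m0 - Finsupp.single 0 w) ∈ g1.support := by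
    rw [mem_support_iff, hc, hsub m0 (by rw [h00])]
    exact mem_support_iff.1 hm0
  have h1 : lo g1.support = 0 := by
    refine lo_eq (fun m _ => Nat.zero_le _) ⟨_, hmem, ?_⟩
    simp [h00, hw]
  refine ⟨g1, hmul, hg1, h1, ?_⟩
  refine nu_eq ?_ ⟨_, hmem, ?_, ?_⟩
  · intro m hm hm0
    rw [h1] at hm0
    rw [mem_support_iff, hc] at hm
    have := nu_le (mem_support_iff.2 hm) (by simp [hm0, hw])
    simpa using this
  · rw [h1]; simp [h00, hw]
  · simpa using h01

theorem base0 (c : k) (α a : ℕ) :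
    X 0 * pderiv 0 ((X 0 : MvPolynomial (Fin 2) k) ^ α * (X 1 + C c) ^ a) =
      (α : MvPolynomial (Fin 2) k) * (X 0 ^ α * (X 1 + C c) ^ a) := by
  have h1 : pderiv 0 ((X 1 + C c : MvPolynomial (Fin 2) k) ^ a) = 0 := by
    rw [pderiv_pow, map_add, pderiv_C, pderiv_X_of_ne (by decide), add_zero, mul_zero]
  rw [Derivation.leibniz, h1, smul_zero, zero_add, pderiv_pow, pderiv_X_self, mul_one,
    smul_eq_mul]
  rcases α with _ | α
  · simp
  · rw [Nat.add_sub_cancel, pow_succ]; ring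

theorem base1 (c : k) (α a : ℕ) :
    (X 1 + C c) * pderiv 1 ((X 0 : MvPolynomial (Fin 2) k) ^ α * (X 1 + C c) ^ a) =
      (a : MvPolynomial (Fin 2) k) * (X 0 ^ α * (X 1 + C c) ^ a) := by
  have h1 : pderiv 1 ((X 0 : MvPolynomial (Fin 2) k) ^ α) = 0 := by
    rw [pderiv_pow, pderiv_X_of_ne (by decide), mul_zero]
  rw [Derivation.leibniz, h1, smul_zero, add_zero, pderiv_pow, map_add, pderiv_C, pderiv_X_self,
    add_zero, mul_one, smul_eq_mul]
  rcases a with _ | a
  · simp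
  · rw [Nat.add_sub_cancel, pow_succ]; ring

theorem sb_C (α β a b : ℕ) (c r : k) : sb α β a b c (C r) = C r := by
  rw [sb, aeval_C]; rfl

theorem sb_X0 (α β a b : ℕ) (c : k) : sb α β a b c (X 0) = X 0 ^ α * (X 1 + C c) ^ a := by
  rw [sb, aeval_X]; rfl

theorem sb_X1 (α β a b : ℕ) (c : k) : sb α β a b c (X 1) = X 0 ^ β * (X 1 + C c) ^ b := by
  rw [sb, aeval_X]; rfl

theorem chain0 (α β a b : ℕ) (c : k) (f : MvPolynomial (Fin 2) k) :
    X 0 * pderiv 0 (sb α β a b c f) =
      (α : MvPolynomial (Fin 2) k) * sb α β a b c (X 0 * pderiv 0 f) +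
      (β : MvPolynomial (Fin 2) k) * sb α β a b c (X 1 * pderiv 1 f) := by
  induction f using MvPolynomial.induction_on with
  | C r => rw [sb_C]; simp [pderiv_C]
  | add p q hp hq =>
    simp only [map_add, mul_add] at hp hq ⊢
    rw [hp, hq]; ring
  | mul_X p i hp =>
    fin_cases i
    · change X 0 * pderiv 0 (sb α β a b c (p * X 0)) = (α : MvPolynomial (Fin 2) k) *
        sb α β a b c (X 0 * pderiv 0 (p * X 0)) + (β : MvPolynomial (Fin 2) k) *
        sb α β a b c (X 1 * pderiv 1 (p * X 0))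
      have hb := base0 c α a
      rw [← sb_X0 α β a b c] at hb
      simp only [map_mul, Derivation.leibniz, smul_eq_mul, pderiv_X_self, mul_one, map_add,
        pderiv_X_of_ne (show (0 : Fin 2) ≠ 1 by decide), mul_zero, zero_add] at hp ⊢
      linear_combination (sb α β a b c (X 0)) * hp + (sb α β a b c p) * hb
    · change X 0 * pderiv 0 (sb α β a b c (p * X 1)) = (α : MvPolynomial (Fin 2) k) *
        sb α β a b c (X 0 * pderiv 0 (p * X 1)) + (β : MvPolynomial (Fin 2) k) *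
        sb α β a b c (X 1 * pderiv 1 (p * X 1))
      have hb := base0 c β b
      rw [← sb_X1 α β a b c] at hb
      simp only [map_mul, Derivation.leibniz, smul_eq_mul, pderiv_X_self, mul_one, map_add,
        pderiv_X_of_ne (show (1 : Fin 2) ≠ 0 by decide), mul_zero, zero_add] at hp ⊢
      linear_combination (sb α β a b c (X 1)) * hp + (sb α β a b c p) * hb

theorem chain1 (α β a b : ℕ) (c : k) (f : MvPolynomial (Fin 2) k) :
    (X 1 + C c) * pderiv 1 (sb α β a b c f) =
      (a : MvPolynomial (Fin 2) k) * sb α β a b c (X 0 * pderiv 0 f) +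
      (b : MvPolynomial (Fin 2) k) * sb α β a b c (X 1 * pderiv 1 f) := by
  induction f using MvPolynomial.induction_on with
  | C r => rw [sb_C]; simp [pderiv_C]
  | add p q hp hq =>
    simp only [map_add, mul_add] at hp hq ⊢
    rw [hp, hq]; ring
  | mul_X p i hp =>
    fin_cases i
    · change (X 1 + C c) * pderiv 1 (sb α β a b c (p * X 0)) = (a : MvPolynomial (Fin 2) k) *
        sb α β a b c (X 0 * pderiv 0 (p * X 0)) + (b : MvPolynomial (Fin 2) k) *
        sb α β a b c (X 1 * pderiv 1 (p * X 0))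
      have hb := base1 c α a
      rw [← sb_X0 α β a b c] at hb
      simp only [map_mul, Derivation.leibniz, smul_eq_mul, pderiv_X_self, mul_one, map_add,
        pderiv_X_of_ne (show (0 : Fin 2) ≠ 1 by decide), mul_zero, zero_add] at hp ⊢
      linear_combination (sb α β a b c (X 0)) * hp + (sb α β a b c p) * hb
    · change (X 1 + C c) * pderiv 1 (sb α β a b c (p * X 1)) = (a : MvPolynomial (Fin 2) k) *
        sb α β a b c (X 0 * pderiv 0 (p * X 1)) + (b : MvPolynomial (Fin 2) k) *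
        sb α β a b c (X 1 * pderiv 1 (p * X 1))
      have hb := base1 c β b
      rw [← sb_X1 α β a b c] at hb
      simp only [map_mul, Derivation.leibniz, smul_eq_mul, pderiv_X_self, mul_one, map_add,
        pderiv_X_of_ne (show (1 : Fin 2) ≠ 0 by decide), mul_zero, zero_add] at hp ⊢
      linear_combination (sb α β a b c (X 1)) * hp + (sb α β a b c p) * hb

end poly

end DRecA

end LS
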