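import Pool.Agent.helper90.LU.Asm

/-!
# Project LUS (MP_53121e_ag): definitions

`HasNF k p n O g H`: there is an etale chart with `n` parameters at the center of the valuation
ring `O` of `F` on which all elements of `H` are monomials times units and on which `g` is a
`p`-th power plus (zero or) a monomial times a unit with an exponent prime to `p`.
-/

open MvPolynomial

namespace LS

open LU

universe u

section defs

variable (k : Type u) {F : Type u} [Field k] [Field F] [Algebra k F]

/-- `ρ` is a quotient of two polynomials in `z` which are units at `O` -/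
def ULoc (O : ValuationSubring F) {σ : Type} (z : σ → F) (ρ : F) : Prop :=
  ∃ N D : MvPolynomial σ k, O.valuation (aeval z N) = 1 ∧ O.valuation (aeval z D) = 1 ∧
    ρ = aeval z N / aeval z D

/-- etale chart with parameters `u` and etale coordinates `w` at the center of `O` -/
structure Chart (O : ValuationSubring F) {n : ℕ} (u : Fin n → F) (w : Fin 2 → F)
    (Φ : Fin 2 → MvPolynomial (Fin n ⊕ Fin 2) k) : Prop where
  u0 : ∀ i, u i ≠ 0
  uO : ∀ i, u i ∈ O
  wO : ∀ l, w l ∈ O
  rel : ∀ l, aeval (Sum.elim u w) (Φ l) = 0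
  jac : O.valuation (Matrix.det (Matrix.of fun l l' : Fin 2 =>
    aeval (Sum.elim u w) (pderiv (Sum.inr l') (Φ l)))) = 1
  gen : IntermediateField.adjoin k (Set.range u ∪ Set.range w) = ⊤

/-- `B` is a monomial times a unit, with an exponent prime to the characteristic (the unit being
`1` if the corresponding parameter is a unit at `O`) -/
def NForm (O : ValuationSubring F) {n : ℕ} (u : Fin n → F) (w : Fin 2 → F) (B : F) : Prop :=
  ∃ (e : Fin n → ℤ) (ρ : F), B = mon u e * ρ ∧ ULoc k O (Sum.elim u w) ρ ∧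
    ∃ i, (e i : k) ≠ 0 ∧ ((u i)⁻¹ ∉ O ∨ ρ = 1)

/-- normal form of `g`, all elements of `H` being monomial -/
def HasNF (p n : ℕ) (O : ValuationSubring F) (g : F) (H : Finset F) : Prop :=
  ∃ (u : Fin n → F) (w : Fin 2 → F) (Φ : Fin 2 → MvPolynomial (Fin n ⊕ Fin 2) k),
    Chart k O u w Φ ∧
    (∀ h ∈ H, h ≠ 0 → ∃ (e : Fin n → ℤ) (ρ : F), h = mon u e * ρ ∧
      ULoc k O (Sum.elim u w) ρ) ∧
    ∃ A B : F, g = A ^ p + B ∧ (B = 0 ∨ NForm k O u w B)

/-- a stage: polynomial coordinates `(u, v)` of `F`, both in the maximal ideal of `O` -/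
structure Stg (O : ValuationSubring F) (u v : F) : Prop where
  gen : IntermediateField.adjoin k {u, v} = ⊤
  u0 : u ≠ 0
  v0 : v ≠ 0
  hu : O.valuation u < 1
  hv : O.valuation v < 1

/-- the values of `u` and `v` are rationally independent -/
def Indep (O : ValuationSubring F) (u v : F) : Prop :=
  ∀ m n : ℤ, O.valuation u ^ m * O.valuation v ^ n = 1 → m = 0 ∧ n = 0

end defs

section face

variable {k : Type u} [Field k]

/-- the substitution `X 0 ↦ X 0 ^ α * (X 1 + c) ^ a`, `X 1 ↦ X 0 ^ β * (X 1 + c) ^ b` -/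
noncomputable def sb (α β a b : ℕ) (c : k) :
    MvPolynomial (Fin 2) k →ₐ[k] MvPolynomial (Fin 2) k :=
  aeval ![X 0 ^ α * (X 1 + C c) ^ a, X 0 ^ β * (X 1 + C c) ^ b]

/-- least first coordinate -/
noncomputable def lo (S : Finset (Fin 2 →₀ ℕ)) : ℕ := sInf {i | ∃ m ∈ S, m 0 = i}

/-- least second coordinate among the points with least first coordinate -/
noncomputable def nu (S : Finset (Fin 2 →₀ ℕ)) : ℕ := sInf {j | ∃ m ∈ S, m 0 = lo S ∧ m 1 = j}

/-- union of the supports of `X 0 * ∂_0 g` and of `∂_1 g` -/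
noncomputable def SD (g : MvPolynomial (Fin 2) k) : Finset (Fin 2 →₀ ℕ) := by
  classical exact (X 0 * pderiv 0 g).support ∪ (pderiv 1 g).support

end face

end LS
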