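import Pool.Agent.helper90.LS.Defs

/-! # Project LUS: steps -/

open MvPolynomial

namespace LS

open LU

universe u

variable (k : Type u) {F : Type u} [Field k] [Field F] [Algebra k F]

/-- `x` is a quotient of two polynomials in `z`, the denominator being a unit at `O` -/
def LLoc (O : ValuationSubring F) {σ : Type} (z : σ → F) (x : F) : Prop :=
  ∃ N D : MvPolynomial σ k, O.valuation (aeval z D) = 1 ∧ x = aeval z N / aeval z D

/-- coordinates `(U, θ)` of `F` such that the center of `O` is the generic point of `U = 0` -/
structure Tr (O : ValuationSubring F) (U θ : F) : Prop where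
  gen : IntermediateField.adjoin k {U, θ} = ⊤
  U0 : U ≠ 0
  hU : O.valuation U < 1
  hθ : ∀ q : Polynomial k, q ≠ 0 → O.valuation (Polynomial.aeval θ q) = 1

/-- one step of the process, from the stage `(u, v)` to the stage `(U, W)` -/
structure StepTo (O : ValuationSubring F) (u v U W : F) (α β a b : ℕ) (c : k) : Prop where
  hα : 0 < α
  hβ : 0 < β
  hab : α * b = β * a + 1
  one : α = 1 → a = 0 ∧ b = 1
  hc : c ≠ 0
  hu : u = U ^ α * (W + algebraMap k F c) ^ a
  hv : v = U ^ β * (W + algebraMap k F c) ^ b
  stg : Stg k O U W

end LS
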