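import Pool.Agent.helper90.LS.HDat
import Pool.Agent.helper90.LG.GDer

open IsLocalRing

namespace LS

open LU

universe u

lemma snd_hom_sum {k κ : Type*} [Field k] [Field κ] {σ : Type*} [Fintype σ]
    (g : MvPolynomial σ k →+* DualNumber κ)
    (hg : ∀ c, (g (MvPolynomial.C c)).snd = 0) (q : MvPolynomial σ k) :
    (g q).snd = ∑ i, (g (MvPolynomial.X i)).snd * (g (MvPolynomial.pderiv i q)).fst := by
  classical
  induction q using MvPolynomial.induction_on with
  | C c => simp [hg]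
  | add p q hp hq =>
    simp only [map_add, TrivSqZeroExt.snd_add, TrivSqZeroExt.fst_add, hp, hq, mul_add,
      Finset.sum_add_distrib]
  | mul_X p j hp =>
    have h1 : ∀ i, (g (MvPolynomial.pderiv i (p * MvPolynomial.X j))).fst =
        (g (MvPolynomial.pderiv i p)).fst * (g (MvPolynomial.X j)).fst +
          (if i = j then (g p).fst else 0) := by
      intro i
      rw [Derivation.leibniz, MvPolynomial.pderiv_X]
      simp only [smul_eq_mul, map_add, map_mul, TrivSqZeroExt.fst_add, TrivSqZeroExt.fst_mul]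
      by_cases h : i = j
      · subst h
        simp
        ring
      · rw [if_neg h, Pi.single_eq_of_ne (Ne.symm h)]
        simp
        ring
    simp only [h1, mul_add, Finset.sum_add_distrib, ← mul_assoc]
    rw [← Finset.sum_mul, ← hp, map_mul, TrivSqZeroExt.snd_mul]
    simp only [mul_ite, mul_zero, Finset.sum_ite_eq', Finset.mem_univ, if_true, smul_eq_mul,
      MulOpposite.smul_eq_mul_unop, MulOpposite.unop_op]
    ring

namespace HDat

variable {k K : Type u} [Field k] [Field K] [Algebra k K] {V : ValuationSubring K}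
  {ι X W J T : Type} [Fintype ι] [DecidableEq ι] [Fintype X] [DecidableEq X] [Fintype W]
    [DecidableEq W] [Fintype J] [Fintype T] (d : HDat (k := k) V ι X W J T)
    (hV : ∀ c : k, algebraMap k K c ∈ V)
  {C D : Matrix (ι ⊕ X) (ι ⊕ X) ℤ} (hst : IsSt V d.c C D)

noncomputable abbrev ps (v : (ι ⊕ X) ⊕ W → ResidueField V) :
    d.SD hV hst →+* DualNumber (ResidueField V) :=
  psi V hV (d.zz D) (d.zz_mem hst) v

noncomputable def rz (y : (ι ⊕ X) ⊕ W) : ResidueField V := residue V ⟨d.zz D y, d.zz_mem hst y⟩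

lemma fst_ps (v : (ι ⊕ X) ⊕ W → ResidueField V) (s : d.SD hV hst) :
    (d.ps hV hst v s).fst = residue V (evS V hV (d.zz D) (d.zz_mem hst) s) := fst_psi _ _ _ _ _ _

lemma evS_X (y : (ι ⊕ X) ⊕ W) : evS V hV (d.zz D) (d.zz_mem hst)
    (d.st hV hst (MvPolynomial.X y)) = ⟨d.zz D y, d.zz_mem hst y⟩ := by
  rw [evS_algebraMap]
  apply Subtype.ext
  rw [coe_evV, MvPolynomial.aeval_X]

lemma LD_Z (v : (ι ⊕ X) ⊕ W → ResidueField V) (ρ : ι ⊕ X → ResidueField V)
    (hρ : ∀ l, v (Sum.inl l) = ρ l * d.rz hst (Sum.inl l)) (l) :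
    LD (d.ps hV hst v) (d.Z hV hst l) (ρ l) := by
  unfold LD
  rw [fst_ps, Z, evS_X, snd_psi_X]
  exact hρ l

lemma LD_MS (v : (ι ⊕ X) ⊕ W → ResidueField V) (ρ : ι ⊕ X → ResidueField V)
    (hρ : ∀ l, v (Sum.inl l) = ρ l * d.rz hst (Sum.inl l))
    {a : ι ⊕ X → ℤ} (h : Good V d.c C D a) :
    LD (d.ps hV hst v) (d.MS hV hst a) (∑ l, ((Matrix.vecMul a C) l : ResidueField V) * ρ l) :=
  LD.monS (d.LD_Z hV hst v ρ hρ) (d.good_unit hV hst h)

lemma st_Ct (y) : d.st hV hst (Ct C y) = monS (d.Z hV hst) (C y) := by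
  rw [Ct, map_prod, monS]
  refine Finset.prod_congr rfl fun l _ => ?_
  rw [map_pow, zp, if_pos (hst.nonneg y l)]
  rfl

lemma LD_Ct (v : (ι ⊕ X) ⊕ W → ResidueField V) (ρ : ι ⊕ X → ResidueField V)
    (hρ : ∀ l, v (Sum.inl l) = ρ l * d.rz hst (Sum.inl l)) (y) :
    LD (d.ps hV hst v) (d.st hV hst (Ct C y)) (∑ l, (C y l : ResidueField V) * ρ l) := by
  rw [st_Ct]
  exact LD.monS (d.LD_Z hV hst v ρ hρ) (fun l => Or.inl (hst.nonneg y l))

/-- residue of a polynomial at the chart -/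
noncomputable def rg (q : MvPolynomial (ι ⊕ W) k) : ResidueField V :=
  residue V ⟨MvPolynomial.aeval (Sum.elim d.u d.w) q, d.ev_mem hV q⟩

lemma evS_gp (q : MvPolynomial (ι ⊕ W) k) :
    evS V hV (d.zz D) (d.zz_mem hst) (d.st hV hst (gp C q)) =
      ⟨MvPolynomial.aeval (Sum.elim d.u d.w) q, d.ev_mem hV q⟩ := by
  rw [evS_algebraMap]
  apply Subtype.ext
  rw [coe_evV, d.aeval_gp hV hst]

/-- derivative of a polynomial at the chart -/
lemma snd_gp (v : (ι ⊕ X) ⊕ W → ResidueField V) (q : MvPolynomial (ι ⊕ W) k) :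
    (d.ps hV hst v (d.st hV hst (gp C q))).snd =
      ∑ i, (d.ps hV hst v (d.st hV hst (Ct C (Sum.inl i)))).snd *
          d.rg hV (MvPolynomial.pderiv (Sum.inl i) q) +
        ∑ l, v (Sum.inr l) * d.rg hV (MvPolynomial.pderiv (Sum.inr l) q) := by
  have := snd_hom_sum (((d.ps hV hst v).comp (d.st hV hst)).comp
    (MvPolynomial.aeval (cw C) : MvPolynomial (ι ⊕ W) k →ₐ[k]
      MvPolynomial ((ι ⊕ X) ⊕ W) k).toRingHom)
    (by
      intro c
      have := snd_psi_C V hV (d.zz D) (d.zz_mem hst) v c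
      simpa using this) q
  simp only [RingHom.coe_comp, Function.comp_apply, AlgHom.toRingHom_eq_coe, RingHom.coe_coe,
    MvPolynomial.aeval_X] at this
  change (d.ps hV hst v (d.st hV hst (gp C q))).snd = _ at this
  rw [this, Fintype.sum_sum_type]
  have h : ∀ q', (d.ps hV hst v (d.st hV hst (MvPolynomial.aeval (cw C) q'))).fst =
      d.rg hV q' := by
    intro q'
    change (d.ps hV hst v (d.st hV hst (gp C q'))).fst = _
    rw [fst_ps, evS_gp]
    rfl
  simp only [h]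
  congr 1
  refine Finset.sum_congr rfl fun l _ => ?_
  congr 1
  exact snd_psi_X V hV (d.zz D) (d.zz_mem hst) v (Sum.inr l)

include hV in
lemma dl_mem (i : ι) (l : W) : dl d.u d.w d.Φ d.G i l ∈ V :=
  neg_mem (mul_mem (d.huV i) (sum_mem fun m _ => mul_mem (d.hGV l m) (d.ev_mem hV _)))

include hV in
lemma ddw_mem (i : ι) (q : MvPolynomial (ι ⊕ W) k) :
    ddw d.u d.w i (dl d.u d.w d.Φ d.G i) q ∈ V :=
  add_mem (mul_mem (d.huV i) (d.ev_mem hV _))
    (sum_mem fun l _ => mul_mem (d.dl_mem hV i l) (d.ev_mem hV _))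

/-- the coordinates `w` of the tangent vectors -/
noncomputable def vw (y : ι ⊕ X) (l : W) : ResidueField V :=
  Sum.elim (fun i => residue V ⟨dl d.u d.w d.Φ d.G i l, d.dl_mem hV i l⟩) (fun _ => 0) y

/-- the tangent vector in the logarithmic direction `y` of the frame, tangent to the chart -/
noncomputable def vL (y : ι ⊕ X) : (ι ⊕ X) ⊕ W → ResidueField V :=
  Sum.elim (fun l => ((D l y : ℤ) : ResidueField V) * d.rz hst (Sum.inl l)) (d.vw hV y)

lemma snd_Ct_L (y : ι ⊕ X) (i : ι) :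
    (d.ps hV hst (d.vL hV hst y) (d.st hV hst (Ct C (Sum.inl i)))).snd =
      if y = Sum.inl i then residue V ⟨d.u i, d.huV i⟩ else 0 := by
  have := d.LD_Ct hV hst (d.vL hV hst y) (fun l => ((D l y : ℤ) : ResidueField V))
    (fun l => rfl) (Sum.inl i)
  unfold LD at this
  rw [this]
  have e1 : ∑ l, (C (Sum.inl i) l : ResidueField V) * ((D l y : ℤ) : ResidueField V) =
      (((C * D) (Sum.inl i) y : ℤ) : ResidueField V) := by
    rw [Matrix.mul_apply]
    push_cast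
    rfl
  rw [e1, hst.CD]
  by_cases hi : y = Sum.inl i
  · subst hi
    have e2 : (d.ps hV hst (d.vL hV hst (Sum.inl i)) (d.st hV hst (Ct C (Sum.inl i)))).fst =
        residue V ⟨d.u i, d.huV i⟩ := by
      rw [fst_ps, evS_algebraMap]
      congr 1
      apply Subtype.ext
      rw [coe_evV, d.aeval_Ct hV hst]
      rfl
    rw [e2]
    simp
  · rw [if_neg hi, Matrix.one_apply_ne (Ne.symm hi)]
    simp

lemma snd_gp_inl (i : ι) (q : MvPolynomial (ι ⊕ W) k) :
    (d.ps hV hst (d.vL hV hst (Sum.inl i)) (d.st hV hst (gp C q))).snd =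
      residue V ⟨ddw d.u d.w i (dl d.u d.w d.Φ d.G i) q, d.ddw_mem hV i q⟩ := by
  rw [snd_gp]
  simp only [snd_Ct_L]
  have h1 : (⟨ddw d.u d.w i (dl d.u d.w d.Φ d.G i) q, d.ddw_mem hV i q⟩ : V) =
      ⟨d.u i, d.huV i⟩ * ⟨MvPolynomial.aeval (Sum.elim d.u d.w)
        (MvPolynomial.pderiv (Sum.inl i) q), d.ev_mem hV _⟩ +
      ∑ l, (⟨dl d.u d.w d.Φ d.G i l, d.dl_mem hV i l⟩ : V) *
        ⟨MvPolynomial.aeval (Sum.elim d.u d.w) (MvPolynomial.pderiv (Sum.inr l) q),
          d.ev_mem hV _⟩ := by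
    apply Subtype.ext
    have : ((∑ l, (⟨dl d.u d.w d.Φ d.G i l, d.dl_mem hV i l⟩ : V) *
        ⟨MvPolynomial.aeval (Sum.elim d.u d.w) (MvPolynomial.pderiv (Sum.inr l) q),
          d.ev_mem hV _⟩ : V) : K) = ∑ l, dl d.u d.w d.Φ d.G i l *
        MvPolynomial.aeval (Sum.elim d.u d.w) (MvPolynomial.pderiv (Sum.inr l) q) := by
      change V.subtype _ = _
      rw [map_sum]
      rfl
    change _ = _ * _ + ((∑ l, (⟨dl d.u d.w d.Φ d.G i l, d.dl_mem hV i l⟩ : V) *
        ⟨MvPolynomial.aeval (Sum.elim d.u d.w) (MvPolynomial.pderiv (Sum.inr l) q),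
          d.ev_mem hV _⟩ : V) : K)
    rw [this]
    rfl
  rw [h1, map_add, map_mul, map_sum]
  congr 1
  · rw [Finset.sum_eq_single i]
    · rw [if_pos rfl]
      rfl
    · intro b _ hb
      rw [if_neg (by simpa using Ne.symm hb), zero_mul]
    · simp

lemma snd_gp_inr (x : X) (q : MvPolynomial (ι ⊕ W) k) :
    (d.ps hV hst (d.vL hV hst (Sum.inr x)) (d.st hV hst (gp C q))).snd = 0 := by
  rw [snd_gp]
  simp only [snd_Ct_L]
  have : ∀ l, d.vL hV hst (Sum.inr x) (Sum.inr l) = 0 := fun l => rfl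
  simp [this]

lemma ddw_Φ (i : ι) (l : W) : ddw d.u d.w i (dl d.u d.w d.Φ d.G i) (d.Φ l) = 0 := by
  unfold ddw dl
  simp only [neg_mul, Finset.sum_neg_distrib]
  have h1 : ∑ m, d.u i * (∑ m', d.G m m' * MvPolynomial.aeval (Sum.elim d.u d.w)
      (MvPolynomial.pderiv (Sum.inl i) (d.Φ m'))) * MvPolynomial.aeval (Sum.elim d.u d.w)
      (MvPolynomial.pderiv (Sum.inr m) (d.Φ l)) =
      d.u i * ∑ m', (∑ m, MvPolynomial.aeval (Sum.elim d.u d.w)
        (MvPolynomial.pderiv (Sum.inr m) (d.Φ l)) * d.G m m') *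
        MvPolynomial.aeval (Sum.elim d.u d.w) (MvPolynomial.pderiv (Sum.inl i) (d.Φ m')) := by
    simp only [Finset.mul_sum, Finset.sum_mul]
    rw [Finset.sum_comm]
    refine Finset.sum_congr rfl fun m' _ => Finset.sum_congr rfl fun m _ => ?_
    ring
  rw [h1]
  simp only [d.hG1, ite_mul, one_mul, zero_mul, Finset.sum_ite_eq, Finset.mem_univ, if_true]
  ring

lemma psL_FA (y : ι ⊕ X) (l : W) :
    (d.ps hV hst (d.vL hV hst y) (d.FA hV hst l)).snd = 0 := by
  rcases y with i | x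
  · rw [FA, snd_gp_inl]
    have : (⟨ddw d.u d.w i (dl d.u d.w d.Φ d.G i) (d.Φ l), d.ddw_mem hV i _⟩ : V) = 0 :=
      Subtype.ext (d.ddw_Φ i l)
    rw [this, map_zero]
  · rw [FA, snd_gp_inr]

lemma rg_ne (q : MvPolynomial (ι ⊕ W) k)
    (h0 : MvPolynomial.aeval (Sum.elim d.u d.w) q ≠ 0)
    (h1 : (MvPolynomial.aeval (Sum.elim d.u d.w) q)⁻¹ ∈ V) : d.rg hV q ≠ 0 := by
  rw [rg, Ne, residue_eq_zero_iff, mem_maximalIdeal, mem_nonunits_iff, not_not, isUnit_iff_inv]
  exact ⟨h0, h1⟩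

lemma residue_zero {x : K} (hx : x ∈ V) (h : V.valuation x < 1) : residue V ⟨x, hx⟩ = 0 := by
  rw [residue_eq_zero_iff, mem_maximalIdeal, mem_nonunits_iff, isUnit_iff_inv]
  rintro ⟨h0, h1⟩
  have h2 := (V.valuation_le_one_iff _).2 h1
  rw [map_inv₀] at h2
  have h3 : V.valuation x ≠ 0 := by simpa using h0
  have h4 : (1 : V.ValueGroup) ≤ V.valuation x := by
    have := (inv_le_one₀ (zero_lt_iff.2 h3)).1 h2
    exact this
  exact absurd h (not_lt.2 h4)

lemma LD_GG (j j' : J) (t : T) (hrk : d.rk j' ≤ d.rk j) (ha : d.a j' t ≠ 0) :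
    LD (d.ps hV hst (d.vL hV hst (d.s j))) (d.GG hV hst j' t) 0 := by
  rcases hs : d.s j with i | x
  · set ψ := d.ps hV hst (d.vL hV hst (Sum.inl i)) with hψ
    have hu := d.unit_D hV hst j' t
    have h1 : d.GG hV hst j' t * d.st hV hst (gp C (d.D j' t)) = d.st hV hst (gp C (d.N j' t)) := by
      rw [GG, mul_assoc, Ring.inverse_mul_cancel _ hu, mul_one]
    have h2 := congrArg (fun s => ψ s) h1
    simp only [map_mul] at h2
    have hN : (ψ (d.st hV hst (gp C (d.N j' t)))).snd =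
      residue V ⟨ddw d.u d.w i (dl d.u d.w d.Φ d.G i) (d.N j' t), d.ddw_mem hV i _⟩ :=
      d.snd_gp_inl hV hst i _
    have hD : (ψ (d.st hV hst (gp C (d.D j' t)))).snd =
      residue V ⟨ddw d.u d.w i (dl d.u d.w d.Φ d.G i) (d.D j' t), d.ddw_mem hV i _⟩ :=
      d.snd_gp_inl hV hst i _
    have hN1 : (ψ (d.st hV hst (gp C (d.N j' t)))).fst = d.rg hV (d.N j' t) := by
      rw [hψ, fst_ps, evS_gp]; rfl
    have hD1 : (ψ (d.st hV hst (gp C (d.D j' t)))).fst = d.rg hV (d.D j' t) := by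
      rw [hψ, fst_ps, evS_gp]; rfl
    have h3 := congrArg TrivSqZeroExt.fst h2
    have h4 := congrArg TrivSqZeroExt.snd h2
    rw [TrivSqZeroExt.fst_mul, hN1, hD1] at h3
    rw [TrivSqZeroExt.snd_mul, hN, hD, hD1] at h4
    simp only [smul_eq_mul, MulOpposite.smul_eq_mul_unop, MulOpposite.unop_op] at h4
    have h5 := residue_zero (V := V) (sub_mem (mul_mem (d.ddw_mem hV i (d.N j' t))
      (d.ev_mem hV (d.D j' t))) (mul_mem (d.ev_mem hV (d.N j' t)) (d.ddw_mem hV i (d.D j' t))))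
      (d.hdir j j' t i hrk ha hs)
    have h6 : residue V ⟨ddw d.u d.w i (dl d.u d.w d.Φ d.G i) (d.N j' t), d.ddw_mem hV i _⟩ *
        d.rg hV (d.D j' t) - d.rg hV (d.N j' t) *
        residue V ⟨ddw d.u d.w i (dl d.u d.w d.Φ d.G i) (d.D j' t), d.ddw_mem hV i _⟩ = 0 := by
      rw [← h5, rg, rg, ← map_mul, ← map_mul, ← map_sub]
      rfl
    have hDne : d.rg hV (d.D j' t) ≠ 0 := d.rg_ne hV _ (d.hD0 j' t) (d.hDV j' t)
    unfold LD
    rw [zero_mul]
    rw [← h3, ← h4] at h6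
    have h7 : (ψ (d.GG hV hst j' t)).snd * (d.rg hV (d.D j' t) * d.rg hV (d.D j' t)) = 0 := by
      linear_combination h6
    exact (mul_eq_zero.1 h7).resolve_right (mul_ne_zero hDne hDne)
  · have hN : LD (d.ps hV hst (d.vL hV hst (Sum.inr x))) (d.st hV hst (gp C (d.N j' t))) 0 := by
      unfold LD
      rw [snd_gp_inr, zero_mul]
    have hD : LD (d.ps hV hst (d.vL hV hst (Sum.inr x))) (d.st hV hst (gp C (d.D j' t))) 0 := by
      unfold LD
      rw [snd_gp_inr, zero_mul]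
    have := hN.mul (hD.inv (d.unit_D hV hst j' t))
    simpa [GG] using this

lemma vecMul_sum (a : ι ⊕ X → ℤ) (y : ι ⊕ X) (hCD : C * D = 1) :
    ∑ l, ((Matrix.vecMul a C) l : ResidueField V) * ((D l y : ℤ) : ResidueField V) =
      ((a y : ℤ) : ResidueField V) := by
  have h1 : Matrix.vecMul (Matrix.vecMul a C) D = a := by
    rw [Matrix.vecMul_vecMul, hCD, Matrix.vecMul_one]
  have h2 := congrFun h1 y
  rw [← h2]
  simp only [Matrix.vecMul, dotProduct]
  push_cast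
  rfl

lemma LD_L (y : ι ⊕ X) {a : ι ⊕ X → ℤ} (h : Good V d.c C D a) :
    LD (d.ps hV hst (d.vL hV hst y)) (d.MS hV hst a) ((a y : ℤ) : ResidueField V) := by
  have := d.LD_MS hV hst (d.vL hV hst y)
    (fun l => ((D l y : ℤ) : ResidueField V)) (fun l => rfl) h
  rwa [vecMul_sum a _ hst.CD] at this

lemma snd_tm (hG : ∀ j t, Good V d.c C D (d.e' j t)) (j j' : J) (t : T)
    (hrk : d.rk j' ≤ d.rk j) :
    (d.ps hV hst (d.vL hV hst (d.s j)) (d.tm hV hst j' t)).snd =
      ((d.e j' t (d.s j) : ℤ) : ResidueField V) *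
        residue V (evS V hV (d.zz D) (d.zz_mem hst) (d.tm hV hst j' t)) := by
  by_cases ha : d.a j' t = 0
  · have : d.tm hV hst j' t = 0 := by rw [tm, ha, map_zero, map_zero, zero_mul]
    rw [this]
    simp
  · have g1 : LD (d.ps hV hst (d.vL hV hst (d.s j))) (d.st hV hst (MvPolynomial.C (d.a j' t))) 0 := by
      unfold LD
      rw [snd_psi_C]
      simp
    have g3 := d.LD_L hV hst (d.s j) (hG j' t)
    have g4 := g1.mul (g3.mul (d.LD_GG hV hst j j' t hrk ha))
    unfold LD at g4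
    change (d.ps hV hst (d.vL hV hst (d.s j)) (d.tm hV hst j' t)).snd = _ *
      (d.ps hV hst (d.vL hV hst (d.s j)) (d.tm hV hst j' t)).fst at g4
    rw [g4, fst_ps, zero_add, add_zero, e', if_neg ha]

/-- the derivative of a row is the residue of the weighted sum of its terms -/
lemma snd_FR (hG : ∀ j t, Good V d.c C D (d.e' j t)) (j j' : J) (hrk : d.rk j' ≤ d.rk j) (y : V)
    (hy : (y : K) = ∑ t, (d.e j' t (d.s j) : K) * (algebraMap k K (d.a j' t) *
      (mon d.c (d.e j' t) * (MvPolynomial.aeval (Sum.elim d.u d.w) (d.N j' t) /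
        MvPolynomial.aeval (Sum.elim d.u d.w) (d.D j' t))))) :
    (d.ps hV hst (d.vL hV hst (d.s j)) (d.FR hV hst j')).snd = residue V y := by
  rw [FR, map_sum, TrivSqZeroExt.snd_sum]
  rw [Finset.sum_congr rfl fun t _ => d.snd_tm hV hst hG j j' t hrk]
  have : y = ∑ t, ((d.e j' t (d.s j) : ℤ) : V) *
      evS V hV (d.zz D) (d.zz_mem hst) (d.tm hV hst j' t) := by
    apply Subtype.ext
    rw [hy]
    have e1 : ((∑ t, ((d.e j' t (d.s j) : ℤ) : V) *
      evS V hV (d.zz D) (d.zz_mem hst) (d.tm hV hst j' t) : V) : K) =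
      ∑ t, ((d.e j' t (d.s j) : ℤ) : K) * d.evK hV hst (d.tm hV hst j' t) := by
      change V.subtype _ = _
      rw [map_sum]
      refine Finset.sum_congr rfl fun t _ => ?_
      rw [map_mul, map_intCast]
      rfl
    rw [e1]
    refine Finset.sum_congr rfl fun t _ => ?_
    rw [d.evK_tm hV hst hG]
  rw [this, map_sum]
  refine Finset.sum_congr rfl fun t _ => ?_
  rw [map_mul, map_intCast]

/-- tangent vectors of the chart rows -/
noncomputable def vA (l : W) : (ι ⊕ X) ⊕ W → ResidueField V :=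
  Sum.elim 0 (fun m => residue V ⟨d.G m l, d.hGV m l⟩)

lemma snd_Ct_A (l : W) (y) :
    (d.ps hV hst (d.vA l) (d.st hV hst (Ct C y))).snd = 0 := by
  have := d.LD_Ct hV hst (d.vA l) 0 (by intro l; simp [vA]) y
  unfold LD at this
  rw [this]
  simp

lemma psA_FA (l l' : W) :
    (d.ps hV hst (d.vA l) (d.FA hV hst l')).snd = if l' = l then 1 else 0 := by
  rw [FA, snd_gp]
  simp only [snd_Ct_A, zero_mul, Finset.sum_const_zero, zero_add]
  have h1 : ∀ m, d.vA l (Sum.inr m) = residue V ⟨d.G m l, d.hGV m l⟩ := fun m => rfl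
  simp only [h1, rg, ← map_mul]
  rw [← map_sum]
  have h2 : (∑ m, (⟨d.G m l, d.hGV m l⟩ : V) * ⟨MvPolynomial.aeval (Sum.elim d.u d.w)
      (MvPolynomial.pderiv (Sum.inr m) (d.Φ l')), d.ev_mem hV _⟩) = if l' = l then 1 else 0 := by
    apply Subtype.ext
    change V.subtype _ = _
    rw [map_sum]
    have h3 := d.hG1 l' l
    have h4 : ∀ m, V.subtype ((⟨d.G m l, d.hGV m l⟩ : V) * ⟨MvPolynomial.aeval (Sum.elim d.u d.w)
      (MvPolynomial.pderiv (Sum.inr m) (d.Φ l')), d.ev_mem hV _⟩) =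
      MvPolynomial.aeval (Sum.elim d.u d.w) (MvPolynomial.pderiv (Sum.inr m) (d.Φ l')) * d.G m l :=
      fun m => mul_comm _ _
    simp only [h4]
    rw [h3]
    split_ifs <;> rfl
  rw [h2]
  split_ifs <;> simp

end HDat

end LS
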