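import Pool.Agent.helper90.LS.HDer
import Pool.Agent.helper90.LS.Count
import Pool.Agent.helper90.LG.GMain

open IsLocalRing

namespace LS

open LU

universe u

namespace HDat

variable {k K : Type u} [Field k] [Field K] [Algebra k K] {V : ValuationSubring K}
  {ι X W J T : Type} [Fintype ι] [DecidableEq ι] [Fintype X] [DecidableEq X] [Fintype W]
    [DecidableEq W] [Fintype J] [Fintype T] (d : HDat (k := k) V ι X W J T)
    (hV : ∀ c : k, algebraMap k K c ∈ V)
  {C D : Matrix (ι ⊕ X) (ι ⊕ X) ℤ} (hst : IsSt V d.c C D)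

include hV hst in
lemma gen_zz
    (hgen : IntermediateField.adjoin k (Set.range d.u ∪ Set.range d.w ∪ Set.range d.x) = ⊤) :
    IntermediateField.adjoin k (Set.range (d.zz D)) = ⊤ := by
  set L := IntermediateField.adjoin k (Set.range (d.zz D)) with hL
  have hz : ∀ y, d.zz D y ∈ L := fun y => IntermediateField.subset_adjoin _ _ ⟨y, rfl⟩
  have hc : ∀ y, d.c y ∈ L := by
    intro y
    rw [← d.aeval_Ct hV hst y]
    exact LG.GDat.aeval_mem_field L hz _
  rw [eq_top_iff, ← hgen, IntermediateField.adjoin_le_iff]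
  rintro y ((⟨i, rfl⟩ | ⟨i, rfl⟩) | ⟨j, rfl⟩)
  · exact hc (Sum.inl i)
  · exact hz (Sum.inr i)
  · exact hc (Sum.inr j)

end HDat

/-- The assembly. -/
theorem uniformizable_of_hdat {k K : Type u} [Field k] [Field K] [Algebra k K]
    {V : ValuationSubring K} {ι X W J T : Type} [Fintype ι] [DecidableEq ι] [Fintype X]
    [DecidableEq X] [Fintype W] [DecidableEq W] [Fintype J] [Fintype T]
    (d : HDat (k := k) V ι X W J T)
    (hgen : IntermediateField.adjoin k (Set.range d.u ∪ Set.range d.w ∪ Set.range d.x) = ⊤)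
    (hV : ∀ c : k, algebraMap k K c ∈ V)
    (hcount : Algebra.trdeg k K + (Fintype.card J : Cardinal.{u}) =
      ((Fintype.card ι + Fintype.card X : ℕ) : Cardinal.{u})) :
    Uniformizable k V := by
  obtain ⟨C, D, hst, hG⟩ := d.exists_st
  refine crit_count V hV (d.zz D) (d.zz_mem hst) (d.gen_zz hV hst hgen) (J := W ⊕ J)
    (Sum.elim (fun _ => 0) (fun j => d.rk j + 1))
    (Sum.elim (d.FA hV hst) (d.FR hV hst))
    ?_ (Sum.elim d.vA (fun j => d.vL hV hst (d.s j))) ?_ ?_ ?_
  · rintro (i | j)
    · exact (d.evK_inj hV hst).1 (d.evK_FA hV hst i)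
    · exact (d.evK_inj hV hst).1 (d.evK_FR hV hst hG j)
  · rintro (i | j) (i' | j') hne hrk
    · change (d.ps hV hst (d.vA i) (d.FA hV hst i')).snd = 0
      rw [d.psA_FA, if_neg (by rintro rfl; exact hne rfl)]
    · simp at hrk
    · exact d.psL_FA hV hst _ i'
    · have h1 := d.snd_FR hV hst hG j j' (by simpa using hrk) 0 (by
        rw [ZeroMemClass.coe_zero]
        exact (d.hd0 j j' (by rintro rfl; exact hne rfl) (by simpa using hrk)).symm)
      rw [map_zero] at h1
      exact h1
  · rintro (i | j)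
    · change (d.ps hV hst (d.vA i) (d.FA hV hst i)).snd ≠ 0
      rw [d.psA_FA, if_pos rfl]
      exact one_ne_zero
    · have hmem : ∑ t, (d.e j t (d.s j) : K) * (algebraMap k K (d.a j t) *
          (mon d.c (d.e j t) * (MvPolynomial.aeval (Sum.elim d.u d.w) (d.N j t) /
        MvPolynomial.aeval (Sum.elim d.u d.w) (d.D j t)))) ∈ V := by
        refine sum_mem fun t _ => mul_mem (intCast_mem _ _) ?_
        have h1 := d.evK_tm hV hst hG j t
        rw [← h1]
        exact (evS V hV (d.zz D) (d.zz_mem hst) (d.tm hV hst j t)).2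
      have h1 := d.snd_FR hV hst hG j j le_rfl ⟨_, hmem⟩ rfl
      intro h
      change (d.ps hV hst (d.vL hV hst (d.s j)) (d.FR hV hst j)).snd = 0 at h
      rw [h] at h1
      have h2 := h1.symm
      rw [residue_eq_zero_iff, mem_maximalIdeal, mem_nonunits_iff, isUnit_iff_inv] at h2
      exact h2 (d.hd1 j)
  · simp only [Fintype.card_sum, Nat.cast_add] at hcount ⊢
    calc Algebra.trdeg k K + ((Fintype.card W : Cardinal.{u}) + (Fintype.card J : Cardinal.{u})) =
        (Algebra.trdeg k K + (Fintype.card J : Cardinal.{u})) + (Fintype.card W : Cardinal.{u}) := by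
          ring
      _ = _ := by rw [hcount]

end LS
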