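import Pool.Agent.helper90.LS.ABlocks
import Pool.Agent.helper90.LS.CurveNF
import Pool.Agent.helper90.LS.Drive
import Pool.Agent.helper90.LS.ACurve
import Pool.Agent.helper90.LS.ADrive
import Pool.Agent.helper90.LS.BSet

/-!
# Project LUS: the mixed theorem for finite sets
-/

namespace LS

open LU LT LP

universe u

variable {k K : Type u} [Field k] [Field K] [Algebra k K]

omit [Field K] in
/-- enumeration of a finite set -/
lemma enum_fin (T : Finset K) : ∃ (m : ℕ) (t : Fin m → K), (∀ s, t s ∈ T) ∧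
    Set.range t = (T : Set K) := by
  classical
  refine ⟨T.card, fun s => (T.equivFin.symm s : T), fun s => (T.equivFin.symm s).2, ?_⟩
  ext x
  constructor
  · rintro ⟨s, rfl⟩
    exact (T.equivFin.symm s).2
  · intro hx
    exact ⟨T.equivFin ⟨x, hx⟩, by simp⟩

theorem mix_set [IsAlgClosed k] (p : ℕ) [hp : Fact p.Prime] [CharP k p] {r : ℕ}
    (F : Fin r → IntermediateField k K)
    (hF : ∀ b, ((F b).FG ∧ Algebra.trdeg k (F b) = 1) ∨
      ((∃ x y : K, F b = IntermediateField.adjoin k {x, y}) ∧ Algebra.trdeg k (F b) = 2))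
    (g : ∀ b, F b) (I : Set (Fin r)) (Y T Z : Finset K)
    (hY : ∀ y ∈ Y, y ^ p ∈ Submodule.span k (insert 1 ((fun i => (g i : K)) '' I)))
    (hT : ∀ t ∈ T, t ^ p - t ∈ AddSubgroup.closure
      (Set.range (algebraMap k K) ∪ (fun i => (g i : K)) '' Iᶜ))
    (hZ : ∀ x ∈ Z, ∃ (m : ℕ) (h : ∀ i, F i), (m : k) ≠ 0 ∧ x ^ m = ∏ i, (h i : K))
    (hgen : (⨆ i, F i) ⊔ IntermediateField.adjoin k ((Y : Set K) ∪ T ∪ Z) = ⊤)
    (hn : Algebra.trdeg k K = ∑ b, Algebra.trdeg k (F b)) (V : ValuationSubring K)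
    (hV : ∀ c : k, algebraMap k K c ∈ V) : Uniformizable k V := by
  classical
  obtain ⟨L, ζ, m, h1, h2, h3, h4⟩ := enum_kummer F Z hZ
  obtain ⟨S, y, h5, h6⟩ := enum_fin Y
  obtain ⟨S', t, h7, h8⟩ := enum_fin T
  have hgen' : (⨆ i, F i) ⊔ IntermediateField.adjoin k
      (Set.range y ∪ Set.range t ∪ Set.range ζ) = ⊤ := by
    rw [← hgen, h6, h8]
    simp only [IntermediateField.adjoin_union, h4]
  have key : ∀ b, ∃ nb : ℕ, 0 < nb ∧ Algebra.trdeg k (F b) = (nb : Cardinal.{u}) ∧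
      (∀ (V : ValuationSubring K), (∀ c : k, algebraMap k K c ∈ V) →
        ∀ (g : F b) (H : Finset (F b)), HasNF k p nb (trc V (F b)) g H) ∧
      (∀ (V : ValuationSubring K), (∀ c : k, algebraMap k K c ∈ V) →
        ∀ (g : F b) (H : Finset (F b)), HasAS k p nb (trc V (F b)) g H) := by
    intro b
    rcases hF b with ⟨hfg, ht⟩ | ⟨⟨x, y, hxy⟩, ht⟩
    · refine ⟨1, one_pos, by rw [ht]; simp, fun V hV g H => ?_, fun V hV g H => ?_⟩
      · exact curve_nf p (O := trc V (F b)) (fun c => hV c)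
          (IntermediateField.essFiniteType_iff.2 hfg) ht g H
      · exact curve_as p (O := trc V (F b)) (fun c => hV c)
          (IntermediateField.essFiniteType_iff.2 hfg) ht g H
    · obtain ⟨x', y', hg'⟩ := gen_two hxy
      refine ⟨2, two_pos, by rw [ht]; simp, fun V hV g H => ?_, fun V hV g H => ?_⟩
      · exact surf_nf p (O := trc V (F b)) (fun c => hV c) ht hg' g H
      · exact surf_as p (O := trc V (F b)) (fun c => hV c) ht hg' g H
  choose nb hnb htr hNF hAS using key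
  exact mix_blocks p F nb hnb htr (fun i => i ∈ I) (fun b V _ hV g H => hNF b V hV g H)
    (fun b V _ hV g H => hAS b V hV g H) g y (fun s => hY _ (h5 s)) t (fun s => hT _ (h7 s))
    ζ m h1 h2 h3 hgen' (by rw [hn]; simp only [htr]; push_cast; rfl) V hV

end LS
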