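import Pool.Agent.helper90.LS.HMain

/-!
# Project LUS: additive rows and Kummer rows over a chart
-/

open IsLocalRing

namespace LS

open LU

universe u

lemma mon_elim {E : Type*} [Field E] {ι X : Type*} [Fintype ι] [Fintype X] (F : ι ⊕ X → E)
    (e : ι → ℤ) (f : X → ℤ) : mon F (Sum.elim e f) =
      mon (fun i => F (Sum.inl i)) e * mon (fun x => F (Sum.inr x)) f := by
  unfold mon
  rw [Fintype.prod_sum_type]
  simp only [Sum.elim_inl, Sum.elim_inr]

lemma mon_zero' {E : Type*} [Field E] {ι : Type*} [Fintype ι] (F : ι → E) : mon F 0 = 1 := by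
  simp [mon]

/-- charts of blocks inside `K`, additive rows `JA` and Kummer rows `JB` -/
structure SDat {k K : Type u} [Field k] [Field K] [Algebra k K] (V : ValuationSubring K) (p : ℕ)
    (ι W B JA JB : Type) [Fintype ι] [DecidableEq ι] [Fintype W] [DecidableEq W] [Fintype B]
    [Fintype JA] [DecidableEq JA] [Fintype JB] [DecidableEq JB] where
  u : ι → K
  w : W → K
  Φ : W → MvPolynomial (ι ⊕ W) k
  G : W → W → K
  e : B → ι → ℤ
  N : B → MvPolynomial (ι ⊕ W) k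
  D : B → MvPolynomial (ι ⊕ W) k
  η : JA → K
  a : JA → B → k
  π : JA → B
  pv : JA → ι
  ζ : JB → K
  m : JB → ℕ
  E : JB → ι → ℤ
  N2 : JB → MvPolynomial (ι ⊕ W) k
  D2 : JB → MvPolynomial (ι ⊕ W) k
  hu0 : ∀ i, u i ≠ 0
  huV : ∀ i, u i ∈ V
  hwV : ∀ l, w l ∈ V
  hΦ : ∀ l, MvPolynomial.aeval (Sum.elim u w) (Φ l) = 0
  hGV : ∀ l l', G l l' ∈ V
  hG1 : ∀ l l', ∑ m, MvPolynomial.aeval (Sum.elim u w) (MvPolynomial.pderiv (Sum.inr m) (Φ l)) *
    G m l' = if l = l' then 1 else 0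
  hη : ∀ j, η j ≠ 0
  hζ : ∀ l, ζ l ≠ 0
  hm : ∀ l, (m l : k) ≠ 0
  hN0 : ∀ b, MvPolynomial.aeval (Sum.elim u w) (N b) ≠ 0
  hNV : ∀ b, (MvPolynomial.aeval (Sum.elim u w) (N b))⁻¹ ∈ V
  hD0 : ∀ b, MvPolynomial.aeval (Sum.elim u w) (D b) ≠ 0
  hDV : ∀ b, (MvPolynomial.aeval (Sum.elim u w) (D b))⁻¹ ∈ V
  hN20 : ∀ b, MvPolynomial.aeval (Sum.elim u w) (N2 b) ≠ 0
  hN2V : ∀ b, (MvPolynomial.aeval (Sum.elim u w) (N2 b))⁻¹ ∈ V
  hD20 : ∀ b, MvPolynomial.aeval (Sum.elim u w) (D2 b) ≠ 0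
  hD2V : ∀ b, (MvPolynomial.aeval (Sum.elim u w) (D2 b))⁻¹ ∈ V
  relA : ∀ j, η j ^ p = ∑ b, algebraMap k K (a j b) * (mon u (e b) *
    (MvPolynomial.aeval (Sum.elim u w) (N b) / MvPolynomial.aeval (Sum.elim u w) (D b)))
  relB : ∀ l, ζ l ^ m l = mon u (E l) *
    (MvPolynomial.aeval (Sum.elim u w) (N2 l) / MvPolynomial.aeval (Sum.elim u w) (D2 l))
  ha1 : ∀ j, a j (π j) ≠ 0
  ha2 : ∀ j j', j' ≠ j → a j' (π j) = 0
  ha3 : ∀ j b, a j b ≠ 0 → V.valuation (mon u (e b)) ≤ V.valuation (mon u (e (π j)))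
  he1 : ∀ j, (e (π j) (pv j) : k) ≠ 0
  he2 : ∀ j b, b ≠ π j → e b (pv j) = 0
  hdir : ∀ j b, V.valuation (ddw u w (pv j) (dl u w Φ G (pv j)) (N b) *
      MvPolynomial.aeval (Sum.elim u w) (D b) -
      MvPolynomial.aeval (Sum.elim u w) (N b) * ddw u w (pv j) (dl u w Φ G (pv j)) (D b)) < 1

namespace SDat

variable {k K : Type u} [Field k] [Field K] [Algebra k K] {V : ValuationSubring K} {p : ℕ}
    {ι W B JA JB : Type} [Fintype ι] [DecidableEq ι] [Fintype W] [DecidableEq W] [Fintype B]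
    [Fintype JA] [DecidableEq JA] [Fintype JB] [DecidableEq JB]
    (r : SDat (k := k) V p ι W B JA JB)

/-- all roots -/
def rt : JA ⊕ JB → K := Sum.elim r.η r.ζ

lemma rt_ne (l) : r.rt l ≠ 0 := by
  rcases l with j | l
  · exact r.hη j
  · exact r.hζ l

noncomputable def sg (l : JA ⊕ JB) : ℤ := by
  classical exact if r.rt l ∈ V then 1 else -1

lemma sg_sq (l) : r.sg l * r.sg l = 1 := by
  unfold sg
  split_ifs <;> rfl

/-- frame elements -/
noncomputable def zf (l : JA ⊕ JB) : K := r.rt l ^ r.sg l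

lemma zf_ne (l) : r.zf l ≠ 0 := zpow_ne_zero _ (r.rt_ne l)

lemma zf_mem (l) : r.zf l ∈ V := by
  unfold zf sg
  split_ifs with h
  · simpa using h
  · rw [zpow_neg, zpow_one]
    exact (V.mem_or_inv_mem _).resolve_left h

lemma zf_pow (l) : r.zf l ^ r.sg l = r.rt l := by
  rw [zf, ← zpow_mul, sg_sq, zpow_one]

/-- coefficients -/
def ra : JA ⊕ JB → Bool ⊕ B → k
  | Sum.inl _, Sum.inl true => 1
  | Sum.inl _, Sum.inl false => 0
  | Sum.inl j, Sum.inr b => - r.a j b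
  | Sum.inr _, Sum.inl true => -1
  | Sum.inr _, Sum.inl false => 1
  | Sum.inr _, Sum.inr _ => 0

/-- exponents -/
noncomputable def re : JA ⊕ JB → Bool ⊕ B → (ι ⊕ (JA ⊕ JB) → ℤ)
  | Sum.inl j, Sum.inl true => Sum.elim (- r.e (r.π j)) (Pi.single (Sum.inl j) (r.sg (Sum.inl j) * p))
  | Sum.inl _, Sum.inl false => 0
  | Sum.inl j, Sum.inr b => Sum.elim (r.e b - r.e (r.π j)) 0
  | Sum.inr _, Sum.inl true => 0
  | Sum.inr l, Sum.inl false => Sum.elim (r.E l)
      (Pi.single (Sum.inr l) (r.sg (Sum.inr l) * (-(r.m l : ℤ))))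
  | Sum.inr _, Sum.inr _ => 0

noncomputable def rN : JA ⊕ JB → Bool ⊕ B → MvPolynomial (ι ⊕ W) k
  | Sum.inl _, Sum.inl _ => 1
  | Sum.inl _, Sum.inr b => r.N b
  | Sum.inr _, Sum.inl true => 1
  | Sum.inr l, Sum.inl false => r.N2 l
  | Sum.inr _, Sum.inr _ => 1

noncomputable def rD : JA ⊕ JB → Bool ⊕ B → MvPolynomial (ι ⊕ W) k
  | Sum.inl _, Sum.inl _ => 1
  | Sum.inl _, Sum.inr b => r.D b
  | Sum.inr _, Sum.inl true => 1
  | Sum.inr l, Sum.inl false => r.D2 l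
  | Sum.inr _, Sum.inr _ => 1

def rs : JA ⊕ JB → ι ⊕ (JA ⊕ JB)
  | Sum.inl j => Sum.inl (r.pv j)
  | Sum.inr l => Sum.inr (Sum.inr l)

/-- the unit of a block -/
noncomputable def ρ (b : B) : K :=
  MvPolynomial.aeval (Sum.elim r.u r.w) (r.N b) / MvPolynomial.aeval (Sum.elim r.u r.w) (r.D b)

noncomputable def ρ2 (l : JB) : K :=
  MvPolynomial.aeval (Sum.elim r.u r.w) (r.N2 l) / MvPolynomial.aeval (Sum.elim r.u r.w) (r.D2 l)

/-- the frame -/
noncomputable def fr : ι ⊕ (JA ⊕ JB) → K := Sum.elim r.u r.zf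

lemma fr_ne (y) : r.fr y ≠ 0 := by
  rcases y with i | l
  · exact r.hu0 i
  · exact r.zf_ne l

/-- a term -/
noncomputable def tr (j : JA ⊕ JB) (t : Bool ⊕ B) : K :=
  algebraMap k K (r.ra j t) * (mon (Sum.elim r.u r.zf) (r.re j t) *
    (MvPolynomial.aeval (Sum.elim r.u r.w) (r.rN j t) /
      MvPolynomial.aeval (Sum.elim r.u r.w) (r.rD j t)))

lemma mon_neg' {E : Type*} [Field E] {ι : Type*} [Fintype ι] (F : ι → E) (e : ι → ℤ) :
    mon F (-e) = (mon F e)⁻¹ := by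
  unfold mon
  rw [← Finset.prod_inv_distrib]
  exact Finset.prod_congr rfl fun i _ => by rw [Pi.neg_apply, zpow_neg]

lemma mon_A1 (j : JA) : mon (Sum.elim r.u r.zf) (r.re (Sum.inl j) (Sum.inl true)) =
    (mon r.u (r.e (r.π j)))⁻¹ * r.η j ^ p := by
  simp only [re]
  rw [mon_elim, mon_single]
  simp only [Sum.elim_inl, Sum.elim_inr]
  rw [mon_neg', zpow_mul, r.zf_pow, zpow_natCast]
  rfl

lemma mon_A2 (j : JA) (b : B) : mon (Sum.elim r.u r.zf) (r.re (Sum.inl j) (Sum.inr b)) =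
    (mon r.u (r.e (r.π j)))⁻¹ * mon r.u (r.e b) := by
  simp only [re]
  rw [mon_elim]
  simp only [Sum.elim_inl, Sum.elim_inr]
  rw [mon_zero', mul_one, mon_sub r.hu0, div_eq_mul_inv, mul_comm]

lemma mon_B (l : JB) : mon (Sum.elim r.u r.zf) (r.re (Sum.inr l) (Sum.inl false)) =
    mon r.u (r.E l) * (r.ζ l ^ r.m l)⁻¹ := by
  simp only [re]
  rw [mon_elim, mon_single]
  simp only [Sum.elim_inl, Sum.elim_inr]
  rw [zpow_mul, r.zf_pow, zpow_neg, zpow_natCast]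
  rfl

lemma tr_A1 (j : JA) : r.tr (Sum.inl j) (Sum.inl true) =
    (mon r.u (r.e (r.π j)))⁻¹ * r.η j ^ p := by
  rw [tr, r.mon_A1]
  simp [ra, rN, rD]

lemma tr_A0 (j : JA) : r.tr (Sum.inl j) (Sum.inl false) = 0 := by
  simp [tr, ra]

lemma tr_A2 (j : JA) (b : B) : r.tr (Sum.inl j) (Sum.inr b) =
    - ((mon r.u (r.e (r.π j)))⁻¹ * (algebraMap k K (r.a j b) * (mon r.u (r.e b) * r.ρ b))) := by
  rw [tr, r.mon_A2]
  simp only [ra, rN, rD, map_neg, ρ]
  ring

lemma sum_A (j : JA) : ∑ t, r.tr (Sum.inl j) t = 0 := by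
  rw [Fintype.sum_sum_type, Fintype.sum_bool, r.tr_A1, r.tr_A0]
  simp only [r.tr_A2]
  rw [Finset.sum_neg_distrib, ← Finset.mul_sum, add_zero, r.relA]
  exact add_neg_cancel _

lemma relB' (l : JB) : mon r.u (r.E l) * (r.ζ l ^ r.m l)⁻¹ * r.ρ2 l = 1 := by
  have h2 : r.ζ l ^ r.m l ≠ 0 := pow_ne_zero _ (r.hζ _)
  have h3 := r.relB l
  rw [mul_right_comm]
  have h4 : mon r.u (r.E l) * r.ρ2 l = r.ζ l ^ r.m l := h3.symm
  rw [h4, mul_inv_cancel₀ h2]

lemma tr_B0 (l : JB) : r.tr (Sum.inr l) (Sum.inl false) = 1 := by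
  rw [tr, r.mon_B]
  simp only [ra, rN, rD, map_one, one_mul]
  exact r.relB' l

lemma tr_B1 (l : JB) : r.tr (Sum.inr l) (Sum.inl true) = -1 := by
  rw [tr]
  simp [ra, re, rN, rD, mon_zero']

lemma tr_B2 (l : JB) (b : B) : r.tr (Sum.inr l) (Sum.inr b) = 0 := by
  simp [tr, ra]

lemma sum_B (l : JB) : ∑ t, r.tr (Sum.inr l) t = 0 := by
  rw [Fintype.sum_sum_type, Fintype.sum_bool, r.tr_B1, r.tr_B0]
  simp [r.tr_B2]

/-- weighted sums of an additive row in a pivot direction -/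
lemma wA (j j0 : JA) :
    ∑ t, (r.re (Sum.inl j) t (Sum.inl (r.pv j0)) : K) * r.tr (Sum.inl j) t =
      - ((r.e (r.π j0) (r.pv j0) : K) * ((mon r.u (r.e (r.π j)))⁻¹ *
        (algebraMap k K (r.a j (r.π j0)) * (mon r.u (r.e (r.π j0)) * r.ρ (r.π j0))))) := by
  have h0 := r.sum_A j
  rw [Fintype.sum_sum_type, Fintype.sum_bool, r.tr_A0, add_zero] at h0
  rw [Fintype.sum_sum_type, Fintype.sum_bool, r.tr_A0, mul_zero, add_zero]
  have e1 : (r.re (Sum.inl j) (Sum.inl true) (Sum.inl (r.pv j0)) : K) =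
      - (r.e (r.π j) (r.pv j0) : K) := by
    simp [re]
  have e2 : ∀ b, (r.re (Sum.inl j) (Sum.inr b) (Sum.inl (r.pv j0)) : K) =
      (r.e b (r.pv j0) : K) - (r.e (r.π j) (r.pv j0) : K) := by
    intro b
    simp [re]
  simp only [e1, e2, sub_mul, Finset.sum_sub_distrib]
  rw [← Finset.mul_sum]
  have h1 : ∑ b, (r.e b (r.pv j0) : K) * r.tr (Sum.inl j) (Sum.inr b) =
      (r.e (r.π j0) (r.pv j0) : K) * r.tr (Sum.inl j) (Sum.inr (r.π j0)) := by
    rw [Finset.sum_eq_single (r.π j0)]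
    · intro b _ hb
      rw [r.he2 j0 b hb, Int.cast_zero, zero_mul]
    · simp
  rw [h1, r.tr_A2]
  linear_combination (- (r.e (r.π j) (r.pv j0) : K)) * h0

lemma wAB (j : JA) (l : JB) :
    ∑ t, (r.re (Sum.inl j) t (Sum.inr (Sum.inr l)) : K) * r.tr (Sum.inl j) t = 0 := by
  refine Finset.sum_eq_zero fun t _ => ?_
  rcases t with (_ | _) | b
  · simp [re]
  · have : (Pi.single (Sum.inl j) (r.sg (Sum.inl j) * p) : JA ⊕ JB → ℤ) (Sum.inr l) = 0 :=
      Pi.single_eq_of_ne (by simp) _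
    simp [re]
  · simp [re]

lemma wBB (l l' : JB) :
    ∑ t, (r.re (Sum.inr l) t (Sum.inr (Sum.inr l')) : K) * r.tr (Sum.inr l) t =
      if l' = l then -((r.sg (Sum.inr l) : K) * (r.m l : K)) else 0 := by
  rw [Fintype.sum_sum_type, Fintype.sum_bool, r.tr_B0, r.tr_B1]
  simp only [r.tr_B2, mul_zero, Finset.sum_const_zero, add_zero]
  by_cases h : l' = l
  · subst h
    simp [re]
  · rw [if_neg h]
    have : (Pi.single (Sum.inr l) (r.sg (Sum.inr l) * (-(r.m l : ℤ))) : JA ⊕ JB → ℤ)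
        (Sum.inr l') = 0 := Pi.single_eq_of_ne (by simpa using h) _
    simp [re, h]

variable (hV : ∀ c : k, algebraMap k K c ∈ V)

include hV in
lemma ev_mem (q : MvPolynomial (ι ⊕ W) k) : MvPolynomial.aeval (Sum.elim r.u r.w) q ∈ V := by
  apply aeval_mem hV
  rintro (i | l)
  · exact r.huV i
  · exact r.hwV l

include hV in
lemma ρ_mem (b) : r.ρ b ∈ V := by
  rw [ρ, div_eq_mul_inv]
  exact mul_mem (r.ev_mem hV _) (r.hDV b)

include hV in
lemma ρ_inv (b) : r.ρ b ≠ 0 ∧ (r.ρ b)⁻¹ ∈ V := by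
  refine ⟨div_ne_zero (r.hN0 b) (r.hD0 b), ?_⟩
  rw [ρ, inv_div, div_eq_mul_inv]
  exact mul_mem (r.ev_mem hV _) (r.hNV b)

include hV in
lemma ρ2_inv (l) : (r.ρ2 l)⁻¹ ∈ V := by
  rw [ρ2, inv_div, div_eq_mul_inv]
  exact mul_mem (r.ev_mem hV _) (r.hN2V l)

lemma inv_mul_mem {x y : K} (hy : y ≠ 0) (h : V.valuation x ≤ V.valuation y) : y⁻¹ * x ∈ V := by
  rw [← V.valuation_le_one_iff, map_mul, map_inv₀, mul_comm]
  have : V.valuation y ≠ 0 := by simpa using hy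
  rw [← div_eq_mul_inv]
  exact div_le_one_of_le₀ h zero_le

include hV in
/-- the leading value of an additive row -/
lemma val_eta (j : JA) : V.valuation (r.η j ^ p) ≤ V.valuation (mon r.u (r.e (r.π j))) := by
  rw [r.relA j]
  apply Valuation.map_sum_le
  intro b _
  by_cases hb : r.a j b = 0
  · rw [hb, map_zero, zero_mul, map_zero]
    exact zero_le
  · rw [map_mul, map_mul]
    have h1 : V.valuation (algebraMap k K (r.a j b)) ≤ 1 := (V.valuation_le_one_iff _).2 (hV _)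
    have h2 : V.valuation (MvPolynomial.aeval (Sum.elim r.u r.w) (r.N b) /
        MvPolynomial.aeval (Sum.elim r.u r.w) (r.D b)) ≤ 1 :=
      (V.valuation_le_one_iff _).2 (r.ρ_mem hV b)
    calc _ ≤ 1 * (V.valuation (mon r.u (r.e b)) * 1) := by gcongr
      _ = V.valuation (mon r.u (r.e b)) := by rw [one_mul, mul_one]
      _ ≤ _ := r.ha3 j b hb

lemma ddw_one {ι W : Type} [Fintype ι] [Fintype W] (u : ι → K) (w : W → K) (i : ι) (d : W → K) :
    ddw (k := k) u w i d 1 = 0 := by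
  simp [ddw]

/-- the general system -/
noncomputable def toH : HDat (k := k) V ι (JA ⊕ JB) W (JA ⊕ JB) (Bool ⊕ B) where
  u := r.u
  w := r.w
  x := r.zf
  Φ := r.Φ
  G := r.G
  N := r.rN
  D := r.rD
  a := r.ra
  e := r.re
  s := r.rs
  rk := Sum.elim (fun _ => 0) (fun _ => 1)
  hu0 := r.hu0
  huV := r.huV
  hwV := r.hwV
  hx0 := r.zf_ne
  hxV := r.zf_mem
  hΦ := r.hΦ
  hGV := r.hGV
  hG1 := r.hG1
  hD0 := by
    rintro (j | l) ((_ | _) | b) <;> simp only [rD, map_one, ne_eq, one_ne_zero, not_false_eq_true]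
    · exact r.hD0 b
    · exact r.hD20 l
  hDV := by
    rintro (j | l) ((_ | _) | b) <;> simp only [rD, map_one, inv_one, one_mem]
    · exact r.hDV b
    · exact r.hD2V l
  hmon := by
    rintro (j | l) ((_ | _) | b) ha
    · exact absurd rfl ha
    · rw [r.mon_A1]
      exact inv_mul_mem (mon_ne_zero r.hu0 _) (r.val_eta hV j)
    · rw [r.mon_A2]
      have ha' : r.a j b ≠ 0 := by
        intro h
        apply ha
        simp [ra, h]
      exact inv_mul_mem (mon_ne_zero r.hu0 _) (r.ha3 j b ha')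
    · rw [r.mon_B]
      have h1 := r.relB' l
      have h2 : mon r.u (r.E l) * (r.ζ l ^ r.m l)⁻¹ = (r.ρ2 l)⁻¹ := eq_inv_of_mul_eq_one_left h1
      rw [h2]
      exact r.ρ2_inv hV l
    · simp [re, mon_zero', one_mem]
    · exact absurd rfl ha
  hrow := by
    rintro (j | l)
    · exact r.sum_A j
    · exact r.sum_B l
  hd1 := by
    rintro (j | l)
    · have h := r.wA j j
      change (∑ t, (r.re (Sum.inl j) t (Sum.inl (r.pv j)) : K) * r.tr (Sum.inl j) t ≠ 0) ∧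
        (∑ t, (r.re (Sum.inl j) t (Sum.inl (r.pv j)) : K) * r.tr (Sum.inl j) t)⁻¹ ∈ V
      have hmo : mon r.u (r.e (r.π j)) ≠ 0 := mon_ne_zero r.hu0 _
      have h2 : - ((r.e (r.π j) (r.pv j) : K) * ((mon r.u (r.e (r.π j)))⁻¹ *
        (algebraMap k K (r.a j (r.π j)) * (mon r.u (r.e (r.π j)) * r.ρ (r.π j))))) =
        algebraMap k K (- ((r.e (r.π j) (r.pv j) : k) * r.a j (r.π j))) * r.ρ (r.π j) := by
        rw [map_neg, map_mul, map_intCast]
        field_simp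
      rw [h, h2]
      have h3 : algebraMap k K (- ((r.e (r.π j) (r.pv j) : k) * r.a j (r.π j))) ≠ 0 :=
        (map_ne_zero (algebraMap k K)).2 (neg_ne_zero.2 (mul_ne_zero (r.he1 j) (r.ha1 j)))
      obtain ⟨h4, h5⟩ := r.ρ_inv hV (r.π j)
      refine ⟨mul_ne_zero h3 h4, ?_⟩
      rw [mul_inv, ← map_inv₀]
      exact mul_mem (hV _) h5
    · have h := r.wBB l l
      change (∑ t, (r.re (Sum.inr l) t (Sum.inr (Sum.inr l)) : K) * r.tr (Sum.inr l) t ≠ 0) ∧
        (∑ t, (r.re (Sum.inr l) t (Sum.inr (Sum.inr l)) : K) * r.tr (Sum.inr l) t)⁻¹ ∈ V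
      rw [h, if_pos rfl]
      have h2 : -((r.sg (Sum.inr l) : K) * (r.m l : K)) =
          algebraMap k K (-((r.sg (Sum.inr l) : k) * (r.m l : k))) := by
        simp
      rw [h2, ← map_inv₀]
      refine ⟨(map_ne_zero (algebraMap k K)).2 (neg_ne_zero.2 (mul_ne_zero ?_ (r.hm l))), hV _⟩
      have h3 := congrArg (fun n : ℤ => (n : k)) (r.sg_sq (Sum.inr l))
      simp only [Int.cast_mul, Int.cast_one] at h3
      exact left_ne_zero_of_mul_eq_one h3
  hd0 := by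
    rintro (j | l) (j' | l') hne hrk
    · refine (r.wA j' j).trans ?_
      rw [r.ha2 j j' (by rintro rfl; exact hne rfl)]
      simp
    · simp at hrk
    · exact r.wAB j' l
    · refine (r.wBB l' l).trans ?_
      rw [if_neg (by rintro rfl; exact hne rfl)]
  hdir := by
    rintro (j | l) (j' | l') ((_ | _) | b) i hrk ha hs
    all_goals first
      | (exfalso; simp at hrk; done)
      | (exfalso; simp [rs] at hs; done)
      | skip
    · simp only [rN, rD, ddw_one, zero_mul, mul_zero, sub_zero, map_zero]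
      exact zero_lt_one
    · simp only [rN, rD, ddw_one, zero_mul, mul_zero, sub_zero, map_zero]
      exact zero_lt_one
    · have h1 : r.pv j = i := by simpa [rs] using hs
      subst h1
      exact r.hdir j b

include hV in
theorem uniformizable (hcard : Algebra.trdeg k K = (Fintype.card ι : Cardinal.{u}))
    (hgen : IntermediateField.adjoin k
      (Set.range r.u ∪ Set.range r.w ∪ (Set.range r.η ∪ Set.range r.ζ)) = ⊤) :
    Uniformizable k V := by
  refine uniformizable_of_hdat (r.toH hV) ?_ hV ?_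
  · rw [eq_top_iff, ← hgen, IntermediateField.adjoin_le_iff]
    set M := IntermediateField.adjoin k (Set.range (r.toH hV).u ∪ Set.range (r.toH hV).w ∪
      Set.range (r.toH hV).x) with hM
    have hzf : ∀ l, r.rt l ∈ M := by
      intro l
      rw [← r.zf_pow l]
      have h1 : r.zf l ∈ M := IntermediateField.subset_adjoin _ _ (Or.inr ⟨l, rfl⟩)
      exact zpow_mem h1 _
    rintro _ ((⟨i, rfl⟩ | ⟨i, rfl⟩) | (⟨j, rfl⟩ | ⟨l, rfl⟩))
    · exact IntermediateField.subset_adjoin _ _ (Or.inl (Or.inl ⟨i, rfl⟩))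
    · exact IntermediateField.subset_adjoin _ _ (Or.inl (Or.inr ⟨i, rfl⟩))
    · exact hzf (Sum.inl j)
    · exact hzf (Sum.inr l)
  · rw [hcard]
    push_cast
    rfl

end SDat

end LS
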